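import Mathlib

/-! Bundle of small proof modules (one section per former module). -/

section

set_option autoImplicit false

/-! Definitions for the construction of finitely presented groups with (VRC) that are not large. -/

namespace VRC

/-- `SP X`: every perfect central extension of `X` is trivial (its projection is injective). -/
def SP (X : Type) [Group X] : Prop :=
  ∀ (E : Type) [Group E] (p : E →* X), Function.Surjective p →
    p.ker ≤ Subgroup.center E → commutator E = ⊤ → Function.Injective p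

/-- Every cyclic subgroup is a virtual retract (the form used in the frozen statement). -/
def IsVRC (G : Type) [Group G] : Prop :=
  ∀ g : G, ∃ K : Subgroup G, K.index ≠ 0 ∧ g ∈ K ∧
    ∃ ρ : K →* G, (∀ k : K, ρ k ∈ Subgroup.zpowers g) ∧ ∀ k : K, (k : G) = g → ρ k = g

/-- Some finite index subgroup is abelian. -/
def IsVAb (G : Type) [Group G] : Prop :=
  ∃ H : Subgroup G, H.index ≠ 0 ∧ ∀ a ∈ H, ∀ b ∈ H, a * b = b * a

/-- Some finite index subgroup maps onto the free group of rank two. -/
def IsLarge (G : Type) [Group G] : Prop :=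
  ∃ H : Subgroup G, H.index ≠ 0 ∧ ∃ φ : H →* FreeGroup (Fin 2), Function.Surjective φ

/-- The virtual first Betti number is infinite. -/
def InfVB1 (G : Type) [Group G] : Prop :=
  ∀ n : ℕ, ∃ H : Subgroup G, H.index ≠ 0 ∧
    ∃ φ : H →* Multiplicative (Fin n → ℤ), Function.Surjective φ

/-- Finitely presented, in the form used in the frozen statement. -/
def IsFP (G : Type) [Group G] : Prop :=
  ∃ (n : ℕ) (R : Finset (FreeGroup (Fin n))),
    Nonempty (G ≃* PresentedGroup (R : Set (FreeGroup (Fin n))))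

/-- every non trivial element is missed by a subgroup of finite index -/
def RF (X : Type) [Group X] : Prop :=
  ∀ g : X, g ≠ 1 → ∃ H : Subgroup X, H.index ≠ 0 ∧ g ∉ H

/-- every element of infinite order is detected by a homomorphism to the integers of a finite
index subgroup containing it -/
def VI (X : Type) [Group X] : Prop :=
  ∀ g : X, ¬ IsOfFinOrder g → ∃ (H : Subgroup X) (hg : g ∈ H), H.index ≠ 0 ∧
    ∃ φ : H →* Multiplicative ℤ, φ ⟨g, hg⟩ ≠ 1

/-- some normal abelian subgroup of finite index -/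
def VAN (X : Type) [Group X] : Prop :=
  ∃ N : Subgroup X, N.Normal ∧ N.index ≠ 0 ∧ ∀ a ∈ N, ∀ b ∈ N, a * b = b * a

/-- A tower of finite `G`-sets with cocycles with values in `X`: the output of the construction. -/
structure Tower (X G : Type) [Group X] [Group G] where
  Y : ℕ → Type
  fin : ∀ n, Finite (Y n)
  card : ∀ n, n ≤ Nat.card (Y n)
  q : G →* Multiplicative (Fin 3 → ℤ)
  act : ∀ n, G →* Equiv.Perm (Y n)
  ev : ∀ n, G → Y n → X
  ev_mul : ∀ n g h y, ev n (g * h) y = ev n g y * ev n h ((act n g)⁻¹ y)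
  act_ker : ∀ n g, q g = 1 → act n g = 1
  resid : ∀ g, q g = 1 → ∃ n, ∀ h ∈ Subgroup.zpowers g, ev n h = 1 → h = 1
  surj : ∀ n (f : Y n → X), ∃ g, q g = 1 ∧ ev n g = f

/-- functions constant on the classes of `r` -/
def Ms {Y X : Type} [Group X] (r : Setoid Y) : Subgroup (Y → X) where
  carrier := {f | ∀ y z, r y z → f y = f z}
  one_mem' := fun _ _ _ => rfl
  mul_mem' := fun {f g} hf hg y z h => by simp only [Pi.mul_apply]; rw [hf y z h, hg y z h]
  inv_mem' := fun {f} hf y z h => by simp only [Pi.inv_apply]; rw [hf y z h]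

/-- functions equal to `1` outside `U` -/
def Sp {Y X : Type} [Group X] (U : Set Y) : Subgroup (Y → X) where
  carrier := {f | ∀ y, y ∉ U → f y = 1}
  one_mem' := fun _ _ => rfl
  mul_mem' := fun {f g} hf hg y h => by simp only [Pi.mul_apply]; rw [hf y h, hg y h, one_mul]
  inv_mem' := fun {f} hf y h => by simp only [Pi.inv_apply]; rw [hf y h, inv_one]

end VRC

end

section

set_option autoImplicit false

/-! Statements of the lemmas (each proved in its own file). -/

namespace VRC

/-- finite powers of a perfect `SP` group are `SP` -/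
def S_SPpi : Prop :=
  ∀ (ι X : Type) [Finite ι] [Group X], commutator X = ⊤ → SP X → SP (ι → X)

/-- finite powers of a perfect group are perfect -/
def S_PerfPi : Prop :=
  ∀ (ι X : Type) [Finite ι] [Group X], commutator X = ⊤ → commutator (ι → X) = ⊤

/-- universal central extension of a finitely presented perfect group -/
def S_UCE : Prop :=
  ∀ (X : Type) [Group X], Group.IsFinitelyPresented X → commutator X = ⊤ →
    ∃ (E : Type) (_ : Group E) (p : E →* X), Group.IsFinitelyPresented E ∧ commutator E = ⊤ ∧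
      SP E ∧ Function.Surjective p ∧ p.ker ≤ Subgroup.center E

def S_FPprod : Prop :=
  ∀ (G H : Type) [Group G] [Group H], Group.IsFinitelyPresented G →
    Group.IsFinitelyPresented H → Group.IsFinitelyPresented (G × H)

def S_FPpi : Prop :=
  ∀ (ι G : Type) [Finite ι] [Group G], Group.IsFinitelyPresented G →
    Group.IsFinitelyPresented (ι → G)

def S_FPsemi : Prop :=
  ∀ (N H : Type) [Group N] [Group H] [Finite H] (φ : H →* MulAut N),
    Group.IsFinitelyPresented N → Group.IsFinitelyPresented (N ⋊[φ] H)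

def S_FPform : Prop :=
  ∀ (G : Type) [Group G], Group.IsFinitelyPresented G → IsFP G

/-- the free group of rank two has no non trivial abelian normal subgroup -/
def S_F2 : Prop :=
  ∀ N : Subgroup (FreeGroup (Fin 2)), N.Normal → (∀ a ∈ N, ∀ b ∈ N, a * b = b * a) → N = ⊥

/-- the free group of rank two is torsion free -/
def S_F2tf : Prop :=
  ∀ (a : FreeGroup (Fin 2)) (n : ℕ), 0 < n → a ^ n = 1 → a = 1

/-- consequences of a tower -/
def S_ConsVRC : Prop :=
  ∀ (X G : Type) [Group X] [Group G], Tower X G → VI X → RF X → IsVRC G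

def S_ConsNL : Prop :=
  ∀ (X G : Type) [Group X] [Group G], Tower X G → VAN X → ¬ IsLarge G

def S_ConsVB : Prop :=
  ∀ (X G : Type) [Group X] [Group G], Tower X G → VI X → (∃ g : X, ¬ IsOfFinOrder g) → InfVB1 G

def S_ConsNVA : Prop :=
  ∀ (X G : Type) [Group X] [Group G], Tower X G → (∃ a b : X, a * b ≠ b * a) → ¬ IsVAb G

def S_ConsTF : Prop :=
  ∀ (X G : Type) [Group X] [Group G], Tower X G → (∀ g : X, g ≠ 1 → ¬ IsOfFinOrder g) →
    ∀ g : G, g ≠ 1 → ¬ IsOfFinOrder g

/-- a finitely presented perfect group with an abelian torsion free normal subgroup of finite index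
generated by four elements any two of which are swapped by a conjugation -/
def Nice (X : Type) [Group X] : Prop :=
  Group.IsFinitelyPresented X ∧ commutator X = ⊤ ∧ RF X ∧ VI X ∧ (∃ g : X, ¬ IsOfFinOrder g) ∧
    ∃ (M : Subgroup X) (b : Fin 4 → X), M.Normal ∧ M.index ≠ 0 ∧
      (∀ x ∈ M, ∀ y ∈ M, x * y = y * x) ∧ (∀ x ∈ M, IsOfFinOrder x → x = 1) ∧
      Subgroup.closure (Set.range b) = M ∧
      ∀ i j, ∃ h : X, h * b i * h⁻¹ = b j ∧ h * b j * h⁻¹ = b i

def S_Nice : Prop := ∃ (X : Type) (_ : Group X), Nice X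

def S_Lift : Prop :=
  ∀ (X : Type) [Group X], Nice X → ∀ (E : Type) [Group E] (p : E →* X),
    Group.IsFinitelyPresented E → commutator E = ⊤ → Function.Surjective p →
    p.ker ≤ Subgroup.center E → VAN E ∧ RF E ∧ VI E ∧ ∃ g : E, ¬ IsOfFinOrder g

/-- generation of functions: `Ms (r ⊓ s)` on a set `U` saturated for both is generated by the
functions measurable for `r` and those measurable for `s` (perfect group of values) -/
def S_Gen : Prop :=
  ∀ (Y X : Type) [Finite Y] [Group X], commutator X = ⊤ → ∀ (r s : Setoid Y) (U : Set Y),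
    (∀ y z, r y z → (y ∈ U ↔ z ∈ U)) → (∀ y z, s y z → (y ∈ U ↔ z ∈ U)) →
    (Ms (r ⊓ s) ⊓ Sp U : Subgroup (Y → X)) ≤ (Ms r ⊓ Sp U) ⊔ (Ms s ⊓ Sp U)

/-- the abstract amalgamation theorem with five coordinates and four subgroups -/
def S_AT : Prop :=
  ∀ (Y K X : Type) [Finite Y] [Group K] [Group X], commutator X = ⊤ →
    ∀ (π : K →* (Y → X)) (r : Option (Fin 4) → Setoid Y)
      (A : Fin 4 → Subgroup K) (R : Fin 4 → Setoid Y)
      (B : Fin 4 → Fin 4 → Subgroup K) (RB : Fin 4 → Fin 4 → Setoid Y) (c : X →* K),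
    (∀ y : Option (Fin 4) → Y, ∃ z : Y, ∀ p, r p z (y p)) →
    (∀ v w, v ≠ w → B v w ≤ A v) → (∀ v w, v ≠ w → B v w ≤ A w) →
    (∀ v, ∀ a ∈ A v, π a = 1 → a = 1) →
    (∀ v, (A v).map π = Ms (R v)) →
    (∀ v w, v ≠ w → (B v w).map π = Ms (RB v w)) →
    (∀ v w z, v ≠ w → v ≠ z → w ≠ z → ∀ x y, RB v w x y → RB v z x y → R v x y) →
    (∀ v w p, v ≠ w → p ≠ some v → p ≠ some w → ∀ x y, RB v w x y → r p x y) →
    (∀ v p, p ≠ some v → ∀ x y, R v x y → r p x y) →
    (∀ v x y, (∀ p, p ≠ some v → r p x y) → R v x y) →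
    (∀ v g, c g ∈ A v) → (∀ g y, π (c g) y = g) →
    (∀ p : Option (Fin 4), (⨆ v : {v : Fin 4 // p ≠ some v}, A v.1) = ⊤) →
    π.ker ≤ Subgroup.center K

/-- the main construction -/
def S_Tower : Prop :=
  ∀ (X : Type) [Group X], Group.IsFinitelyPresented X → commutator X = ⊤ → SP X →
    ∃ (G : Type) (_ : Group G), Group.IsFinitelyPresented G ∧ Nonempty (Tower X G)

end VRC

end
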