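import Mathlib
import Pool.Agent.Work.MP_332575_al.Bd.B03

/-! Bundle of small proof modules (one section per former module). -/

section

set_option autoImplicit false

/-! A tower over a virtually abelian group gives a group that is not large. -/

namespace VRC

section
variable {X G : Type} [Group X] [Group G] (T : Tower X G)

theorem L_ConsNL_one (n : ℕ) (y : T.Y n) : T.ev n 1 y = 1 := by
  have h := T.ev_mul n 1 1 y
  rw [mul_one, map_one, inv_one, Equiv.Perm.one_apply] at h
  exact (left_eq_mul.mp h)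

theorem L_ConsNL_mul (n : ℕ) {k : G} (hk : T.q k = 1) (h : G) (y : T.Y n) :
    T.ev n (k * h) y = T.ev n k y * T.ev n h y := by
  rw [T.ev_mul n k h y, T.act_ker n k hk, inv_one, Equiv.Perm.one_apply]

theorem L_ConsNL_inv (n : ℕ) {k : G} (hk : T.q k = 1) (y : T.Y n) :
    T.ev n k⁻¹ y = (T.ev n k y)⁻¹ := by
  have h := L_ConsNL_mul T n hk k⁻¹ y
  rw [mul_inv_cancel, L_ConsNL_one] at h
  exact (inv_eq_of_mul_eq_one_right h.symm).symm

theorem L_ConsNL_pow (n : ℕ) {k : G} (hk : T.q k = 1) (m : ℕ) (y : T.Y n) :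
    T.ev n (k ^ m) y = (T.ev n k y) ^ m := by
  induction m with
  | zero => rw [pow_zero, pow_zero, L_ConsNL_one]
  | succ m ih => rw [pow_succ', pow_succ', L_ConsNL_mul T n hk, ih]

theorem L_ConsNL_conj (n : ℕ) (x : G) {g : G} (hg : T.q g = 1) (y : T.Y n) :
    T.ev n (x * g * x⁻¹) y =
      T.ev n x y * T.ev n g ((T.act n x)⁻¹ y) * (T.ev n x y)⁻¹ := by
  have h1 : T.ev n x⁻¹ ((T.act n x)⁻¹ y) = (T.ev n x y)⁻¹ := by
    have h := T.ev_mul n x x⁻¹ y
    rw [mul_inv_cancel, L_ConsNL_one] at h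
    exact (inv_eq_of_mul_eq_one_right h.symm).symm
  rw [mul_assoc, T.ev_mul n x (g * x⁻¹) y, L_ConsNL_mul T n hg, h1, mul_assoc]

theorem L_ConsNL_eq_one {g : G} (hg : T.q g = 1) (h : ∀ n y, T.ev n g y = 1) : g = 1 := by
  obtain ⟨n, hn⟩ := T.resid g hg
  exact hn g (Subgroup.mem_zpowers g) (funext fun y => h n y)

/-- the subgroup of the elements of the kernel whose values lie in `N` -/
def L_ConsNL_M (N : Subgroup X) : Subgroup G where
  carrier := {g | T.q g = 1 ∧ ∀ n y, T.ev n g y ∈ N}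
  one_mem' := ⟨map_one _, fun n y => by rw [L_ConsNL_one]; exact N.one_mem⟩
  mul_mem' := fun {a b} ha hb => ⟨by rw [map_mul, ha.1, hb.1, one_mul], fun n y => by
    rw [L_ConsNL_mul T n ha.1]; exact N.mul_mem (ha.2 n y) (hb.2 n y)⟩
  inv_mem' := fun {a} ha => ⟨by rw [map_inv, ha.1, inv_one], fun n y => by
    rw [L_ConsNL_inv T n ha.1]; exact N.inv_mem (ha.2 n y)⟩

theorem L_ConsNL_M_mem (N : Subgroup X) (g : G) :
    g ∈ L_ConsNL_M T N ↔ T.q g = 1 ∧ ∀ n y, T.ev n g y ∈ N := Iff.rfl

theorem L_ConsNL_M_normal (N : Subgroup X) (hN : N.Normal) : (L_ConsNL_M T N).Normal := by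
  refine ⟨fun g hg x => ?_⟩
  rw [L_ConsNL_M_mem] at hg ⊢
  refine ⟨by rw [map_mul, map_mul, hg.1, mul_one, map_inv, mul_inv_cancel], fun n y => ?_⟩
  rw [L_ConsNL_conj T n x hg.1]
  exact hN.conj_mem _ (hg.2 n _) _

theorem L_ConsNL_M_comm (N : Subgroup X) (hN : ∀ a ∈ N, ∀ b ∈ N, a * b = b * a) :
    ∀ a ∈ L_ConsNL_M T N, ∀ b ∈ L_ConsNL_M T N, a * b = b * a := by
  intro a ha b hb
  rw [L_ConsNL_M_mem] at ha hb
  have hai : T.q a⁻¹ = 1 := by rw [map_inv, ha.1, inv_one]
  have hbi : T.q b⁻¹ = 1 := by rw [map_inv, hb.1, inv_one]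
  have h1 : (a * (b * (a⁻¹ * b⁻¹))) = 1 := by
    refine L_ConsNL_eq_one T ?_ fun n y => ?_
    · rw [map_mul, map_mul, map_mul, ha.1, hb.1, hai, hbi]; simp
    · rw [L_ConsNL_mul T n ha.1, L_ConsNL_mul T n hb.1, L_ConsNL_mul T n hai,
        L_ConsNL_inv T n ha.1, L_ConsNL_inv T n hb.1, ← mul_assoc, ← mul_assoc,
        hN _ (ha.2 n y) _ (hb.2 n y)]
      group
  have h2 : a * b = (a * (b * (a⁻¹ * b⁻¹))) * (b * a) := by group
  rw [h2, h1, one_mul]

end

theorem prf_ConsNL (h1 : S_F2) (h2 : S_F2tf) : S_ConsNL := by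
  intro X G _ _ T hX hL
  obtain ⟨N, hN, hNi, hNc⟩ := hX
  obtain ⟨D, -, φ, hφ⟩ := hL
  have hM := L_ConsNL_M_normal T N hN
  have hMc := L_ConsNL_M_comm T N hNc
  -- the image of the part in `M` is trivial
  have hbot : ((L_ConsNL_M T N).subgroupOf D).map φ = ⊥ := by
    refine h1 _ ?_ ?_
    · exact Subgroup.Normal.map (hM.subgroupOf D) φ hφ
    · rintro _ ⟨a, ha, rfl⟩ _ ⟨b, hb, rfl⟩
      have ha' : (a : G) ∈ L_ConsNL_M T N := ha
      have hb' : (b : G) ∈ L_ConsNL_M T N := hb
      have hab : a * b = b * a := Subtype.ext (hMc _ ha' _ hb')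
      rw [← map_mul, ← map_mul, hab]
  -- hence the kernel of `q` dies
  have hker : ∀ k : D, T.q (k : G) = 1 → φ k = 1 := by
    intro k hk
    have hmem : k ^ N.index ∈ (L_ConsNL_M T N).subgroupOf D := by
      rw [Subgroup.mem_subgroupOf, L_ConsNL_M_mem]
      refine ⟨by rw [Subgroup.coe_pow, map_pow, hk, one_pow], fun n y => ?_⟩
      rw [Subgroup.coe_pow, L_ConsNL_pow T n hk]
      exact N.pow_index_mem _
    have h3 : φ (k ^ N.index) ∈ ((L_ConsNL_M T N).subgroupOf D).map φ :=
      Subgroup.mem_map_of_mem φ hmem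
    rw [hbot, Subgroup.mem_bot, map_pow] at h3
    exact h2 _ _ (Nat.pos_of_ne_zero hNi) h3
  have hcomm : ∀ x y : D, φ x * φ y = φ y * φ x := by
    intro x y
    have h4 : φ (x * y * x⁻¹ * y⁻¹) = 1 := by
      apply hker
      simp only [Subgroup.coe_mul, Subgroup.coe_inv, map_mul, map_inv]
      rw [mul_comm (T.q (x : G)) (T.q (y : G))]
      group
    have h5 : x * y = (x * y * x⁻¹ * y⁻¹) * (y * x) := by group
    rw [← map_mul, h5, map_mul, h4, one_mul, map_mul]
  have htop : (⊤ : Subgroup (FreeGroup (Fin 2))) = ⊥ := by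
    refine h1 ⊤ inferInstance ?_
    intro a _ b _
    obtain ⟨x, rfl⟩ := hφ a
    obtain ⟨y, rfl⟩ := hφ b
    exact hcomm x y
  have h6 : (FreeGroup.of (0 : Fin 2)) ∈ (⊥ : Subgroup (FreeGroup (Fin 2))) := by
    rw [← htop]; exact Subgroup.mem_top _
  exact FreeGroup.of_ne_one (0 : Fin 2) (Subgroup.mem_bot.mp h6)

end VRC

end

section

set_option autoImplicit false

/-! A group with a tower over a non abelian group is not virtually abelian. -/

namespace VRC

theorem L_ConsNVA_mul {X G : Type} [Group X] [Group G] (T : Tower X G) (n : ℕ) (g h : G)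
    (hg : T.q g = 1) (y : T.Y n) : T.ev n (g * h) y = T.ev n g y * T.ev n h y := by
  rw [T.ev_mul, T.act_ker n g hg]
  simp

theorem L_ConsNVA_one {X G : Type} [Group X] [Group G] (T : Tower X G) (n : ℕ) (y : T.Y n) :
    T.ev n 1 y = 1 := by
  have h := L_ConsNVA_mul T n 1 1 (map_one _) y
  rw [mul_one] at h
  exact left_eq_mul.1 h

theorem L_ConsNVA_inv {X G : Type} [Group X] [Group G] (T : Tower X G) (n : ℕ) (g : G)
    (hg : T.q g = 1) (y : T.Y n) : T.ev n g⁻¹ y = (T.ev n g y)⁻¹ := by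
  have h := L_ConsNVA_mul T n g g⁻¹ hg y
  rw [mul_inv_cancel, L_ConsNVA_one] at h
  exact (inv_eq_of_mul_eq_one_right h.symm).symm

theorem prf_ConsNVA : S_ConsNVA := by
  classical
  rintro X G _ _ T ⟨a, b, hab⟩ ⟨B, hB, hc⟩
  apply hab
  have hf : Finite (G ⧸ B) := Nat.finite_of_card_ne_zero hB
  set j := Nat.card (G ⧸ B) with hj
  set n := j * j + 1 with hn
  have hfY := T.fin n
  have hcard := T.card n
  choose x hx1 hx2 using fun y : T.Y n => T.surj n (Pi.mulSingle y a)
  choose z hz1 hz2 using fun y : T.Y n => T.surj n (Pi.mulSingle y b)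
  have hni : ¬ Function.Injective fun y : T.Y n => ((x y : G ⧸ B), (z y : G ⧸ B)) := by
    intro hi
    have h1 := Nat.card_le_card_of_injective _ hi
    rw [Nat.card_prod, ← hj] at h1
    omega
  rw [Function.not_injective_iff] at hni
  obtain ⟨y, y', he, hne⟩ := hni
  obtain ⟨e1, e2⟩ := Prod.mk.inj he
  have hu : (x y)⁻¹ * x y' ∈ B := QuotientGroup.eq.1 e1
  have hw : (z y)⁻¹ * z y' ∈ B := QuotientGroup.eq.1 e2
  have qi : ∀ g : G, T.q g = 1 → T.q g⁻¹ = 1 := fun g hg => by rw [map_inv, hg, inv_one]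
  have key : ∀ (c : X) (v : T.Y n → G), (∀ y, T.q (v y) = 1) →
      (∀ y, T.ev n (v y) = Pi.mulSingle y c) → T.ev n ((v y)⁻¹ * v y') y' = c := by
    intro c v h1 h2
    rw [L_ConsNVA_mul T n _ _ (qi _ (h1 y)), L_ConsNVA_inv T n _ (h1 y), h2, h2,
      Pi.mulSingle_eq_same, Pi.mulSingle_eq_of_ne (Ne.symm hne), inv_one, one_mul]
  have k1 := key a x hx1 hx2
  have k2 := key b z hz1 hz2
  have q1 : T.q ((x y)⁻¹ * x y') = 1 := by rw [map_mul, qi _ (hx1 y), hx1, one_mul]
  have q2 : T.q ((z y)⁻¹ * z y') = 1 := by rw [map_mul, qi _ (hz1 y), hz1, one_mul]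
  have h3 := congrArg (fun g => T.ev n g y') (hc _ hu _ hw)
  change T.ev n (((x y)⁻¹ * x y') * ((z y)⁻¹ * z y')) y' =
    T.ev n (((z y)⁻¹ * z y') * ((x y)⁻¹ * x y')) y' at h3
  rw [L_ConsNVA_mul T n _ _ q1, L_ConsNVA_mul T n _ _ q2, k1, k2] at h3
  exact h3

end VRC

end

section

set_option autoImplicit false

/-! A tower over a torsion free group gives a torsion free group. -/

namespace VRC

theorem L_ConsTF_one {X G : Type} [Group X] [Group G] (T : Tower X G) (n : ℕ) (y : T.Y n) :
    T.ev n 1 y = 1 := by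
  have h := T.ev_mul n 1 1 y
  rw [mul_one, map_one, inv_one, Equiv.Perm.one_apply] at h
  exact (left_eq_mul.mp h)

theorem L_ConsTF_pow {X G : Type} [Group X] [Group G] (T : Tower X G) (n : ℕ) {k : G}
    (hk : T.q k = 1) (m : ℕ) (y : T.Y n) : T.ev n (k ^ m) y = (T.ev n k y) ^ m := by
  induction m with
  | zero => rw [pow_zero, pow_zero, L_ConsTF_one]
  | succ m ih =>
    rw [pow_succ', pow_succ', T.ev_mul n k (k ^ m) y, T.act_ker n k hk, inv_one,
      Equiv.Perm.one_apply, ih]

theorem L_ConsTF_Z {a : Multiplicative (Fin 3 → ℤ)} {m : ℕ} (hm : 0 < m) (h : a ^ m = 1) :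
    a = 1 := by
  have h1 : m • (Multiplicative.toAdd a) = 0 := by
    rw [← toAdd_pow, h, toAdd_one]
  have h2 : Multiplicative.toAdd a = 0 := by
    funext i
    have h3 := congrFun h1 i
    rw [Pi.smul_apply, Pi.zero_apply, nsmul_eq_mul] at h3
    rcases mul_eq_zero.1 h3 with h4 | h4
    · exact absurd (by exact_mod_cast h4) hm.ne'
    · exact h4
  exact toAdd_eq_zero.1 h2

theorem prf_ConsTF : S_ConsTF := by
  intro X G _ _ T hX g hg hfin
  obtain ⟨m, hm, hgm⟩ := isOfFinOrder_iff_pow_eq_one.1 hfin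
  have hq : T.q g = 1 := L_ConsTF_Z hm (by rw [← map_pow, hgm, map_one])
  obtain ⟨n, hn⟩ := T.resid g hq
  apply hg
  refine hn g (Subgroup.mem_zpowers g) (funext fun y => ?_)
  by_contra h1
  refine hX _ h1 (isOfFinOrder_iff_pow_eq_one.2 ⟨m, hm, ?_⟩)
  rw [← L_ConsTF_pow T n hq m y, hgm, L_ConsTF_one]

end VRC

end

section

set_option autoImplicit false

/-! Infinite virtual first Betti number from a tower. -/

namespace VRC

/-- a homomorphism onto the integers from a non trivial one -/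
theorem L_ConsVB_onto {H : Type} [Group H] (φ : H →* Multiplicative ℤ) (h0 : H) (h : φ h0 ≠ 1) :
    ∃ ψ : H →* Multiplicative ℤ, Function.Surjective ψ := by
  obtain ⟨m, hm⟩ := Int.subgroup_cyclic (MonoidHom.toAdditiveLeft φ).range
  have hmem : ∀ x : H, Multiplicative.toAdd (φ x) ∈ (MonoidHom.toAdditiveLeft φ).range :=
    fun x => ⟨Additive.ofMul x, rfl⟩
  rw [hm] at hmem
  have hdvd : ∀ x : H, m ∣ Multiplicative.toAdd (φ x) := by
    intro x
    have := hmem x
    rw [AddSubgroup.mem_closure_singleton] at this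
    obtain ⟨k, hk⟩ := this
    exact ⟨k, by rw [← hk, smul_eq_mul, mul_comm]⟩
  have hm0 : m ≠ 0 := by
    rintro rfl
    apply h
    have := hdvd h0
    rw [zero_dvd_iff] at this
    exact Multiplicative.toAdd.injective this
  refine ⟨MonoidHom.mk' (fun x => Multiplicative.ofAdd (Multiplicative.toAdd (φ x) / m)) ?_, ?_⟩
  · intro a b
    rw [map_mul, toAdd_mul, Int.add_ediv_of_dvd_left (hdvd a), ofAdd_add]
  · intro z
    have h1 : (Multiplicative.toAdd z) * m ∈ (MonoidHom.toAdditiveLeft φ).range := by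
      rw [hm, AddSubgroup.mem_closure_singleton]
      exact ⟨Multiplicative.toAdd z, by rw [smul_eq_mul]⟩
    obtain ⟨x, hx⟩ := h1
    refine ⟨Additive.toMul x, ?_⟩
    have h2 : Multiplicative.toAdd (φ (Additive.toMul x)) = (Multiplicative.toAdd z) * m := hx
    simp only [MonoidHom.mk'_apply]
    rw [h2, Int.mul_ediv_cancel _ hm0, ofAdd_toAdd]

theorem L_ConsVB_one {X G : Type} [Group X] [Group G] (T : Tower X G) (n : ℕ) (y : T.Y n) :
    T.ev n 1 y = 1 := by
  have h := T.ev_mul n 1 1 y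
  rw [mul_one, map_one, inv_one, Equiv.Perm.one_apply] at h
  exact (left_eq_mul.mp h)

theorem L_ConsVB_inv {X G : Type} [Group X] [Group G] (T : Tower X G) (n : ℕ) (y : T.Y n) (g : G)
    (hg : T.act n g = 1) : T.ev n g⁻¹ y = (T.ev n g y)⁻¹ := by
  have h := T.ev_mul n g g⁻¹ y
  rw [mul_inv_cancel, L_ConsVB_one, hg, inv_one, Equiv.Perm.one_apply] at h
  exact (inv_eq_of_mul_eq_one_right h.symm).symm

/-- the subgroup of elements acting trivially with values in `H` -/
def L_ConsVB_D {X G : Type} [Group X] [Group G] (T : Tower X G) (n : ℕ) (H : Subgroup X) :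
    Subgroup G where
  carrier := {g | T.act n g = 1 ∧ ∀ y, T.ev n g y ∈ H}
  one_mem' := ⟨map_one _, fun y => by rw [L_ConsVB_one]; exact H.one_mem⟩
  mul_mem' := by
    rintro a b ⟨ha, ha'⟩ ⟨hb, hb'⟩
    refine ⟨by rw [map_mul, ha, hb, one_mul], fun y => ?_⟩
    rw [T.ev_mul, ha, inv_one, Equiv.Perm.one_apply]
    exact H.mul_mem (ha' y) (hb' y)
  inv_mem' := by
    rintro a ⟨ha, ha'⟩
    refine ⟨by rw [map_inv, ha, inv_one], fun y => ?_⟩
    rw [L_ConsVB_inv T n y a ha]
    exact H.inv_mem (ha' y)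

/-- evaluation at a point -/
def L_ConsVB_E {X G : Type} [Group X] [Group G] (T : Tower X G) (n : ℕ) (y : T.Y n) :
    (T.act n).ker →* X :=
  MonoidHom.mk' (fun g => T.ev n g y) (by
    intro a b
    have ha : T.act n a = 1 := a.2
    rw [Subgroup.coe_mul, T.ev_mul, ha, inv_one, Equiv.Perm.one_apply])

theorem L_ConsVB_index {X G : Type} [Group X] [Group G] (T : Tower X G) (n : ℕ) (H : Subgroup X)
    (hH : H.index ≠ 0) : (L_ConsVB_D T n H).index ≠ 0 := by
  have := T.fin n
  have : H.FiniteIndex := ⟨hH⟩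
  have : Finite (Equiv.Perm (T.Y n)) := inferInstance
  have : (T.act n).ker.FiniteIndex := Subgroup.finiteIndex_ker _
  have : (⨅ y, H.comap (L_ConsVB_E T n y) : Subgroup (T.act n).ker).FiniteIndex :=
    Subgroup.finiteIndex_iInf fun y => ⟨by
      rw [Subgroup.index_comap]
      exact fun h => hH (Subgroup.index_eq_zero_of_relIndex_eq_zero h)⟩
  have h1 : ((⨅ y, H.comap (L_ConsVB_E T n y) : Subgroup (T.act n).ker).map
      (T.act n).ker.subtype).index ≠ 0 := by
    rw [Subgroup.index_map_subtype]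
    exact mul_ne_zero Subgroup.FiniteIndex.index_ne_zero Subgroup.FiniteIndex.index_ne_zero
  have h2 : (⨅ y, H.comap (L_ConsVB_E T n y) : Subgroup (T.act n).ker).map
      (T.act n).ker.subtype ≤ L_ConsVB_D T n H := by
    rintro g ⟨k, hk, rfl⟩
    refine ⟨k.2, fun y => ?_⟩
    have := (Subgroup.mem_iInf.mp hk) y
    exact this
  intro h0
  exact h1 (Nat.eq_zero_of_zero_dvd (h0 ▸ Subgroup.index_dvd_of_le h2))

/-- the homomorphism to the lattice -/
def L_ConsVB_psi {X G : Type} [Group X] [Group G] (T : Tower X G) (n : ℕ) (H : Subgroup X)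
    (ψ : H →* Multiplicative ℤ) (e : Fin n → T.Y n) :
    L_ConsVB_D T n H →* Multiplicative (Fin n → ℤ) :=
  MonoidHom.mk' (fun g => Multiplicative.ofAdd fun i =>
    Multiplicative.toAdd (ψ ⟨T.ev n g (e i), g.2.2 (e i)⟩)) (by
    intro a b
    rw [← ofAdd_add]
    congr 1
    funext i
    rw [Pi.add_apply, ← toAdd_mul, ← map_mul]
    congr 2
    apply Subtype.ext
    have ha : T.act n a = 1 := a.2.1
    simp only [Subgroup.coe_mul]
    rw [T.ev_mul, ha, inv_one, Equiv.Perm.one_apply])

theorem prf_ConsVB : S_ConsVB := by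
  intro X G _ _ T hVI hinf n
  obtain ⟨g0, hg0⟩ := hinf
  obtain ⟨H, hgH, hH, φ, hφ⟩ := hVI g0 hg0
  obtain ⟨ψ, hψ⟩ := L_ConsVB_onto φ _ hφ
  have := T.fin n
  obtain ⟨e⟩ : Nonempty (Fin n ↪ T.Y n) := by
    have := Fintype.ofFinite (T.Y n)
    apply Function.Embedding.nonempty_of_card_le
    rw [Fintype.card_fin, ← Nat.card_eq_fintype_card]
    exact T.card n
  refine ⟨L_ConsVB_D T n H, L_ConsVB_index T n H hH, L_ConsVB_psi T n H ψ e, ?_⟩
  intro v
  choose h hh using fun i : Fin n => hψ (Multiplicative.ofAdd ((Multiplicative.toAdd v) i))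
  obtain ⟨g, hq, hg⟩ := T.surj n (Function.extend e (fun i => (h i : X)) fun _ => 1)
  have hgD : g ∈ L_ConsVB_D T n H := by
    refine ⟨T.act_ker n g hq, fun y => ?_⟩
    rw [hg]
    by_cases hy : ∃ i, e i = y
    · obtain ⟨i, rfl⟩ := hy
      rw [e.injective.extend_apply]
      exact (h i).2
    · rw [Function.extend_apply' _ _ _ hy]
      exact H.one_mem
  refine ⟨⟨g, hgD⟩, ?_⟩
  apply Multiplicative.toAdd.injective
  funext i
  have h1 : (⟨T.ev n g (e i), hgD.2 (e i)⟩ : H) = h i := by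
    apply Subtype.ext
    simp only [hg]
    rw [e.injective.extend_apply]
  change Multiplicative.toAdd (ψ ⟨T.ev n g (e i), hgD.2 (e i)⟩) = _
  rw [h1, hh, toAdd_ofAdd]

end VRC

end

section

set_option autoImplicit false

/-! A group with a tower over a group with (VI) and (RF) has (VRC). -/

namespace VRC

/-- the cyclic subgroup of `g` is a virtual retract -/
def L_ConsVRC_Good {G : Type} [Group G] (g : G) : Prop :=
  ∃ K : Subgroup G, K.index ≠ 0 ∧ g ∈ K ∧
    ∃ ρ : K →* G, (∀ k : K, ρ k ∈ Subgroup.zpowers g) ∧ ∀ k : K, (k : G) = g → ρ k = g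

theorem L_ConsVRC_comap {G H : Type} [Group G] [Group H] (f : G →* H) (K : Subgroup H)
    (hK : K.index ≠ 0) : (K.comap f).index ≠ 0 := by
  have : K.FiniteIndex := ⟨hK⟩
  rw [Subgroup.index_comap]
  have := Subgroup.isFiniteRelIndex_of_finiteIndex (H := K) (K := f.range)
  exact Subgroup.relIndex_ne_zero

theorem L_ConsVRC_lift {G : Type} [Group G] (S : Subgroup G) (hS : S.index ≠ 0) (g : S)
    (h : L_ConsVRC_Good g) : L_ConsVRC_Good (g : G) := by
  obtain ⟨K, hK, hg, ρ, h1, h2⟩ := h
  refine ⟨K.map S.subtype, ?_, ⟨g, hg, rfl⟩, ?_⟩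
  · rw [Subgroup.index_map_subtype]
    exact Nat.mul_ne_zero hK hS
  · let e := K.equivMapOfInjective S.subtype S.subtype_injective
    refine ⟨(S.subtype.comp ρ).comp e.symm.toMonoidHom, fun k => ?_, fun k hk => ?_⟩
    · obtain ⟨m, hm⟩ := Subgroup.mem_zpowers_iff.1 (h1 (e.symm k))
      refine Subgroup.mem_zpowers_iff.2 ⟨m, ?_⟩
      show (g : G) ^ m = ((ρ (e.symm k) : S) : G)
      rw [← hm]
      rfl
    · have h3 : ((e.symm k : K) : S) = g := by
        apply Subtype.ext
        have h4 := congrArg (fun x : K.map S.subtype => (x : G)) (e.apply_symm_apply k)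
        exact h4.trans hk
      show ((ρ (e.symm k) : S) : G) = g
      rw [h2 _ h3]

theorem L_ConsVRC_Z {G : Type} [Group G] (ψ : G →* Multiplicative ℤ) (g : G) (hg : ψ g ≠ 1) :
    L_ConsVRC_Good g := by
  have hm : Multiplicative.toAdd (ψ g) ≠ 0 := fun h => hg (Multiplicative.toAdd.injective h)
  set m : ℤ := Multiplicative.toAdd (ψ g) with hmd
  have hmem : ∀ x : G, x ∈ (Subgroup.zpowers (ψ g)).comap ψ ↔
      m ∣ Multiplicative.toAdd (ψ x) := by
    intro x
    rw [Subgroup.mem_comap, Subgroup.mem_zpowers_iff]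
    constructor
    · rintro ⟨k, hk⟩
      refine ⟨k, ?_⟩
      rw [← hk, toAdd_zpow, smul_eq_mul, mul_comm]
    · rintro ⟨k, hk⟩
      refine ⟨k, Multiplicative.toAdd.injective ?_⟩
      rw [toAdd_zpow, hk, smul_eq_mul, mul_comm]
  refine ⟨(Subgroup.zpowers (ψ g)).comap ψ, ?_, ?_, ?_⟩
  · apply L_ConsVRC_comap
    have h1 : (Subgroup.zpowers (ψ g)).index = (AddSubgroup.zmultiples m).index := rfl
    rw [h1, Int.index_zmultiples]
    exact Int.natAbs_ne_zero.2 hm
  · exact (hmem g).2 (dvd_refl _)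
  · refine ⟨MonoidHom.mk' (fun k => g ^ (Multiplicative.toAdd (ψ (k : G)) / m)) ?_, ?_, ?_⟩
    · intro x y
      have hx := (hmem x).1 x.2
      show g ^ (Multiplicative.toAdd (ψ ((x : G) * y)) / m) = _
      rw [map_mul, toAdd_mul, Int.add_ediv_of_dvd_left hx, zpow_add]
    · intro k
      exact Subgroup.mem_zpowers_iff.2 ⟨_, rfl⟩
    · intro k hk
      show g ^ (Multiplicative.toAdd (ψ (k : G)) / m) = g
      rw [hk, ← hmd, Int.ediv_self hm, zpow_one]

/-- pulling back a homomorphism defined on a subgroup of finite index -/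
theorem L_ConsVRC_pull {G X : Type} [Group G] [Group X] (e : G →* X) (H : Subgroup X)
    (hH : H.index ≠ 0) (φ : H →* Multiplicative ℤ) (g : G) (hg : e g ∈ H)
    (h : φ ⟨e g, hg⟩ ≠ 1) : L_ConsVRC_Good g :=
  L_ConsVRC_lift (H.comap e) (L_ConsVRC_comap e H hH) ⟨g, hg⟩
    (L_ConsVRC_Z (φ.comp (e.subgroupComap H)) ⟨g, hg⟩ h)

/-- the finite order case -/
theorem L_ConsVRC_fin {G : Type} [Group G] (g : G) (hg : IsOfFinOrder g)
    (h : ∀ x ∈ Subgroup.zpowers g, x ≠ 1 → ∃ D : Subgroup G, D.index ≠ 0 ∧ x ∉ D) :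
    L_ConsVRC_Good g := by
  classical
  have hfz : Finite (Subgroup.zpowers g) := (finite_zpowers.2 hg).to_subtype
  choose! D hD1 hD2 using h
  let D' : Subgroup.zpowers g → Subgroup G := fun x => if (x : G) = 1 then ⊤ else D x
  have hD' : ∀ x, (D' x).FiniteIndex := by
    intro x
    by_cases hx : (x : G) = 1
    · simp only [D', if_pos hx]
      infer_instance
    · simp only [D', if_neg hx]
      exact ⟨hD1 x x.2 hx⟩
  have hI : (⨅ x, D' x).FiniteIndex := Subgroup.finiteIndex_iInf hD'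
  set N : Subgroup G := (⨅ x, D' x).normalCore with hN
  have hNf : N.FiniteIndex := Subgroup.finiteIndex_normalCore _
  have hNn : N.Normal := Subgroup.normalCore_normal _
  have hNt : ∀ x ∈ Subgroup.zpowers g, x ∈ N → x = 1 := by
    intro x hx hxN
    by_contra hne
    have h1 : x ∈ ⨅ x, D' x := Subgroup.normalCore_le _ hxN
    have h2 := (Subgroup.mem_iInf.1 h1) ⟨x, hx⟩
    simp only [D', if_neg hne] at h2
    exact hD2 x hx hne h2
  let φ : Subgroup.zpowers g →* G ⧸ N := (QuotientGroup.mk' N).comp (Subgroup.zpowers g).subtype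
  have hφ : Function.Injective φ := by
    rw [injective_iff_map_eq_one]
    intro x hx
    apply Subtype.ext
    refine hNt x x.2 ?_
    exact (QuotientGroup.eq_one_iff (x : G)).1 hx
  have hfq : Finite (G ⧸ N) := Subgroup.finiteIndex_iff_finite_quotient.1 hNf
  let e := MonoidHom.ofInjective hφ
  have hgR : QuotientGroup.mk' N g ∈ φ.range := ⟨⟨g, Subgroup.mem_zpowers g⟩, rfl⟩
  refine ⟨φ.range.comap (QuotientGroup.mk' N), ?_, hgR, ?_⟩
  · apply L_ConsVRC_comap
    exact Subgroup.index_ne_zero_of_finite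
  · refine ⟨((Subgroup.zpowers g).subtype.comp e.symm.toMonoidHom).comp
      ((QuotientGroup.mk' N).subgroupComap φ.range), fun k => ?_, fun k hk => ?_⟩
    · exact (e.symm _).2
    · have h1 : (QuotientGroup.mk' N).subgroupComap φ.range k = e ⟨g, Subgroup.mem_zpowers g⟩ := by
        apply Subtype.ext
        show QuotientGroup.mk' N (k : G) = QuotientGroup.mk' N g
        rw [hk]
      show ((e.symm ((QuotientGroup.mk' N).subgroupComap φ.range k) : Subgroup.zpowers g) : G) = g
      rw [h1, e.symm_apply_apply]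

section

variable {X G : Type} [Group X] [Group G] (T : Tower X G)

/-- the stabiliser of a point -/
def L_ConsVRC_S (n : ℕ) (y : T.Y n) : Subgroup G :=
  (MulAction.stabilizer (Equiv.Perm (T.Y n)) y).comap (T.act n)

theorem L_ConsVRC_S_index (n : ℕ) (y : T.Y n) : (L_ConsVRC_S T n y).index ≠ 0 := by
  have := T.fin n
  apply L_ConsVRC_comap
  exact Subgroup.index_ne_zero_of_finite

theorem L_ConsVRC_S_mem (n : ℕ) (y : T.Y n) (g : G) (hg : g ∈ L_ConsVRC_S T n y) :
    (T.act n g)⁻¹ y = y := by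
  have h1 : T.act n g y = y := hg
  exact Equiv.Perm.inv_eq_iff_eq.2 h1.symm

/-- the cocycle on the stabiliser -/
noncomputable def L_ConsVRC_e (n : ℕ) (y : T.Y n) : L_ConsVRC_S T n y →* X :=
  MonoidHom.mk' (fun g => T.ev n (g : G) y) fun g h => by
    show T.ev n ((g : G) * h) y = _
    rw [T.ev_mul, L_ConsVRC_S_mem T n y g g.2]

theorem L_ConsVRC_ker_S (n : ℕ) (y : T.Y n) (g : G) (hg : T.q g = 1) :
    g ∈ L_ConsVRC_S T n y := by
  show T.act n g • y = y
  rw [T.act_ker n g hg, one_smul]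

theorem L_ConsVRC_pow (n : ℕ) (y : T.Y n) (g : G) (hg : T.q g = 1) (k : ℕ) :
    T.ev n (g ^ k) y = T.ev n g y ^ k := by
  have h := map_pow (L_ConsVRC_e T n y) ⟨g, L_ConsVRC_ker_S T n y g hg⟩ k
  exact h

end

theorem prf_ConsVRC : S_ConsVRC := by
  intro X G _ _ T hVI hRF g
  show L_ConsVRC_Good g
  by_cases hq : T.q g = 1
  · by_cases hfo : IsOfFinOrder g
    · refine L_ConsVRC_fin g hfo fun x hx hx1 => ?_
      have hqx : T.q x = 1 := by
        obtain ⟨m, rfl⟩ := Subgroup.mem_zpowers_iff.1 hx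
        rw [map_zpow, hq, one_zpow]
      obtain ⟨n, hn⟩ := T.resid x hqx
      have h1 : T.ev n x ≠ 1 := fun h => hx1 (hn x (Subgroup.mem_zpowers x) h)
      obtain ⟨y, hy⟩ := Function.ne_iff.1 h1
      obtain ⟨H, hH, hHx⟩ := hRF (T.ev n x y) hy
      refine ⟨(H.comap (L_ConsVRC_e T n y)).map (L_ConsVRC_S T n y).subtype, ?_, ?_⟩
      · rw [Subgroup.index_map_subtype]
        exact Nat.mul_ne_zero (L_ConsVRC_comap _ H hH) (L_ConsVRC_S_index T n y)
      · rintro ⟨d, hd, hdx⟩
        have hd' : T.ev n (d : G) y ∈ H := hd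
        have hdx' : (d : G) = x := hdx
        rw [hdx'] at hd'
        exact hHx hd'
    · obtain ⟨n, hn⟩ := T.resid g hq
      have := T.fin n
      have hex : ∃ y, ¬ IsOfFinOrder (T.ev n g y) := by
        by_contra hall
        push Not at hall
        have h1 : ∀ y, ∃ k : ℕ, 0 < k ∧ T.ev n g y ^ k = 1 := fun y =>
          isOfFinOrder_iff_pow_eq_one.1 (hall y)
        choose k hk1 hk2 using h1
        have := Fintype.ofFinite (T.Y n)
        apply hfo
        rw [isOfFinOrder_iff_pow_eq_one]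
        refine ⟨∏ y, k y, Finset.prod_pos fun y _ => hk1 y, ?_⟩
        apply hn _ (Subgroup.npow_mem_zpowers g _)
        funext y
        rw [L_ConsVRC_pow T n y g hq]
        obtain ⟨c, hc⟩ := Finset.dvd_prod_of_mem k (Finset.mem_univ y)
        rw [hc, pow_mul, hk2, one_pow]
        rfl
      obtain ⟨y, hy⟩ := hex
      obtain ⟨H, hg, hH, φ, hφ⟩ := hVI (T.ev n g y) hy
      exact L_ConsVRC_lift (L_ConsVRC_S T n y) (L_ConsVRC_S_index T n y)
        ⟨g, L_ConsVRC_ker_S T n y g hq⟩ (L_ConsVRC_pull (L_ConsVRC_e T n y) H hH φ _ hg hφ)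
  · have h1 : ∃ i, Multiplicative.toAdd (T.q g) i ≠ 0 := by
      by_contra hall
      push Not at hall
      exact hq (Multiplicative.toAdd.injective (funext hall))
    obtain ⟨i, hi⟩ := h1
    let ev : (Fin 3 → ℤ) →+ ℤ := Pi.evalAddMonoidHom (fun _ => ℤ) i
    refine L_ConsVRC_Z ((AddMonoidHom.toMultiplicative ev).comp T.q) g fun h => hi ?_
    exact congrArg Multiplicative.toAdd h

end VRC

end

section

set_option autoImplicit false

/-! The free group of rank two has no non trivial abelian normal subgroup. -/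

namespace VRC

theorem L_F2_nc {α : Type} (x y : α) (h : x ≠ y) :
    FreeGroup.of x * FreeGroup.of y ≠ FreeGroup.of y * FreeGroup.of x := by
  classical
  intro he
  have h1 := congrArg (FreeGroup.lift fun z : α =>
    if z = x then (Equiv.swap 0 1 : Equiv.Perm (Fin 3)) else Equiv.swap 1 2) he
  simp only [map_mul, FreeGroup.lift_apply_of, if_true, if_neg h.symm] at h1
  exact absurd h1 (by decide)

theorem L_F2_cyc (H : Subgroup (FreeGroup (Fin 2))) (hc : ∀ a ∈ H, ∀ b ∈ H, a * b = b * a) :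
    ∃ c ∈ H, ∀ x ∈ H, x ∈ Subgroup.zpowers c := by
  classical
  let e : FreeGroup (IsFreeGroup.Generators H) ≃* H := IsFreeGroup.mulEquiv H
  have hs : ∀ x y : IsFreeGroup.Generators H, x = y := by
    intro x y
    by_contra hne
    refine L_F2_nc x y hne (e.injective ?_)
    rw [map_mul, map_mul]
    exact Subtype.ext (hc _ (e _).2 _ (e _).2)
  rcases isEmpty_or_nonempty (IsFreeGroup.Generators H) with hE | ⟨⟨g⟩⟩
  · refine ⟨1, H.one_mem, fun x hx => ?_⟩
    have h1 : e.symm ⟨x, hx⟩ = 1 := Subsingleton.elim _ _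
    have h2 : (⟨x, hx⟩ : H) = 1 := by
      rw [← e.apply_symm_apply ⟨x, hx⟩, h1, map_one]
    have h3 : x = 1 := congrArg Subtype.val h2
    rw [h3]
    exact Subgroup.one_mem _
  · refine ⟨(e (FreeGroup.of g) : FreeGroup (Fin 2)), (e _).2, fun x hx => ?_⟩
    have h1 : e.symm ⟨x, hx⟩ ∈ Subgroup.zpowers (FreeGroup.of g) := by
      have h2 : (⊤ : Subgroup (FreeGroup (IsFreeGroup.Generators H))) ≤
          Subgroup.zpowers (FreeGroup.of g) := by
        rw [← FreeGroup.closure_range_of, Subgroup.closure_le]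
        rintro _ ⟨y, rfl⟩
        rw [hs y g]
        exact Subgroup.mem_zpowers _
      exact h2 (Subgroup.mem_top _)
    obtain ⟨k, hk⟩ := h1
    refine ⟨k, ?_⟩
    have h3 : e (FreeGroup.of g) ^ k = (⟨x, hx⟩ : H) := by
      rw [← map_zpow, ← e.apply_symm_apply ⟨x, hx⟩]
      congr 1
    exact congrArg Subtype.val h3

/-- if `x` commutes with `c` and `x` is a generator then `c` is a power of `x` -/
theorem L_F2_pow (i : Fin 2) (c : FreeGroup (Fin 2))
    (h : FreeGroup.of i * c = c * FreeGroup.of i) : ∃ k : ℤ, c = FreeGroup.of i ^ k := by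
  have hcom : ∀ a ∈ Subgroup.closure {FreeGroup.of i, c},
      ∀ b ∈ Subgroup.closure {FreeGroup.of i, c}, a * b = b * a := by
    intro a ha b hb
    have h1 : (Subgroup.closure {FreeGroup.of i, c}) ≤
        Subgroup.centralizer ({FreeGroup.of i, c} : Set (FreeGroup (Fin 2))) := by
      rw [Subgroup.closure_le]
      rintro x (rfl | rfl)
      · rw [SetLike.mem_coe, Subgroup.mem_centralizer_iff]
        rintro y (rfl | rfl)
        · rfl
        · exact h.symm
      · rw [SetLike.mem_coe, Subgroup.mem_centralizer_iff]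
        rintro y (rfl | rfl)
        · exact h
        · rfl
    have h2 : (Subgroup.closure {FreeGroup.of i, c}) ≤ Subgroup.centralizer {a} := by
      rw [Subgroup.closure_le]
      intro x hx
      rw [SetLike.mem_coe, Subgroup.mem_centralizer_iff]
      intro y hy
      rw [Set.mem_singleton_iff.mp hy]
      have h3 := Subgroup.mem_centralizer_iff.mp (h1 ha) x hx
      exact h3.symm
    have h4 := Subgroup.mem_centralizer_iff.mp (h2 hb) a rfl
    exact h4
  obtain ⟨d, -, hd⟩ := L_F2_cyc _ hcom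
  obtain ⟨m, hm⟩ := hd _ (Subgroup.subset_closure (Set.mem_insert _ _))
  obtain ⟨j, hj⟩ := hd _ (Subgroup.subset_closure (Set.mem_insert_of_mem _ rfl))
  change d ^ m = FreeGroup.of i at hm
  change d ^ j = c at hj
  -- `m = ± 1`
  let φ : FreeGroup (Fin 2) →* Multiplicative ℤ :=
    FreeGroup.lift fun z => Multiplicative.ofAdd (if z = i then (1 : ℤ) else 0)
  have h5 := congrArg φ hm
  simp only [map_zpow] at h5
  rw [show φ (FreeGroup.of i) = Multiplicative.ofAdd 1 by
    simp [φ, FreeGroup.lift_apply_of]] at h5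
  have h6 : m * Multiplicative.toAdd (φ d) = 1 := by
    have := congrArg Multiplicative.toAdd h5
    rwa [toAdd_zpow, smul_eq_mul, toAdd_ofAdd] at this
  rcases Int.isUnit_iff.mp (IsUnit.of_mul_eq_one _ h6) with h7 | h7
  · rw [h7, zpow_one] at hm
    exact ⟨j, by rw [← hm]; exact hj.symm⟩
  · rw [h7, zpow_neg_one] at hm
    refine ⟨-j, ?_⟩
    rw [← hm, inv_zpow, zpow_neg, inv_inv]
    exact hj.symm

theorem L_F2_center (c : FreeGroup (Fin 2)) (h : ∀ i : Fin 2,
    FreeGroup.of i * c = c * FreeGroup.of i) : c = 1 := by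
  obtain ⟨k, hk⟩ := L_F2_pow 0 c (h 0)
  obtain ⟨j, hj⟩ := L_F2_pow 1 c (h 1)
  let φ : FreeGroup (Fin 2) →* Multiplicative ℤ :=
    FreeGroup.lift fun z => Multiplicative.ofAdd (if z = 0 then (1 : ℤ) else 0)
  have h0 : φ (FreeGroup.of 0) = Multiplicative.ofAdd 1 := by
    simp [φ, FreeGroup.lift_apply_of]
  have h1 : φ (FreeGroup.of 1) = 1 := by
    simp [φ, FreeGroup.lift_apply_of]
  have h2 : φ c = Multiplicative.ofAdd 1 ^ k := by rw [hk, map_zpow, h0]
  have h3 : φ c = 1 := by rw [hj, map_zpow, h1, one_zpow]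
  rw [h2] at h3
  have h4 : k = 0 := by
    have := congrArg Multiplicative.toAdd h3
    rw [toAdd_zpow, smul_eq_mul, toAdd_ofAdd, mul_one, toAdd_one] at this
    exact this
  rw [hk, h4, zpow_zero]

theorem prf_F2 : S_F2 := by
  intro N hN hc
  obtain ⟨c, hcN, hgen⟩ := L_F2_cyc N hc
  have h1 : c = 1 := by
    by_contra hne
    refine hne (L_F2_center c fun i => ?_)
    set a : FreeGroup (Fin 2) := FreeGroup.of i
    obtain ⟨k, hk⟩ := hgen _ (hN.conj_mem c hcN a)
    obtain ⟨j, hj⟩ := hgen _ (hN.conj_mem c hcN a⁻¹)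
    change c ^ k = a * c * a⁻¹ at hk
    change c ^ j = a⁻¹ * c * a⁻¹⁻¹ at hj
    rw [inv_inv] at hj
    have h2 : c ^ (k * j) = c := by
      rw [zpow_mul, hk]
      have : (a * c * a⁻¹) ^ j = a * c ^ j * a⁻¹ := by
        rw [conj_zpow]
      rw [this, hj]
      group
    have h3 : k * j = 1 := by
      by_contra hkj
      have h4 : c ^ (k * j - 1) = 1 := by rw [zpow_sub, h2, zpow_one, mul_inv_cancel]
      have h5 : k * j - 1 ≠ 0 := sub_ne_zero.mpr hkj
      exact hne ((IsMulTorsionFree.zpow_eq_one_iff_left h5).mp h4)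
    have h6 : k * k = 1 := by
      rcases Int.isUnit_iff.mp (IsUnit.of_mul_eq_one _ h3) with h | h <;> rw [h] <;> norm_num
    have h7 : a ^ 2 * c * (a ^ 2)⁻¹ = c := by
      have e1 : a ^ 2 * c * (a ^ 2)⁻¹ = a * (a * c * a⁻¹) * a⁻¹ := by
        rw [pow_two, mul_inv_rev]
        simp only [mul_assoc]
      rw [e1, ← hk]
      have e2 : a * c ^ k * a⁻¹ = (a * c * a⁻¹) ^ k := by rw [conj_zpow]
      rw [e2, ← hk, ← zpow_mul, h6, zpow_one]
    have h8 : (c * a * c⁻¹) ^ 2 = a ^ 2 := by
      rw [conj_pow]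
      have e3 : a ^ 2 * c = c * a ^ 2 := by
        rw [mul_inv_eq_iff_eq_mul] at h7
        exact h7
      rw [← e3]
      group
    have h9 : c * a * c⁻¹ = a := pow_left_injective (n := 2) two_ne_zero h8
    rw [mul_inv_eq_iff_eq_mul] at h9
    exact h9.symm
  rw [eq_bot_iff]
  intro x hx
  obtain ⟨k, hk⟩ := hgen x hx
  change c ^ k = x at hk
  rw [h1, one_zpow] at hk
  rw [Subgroup.mem_bot]
  exact hk.symm

end VRC

end

section

namespace VRC

theorem prf_F2tf : S_F2tf := by
  intro a n hn h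
  apply IsMulTorsionFree.pow_left_injective (M := FreeGroup (Fin 2)) hn.ne'
  show a ^ n = 1 ^ n
  rw [h, one_pow]

end VRC

end

section

set_option autoImplicit false

/-! Finitely presented groups in the form of the frozen statement. -/

namespace VRC

theorem prf_FPform : S_FPform := by
  intro G _ hG
  obtain ⟨n, s, hs, ⟨e⟩⟩ := Group.IsFinitelyPresented.exists_mulEquiv_presentedGroup (G := G)
  refine ⟨n, hs.toFinset, ?_⟩
  rw [hs.coe_toFinset]
  exact ⟨e⟩

end VRC

end

section

set_option autoImplicit false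

/-! Finite powers of finitely presented groups. -/

namespace VRC

/-- the first coordinate and the others -/
def L_FPpi_cons (G : Type) [Group G] (n : ℕ) : G × (Fin n → G) ≃* (Fin (n + 1) → G) where
  toFun x := Fin.cons x.1 x.2
  invFun f := (f 0, fun i => f i.succ)
  left_inv _ := rfl
  right_inv f := by
    funext i
    refine Fin.cases ?_ (fun j => ?_) i
    · rfl
    · rfl
  map_mul' x y := by
    funext i
    refine Fin.cases ?_ (fun j => ?_) i
    · rfl
    · rfl

/-- reindexing -/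
def L_FPpi_re (G : Type) [Group G] {ι κ : Type} (e : ι ≃ κ) : (κ → G) ≃* (ι → G) where
  toFun f := fun i => f (e i)
  invFun f := fun j => f (e.symm j)
  left_inv f := by
    funext j
    show f (e (e.symm j)) = f j
    rw [e.apply_symm_apply]
  right_inv f := by
    funext i
    show f (e.symm (e i)) = f i
    rw [e.symm_apply_apply]
  map_mul' _ _ := rfl

theorem prf_FPpi (h : S_FPprod) : S_FPpi := by
  intro ι G _ _ hG
  have key : ∀ n : ℕ, Group.IsFinitelyPresented (Fin n → G) := by
    intro n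
    induction n with
    | zero => infer_instance
    | succ n ih =>
      have h1 := h G (Fin n → G) hG ih
      exact Group.IsFinitelyPresented.equiv (L_FPpi_cons G n)
  obtain ⟨n, ⟨e⟩⟩ := Finite.exists_equiv_fin ι
  have h2 := key n
  exact Group.IsFinitelyPresented.equiv (L_FPpi_re G e)

end VRC

end

section

set_option autoImplicit false

/-! The product of two finitely presented groups is finitely presented. -/

namespace VRC

open Monoid.Coprod commutatorElement in
theorem L_FPprod_comm {n m : ℕ} {Q : Type} [Group Q] (α : FreeGroup (Fin n) →* Q)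
    (β : FreeGroup (Fin m) →* Q)
    (h : ∀ i j, Commute (α (FreeGroup.of i)) (β (FreeGroup.of j))) (x : FreeGroup (Fin n))
    (y : FreeGroup (Fin m)) : Commute (α x) (β y) := by
  have h1 : ∀ j, ∀ x, Commute (α x) (β (FreeGroup.of j)) := by
    intro j x
    induction x using FreeGroup.induction_on with
    | C1 => rw [map_one]; exact Commute.one_left _
    | of i => exact h i j
    | inv_of i hi => rw [map_inv]; exact hi.inv_left
    | mul a b ha hb => rw [map_mul]; exact ha.mul_left hb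
  induction y using FreeGroup.induction_on with
  | C1 => rw [map_one]; exact Commute.one_right _
  | of j => exact h1 j x
  | inv_of j hj => rw [map_inv]; exact hj.inv_right
  | mul a b ha hb => rw [map_mul]; exact ha.mul_right hb

open Monoid.Coprod commutatorElement in
theorem prf_FPprod : S_FPprod := by
  intro G H _ _ hG hH
  obtain ⟨n, φ, hφ, -⟩ := hG.out
  obtain ⟨m, ψ, hψ, -⟩ := hH.out
  let S : Set (Monoid.Coprod G H) := Set.range (fun p : Fin n × Fin m =>
    ⁅(inl (φ (FreeGroup.of p.1)) : Monoid.Coprod G H), inr (ψ (FreeGroup.of p.2))⁆)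
  refine Group.IsFinitelyPresented.of_surjective (toProd : Monoid.Coprod G H →* G × H)
    toProd_surjective ⟨S, Set.finite_range _, ?_⟩
  apply le_antisymm
  · apply Subgroup.normalClosure_le_normal
    rintro _ ⟨p, rfl⟩
    change toProd ⁅(inl (φ (FreeGroup.of p.1)) : Monoid.Coprod G H),
      inr (ψ (FreeGroup.of p.2))⁆ = 1
    rw [map_commutatorElement, toProd_apply_inl, toProd_apply_inr, commutatorElement_eq_one_iff_mul_comm]
    simp
  · intro x hx
    have hx' : toProd x = 1 := hx
    let π := QuotientGroup.mk' (Subgroup.normalClosure S)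
    have hcomm : ∀ (g : G) (h : H), Commute (π (inl g)) (π (inr h)) := by
      intro g h
      obtain ⟨a, rfl⟩ := hφ g
      obtain ⟨b, rfl⟩ := hψ h
      refine L_FPprod_comm (π.comp (inl.comp φ)) (π.comp (inr.comp ψ)) (fun i j => ?_) a b
      have h1 : π ⁅(inl (φ (FreeGroup.of i)) : Monoid.Coprod G H), inr (ψ (FreeGroup.of j))⁆ = 1 :=
        (QuotientGroup.eq_one_iff _).2 (Subgroup.subset_normalClosure ⟨(i, j), rfl⟩)
      rw [map_commutatorElement, commutatorElement_eq_one_iff_mul_comm] at h1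
      exact h1
    have key : ∀ x : Monoid.Coprod G H,
        π x = π (inl (toProd x).1) * π (inr (toProd x).2) := by
      intro x
      induction x using Monoid.Coprod.induction_on with
      | inl g => rw [toProd_apply_inl]; simp
      | inr h => rw [toProd_apply_inr]; simp
      | mul a b ha hb =>
        rw [map_mul π a b, ha, hb, map_mul toProd a b, Prod.fst_mul, Prod.snd_mul, map_mul inl,
          map_mul inr, map_mul π, map_mul π]
        have h1 := hcomm (toProd b).1 (toProd a).2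
        have h2 : π (inr (toProd a).2) * π (inl (toProd b).1) =
          π (inl (toProd b).1) * π (inr (toProd a).2) := h1.eq.symm
        calc π (inl (toProd a).1) * π (inr (toProd a).2) *
              (π (inl (toProd b).1) * π (inr (toProd b).2))
            = π (inl (toProd a).1) * (π (inr (toProd a).2) * π (inl (toProd b).1)) *
              π (inr (toProd b).2) := by group
          _ = π (inl (toProd a).1) * (π (inl (toProd b).1) * π (inr (toProd a).2)) *
              π (inr (toProd b).2) := by rw [h2]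
          _ = _ := by group
    have h1 := key x
    rw [hx'] at h1
    have h2 : π x = 1 := by
      rw [h1]
      simp
    exact (QuotientGroup.eq_one_iff x).1 h2

end VRC

end

section

set_option autoImplicit false

/-! Semidirect products of finitely presented groups with finite groups are finitely presented. -/

namespace VRC

open Monoid

theorem prf_FPsemi : S_FPsemi := by
  intro N H _ _ _ φ hN
  have := hN
  obtain ⟨n, ψ, hψ, -⟩ := hN.out
  -- generators of `N`
  set g : Fin n → N := fun i => ψ (FreeGroup.of i) with hg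
  have hgen : Subgroup.closure (Set.range g) = ⊤ := by
    have h1 : (Subgroup.closure (Set.range (FreeGroup.of : Fin n → FreeGroup (Fin n)))).map ψ =
        Subgroup.closure (Set.range g) := by
      rw [MonoidHom.map_closure, ← Set.range_comp]
      rfl
    rw [← h1, FreeGroup.closure_range_of, ← MonoidHom.range_eq_map,
      MonoidHom.range_eq_top.2 hψ]
  set f : Coprod N H →* N ⋊[φ] H := Coprod.lift SemidirectProduct.inl SemidirectProduct.inr with hf
  have hfl : ∀ a : N, f (Coprod.inl a) = SemidirectProduct.inl a := fun a =>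
    Coprod.lift_apply_inl _ _ _
  have hfr : ∀ h : H, f (Coprod.inr h) = SemidirectProduct.inr h := fun h =>
    Coprod.lift_apply_inr _ _ _
  have hfs : Function.Surjective f := by
    intro x
    refine ⟨Coprod.inl x.left * Coprod.inr x.right, ?_⟩
    rw [map_mul, hfl, hfr]
    exact SemidirectProduct.inl_left_mul_inr_right x
  refine Group.IsFinitelyPresented.of_surjective f hfs ?_
  set S : Set (Coprod N H) := Set.range fun p : H × Fin n =>
    Coprod.inr p.1 * Coprod.inl (g p.2) * (Coprod.inr p.1)⁻¹ * (Coprod.inl (φ p.1 (g p.2)))⁻¹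
    with hS
  refine ⟨S, Set.finite_range _, le_antisymm ?_ ?_⟩
  · refine Subgroup.normalClosure_le_normal ?_
    rintro _ ⟨⟨h, i⟩, rfl⟩
    change f _ = 1
    simp only [map_mul, map_inv, hfl, hfr]
    rw [SemidirectProduct.inl_aut, map_inv, mul_inv_cancel]
  · set π : Coprod N H →* Coprod N H ⧸ Subgroup.normalClosure S :=
      QuotientGroup.mk' (Subgroup.normalClosure S) with hπ
    have hrel : ∀ h : H, (π.comp Coprod.inl).comp (φ h).toMonoidHom =
        (MulAut.conj ((π.comp Coprod.inr) h)).toMonoidHom.comp (π.comp Coprod.inl) := by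
      intro h
      refine MonoidHom.eq_of_eqOn_dense hgen ?_
      rintro _ ⟨i, rfl⟩
      change π (Coprod.inl (φ h (g i))) =
        π (Coprod.inr h) * π (Coprod.inl (g i)) * (π (Coprod.inr h))⁻¹
      have h1 : Coprod.inr h * Coprod.inl (g i) * (Coprod.inr h)⁻¹ *
          (Coprod.inl (φ h (g i)))⁻¹ ∈ Subgroup.normalClosure S :=
        Subgroup.subset_normalClosure ⟨(h, i), rfl⟩
      have h2 : π (Coprod.inr h * Coprod.inl (g i) * (Coprod.inr h)⁻¹ *
          (Coprod.inl (φ h (g i)))⁻¹) = 1 := (QuotientGroup.eq_one_iff _).2 h1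
      rw [map_mul, map_mul, map_mul, map_inv, map_inv, mul_inv_eq_one] at h2
      exact h2.symm
    set L : N ⋊[φ] H →* Coprod N H ⧸ Subgroup.normalClosure S :=
      SemidirectProduct.lift (π.comp Coprod.inl) (π.comp Coprod.inr) hrel with hL
    have hLf : L.comp f = π := by
      refine Coprod.hom_ext ?_ ?_
      · ext a
        change L (f (Coprod.inl a)) = π (Coprod.inl a)
        rw [hfl, hL, SemidirectProduct.lift_inl]
        rfl
      · ext h
        change L (f (Coprod.inr h)) = π (Coprod.inr h)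
        rw [hfr, hL, SemidirectProduct.lift_inr]
        rfl
    intro x hx
    have h1 : π x = 1 := by
      rw [← hLf]
      change L (f x) = 1
      rw [MonoidHom.mem_ker.1 hx, map_one]
    exact (QuotientGroup.eq_one_iff x).1 h1

end VRC

end

section

/-! Generation of measurable functions (MP_332575_al). -/

set_option autoImplicit false

namespace VRC

open scoped commutatorElement

open Classical in
/-- the function with value `g` on `C` and `1` outside -/
noncomputable def L_Gen_d {Y X : Type} [Group X] (C : Set Y) : X →* (Y → X) where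
  toFun g := fun z => if z ∈ C then g else 1
  map_one' := by
    funext z
    by_cases h : z ∈ C <;> simp [h]
  map_mul' a b := by
    funext z
    by_cases h : z ∈ C <;> simp [h]

theorem L_Gen_pos {Y X : Type} [Group X] {C : Set Y} {z : Y} (h : z ∈ C) (g : X) :
    L_Gen_d C g z = g := if_pos h

theorem L_Gen_neg {Y X : Type} [Group X] {C : Set Y} {z : Y} (h : z ∉ C) (g : X) :
    L_Gen_d C g z = 1 := if_neg h

theorem L_Gen_mem {Y X : Type} [Group X] (t : Setoid Y) (U : Set Y)
    (hU : ∀ y z, t y z → (y ∈ U ↔ z ∈ U)) (y : Y) (hy : y ∈ U) (g : X) :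
    L_Gen_d {z | t y z} g ∈ (Ms t ⊓ Sp U : Subgroup (Y → X)) := by
  refine ⟨?_, ?_⟩
  · intro a b hab
    by_cases h : t y a
    · rw [L_Gen_pos (C := {z | t y z}) h, L_Gen_pos (C := {z | t y z}) (t.trans' h hab)]
    · have h' : ¬ t y b := fun hb => h (t.trans' hb (t.symm' hab))
      rw [L_Gen_neg (C := {z | t y z}) h, L_Gen_neg (C := {z | t y z}) h']
  · intro a ha
    have h : ¬ t y a := fun h => ha ((hU y a h).1 hy)
    exact L_Gen_neg (C := {z | t y z}) h g

theorem L_Gen_class {Y X : Type} [Group X] (hX : commutator X = ⊤) (r s : Setoid Y) (U : Set Y)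
    (hr : ∀ y z, r y z → (y ∈ U ↔ z ∈ U)) (hs : ∀ y z, s y z → (y ∈ U ↔ z ∈ U))
    (y : Y) (hy : y ∈ U) (g : X) :
    L_Gen_d {z | (r ⊓ s) y z} g ∈ ((Ms r ⊓ Sp U) ⊔ (Ms s ⊓ Sp U) : Subgroup (Y → X)) := by
  have h1 : commutator X ≤ ((Ms r ⊓ Sp U) ⊔ (Ms s ⊓ Sp U) : Subgroup (Y → X)).comap
      (L_Gen_d {z | (r ⊓ s) y z}) := by
    unfold commutator
    rw [Subgroup.commutator_le]
    intro a _ b _
    rw [Subgroup.mem_comap]
    have h2 : L_Gen_d {z | (r ⊓ s) y z} ⁅a, b⁆ = ⁅L_Gen_d {z | r y z} a, L_Gen_d {z | s y z} b⁆ := by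
      funext z
      rw [commutatorElement_def, commutatorElement_def]
      simp only [Pi.mul_apply, Pi.inv_apply]
      by_cases h3 : r y z
      · by_cases h4 : s y z
        · have h5 : z ∈ {z | (r ⊓ s) y z} := ⟨h3, h4⟩
          rw [L_Gen_pos h5, L_Gen_pos (C := {z | r y z}) h3, L_Gen_pos (C := {z | s y z}) h4]
        · have h5 : z ∉ {z | (r ⊓ s) y z} := fun h => h4 h.2
          rw [L_Gen_neg h5, L_Gen_pos (C := {z | r y z}) h3, L_Gen_neg (C := {z | s y z}) h4]
          simp
      · have h5 : z ∉ {z | (r ⊓ s) y z} := fun h => h3 h.1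
        rw [L_Gen_neg h5, L_Gen_neg (C := {z | r y z}) h3]
        simp
    rw [h2, commutatorElement_def]
    have ha : L_Gen_d {z | r y z} a ∈ ((Ms r ⊓ Sp U) ⊔ (Ms s ⊓ Sp U) : Subgroup (Y → X)) :=
      Subgroup.mem_sup_left (L_Gen_mem r U hr y hy a)
    have hb : L_Gen_d {z | s y z} b ∈ ((Ms r ⊓ Sp U) ⊔ (Ms s ⊓ Sp U) : Subgroup (Y → X)) :=
      Subgroup.mem_sup_right (L_Gen_mem s U hs y hy b)
    exact mul_mem (mul_mem (mul_mem ha hb) (inv_mem ha)) (inv_mem hb)
  rw [hX] at h1
  exact h1 (Subgroup.mem_top g)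

theorem prf_Gen : S_Gen := by
  intro Y X _ _ hX r s U hr hs
  have hrs : ∀ y z, (r ⊓ s) y z → (y ∈ U ↔ z ∈ U) := fun y z h => hr y z h.1
  suffices H : ∀ (n : ℕ) (f : Y → X), f ∈ (Ms (r ⊓ s) ⊓ Sp U : Subgroup (Y → X)) →
      {y | f y ≠ 1}.ncard = n → f ∈ ((Ms r ⊓ Sp U) ⊔ (Ms s ⊓ Sp U) : Subgroup (Y → X)) from
    fun f hf => H _ f hf rfl
  intro n
  induction n using Nat.strong_induction_on with
  | _ n ih =>
    intro f hf hn
    by_cases h0 : ∀ y, f y = 1
    · have : f = 1 := funext h0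
      rw [this]
      exact one_mem _
    · push Not at h0
      obtain ⟨y, hy⟩ := h0
      have hyU : y ∈ U := by
        by_contra h
        exact hy (hf.2 y h)
      have h1 := L_Gen_mem (r ⊓ s) U hrs y hyU (f y)
      have h2 : f * (L_Gen_d {z | (r ⊓ s) y z} (f y))⁻¹ ∈
          (Ms (r ⊓ s) ⊓ Sp U : Subgroup (Y → X)) := mul_mem hf (inv_mem h1)
      have h3 : {z | (f * (L_Gen_d {z | (r ⊓ s) y z} (f y))⁻¹) z ≠ 1}.ncard < n := by
        rw [← hn]
        refine Set.ncard_lt_ncard ?_ (Set.toFinite _)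
        rw [Set.ssubset_iff_of_subset]
        · refine ⟨y, hy, ?_⟩
          intro h
          apply h
          rw [Pi.mul_apply, Pi.inv_apply,
            L_Gen_pos (C := {z | (r ⊓ s) y z}) ((r ⊓ s).refl' y), mul_inv_cancel]
        · intro z hz
          by_contra h
          apply hz
          have hz1 : f z = 1 := by
            by_contra h'
            exact h h'
          rw [Pi.mul_apply, Pi.inv_apply]
          by_cases h4 : (r ⊓ s) y z
          · rw [L_Gen_pos (C := {z | (r ⊓ s) y z}) h4, hf.1 y z h4, mul_inv_cancel]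
          · rw [L_Gen_neg (C := {z | (r ⊓ s) y z}) h4, hz1, inv_one, mul_one]
      have h4 := ih _ h3 _ h2 rfl
      have h5 := mul_mem h4 (L_Gen_class hX r s U hr hs y hyU (f y))
      rwa [inv_mul_cancel_right] at h5

end VRC

end

section

set_option autoImplicit false

/-! Central extensions of a nice group. -/

namespace VRC

theorem L_Lift_comap {G H : Type} [Group G] [Group H] (f : G →* H) (K : Subgroup H)
    (hK : K.index ≠ 0) : (K.comap f).index ≠ 0 := by
  have : K.FiniteIndex := ⟨hK⟩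
  rw [Subgroup.index_comap]
  have := Subgroup.isFiniteRelIndex_of_finiteIndex (H := K) (K := f.range)
  exact Subgroup.relIndex_ne_zero

theorem L_Lift_fg {G : Type} [Group G] (h : Group.IsFinitelyPresented G) : Group.FG G := by
  obtain ⟨n, φ, hφ, _⟩ := h.out
  exact Group.fg_of_surjective hφ

/-- the powers of the elements of an abelian subgroup of finite index -/
theorem L_Lift_pow {G : Type} [Group G] (hG : Group.FG G) (A : Subgroup G) (hA : A.index ≠ 0)
    (hc : ∀ x ∈ A, ∀ y ∈ A, x * y = y * x) (n : ℕ) (hn : n ≠ 0) :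
    ∃ P : Subgroup G, P.index ≠ 0 ∧ ∀ x ∈ P, ∃ a ∈ A, a ^ n = x := by
  have hf : A.FiniteIndex := ⟨hA⟩
  have hfg : Group.FG A := Subgroup.fg_of_index_ne_zero A
  let _ : CommGroup A :=
    { (inferInstance : Group A) with mul_comm := fun x y => Subtype.ext (hc x x.2 y y.2) }
  refine ⟨((powMonoidHom n : A →* A).range).map A.subtype, ?_, ?_⟩
  · rw [Subgroup.index_map_subtype]
    have := Subgroup.finiteIndex_range_powMonoidHom_of_fg A hn
    exact Nat.mul_ne_zero this.index_ne_zero hA
  · rintro x ⟨_, ⟨a, rfl⟩, rfl⟩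
    exact ⟨a, a.2, rfl⟩

/-- commutators do not change if central elements are added -/
theorem L_Lift_comm {E : Type} [Group E] (x y s t : E) (hs : ∀ z, s * z = z * s)
    (ht : ∀ z, t * z = z * t) :
    (t * y) * (s * x) * (t * y)⁻¹ * (s * x)⁻¹ = y * x * y⁻¹ * x⁻¹ := by
  calc (t * y) * (s * x) * (t * y)⁻¹ * (s * x)⁻¹
      = t * (y * (s * (x * y⁻¹))) * t⁻¹ * (x⁻¹ * s⁻¹) := by group
    _ = y * (s * (x * y⁻¹)) * (x⁻¹ * s⁻¹) := by rw [ht, mul_inv_cancel_right]
    _ = y * (s * (x * y⁻¹ * x⁻¹) * s⁻¹) := by group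
    _ = y * (x * y⁻¹ * x⁻¹) := by rw [hs, mul_inv_cancel_right]
    _ = y * x * y⁻¹ * x⁻¹ := by group

section

variable {X E : Type} [Group X] [Group E] (p : E →* X)

theorem L_Lift_base (hk : ∀ x, p x = 1 → ∀ z, x * z = z * x) (x y h : E)
    (hxy : p x * p y = p y * p x) (h1 : p h * p x * (p h)⁻¹ = p y)
    (h2 : p h * p y * (p h)⁻¹ = p x) : Commute (x ^ 2) y := by
  set c := x * y * x⁻¹ * y⁻¹ with hc
  have hcc : ∀ z, c * z = z * c := by
    apply hk
    rw [hc, map_mul, map_mul, map_mul, map_inv, map_inv, hxy]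
    group
  have ht : ∀ z, (h * x * h⁻¹ * y⁻¹) * z = z * (h * x * h⁻¹ * y⁻¹) := by
    apply hk
    rw [map_mul, map_mul, map_mul, map_inv, map_inv, h1, mul_inv_cancel]
  have hs : ∀ z, (h * y * h⁻¹ * x⁻¹) * z = z * (h * y * h⁻¹ * x⁻¹) := by
    apply hk
    rw [map_mul, map_mul, map_mul, map_inv, map_inv, h2, mul_inv_cancel]
  have e1 : h * c * h⁻¹ = c := by rw [← hcc, mul_inv_cancel_right]
  have e2 : h * c * h⁻¹ = y * x * y⁻¹ * x⁻¹ := by
    rw [← L_Lift_comm x y _ _ hs ht, hc]
    group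
  have e3 : c * c = 1 := by
    have e4 : c = y * x * y⁻¹ * x⁻¹ := e1.symm.trans e2
    calc c * c = (x * y * x⁻¹ * y⁻¹) * (y * x * y⁻¹ * x⁻¹) := by rw [← hc, ← e4]
      _ = 1 := by group
  have e5 : x * y = c * (y * x) := by rw [hc]; group
  clear_value c
  show x ^ 2 * y = y * x ^ 2
  calc x ^ 2 * y = x * (x * y) := by rw [pow_two, mul_assoc]
    _ = x * c * (y * x) := by rw [e5, mul_assoc]
    _ = c * (x * y) * x := by rw [← hcc]; group
    _ = (c * c) * (y * x ^ 2) := by rw [e5, pow_two]; group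
    _ = y * x ^ 2 := by rw [e3, one_mul]

theorem L_Lift_A (hs : Function.Surjective p) (hk : ∀ x, p x = 1 → ∀ z, x * z = z * x)
    (M : Subgroup X) (b : Fin 4 → X) (hM : ∀ x ∈ M, ∀ y ∈ M, x * y = y * x)
    (hb : Subgroup.closure (Set.range b) = M) (y : E)
    (h : ∀ i x, p x = b i → Commute (x ^ 2) y) : ∀ x, p x ∈ M → Commute (x ^ 2) y := by
  have key : ∀ m, m ∈ Subgroup.closure (Set.range b) → ∀ x, p x = m → Commute (x ^ 2) y := by
    intro m hm
    induction hm using Subgroup.closure_induction with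
    | mem m hm =>
      obtain ⟨i, rfl⟩ := hm
      exact h i
    | one =>
      intro x hx
      exact (show Commute x y from hk x hx y).pow_left 2
    | mul m m' hm hm' ih ih' =>
      intro x hx
      obtain ⟨u, hu⟩ := hs m
      obtain ⟨u', hu'⟩ := hs m'
      have hmm : m * m' = m' * m := hM m (hb ▸ hm) m' (hb ▸ hm')
      have ht : Commute (x ^ 2 * (u ^ 2 * u' ^ 2)⁻¹) y := by
        refine hk _ ?_ y
        rw [map_mul, map_inv, map_mul, map_pow, map_pow, map_pow, hx, hu, hu',
          (show Commute m m' from hmm).mul_pow, mul_inv_cancel]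
      have h1 := ht.mul_left ((ih u hu).mul_left (ih' u' hu'))
      rwa [inv_mul_cancel_right] at h1
    | inv m hm ih =>
      intro x hx
      have h1 := ih x⁻¹ (by rw [map_inv, hx, inv_inv])
      rw [inv_pow] at h1
      exact (Commute.inv_left_iff).1 h1
  intro x hx
  exact key (p x) (hb ▸ hx) x rfl

theorem L_Lift_B (hs : Function.Surjective p) (hk : ∀ x, p x = 1 → ∀ z, x * z = z * x)
    (M : Subgroup X) (b : Fin 4 → X) (hb : Subgroup.closure (Set.range b) = M) (z : E)
    (h : ∀ i y, p y = b i → Commute z y) : ∀ y, p y ∈ M → Commute z y := by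
  have key : ∀ m, m ∈ Subgroup.closure (Set.range b) → ∀ y, p y = m → Commute z y := by
    intro m hm
    induction hm using Subgroup.closure_induction with
    | mem m hm =>
      obtain ⟨i, rfl⟩ := hm
      exact h i
    | one =>
      intro y hy
      exact (show Commute y z from hk y hy z).symm
    | mul m m' hm hm' ih ih' =>
      intro y hy
      obtain ⟨u, hu⟩ := hs m
      obtain ⟨u', hu'⟩ := hs m'
      have ht : Commute z (y * (u * u')⁻¹) := by
        refine (show Commute _ z from hk _ ?_ z).symm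
        rw [map_mul, map_inv, map_mul, hy, hu, hu', mul_inv_cancel]
      have h1 := ht.mul_right ((ih u hu).mul_right (ih' u' hu'))
      rwa [inv_mul_cancel_right] at h1
    | inv m hm ih =>
      intro y hy
      have h1 := ih y⁻¹ (by rw [map_inv, hy, inv_inv])
      exact (Commute.inv_right_iff).1 h1
  intro y hy
  exact key (p y) (hb ▸ hy) y rfl

theorem L_Lift_sq (hs : Function.Surjective p) (hk : ∀ x, p x = 1 → ∀ z, x * z = z * x)
    (M : Subgroup X) (b : Fin 4 → X) (hM : ∀ x ∈ M, ∀ y ∈ M, x * y = y * x)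
    (hb : Subgroup.closure (Set.range b) = M)
    (hsw : ∀ i j, ∃ h : X, h * b i * h⁻¹ = b j ∧ h * b j * h⁻¹ = b i) :
    ∀ x y, p x ∈ M → p y ∈ M → Commute (x ^ 2) y := by
  have hbM : ∀ i, b i ∈ M := fun i => hb ▸ Subgroup.subset_closure ⟨i, rfl⟩
  intro x y hx hy
  refine L_Lift_A p hs hk M b hM hb y (fun i x hx => ?_) x hx
  refine L_Lift_B p hs hk M b hb _ (fun j y hy => ?_) y hy
  obtain ⟨h, h1, h2⟩ := hsw i j
  obtain ⟨h', rfl⟩ := hs h
  refine L_Lift_base p hk x y h' ?_ ?_ ?_
  · rw [hx, hy]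
    exact hM _ (hbM i) _ (hbM j)
  · rw [hx, hy, h1]
  · rw [hx, hy, h2]

end

theorem prf_Lift : S_Lift := by
  rintro X _ ⟨hXfp, _, hRF, hVI, ⟨g₀, hg₀⟩, M, b, hMn, hMi, hMc, hMt, hb, hsw⟩ E _ p hE hperf hs hker
  have hk : ∀ x, p x = 1 → ∀ z, x * z = z * x := by
    intro x hx z
    exact ((Subgroup.mem_center_iff.1 (hker hx)) z).symm
  have hsq := L_Lift_sq p hs hk M b hMc hb hsw
  have hXfg := L_Lift_fg hXfp
  have hEfg := L_Lift_fg hE
  set L : Subgroup E := M.comap p with hL
  have hLn : L.Normal := hMn.comap p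
  set N : Subgroup E := L ⊓ Subgroup.centralizer (L : Set E) with hN
  have hNn : N.Normal := by
    rw [hN]
    infer_instance
  have hNc : ∀ a ∈ N, ∀ b ∈ N, a * b = b * a := by
    intro a ha b hb
    exact (Subgroup.mem_centralizer_iff.1 hb.2) a ha.1
  have hNi : N.index ≠ 0 := by
    obtain ⟨P, hP, hP2⟩ := L_Lift_pow hXfg M hMi hMc 2 two_ne_zero
    have : (P.comap p).FiniteIndex := ⟨L_Lift_comap p P hP⟩
    have hle : P.comap p ≤ N := by
      intro x hx
      obtain ⟨m, hm, hmx⟩ := hP2 (p x) hx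
      obtain ⟨u, rfl⟩ := hs m
      refine ⟨?_, Subgroup.mem_centralizer_iff.2 ?_⟩
      · show p x ∈ M
        rw [← hmx]
        exact M.pow_mem hm 2
      · intro y hy
        have h1 : Commute (x * (u ^ 2)⁻¹) y := by
          refine hk _ ?_ y
          rw [map_mul, map_inv, map_pow, hmx, mul_inv_cancel]
        have h2 := h1.mul_left (hsq u y hm hy)
        rw [inv_mul_cancel_right] at h2
        exact h2.symm
    exact (Subgroup.finiteIndex_of_le hle).index_ne_zero
  have hNf : N.FiniteIndex := ⟨hNi⟩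
  -- the kernel has finite exponent
  have hexp : ∀ t, p t = 1 → t ^ N.index = 1 := by
    intro t ht
    let _ : CommGroup N :=
      { (inferInstance : Group N) with mul_comm := fun x y => Subtype.ext (hNc x x.2 y y.2) }
    have key : ∀ (k : ℕ) (g₀ : E), g₀⁻¹ * t ^ k * g₀ ∈ N → g₀⁻¹ * t ^ k * g₀ = t ^ k := by
      intro k g₀ _
      have h1 : Commute (t ^ k) g₀ := (show Commute t g₀ from hk t ht g₀).pow_left k
      rw [mul_assoc, h1.eq, inv_mul_cancel_left]
    have h1 := MonoidHom.transfer_eq_pow (MonoidHom.id N) t key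
    have h2 : t ∈ ((MonoidHom.id N).transfer : E →* N).ker :=
      Abelianization.commutator_subset_ker _ (hperf ▸ Subgroup.mem_top t)
    rw [MonoidHom.mem_ker.1 h2] at h1
    exact (congrArg (fun x : N => (x : E)) h1).symm
  have hinf : ∀ g : E, ¬ IsOfFinOrder g → ¬ IsOfFinOrder (p g) := by
    intro g hg hpg
    apply hg
    rw [isOfFinOrder_iff_pow_eq_one] at hpg ⊢
    obtain ⟨j, hj, hpj⟩ := hpg
    refine ⟨j * N.index, Nat.mul_pos hj (Nat.pos_of_ne_zero hNi), ?_⟩
    rw [pow_mul]
    exact hexp _ (by rw [map_pow, hpj])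
  refine ⟨⟨N, hNn, hNi, hNc⟩, ?_, ?_, ?_⟩
  · intro g hg
    by_cases hpg : p g = 1
    · obtain ⟨P, hP, hP2⟩ := L_Lift_pow hEfg N hNi hNc N.index hNi
      refine ⟨P, hP, fun hgP => hg ?_⟩
      obtain ⟨a, ha, hag⟩ := hP2 g hgP
      have h1 : p a = 1 := by
        apply hMt _ ha.1
        rw [isOfFinOrder_iff_pow_eq_one]
        exact ⟨N.index, Nat.pos_of_ne_zero hNi, by rw [← map_pow, hag, hpg]⟩
      rw [← hag]
      exact hexp a h1
    · obtain ⟨H, hH, hgH⟩ := hRF (p g) hpg
      exact ⟨H.comap p, L_Lift_comap p H hH, hgH⟩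
  · intro g hg
    obtain ⟨H, hgH, hH, φ, hφ⟩ := hVI (p g) (hinf g hg)
    exact ⟨H.comap p, hgH, L_Lift_comap p H hH, φ.comp (p.subgroupComap H), hφ⟩
  · obtain ⟨g, rfl⟩ := hs g₀
    exact ⟨g, fun h => hg₀ (p.isOfFinOrder h)⟩

end VRC

end

section

set_option autoImplicit false

/-! An explicit perfect crystallographic group. -/

namespace VRC

open Equiv

/-- vectors with sum zero -/
def L_Nice_M0 : AddSubgroup (Fin 5 → ℤ) where
  carrier := {v | ∑ i, v i = 0}
  zero_mem' := by simp
  add_mem' := fun {a b} ha hb => by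
    simp only [Set.mem_ofPred_eq] at ha hb ⊢
    simp only [Pi.add_apply, Finset.sum_add_distrib, ha, hb, add_zero]
  neg_mem' := fun {a} ha => by
    simp only [Set.mem_ofPred_eq] at ha ⊢
    simp only [Pi.neg_apply, Finset.sum_neg_distrib, ha, neg_zero]

theorem L_Nice_sum (v : L_Nice_M0) : ∑ i, v.1 i = 0 := v.2

/-- permutation of the coordinates -/
def L_Nice_act (g : Perm (Fin 5)) : L_Nice_M0 ≃+ L_Nice_M0 where
  toFun v := ⟨fun i => v.1 (g⁻¹ i), by
    show ∑ i, v.1 (g⁻¹ i) = 0
    rw [Equiv.sum_comp g⁻¹ (fun i => v.1 i)]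
    exact v.2⟩
  invFun v := ⟨fun i => v.1 (g i), by
    show ∑ i, v.1 (g i) = 0
    rw [Equiv.sum_comp g (fun i => v.1 i)]
    exact v.2⟩
  left_inv v := by
    apply Subtype.ext
    funext i
    simp
  right_inv v := by
    apply Subtype.ext
    funext i
    simp
  map_add' v w := by
    apply Subtype.ext
    funext i
    rfl

/-- the action -/
def L_Nice_phi : alternatingGroup (Fin 5) →* MulAut (Multiplicative L_Nice_M0) where
  toFun g := AddEquiv.toMultiplicative (L_Nice_act g)
  map_one' := by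
    apply MulEquiv.ext
    intro v
    rfl
  map_mul' g h := by
    apply MulEquiv.ext
    intro v
    apply Subtype.ext
    funext i
    show (Multiplicative.toAdd v).1 (((g : Perm (Fin 5)) * h)⁻¹ i) = _
    rw [mul_inv_rev]
    rfl

/-- the group -/
abbrev L_Nice_X : Type := Multiplicative L_Nice_M0 ⋊[L_Nice_phi] alternatingGroup (Fin 5)

/-- the vector -/
def L_Nice_val (x : L_Nice_X) : Fin 5 → ℤ := (Multiplicative.toAdd x.left).1

/-- elements -/
def L_Nice_mk (v : L_Nice_M0) (g : alternatingGroup (Fin 5)) : L_Nice_X :=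
  ⟨Multiplicative.ofAdd v, g⟩

theorem L_Nice_ext {x y : L_Nice_X} (h1 : ∀ i, L_Nice_val x i = L_Nice_val y i)
    (h2 : x.right = y.right) : x = y := by
  apply SemidirectProduct.ext
  · apply Multiplicative.toAdd.injective
    apply Subtype.ext
    funext i
    exact h1 i
  · exact h2

theorem L_Nice_val_mul (x y : L_Nice_X) (i : Fin 5) :
    L_Nice_val (x * y) i = L_Nice_val x i + L_Nice_val y ((x.right : Perm (Fin 5))⁻¹ i) := rfl

theorem L_Nice_val_one (i : Fin 5) : L_Nice_val 1 i = 0 := rfl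

theorem L_Nice_val_mk (v : L_Nice_M0) (g : alternatingGroup (Fin 5)) (i : Fin 5) :
    L_Nice_val (L_Nice_mk v g) i = v.1 i := rfl

theorem L_Nice_val_sum (x : L_Nice_X) : ∑ i, L_Nice_val x i = 0 := (Multiplicative.toAdd x.left).2

theorem L_Nice_ias (g : Perm (Fin 5)) (i : Fin 5) : g⁻¹ (g i) = i := g.symm_apply_apply i

theorem L_Nice_val_inv (x : L_Nice_X) (i : Fin 5) :
    L_Nice_val x⁻¹ i = - L_Nice_val x ((x.right : Perm (Fin 5)) i) := by
  have h1 := L_Nice_val_mul x x⁻¹ ((x.right : Perm (Fin 5)) i)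
  rw [mul_inv_cancel, L_Nice_val_one] at h1
  rw [L_Nice_ias] at h1
  linarith

/-- the projection -/
abbrev L_Nice_pr : L_Nice_X →* alternatingGroup (Fin 5) := SemidirectProduct.rightHom

theorem L_Nice_index : (L_Nice_pr.ker).index ≠ 0 := by
  rw [Subgroup.index_ker]
  exact Nat.card_pos.ne'

theorem L_Nice_mem_ker {x : L_Nice_X} : x ∈ L_Nice_pr.ker ↔ x.right = 1 := Iff.rfl

theorem L_Nice_pow {x : L_Nice_X} (hx : x.right = 1) (n : ℕ) (i : Fin 5) :
    L_Nice_val (x ^ n) i = n * L_Nice_val x i := by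
  induction n with
  | zero => simp [L_Nice_val_one]
  | succ n ih =>
    rw [pow_succ', L_Nice_val_mul, hx]
    simp only [Subgroup.coe_one, inv_one, Perm.coe_one, id_eq]
    rw [ih]
    push_cast
    ring

theorem L_Nice_right_pow (x : L_Nice_X) (n : ℕ) : (x ^ n).right = x.right ^ n :=
  map_pow L_Nice_pr x n

theorem L_Nice_zpow {x : L_Nice_X} (hx : x.right = 1) (n : ℤ) (i : Fin 5) :
    L_Nice_val (x ^ n) i = n * L_Nice_val x i := by
  obtain ⟨m, rfl | rfl⟩ := n.eq_nat_or_neg
  · rw [zpow_natCast, L_Nice_pow hx]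
  · rw [zpow_neg, zpow_natCast, L_Nice_val_inv, L_Nice_right_pow, hx, one_pow]
    simp only [Subgroup.coe_one, Perm.coe_one, id_eq]
    rw [L_Nice_pow hx]
    push_cast
    try ring

theorem L_Nice_zpow_right {x : L_Nice_X} (hx : x.right = 1) (n : ℤ) : (x ^ n).right = 1 := by
  have h1 : L_Nice_pr (x ^ n) = 1 := by rw [map_zpow]; show x.right ^ n = 1; rw [hx, one_zpow]
  exact h1

theorem L_Nice_tf {x : L_Nice_X} (hx : x.right = 1) (hf : IsOfFinOrder x) : x = 1 := by
  obtain ⟨n, hn, h1⟩ := isOfFinOrder_iff_pow_eq_one.1 hf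
  apply L_Nice_ext
  · intro i
    have h2 := L_Nice_pow hx n i
    rw [h1, L_Nice_val_one] at h2
    rw [L_Nice_val_one]
    have h3 : (n : ℤ) ≠ 0 := by exact_mod_cast hn.ne'
    rcases mul_eq_zero.1 h2.symm with h4 | h4
    · exact absurd h4 h3
    · exact h4
  · exact hx

/-- action on a finite set -/
@[instance_reducible] def L_Nice_fin (k : ℕ) : MulAction L_Nice_X (Fin 5 → ZMod k) where
  smul x u := fun i => (L_Nice_val x i : ZMod k) + u ((x.right : Perm (Fin 5))⁻¹ i)
  one_smul u := by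
    funext i
    show ((L_Nice_val 1 i : ℤ) : ZMod k) + u i = u i
    rw [L_Nice_val_one]
    simp
  mul_smul x y u := by
    funext i
    show ((L_Nice_val (x * y) i : ℤ) : ZMod k) + u (((x.right : Perm (Fin 5)) * y.right)⁻¹ i) =
      ((L_Nice_val x i : ℤ) : ZMod k) + (((L_Nice_val y ((x.right : Perm (Fin 5))⁻¹ i) : ℤ) : ZMod k)
        + u ((y.right : Perm (Fin 5))⁻¹ ((x.right : Perm (Fin 5))⁻¹ i)))
    rw [L_Nice_val_mul, mul_inv_rev]
    push_cast
    rw [add_assoc]
    rfl

theorem L_Nice_RF : RF L_Nice_X := by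
  intro x hx
  by_cases hr : x.right = 1
  · have h1 : ∃ i, L_Nice_val x i ≠ 0 := by
      by_contra h
      push Not at h
      exact hx (L_Nice_ext (fun i => by rw [h i]; rfl) hr)
    obtain ⟨i, hi⟩ := h1
    set k : ℕ := (L_Nice_val x i).natAbs + 1 with hk
    have : NeZero k := ⟨by omega⟩
    let _ := L_Nice_fin k
    refine ⟨(MulAction.toPermHom L_Nice_X (Fin 5 → ZMod k)).ker, ?_, ?_⟩
    · rw [Subgroup.index_ker]
      exact Nat.card_pos.ne'
    · intro hm
      have h2 : (MulAction.toPermHom L_Nice_X (Fin 5 → ZMod k)) x = 1 := hm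
      have h3 : x • (0 : Fin 5 → ZMod k) = 0 := by
        have := congrArg (fun p : Perm (Fin 5 → ZMod k) => p 0) h2
        exact this
      have h4 := congrFun h3 i
      have h5 : ((L_Nice_val x i : ℤ) : ZMod k) + 0 = 0 := h4
      rw [add_zero, ZMod.intCast_zmod_eq_zero_iff_dvd] at h5
      have h6 := Int.natAbs_dvd_natAbs.2 h5
      rw [Int.natAbs_natCast] at h6
      have h7 := Nat.le_of_dvd (Int.natAbs_pos.2 hi) h6
      omega
  · exact ⟨L_Nice_pr.ker, L_Nice_index, fun h => hr h⟩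

/-- stabiliser of a vector -/
def L_Nice_H (w : Fin 5 → ℤ) : Subgroup L_Nice_X where
  carrier := {z | ∀ i, w ((z.right : Perm (Fin 5))⁻¹ i) = w i}
  one_mem' := fun i => rfl
  mul_mem' := fun {a b} ha hb i => by
    show w (((a.right : Perm (Fin 5)) * b.right)⁻¹ i) = w i
    rw [mul_inv_rev]
    exact (hb _).trans (ha i)
  inv_mem' := fun {a} ha i => by
    show w (((a.right : Perm (Fin 5))⁻¹)⁻¹ i) = w i
    rw [inv_inv]
    have := ha ((a.right : Perm (Fin 5)) i)
    rw [L_Nice_ias] at this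
    exact this.symm

/-- the homomorphism -/
def L_Nice_hom (w : Fin 5 → ℤ) : L_Nice_H w →* Multiplicative ℤ where
  toFun z := Multiplicative.ofAdd (∑ i, L_Nice_val z.1 i * w i)
  map_one' := by
    show Multiplicative.ofAdd (∑ i, L_Nice_val 1 i * w i) = 1
    simp [L_Nice_val_one]
  map_mul' := fun a b => by
    rw [← ofAdd_add]
    congr 1
    show ∑ i, L_Nice_val (a.1 * b.1) i * w i = _
    simp only [L_Nice_val_mul, add_mul, Finset.sum_add_distrib]
    congr 1
    have h1 : ∀ i, L_Nice_val b.1 ((a.1.right : Perm (Fin 5))⁻¹ i) * w i =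
        (fun j => L_Nice_val b.1 j * w j) ((a.1.right : Perm (Fin 5))⁻¹ i) := by
      intro i
      show _ = L_Nice_val b.1 ((a.1.right : Perm (Fin 5))⁻¹ i) * w ((a.1.right : Perm (Fin 5))⁻¹ i)
      rw [a.2 i]
    simp only [h1]
    exact Equiv.sum_comp ((a.1.right : Perm (Fin 5))⁻¹) (fun j => L_Nice_val b.1 j * w j)

theorem L_Nice_VI : VI L_Nice_X := by
  intro x hx
  set N : ℕ := Nat.card (alternatingGroup (Fin 5)) with hN
  have hNpos : 0 < N := Nat.card_pos
  have hyr : (x ^ N).right = 1 := by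
    rw [L_Nice_right_pow]
    exact pow_card_eq_one'
  have hy1 : x ^ N ≠ 1 := by
    intro h
    exact hx (isOfFinOrder_iff_pow_eq_one.2 ⟨N, hNpos, h⟩)
  have hcomm : x * x ^ N = x ^ N * x := by rw [← pow_succ, pow_succ']
  have hmem : ∀ i, L_Nice_val (x ^ N) ((x.right : Perm (Fin 5))⁻¹ i) = L_Nice_val (x ^ N) i := by
    intro i
    have h1 := congrArg (fun z => L_Nice_val z i) hcomm
    simp only [L_Nice_val_mul, hyr, Subgroup.coe_one, inv_one, Perm.coe_one, id_eq] at h1
    linarith
  refine ⟨L_Nice_H (L_Nice_val (x ^ N)), hmem, ?_, L_Nice_hom _, ?_⟩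
  · have hle : L_Nice_pr.ker ≤ L_Nice_H (L_Nice_val (x ^ N)) := by
      intro z hz i
      have hz' : z.right = 1 := hz
      rw [hz']
      simp
    intro h0
    have := Subgroup.index_dvd_of_le hle
    rw [h0, zero_dvd_iff] at this
    exact L_Nice_index this
  · intro h1
    have h2 : (L_Nice_hom (L_Nice_val (x ^ N))) (⟨x, hmem⟩ ^ N) = 1 := by
      rw [map_pow, h1, one_pow]
    have h3 : ∑ i, L_Nice_val (x ^ N) i * L_Nice_val (x ^ N) i = 0 := by
      have h4 : (L_Nice_hom (L_Nice_val (x ^ N))) (⟨x, hmem⟩ ^ N) =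
        Multiplicative.ofAdd (∑ i, L_Nice_val (x ^ N) i * L_Nice_val (x ^ N) i) := rfl
      rw [h4] at h2
      exact h2
    have h5 := (Finset.sum_eq_zero_iff_of_nonneg (fun i _ => mul_self_nonneg _)).1 h3
    apply hy1
    apply L_Nice_ext
    · intro i
      have h6 := h5 i (Finset.mem_univ i)
      rw [L_Nice_val_one]
      exact mul_self_eq_zero.1 h6
    · exact hyr

/-- roots -/
def L_Nice_root (i j : Fin 5) : L_Nice_M0 := ⟨Pi.single i 1 - Pi.single j 1, by
  show ∑ t, (Pi.single i (1 : ℤ) - Pi.single j 1 : Fin 5 → ℤ) t = 0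
  simp⟩

theorem L_Nice_single (g : Perm (Fin 5)) (i t : Fin 5) :
    (Pi.single i (1 : ℤ) : Fin 5 → ℤ) (g⁻¹ t) = (Pi.single (g i) (1 : ℤ) : Fin 5 → ℤ) t := by
  simp only [Pi.single_apply]
  have : g⁻¹ t = i ↔ t = g i := by rw [Perm.inv_eq_iff_eq]
  simp only [this]

/-- conjugation of a root -/
theorem L_Nice_conj (g : alternatingGroup (Fin 5)) (i j : Fin 5) :
    L_Nice_mk 0 g * L_Nice_mk (L_Nice_root i j) 1 * (L_Nice_mk 0 g)⁻¹ =
      L_Nice_mk (L_Nice_root ((g : Perm (Fin 5)) i) ((g : Perm (Fin 5)) j)) 1 := by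
  rw [mul_inv_eq_iff_eq_mul]
  apply L_Nice_ext
  · intro t
    rw [L_Nice_val_mul, L_Nice_val_mul]
    show (0 : ℤ) + (Pi.single i (1 : ℤ) - Pi.single j 1 : Fin 5 → ℤ) ((g : Perm (Fin 5))⁻¹ t) =
      (Pi.single ((g : Perm (Fin 5)) i) (1 : ℤ) - Pi.single ((g : Perm (Fin 5)) j) 1 :
        Fin 5 → ℤ) t + 0
    rw [Pi.sub_apply, Pi.sub_apply, L_Nice_single, L_Nice_single]
    ring
  · show g * 1 = 1 * g
    rw [mul_one, one_mul]

/-- the generators -/
def L_Nice_b (i : Fin 4) : L_Nice_X := L_Nice_mk (L_Nice_root 0 i.succ) 1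

theorem L_Nice_closure : Subgroup.closure (Set.range L_Nice_b) = L_Nice_pr.ker := by
  apply le_antisymm
  · rw [Subgroup.closure_le]
    rintro _ ⟨i, rfl⟩
    rfl
  · intro x hx
    have hx' : x.right = 1 := hx
    have hb : ∀ i, L_Nice_b i ∈ Subgroup.closure (Set.range L_Nice_b) :=
      fun i => Subgroup.subset_closure ⟨i, rfl⟩
    have hbr : ∀ i, (L_Nice_b i).right = 1 := fun i => rfl
    have e : x = L_Nice_b 0 ^ (-L_Nice_val x 1) * (L_Nice_b 1 ^ (-L_Nice_val x 2) *
        (L_Nice_b 2 ^ (-L_Nice_val x 3) * L_Nice_b 3 ^ (-L_Nice_val x 4))) := by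
      have hs := L_Nice_val_sum x
      rw [Fin.sum_univ_five] at hs
      apply L_Nice_ext
      · intro t
        rw [L_Nice_val_mul, L_Nice_zpow_right (hbr 0)]
        simp only [Subgroup.coe_one, inv_one, Perm.coe_one, id_eq]
        rw [L_Nice_val_mul, L_Nice_zpow_right (hbr 1)]
        simp only [Subgroup.coe_one, inv_one, Perm.coe_one, id_eq]
        rw [L_Nice_val_mul, L_Nice_zpow_right (hbr 2)]
        simp only [Subgroup.coe_one, inv_one, Perm.coe_one, id_eq]
        rw [L_Nice_zpow (hbr 0), L_Nice_zpow (hbr 1), L_Nice_zpow (hbr 2), L_Nice_zpow (hbr 3)]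
        have hv : ∀ i, L_Nice_val (L_Nice_b i) t =
            (Pi.single 0 (1 : ℤ) - Pi.single i.succ 1 : Fin 5 → ℤ) t := fun i => rfl
        simp only [hv]
        fin_cases t <;> simp [Pi.single_apply, Fin.ext_iff] <;> linarith
      · show x.right = (L_Nice_b 0 ^ (-L_Nice_val x 1)).right *
          ((L_Nice_b 1 ^ (-L_Nice_val x 2)).right *
          ((L_Nice_b 2 ^ (-L_Nice_val x 3)).right * (L_Nice_b 3 ^ (-L_Nice_val x 4)).right))
        rw [L_Nice_zpow_right (hbr 0), L_Nice_zpow_right (hbr 1), L_Nice_zpow_right (hbr 2),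
          L_Nice_zpow_right (hbr 3), hx']
        simp
    rw [e]
    exact mul_mem (zpow_mem (hb 0) _) (mul_mem (zpow_mem (hb 1) _)
      (mul_mem (zpow_mem (hb 2) _) (zpow_mem (hb 3) _)))

theorem L_Nice_perms (i : Fin 4) : ∃ g1 g2 : Perm (Fin 5), ∃ k : Fin 5,
    Perm.sign g1 = 1 ∧ Perm.sign g2 = 1 ∧ g1 0 = 0 ∧ g1 i.succ = k ∧ g2 0 = i.succ ∧
      g2 i.succ = k := by
  have h : ∃ k l : Fin 5, k ≠ 0 ∧ k ≠ i.succ ∧ l ≠ 0 ∧ l ≠ i.succ ∧ l ≠ k := by
    revert i
    decide
  obtain ⟨k, l, h1, h2, h3, h4, h5⟩ := h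
  have h0 : i.succ ≠ 0 := Fin.succ_ne_zero i
  refine ⟨swap i.succ k * swap k l, swap 0 i.succ * swap i.succ k, k, ?_, ?_, ?_, ?_, ?_, ?_⟩
  · rw [map_mul, Perm.sign_swap h2.symm, Perm.sign_swap h5.symm]
    rfl
  · rw [map_mul, Perm.sign_swap h0.symm, Perm.sign_swap h2.symm]
    rfl
  · rw [Perm.mul_apply, swap_apply_of_ne_of_ne h1.symm h3.symm,
      swap_apply_of_ne_of_ne h0.symm h1.symm]
  · rw [Perm.mul_apply, swap_apply_of_ne_of_ne h2.symm h4.symm, swap_apply_left]
  · rw [Perm.mul_apply, swap_apply_of_ne_of_ne h0.symm h1.symm, swap_apply_left]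
  · rw [Perm.mul_apply, swap_apply_left, swap_apply_of_ne_of_ne h1 h2]

theorem L_Nice_swaps (i j : Fin 4) : ∃ g : Perm (Fin 5),
    Perm.sign g = 1 ∧ g 0 = 0 ∧ g i.succ = j.succ ∧ g j.succ = i.succ := by
  by_cases hij : i = j
  · exact ⟨1, by simp, rfl, by rw [hij]; rfl, by rw [hij]; rfl⟩
  have h : ∃ k l : Fin 4, k ≠ l ∧ k ≠ i ∧ k ≠ j ∧ l ≠ i ∧ l ≠ j := by
    revert i j
    decide
  obtain ⟨k, l, h1, h2, h3, h4, h5⟩ := h
  have s : ∀ a b : Fin 4, a ≠ b → a.succ ≠ b.succ := fun a b h h' => h (Fin.succ_injective _ h')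
  have z : ∀ a : Fin 4, (0 : Fin 5) ≠ a.succ := fun a => (Fin.succ_ne_zero a).symm
  refine ⟨swap i.succ j.succ * swap k.succ l.succ, ?_, ?_, ?_, ?_⟩
  · rw [map_mul, Perm.sign_swap (s _ _ hij), Perm.sign_swap (s _ _ h1)]
    rfl
  · rw [Perm.mul_apply, swap_apply_of_ne_of_ne (z k) (z l), swap_apply_of_ne_of_ne (z i) (z j)]
  · rw [Perm.mul_apply, swap_apply_of_ne_of_ne (s _ _ h2.symm) (s _ _ h4.symm), swap_apply_left]
  · rw [Perm.mul_apply, swap_apply_of_ne_of_ne (s _ _ h3.symm) (s _ _ h5.symm), swap_apply_right]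

theorem L_Nice_b_comm (i : Fin 4) : L_Nice_b i ∈ commutator L_Nice_X := by
  obtain ⟨g1, g2, k, s1, s2, e1, e2, e3, e4⟩ := L_Nice_perms i
  set G1 : alternatingGroup (Fin 5) := ⟨g1, by rwa [Perm.mem_alternatingGroup]⟩ with hG1
  set G2 : alternatingGroup (Fin 5) := ⟨g2, by rwa [Perm.mem_alternatingGroup]⟩ with hG2
  have c1 := L_Nice_conj G1 0 i.succ
  have c2 := L_Nice_conj G2 0 i.succ
  have f1 : (G1 : Perm (Fin 5)) = g1 := rfl
  have f2 : (G2 : Perm (Fin 5)) = g2 := rfl
  rw [f1, e1, e2] at c1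
  rw [f2, e3, e4] at c2
  have h1 : L_Nice_mk 0 G1 * L_Nice_b i * (L_Nice_mk 0 G1)⁻¹ * (L_Nice_b i)⁻¹ ∈
      commutator L_Nice_X := Subgroup.commutator_mem_commutator (Subgroup.mem_top _) (Subgroup.mem_top _)
  have h2 : L_Nice_mk 0 G2 * L_Nice_b i * (L_Nice_mk 0 G2)⁻¹ * (L_Nice_b i)⁻¹ ∈
      commutator L_Nice_X := Subgroup.commutator_mem_commutator (Subgroup.mem_top _) (Subgroup.mem_top _)
  have h3 := mul_mem h1 (inv_mem h2)
  have e : L_Nice_mk 0 G1 * L_Nice_b i * (L_Nice_mk 0 G1)⁻¹ * (L_Nice_b i)⁻¹ *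
      (L_Nice_mk 0 G2 * L_Nice_b i * (L_Nice_mk 0 G2)⁻¹ * (L_Nice_b i)⁻¹)⁻¹ = L_Nice_b i := by
    have c1' : L_Nice_mk 0 G1 * L_Nice_b i * (L_Nice_mk 0 G1)⁻¹ =
      L_Nice_mk (L_Nice_root 0 k) 1 := c1
    have c2' : L_Nice_mk 0 G2 * L_Nice_b i * (L_Nice_mk 0 G2)⁻¹ =
      L_Nice_mk (L_Nice_root i.succ k) 1 := c2
    rw [c1', c2', mul_inv_rev, inv_inv, mul_assoc, inv_mul_cancel_left, mul_inv_eq_iff_eq_mul]
    apply L_Nice_ext
    · intro t
      rw [L_Nice_val_mul]
      show (Pi.single 0 (1 : ℤ) - Pi.single k 1 : Fin 5 → ℤ) t =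
        (Pi.single 0 (1 : ℤ) - Pi.single i.succ 1 : Fin 5 → ℤ) t +
        (Pi.single i.succ (1 : ℤ) - Pi.single k 1 : Fin 5 → ℤ) t
      simp only [Pi.sub_apply]
      ring
    · rfl
  rw [e] at h3
  exact h3

theorem L_Nice_perfect : commutator L_Nice_X = ⊤ := by
  rw [eq_top_iff]
  intro x _
  have h1 : x = L_Nice_mk (Multiplicative.toAdd x.left) 1 * SemidirectProduct.inr x.right := by
    apply L_Nice_ext
    · intro i
      rw [L_Nice_val_mul]
      show L_Nice_val x i = L_Nice_val x i + 0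
      rw [add_zero]
    · show x.right = 1 * x.right
      rw [one_mul]
  rw [h1]
  refine mul_mem ?_ ?_
  · have h2 : L_Nice_mk (Multiplicative.toAdd x.left) 1 ∈ Subgroup.closure (Set.range L_Nice_b) := by
      rw [L_Nice_closure]
      rfl
    refine (Subgroup.closure_le _).2 ?_ h2
    rintro _ ⟨i, rfl⟩
    exact L_Nice_b_comm i
  · have h3 : commutator (alternatingGroup (Fin 5)) = ⊤ :=
      commutator_alternatingGroup_eq_top (by simp)
    have h4 : x.right ∈ commutator (alternatingGroup (Fin 5)) := by rw [h3]; trivial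
    have h5 : (SemidirectProduct.inr x.right : L_Nice_X) ∈
        (commutator (alternatingGroup (Fin 5))).map
          (SemidirectProduct.inr : alternatingGroup (Fin 5) →* L_Nice_X) :=
      Subgroup.mem_map_of_mem _ h4
    rw [commutator_def, Subgroup.map_commutator] at h5
    exact Subgroup.commutator_mono le_top le_top h5

/-- coordinates -/
def L_Nice_coord : (Fin 4 → Multiplicative ℤ) ≃* Multiplicative L_Nice_M0 where
  toFun f := Multiplicative.ofAdd ⟨Fin.cons (-∑ i, Multiplicative.toAdd (f i))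
      (fun i => Multiplicative.toAdd (f i)), by
    show ∑ t, (Fin.cons (-∑ i, Multiplicative.toAdd (f i))
      (fun i => Multiplicative.toAdd (f i)) : Fin 5 → ℤ) t = 0
    rw [Fin.sum_univ_succ]
    simp⟩
  invFun v := fun i => Multiplicative.ofAdd ((Multiplicative.toAdd v).1 i.succ)
  left_inv f := by
    funext i
    simp
  right_inv v := by
    apply Multiplicative.toAdd.injective
    apply Subtype.ext
    funext t
    refine Fin.cases ?_ ?_ t
    · have h := (Multiplicative.toAdd v).2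
      have h' : ∑ i, (Multiplicative.toAdd v).1 i = 0 := h
      rw [Fin.sum_univ_succ] at h'
      show -∑ i : Fin 4, (Multiplicative.toAdd v).1 i.succ = (Multiplicative.toAdd v).1 0
      linarith
    · intro i
      rfl
  map_mul' f h := by
    apply Multiplicative.toAdd.injective
    apply Subtype.ext
    funext t
    refine Fin.cases ?_ ?_ t
    · show -∑ i : Fin 4, (Multiplicative.toAdd (f i) + Multiplicative.toAdd (h i)) =
        -∑ i : Fin 4, Multiplicative.toAdd (f i) + -∑ i : Fin 4, Multiplicative.toAdd (h i)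
      rw [Finset.sum_add_distrib]
      ring
    · intro i
      rfl

theorem prf_Nice (h1 : S_FPsemi) (h2 : S_FPpi) : S_Nice := by
  refine ⟨L_Nice_X, inferInstance, ?_, L_Nice_perfect, L_Nice_RF, L_Nice_VI, ?_, ?_⟩
  · apply h1
    have := h2 (Fin 4) (Multiplicative ℤ) inferInstance
    exact Group.IsFinitelyPresented.equiv L_Nice_coord
  · refine ⟨L_Nice_b 0, fun h => ?_⟩
    have h3 := L_Nice_tf (x := L_Nice_b 0) rfl h
    have h4 := congrArg (fun z => L_Nice_val z 0) h3
    have h5 : (Pi.single 0 (1 : ℤ) - Pi.single (Fin.succ 0) 1 : Fin 5 → ℤ) 0 = 0 := h4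
    simp at h5
  · refine ⟨L_Nice_pr.ker, L_Nice_b, inferInstance, L_Nice_index, ?_, ?_, L_Nice_closure, ?_⟩
    · intro x hx y hy
      have hx' : x.right = 1 := hx
      have hy' : y.right = 1 := hy
      apply L_Nice_ext
      · intro i
        rw [L_Nice_val_mul, L_Nice_val_mul, hx', hy']
        simp only [Subgroup.coe_one, inv_one, Perm.coe_one, id_eq]
        ring
      · show x.right * y.right = y.right * x.right
        rw [hx', hy']
    · intro x hx hf
      exact L_Nice_tf hx hf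
    · intro i j
      obtain ⟨g, s, e0, e1, e2⟩ := L_Nice_swaps i j
      set G : alternatingGroup (Fin 5) := ⟨g, by rwa [Perm.mem_alternatingGroup]⟩ with hG
      have f : (G : Perm (Fin 5)) = g := rfl
      refine ⟨L_Nice_mk 0 G, ?_, ?_⟩
      · have c := L_Nice_conj G 0 i.succ
        rw [f, e0, e1] at c
        exact c
      · have c := L_Nice_conj G 0 j.succ
        rw [f, e0, e2] at c
        exact c

end VRC

end

section

set_option autoImplicit false

/-! Finite powers of a perfect group are perfect. -/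

namespace VRC

theorem prf_PerfPi : S_PerfPi := by
  classical
  intro ι X _ _ hX
  rw [eq_top_iff]
  intro f _
  apply Subgroup.pi_mem_of_mulSingle_mem
  intro i
  have h1 : (commutator X).map (MonoidHom.mulSingle (fun _ : ι => X) i) ≤ commutator (ι → X) := by
    rw [commutator_def, commutator_def, Subgroup.map_commutator]
    exact Subgroup.commutator_mono le_top le_top
  apply h1
  rw [hX]
  exact ⟨f i, Subgroup.mem_top _, rfl⟩

end VRC

end

section

set_option autoImplicit false

/-! Finite powers of SP groups are SP. -/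

namespace VRC

open scoped commutatorElement

/-- a subgroup which generates the group together with the centre contains the commutators -/
theorem L_SPpi_comm {E : Type} [Group E] (H : Subgroup E)
    (hH : ∀ e : E, ∃ h ∈ H, ∃ z ∈ Subgroup.center E, e = h * z) :
    commutator E ≤ ⁅H, H⁆ := by
  rw [commutator_def, Subgroup.commutator_le]
  intro g1 _ g2 _
  obtain ⟨h1, hh1, z1, hz1, rfl⟩ := hH g1
  obtain ⟨h2, hh2, z2, hz2, rfl⟩ := hH g2
  have e1 : ∀ g, g * z1 = z1 * g := Subgroup.mem_center_iff.1 hz1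
  have e2 : ∀ g, g * z2 = z2 * g := Subgroup.mem_center_iff.1 hz2
  have h : ⁅h1 * z1, h2 * z2⁆ = ⁅h1, h2⁆ := by
    rw [commutatorElement_def, commutatorElement_def]
    have c1 : h1 * z1 * (h2 * z2) * (h1 * z1)⁻¹ * (h2 * z2)⁻¹ =
        h1 * z1 * h2 * z2 * z1⁻¹ * h1⁻¹ * z2⁻¹ * h2⁻¹ := by group
    rw [c1]
    have c2 : h1 * z1 * h2 * z2 * z1⁻¹ * h1⁻¹ * z2⁻¹ * h2⁻¹ =
        h1 * h2 * h1⁻¹ * h2⁻¹ := by
      have a1 : h1 * z1 * h2 * z2 * z1⁻¹ = h1 * h2 * z2 := by
        rw [mul_assoc h1 z1 h2, ← e1 h2, mul_assoc h1 (h2 * z1) z2, mul_assoc h2 z1 z2, ← e1 z2]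
        group
      rw [a1]
      have a2 : h1 * h2 * z2 * h1⁻¹ * z2⁻¹ = h1 * h2 * h1⁻¹ := by
        rw [mul_assoc (h1 * h2) z2 h1⁻¹, ← e2 h1⁻¹]
        group
      rw [a2]
    rw [c2]
  rw [h]
  exact Subgroup.commutator_mem_commutator hh1 hh2

/-- sections of central extensions -/
theorem L_SPpi_section {X E : Type} [Group X] [Group E] (hX : commutator X = ⊤) (hSP : SP X)
    (p : E →* X) (hp : Function.Surjective p) (hk : p.ker ≤ Subgroup.center E) :
    ∃ σ : X →* E, ∀ x, p (σ x) = x := by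
  set E1 : Subgroup E := commutator E with hE1
  have hmap : E1.map p = ⊤ := by
    rw [hE1, commutator_def, Subgroup.map_commutator, Subgroup.map_top_of_surjective p hp,
      ← commutator_def, hX]
  have hsurj : ∀ x : X, ∃ e ∈ E1, p e = x := by
    intro x
    have : x ∈ E1.map p := by rw [hmap]; exact Subgroup.mem_top x
    exact this
  have hprod : ∀ e : E, ∃ h ∈ E1, ∃ z ∈ Subgroup.center E, e = h * z := by
    intro e
    obtain ⟨h, hh, hpe⟩ := hsurj (p e)
    refine ⟨h, hh, h⁻¹ * e, hk ?_, by group⟩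
    rw [MonoidHom.mem_ker, map_mul, map_inv, hpe, inv_mul_cancel]
  have hle := L_SPpi_comm E1 hprod
  have hperf : commutator E1 = ⊤ := by
    rw [eq_top_iff]
    intro x _
    have h1 : (x : E) ∈ ⁅E1, E1⁆ := hle x.2
    have h2 : (⊤ : Subgroup E1).map E1.subtype = E1 := by
      rw [← MonoidHom.range_eq_map, Subgroup.range_subtype]
    have h3 : ⁅E1, E1⁆ = (commutator E1).map E1.subtype := by
      rw [commutator_def, Subgroup.map_commutator, h2]
    rw [h3] at h1
    obtain ⟨y, hy, hyx⟩ := h1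
    have : y = x := Subtype.ext hyx
    rw [← this]
    exact hy
  have hinj : Function.Injective (p.comp E1.subtype) := by
    apply hSP E1 (p.comp E1.subtype) _ _ hperf
    · intro x
      obtain ⟨e, he, hpe⟩ := hsurj x
      exact ⟨⟨e, he⟩, hpe⟩
    · intro x hx
      rw [Subgroup.mem_center_iff]
      intro y
      have h1 : (x : E) ∈ Subgroup.center E := hk hx
      exact Subtype.ext (Subgroup.mem_center_iff.1 h1 y)
  have hbij : Function.Bijective (p.comp E1.subtype) := by
    refine ⟨hinj, fun x => ?_⟩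
    obtain ⟨e, he, hpe⟩ := hsurj x
    exact ⟨⟨e, he⟩, hpe⟩
  set eqv := MulEquiv.ofBijective (p.comp E1.subtype) hbij with heqv
  refine ⟨E1.subtype.comp eqv.symm.toMonoidHom, fun x => ?_⟩
  exact eqv.apply_symm_apply x

/-- commutators of two lifts are trivial -/
theorem L_SPpi_commute {X E Z : Type} [Group X] [Group E] [Group Z] (hX : commutator X = ⊤)
    (p : E →* Z) (hk : p.ker ≤ Subgroup.center E) (s : X →* E) (t : E)
    (h : ∀ x, Commute (p (s x)) (p t)) (x : X) : Commute (s x) t := by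
  have hc : ∀ x, s x * t * (s x)⁻¹ * t⁻¹ ∈ Subgroup.center E := by
    intro x
    apply hk
    rw [MonoidHom.mem_ker]
    simp only [map_mul, map_inv]
    rw [(h x).eq]
    group
  let f : X →* Subgroup.center E :=
    { toFun := fun x => ⟨s x * t * (s x)⁻¹ * t⁻¹, hc x⟩
      map_one' := by
        apply Subtype.ext
        simp
      map_mul' := by
        intro x y
        apply Subtype.ext
        change s (x * y) * t * (s (x * y))⁻¹ * t⁻¹ =
          (s x * t * (s x)⁻¹ * t⁻¹) * (s y * t * (s y)⁻¹ * t⁻¹)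
        have h1 := Subgroup.mem_center_iff.1 (hc y) (s x)
        rw [map_mul]
        calc s x * s y * t * (s x * s y)⁻¹ * t⁻¹ =
            s x * (s y * t * (s y)⁻¹ * t⁻¹) * t * (s x)⁻¹ * t⁻¹ := by group
          _ = (s y * t * (s y)⁻¹ * t⁻¹) * s x * t * (s x)⁻¹ * t⁻¹ := by rw [h1]
          _ = (s y * t * (s y)⁻¹ * t⁻¹) * (s x * t * (s x)⁻¹ * t⁻¹) := by group
          _ = _ := (Subgroup.mem_center_iff.1 (hc y) _).symm }
  have hle : commutator X ≤ f.ker := by
    rw [commutator_def, Subgroup.commutator_le]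
    intro a _ b _
    rw [MonoidHom.mem_ker, map_commutatorElement, commutatorElement_eq_one_iff_mul_comm]
    exact Subtype.ext (Subgroup.mem_center_iff.1 (f b).2 _)
  have hf : x ∈ f.ker := by
    apply hle
    rw [hX]
    exact Subgroup.mem_top x
  have h2 : s x * t * (s x)⁻¹ * t⁻¹ = 1 := congrArg Subtype.val (MonoidHom.mem_ker.1 hf)
  have h3 : s x * t = t * s x := by
    calc s x * t = (s x * t * (s x)⁻¹ * t⁻¹) * (t * s x) := by group
      _ = t * s x := by rw [h2, one_mul]
  exact h3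

theorem prf_SPpi : S_SPpi := by
  classical
  intro ι X _ _ hX hSP E _ p hp hk hE
  have : Fintype ι := Fintype.ofFinite ι
  -- the homomorphisms `σ i`
  have hsec : ∀ i : ι, ∃ σ : X →* E, ∀ x, p (σ x) = Pi.mulSingle i x := by
    intro i
    let ms : X →* (ι → X) := MonoidHom.mulSingle (fun _ : ι => X) i
    let H : Subgroup E := ms.range.comap p
    let q : H →* X := (Pi.evalMonoidHom (fun _ : ι => X) i).comp (p.comp H.subtype)
    have hH : ∀ e : H, p e = Pi.mulSingle i (q e) := by
      intro e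
      obtain ⟨x, hx⟩ := e.2
      have h1 : p e = Pi.mulSingle i x := hx.symm
      have h2 : q e = x := by
        change p e i = x
        rw [h1, Pi.mulSingle_eq_same]
      rw [h2, h1]
    obtain ⟨σ, hσ⟩ := L_SPpi_section hX hSP q (by
        intro x
        obtain ⟨e, he⟩ := hp (Pi.mulSingle i x)
        refine ⟨⟨e, ⟨x, he.symm⟩⟩, ?_⟩
        change p e i = x
        rw [he, Pi.mulSingle_eq_same]) (by
        intro e he
        have h1 : p e = 1 := by
          rw [hH e, MonoidHom.mem_ker.1 he, Pi.mulSingle_one]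
        have h2 : (e : E) ∈ Subgroup.center E := hk h1
        rw [Subgroup.mem_center_iff]
        intro g
        exact Subtype.ext (Subgroup.mem_center_iff.1 h2 g))
    refine ⟨H.subtype.comp σ, fun x => ?_⟩
    change p (σ x : H) = _
    rw [hH, hσ]
  choose σ hσ using hsec
  have hcomm : Pairwise fun i j => ∀ x y, Commute (σ i x) (σ j y) := by
    intro i j hij x y
    apply L_SPpi_commute hX p hk (σ i) (σ j y) _ x
    intro x
    rw [hσ, hσ]
    exact Pi.mulSingle_commute (f := fun _ : ι => X) hij x y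
  set sg : (ι → X) →* E := MonoidHom.noncommPiCoprod σ hcomm with hsg
  have hid : ∀ f, p (sg f) = f := by
    intro f
    have h1 : f ∈ (p.comp sg).eqLocus (MonoidHom.id _) := by
      apply Subgroup.pi_mem_of_mulSingle_mem
      intro i
      change p (sg (Pi.mulSingle i (f i))) = Pi.mulSingle i (f i)
      rw [hsg, MonoidHom.noncommPiCoprod_mulSingle, hσ]
    exact h1
  have hrange : sg.range = ⊤ := by
    rw [eq_top_iff, ← hE]
    have hself : ⁅sg.range, sg.range⁆ ≤ sg.range := by
      rw [Subgroup.commutator_le]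
      intro a ha b hb
      rw [commutatorElement_def]
      exact mul_mem (mul_mem (mul_mem ha hb) (inv_mem ha)) (inv_mem hb)
    refine (L_SPpi_comm sg.range ?_).trans hself
    intro e
    refine ⟨sg (p e), ⟨p e, rfl⟩, (sg (p e))⁻¹ * e, hk ?_, by group⟩
    rw [MonoidHom.mem_ker, map_mul, map_inv, hid, inv_mul_cancel]
  rw [injective_iff_map_eq_one]
  intro e he
  have h1 : e ∈ sg.range := by rw [hrange]; exact Subgroup.mem_top e
  obtain ⟨f, rfl⟩ := h1
  rw [hid] at he
  rw [he, map_one]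

end VRC

end

section

set_option autoImplicit false

/-! The universal central extension of a finitely presented perfect group. -/

namespace VRC

open scoped commutatorElement

/-- homomorphisms which agree modulo a central subgroup agree on commutators -/
theorem L_UCE_agree {F E X : Type} [Group F] [Group E] [Group X] (f f' : F →* E) (q : E →* X)
    (h : ∀ a, q (f a) = q (f' a)) (hc : q.ker ≤ Subgroup.center E) :
    ∀ c ∈ commutator F, f c = f' c := by
  have hk : ∀ a, ∃ k ∈ Subgroup.center E, f' a = f a * k := by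
    intro a
    refine ⟨(f a)⁻¹ * f' a, hc ?_, by group⟩
    rw [MonoidHom.mem_ker, map_mul, map_inv, h a, inv_mul_cancel]
  have hle : commutator F ≤ f.eqLocus f' := by
    rw [commutator_def, Subgroup.commutator_le]
    intro a _ b _
    show f ⁅a, b⁆ = f' ⁅a, b⁆
    obtain ⟨k, hk1, hk2⟩ := hk a
    obtain ⟨l, hl1, hl2⟩ := hk b
    rw [Subgroup.mem_center_iff] at hk1 hl1
    rw [map_commutatorElement, map_commutatorElement, hk2, hl2, commutatorElement_def,
      commutatorElement_def, mul_inv_rev, mul_inv_rev]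
    have e1 : f a * k * (f b * l) * (k⁻¹ * (f a)⁻¹) * (l⁻¹ * (f b)⁻¹) =
        f a * ((k * (f b * l)) * k⁻¹) * ((f a)⁻¹ * l⁻¹) * (f b)⁻¹ := by group
    rw [e1, ← hk1 (f b * l)]
    have e2 : f a * ((f b * l) * k * k⁻¹) * ((f a)⁻¹ * l⁻¹) * (f b)⁻¹ =
        f a * f b * (l * (f a)⁻¹) * l⁻¹ * (f b)⁻¹ := by group
    rw [e2, ← hl1 ((f a)⁻¹)]
    group
  exact fun c hc' => hle hc'

/-- in a perfect group, elements which are central modulo a central subgroup are central -/
theorem L_UCE_central {E₂ E : Type} [Group E₂] [Group E] (t : E₂ →* E)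
    (hc : t.ker ≤ Subgroup.center E₂) (hp : commutator E₂ = ⊤) {u : E₂}
    (hu : t u ∈ Subgroup.center E) : u ∈ Subgroup.center E₂ := by
  have hz : ∀ g : E₂, ⁅g, u⁆ ∈ Subgroup.center E₂ := by
    intro g
    apply hc
    rw [Subgroup.mem_center_iff] at hu
    rw [MonoidHom.mem_ker, map_commutatorElement, commutatorElement_def, hu (t g)]
    group
  let ψ : E₂ →* E₂ :=
    { toFun := fun g => ⁅g, u⁆
      map_one' := by simp
      map_mul' := by
        intro g g'
        have h := Subgroup.mem_center_iff.1 (hz g') g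
        have e : ⁅g * g', u⁆ = g * ⁅g', u⁆ * (u * g⁻¹ * u⁻¹) := by
          simp only [commutatorElement_def]
          group
        rw [e, h, mul_assoc]
        have e2 : g * (u * g⁻¹ * u⁻¹) = ⁅g, u⁆ := by
          simp only [commutatorElement_def]
          group
        rw [e2]
        exact (Subgroup.mem_center_iff.1 (hz g') ⁅g, u⁆).symm }
  have hψ : commutator E₂ ≤ ψ.ker := by
    rw [commutator_def, Subgroup.commutator_le]
    intro a _ b _
    rw [MonoidHom.mem_ker, map_commutatorElement, commutatorElement_eq_one_iff_mul_comm]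
    exact Subgroup.mem_center_iff.1 (hz b) (ψ a)
  rw [Subgroup.mem_center_iff]
  intro g
  have hg : g ∈ ψ.ker := hψ (by rw [hp]; exact Subgroup.mem_top g)
  have h1 : ⁅g, u⁆ = 1 := hg
  exact commutatorElement_eq_one_iff_mul_comm.1 h1

theorem prf_UCE : S_UCE := by
  intro X _ hfp hperf
  obtain ⟨n, φ, hφ, S, hS, hker⟩ := hfp.out
  -- the elements `c i`
  have hmap : (commutator (FreeGroup (Fin n))).map φ = ⊤ := by
    rw [commutator_def, Subgroup.map_commutator, ← MonoidHom.range_eq_map,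
      MonoidHom.range_eq_top.2 hφ, ← commutator_def, hperf]
  have hc : ∀ i : Fin n, ∃ c ∈ commutator (FreeGroup (Fin n)), φ c = φ (FreeGroup.of i) := by
    intro i
    have : φ (FreeGroup.of i) ∈ (commutator (FreeGroup (Fin n))).map φ := by
      rw [hmap]
      exact Subgroup.mem_top _
    exact Subgroup.mem_map.1 this
  choose c hc1 hc2 using hc
  obtain ⟨T, hT⟩ : ∃ T : Set (FreeGroup (Fin n)), T =
      (⋃ i : Fin n, (fun r => ⁅FreeGroup.of i, r⁆) '' S) ∪
        Set.range (fun i => (c i)⁻¹ * FreeGroup.of i) := ⟨_, rfl⟩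
  have hTfin : T.Finite := by
    rw [hT]
    exact (Set.finite_iUnion fun i => hS.image _).union (Set.finite_range _)
  obtain ⟨N, hN⟩ : ∃ N : Subgroup (FreeGroup (Fin n)), N = Subgroup.normalClosure T := ⟨_, rfl⟩
  have hNn : N.Normal := by rw [hN]; exact Subgroup.normalClosure_normal
  have hTN : T ⊆ N := by rw [hN]; exact Subgroup.subset_normalClosure
  have hSk : ∀ r ∈ S, φ r = 1 := by
    intro r hr
    have : r ∈ φ.ker := by rw [← hker]; exact Subgroup.subset_normalClosure hr
    exact this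
  have hT1 : ∀ i : Fin n, ∀ r ∈ S, ⁅FreeGroup.of i, r⁆ ∈ N := by
    intro i r hr
    apply hTN
    rw [hT]
    exact Or.inl (Set.mem_iUnion.2 ⟨i, r, hr, rfl⟩)
  have hT2 : ∀ i, (c i)⁻¹ * FreeGroup.of i ∈ N := by
    intro i
    apply hTN
    rw [hT]
    exact Or.inr ⟨i, rfl⟩
  have hTker : ∀ (Y : Type) [Group Y] (f : FreeGroup (Fin n) →* Y),
      (∀ i : Fin n, ∀ r ∈ S, f ⁅FreeGroup.of i, r⁆ = 1) → (∀ i, f ((c i)⁻¹ * FreeGroup.of i) = 1) →
      N ≤ f.ker := by
    intro Y _ f h1 h2
    rw [hN]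
    apply Subgroup.normalClosure_le_normal
    rw [hT]
    rintro x (hx | ⟨i, rfl⟩)
    · obtain ⟨i, r, hr, rfl⟩ := Set.mem_iUnion.1 hx
      exact h1 i r hr
    · exact h2 i
  have hNφ : N ≤ φ.ker := by
    apply hTker
    · intro i r hr
      rw [map_commutatorElement, hSk r hr]
      simp
    · intro i
      rw [map_mul, map_inv, hc2 i, inv_mul_cancel]
  -- the quotient
  have hgen : ∀ K : Subgroup (FreeGroup (Fin n) ⧸ N),
      (∀ i, (QuotientGroup.mk' N (FreeGroup.of i)) ∈ K) → K = ⊤ := by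
    intro K hK
    rw [eq_top_iff]
    rintro e -
    obtain ⟨g, rfl⟩ := QuotientGroup.mk'_surjective N e
    have h1 : Subgroup.closure (Set.range (FreeGroup.of : Fin n → _)) ≤
        K.comap (QuotientGroup.mk' N) := by
      rw [Subgroup.closure_le]
      rintro _ ⟨i, rfl⟩
      exact hK i
    rw [FreeGroup.closure_range_of] at h1
    exact h1 (Subgroup.mem_top g)
  have hcen : ∀ k ∈ φ.ker, QuotientGroup.mk' N k ∈ Subgroup.center (FreeGroup (Fin n) ⧸ N) := by
    have hle : φ.ker ≤ (Subgroup.center (FreeGroup (Fin n) ⧸ N)).comap (QuotientGroup.mk' N) := by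
      rw [← hker]
      apply Subgroup.normalClosure_le_normal
      intro r hr
      show QuotientGroup.mk' N r ∈ Subgroup.center (FreeGroup (Fin n) ⧸ N)
      have h1 := hgen (Subgroup.centralizer {QuotientGroup.mk' N r}) (by
        intro i
        rw [Subgroup.mem_centralizer_singleton_iff]
        have h2 : QuotientGroup.mk' N ⁅FreeGroup.of i, r⁆ = 1 := by
          rw [← MonoidHom.mem_ker, QuotientGroup.ker_mk']
          exact hT1 i r hr
        rw [map_commutatorElement, commutatorElement_eq_one_iff_mul_comm] at h2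
        exact h2)
      rw [Subgroup.mem_center_iff]
      intro e
      have h3 : e ∈ Subgroup.centralizer {QuotientGroup.mk' N r} := by
        rw [h1]
        exact Subgroup.mem_top e
      rw [Subgroup.mem_centralizer_singleton_iff] at h3
      exact h3
    exact fun k hk => hle hk
  obtain ⟨p, hp⟩ : ∃ p : FreeGroup (Fin n) ⧸ N →* X, ∀ g, p (QuotientGroup.mk' N g) = φ g :=
    ⟨QuotientGroup.lift N φ (fun x hx => hNφ hx), fun g => rfl⟩
  have hpsurj : Function.Surjective p := by
    intro x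
    obtain ⟨g, hg⟩ := hφ x
    exact ⟨QuotientGroup.mk' N g, by rw [hp, hg]⟩
  have hpker : p.ker ≤ Subgroup.center (FreeGroup (Fin n) ⧸ N) := by
    intro e he
    obtain ⟨g, rfl⟩ := QuotientGroup.mk'_surjective N e
    rw [MonoidHom.mem_ker, hp] at he
    exact hcen g he
  have hEperf : commutator (FreeGroup (Fin n) ⧸ N) = ⊤ := by
    apply hgen
    intro i
    have h1 : QuotientGroup.mk' N (FreeGroup.of i) = QuotientGroup.mk' N (c i) := by
      have h2 : QuotientGroup.mk' N ((c i)⁻¹ * FreeGroup.of i) = 1 := by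
        rw [← MonoidHom.mem_ker, QuotientGroup.ker_mk']
        exact hT2 i
      rw [map_mul, map_inv, inv_mul_eq_one] at h2
      exact h2.symm
    rw [h1]
    have h3 : (commutator (FreeGroup (Fin n))).map (QuotientGroup.mk' N) ≤
        commutator (FreeGroup (Fin n) ⧸ N) := by
      rw [commutator_def, commutator_def, Subgroup.map_commutator]
      exact Subgroup.commutator_mono le_top le_top
    exact h3 (Subgroup.mem_map_of_mem _ (hc1 i))
  -- the universal property
  have huniv : ∀ (E₁ : Type) [Group E₁] (q : E₁ →* X), Function.Surjective q →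
      q.ker ≤ Subgroup.center E₁ → ∃ h : FreeGroup (Fin n) ⧸ N →* E₁, ∀ e, q (h e) = p e := by
    intro E₁ _ q hq hqc
    choose x hx using fun i : Fin n => hq (φ (FreeGroup.of i))
    obtain ⟨f, hf⟩ : ∃ f : FreeGroup (Fin n) →* E₁, ∀ i, f (FreeGroup.of i) = x i :=
      ⟨FreeGroup.lift x, fun i => FreeGroup.lift_apply_of⟩
    have hqf : ∀ g, q (f g) = φ g := by
      have : q.comp f = φ := by
        ext i
        simp [hf, hx]
      intro g
      rw [← this]
      rfl
    obtain ⟨f', hf'⟩ : ∃ f' : FreeGroup (Fin n) →* E₁, ∀ i, f' (FreeGroup.of i) = f (c i) :=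
      ⟨FreeGroup.lift (fun i => f (c i)), fun i => FreeGroup.lift_apply_of⟩
    have hqf' : ∀ g, q (f' g) = φ g := by
      have : q.comp f' = φ := by
        ext i
        simp [hf', hqf, hc2]
      intro g
      rw [← this]
      rfl
    have hag := L_UCE_agree f f' q (fun a => by rw [hqf, hqf']) hqc
    have hNf : N ≤ f'.ker := by
      apply hTker
      · intro i r hr
        rw [map_commutatorElement, commutatorElement_eq_one_iff_mul_comm]
        have h1 : f' r ∈ Subgroup.center E₁ := hqc (by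
          rw [MonoidHom.mem_ker, hqf']
          exact hSk r hr)
        exact Subgroup.mem_center_iff.1 h1 _
      · intro i
        rw [map_mul, map_inv, ← hag (c i) (hc1 i), hf', inv_mul_cancel]
    refine ⟨QuotientGroup.lift N f' (fun x hx => hNf hx), ?_⟩
    intro e
    obtain ⟨g, rfl⟩ := QuotientGroup.mk'_surjective N e
    rw [hp]
    exact hqf' g
  refine ⟨FreeGroup (Fin n) ⧸ N, inferInstance, p, ?_, hEperf, ?_, hpsurj, hpker⟩
  · exact Group.IsFinitelyPresented.quotient N ⟨T, hTfin, hN.symm⟩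
  · intro E₂ _ t ht htc htp
    have hqc : (p.comp t).ker ≤ Subgroup.center E₂ := by
      intro u hu
      exact L_UCE_central t htc htp (hpker hu)
    obtain ⟨h, hh⟩ := huniv E₂ (p.comp t) (hpsurj.comp ht) hqc
    have h1 : ∀ e, t (h e) = e := by
      intro e
      exact L_UCE_agree (t.comp h) (MonoidHom.id _) p (fun a => hh a) hpker e
        (by rw [hEperf]; exact Subgroup.mem_top e)
    have h2 : ∀ u, h (t u) = u := by
      intro u
      exact L_UCE_agree (h.comp t) (MonoidHom.id _) t (fun a => h1 (t a)) htc u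
        (by rw [htp]; exact Subgroup.mem_top u)
    exact Function.LeftInverse.injective h2

end VRC

end

section

set_option autoImplicit false

/-! Sequences over `ZMod 3` with a linear recurrence, and the four operators. -/

namespace VRC

/-- the four operators `1, S, S - 1, S + 1` on sequences (`S` = shift) -/
def op (v : Fin 4) (f : ℕ → ZMod 3) : ℕ → ZMod 3 :=
  match v with
  | 0 => f
  | 1 => fun i => f (i + 1)
  | 2 => fun i => f (i + 1) - f i
  | 3 => fun i => f (i + 1) + f i

@[simp] theorem op_zero (f : ℕ → ZMod 3) (i : ℕ) : op 0 f i = f i := rfl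
@[simp] theorem op_one (f : ℕ → ZMod 3) (i : ℕ) : op 1 f i = f (i + 1) := rfl
@[simp] theorem op_two (f : ℕ → ZMod 3) (i : ℕ) : op 2 f i = f (i + 1) - f i := rfl
@[simp] theorem op_three (f : ℕ → ZMod 3) (i : ℕ) : op 3 f i = f (i + 1) + f i := rfl

theorem op_sub (v : Fin 4) (f g : ℕ → ZMod 3) : op v (f - g) = op v f - op v g := by
  funext i
  fin_cases v <;> simp [op] <;> ring

theorem op_comm (v w : Fin 4) (f : ℕ → ZMod 3) : op v (op w f) = op w (op v f) := by
  funext i
  fin_cases v <;> fin_cases w <;> simp [op] <;> ring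

/-- sequences with the recurrence `y (i + m + 3) = y (i + m + 1) - y i` -/
def Ys (m : ℕ) : AddSubgroup (ℕ → ZMod 3) where
  carrier := {y | ∀ i, y (i + m + 3) = y (i + m + 1) - y i}
  zero_mem' := fun i => by simp
  add_mem' := fun {a b} ha hb i => by
    simp only [Pi.add_apply]; rw [ha i, hb i]; ring
  neg_mem' := fun {a} ha i => by
    simp only [Pi.neg_apply]; rw [ha i]; ring

theorem mem_Ys {m : ℕ} {y : ℕ → ZMod 3} :
    y ∈ Ys m ↔ ∀ i, y (i + m + 3) = y (i + m + 1) - y i := Iff.rfl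

theorem op_mem (m : ℕ) (v : Fin 4) (y : ℕ → ZMod 3) (hy : y ∈ Ys m) : op v y ∈ Ys m := by
  rw [mem_Ys] at *
  intro i
  have h0 := hy i
  have h1 := hy (i + 1)
  have e1 : i + 1 + m + 3 = i + m + 3 + 1 := by ring
  have e2 : i + 1 + m + 1 = i + m + 1 + 1 := by ring
  rw [e1, e2] at h1
  fin_cases v <;> simp only [op]
  · exact h0
  · exact h1
  · rw [h0, h1]; ring
  · rw [h0, h1]; ring

/-- the operators on `Ys m` -/
def opY (m : ℕ) (v : Fin 4) (y : Ys m) : Ys m := ⟨op v y.1, op_mem m v y.1 y.2⟩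

/-- a sequence in `Ys m` vanishing on the first `m + 3` places is zero -/
theorem Ys_ext {m : ℕ} {y z : Ys m} (h : ∀ i, i < m + 3 → y.1 i = z.1 i) : y = z := by
  have key : ∀ i, y.1 i = z.1 i := by
    intro i
    induction i using Nat.strong_induction_on with
    | _ i ih =>
      by_cases hi : i < m + 3
      · exact h i hi
      · obtain ⟨j, rfl⟩ : ∃ j, i = j + m + 3 := ⟨i - (m + 3), by omega⟩
        rw [y.2 j, z.2 j, ih (j + m + 1) (by omega), ih j (by omega)]
  exact Subtype.ext (funext key)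

theorem opY_injective (m : ℕ) (v : Fin 4) : Function.Injective (opY m v) := by
  intro y z h
  have hs : ∀ i, op v y.1 i = op v z.1 i := fun i => congrFun (congrArg Subtype.val h) i
  apply Ys_ext
  intro i _
  have hy := y.2 0
  have hz := z.2 0
  rw [zero_add] at hy hz
  fin_cases v
  · exact hs i
  · cases i with
    | zero =>
      have h1 := hs m
      have h2 := hs (m + 2)
      simp only [op] at h1 h2
      have : y.1 0 = y.1 (m + 1) - y.1 (m + 3) := by rw [hy]; ring
      rw [this, h1, h2, hz]; ring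
    | succ k => exact hs k
  · have hc : ∀ i, y.1 i - z.1 i = y.1 0 - z.1 0 := by
      intro i
      induction i with
      | zero => rfl
      | succ k ih =>
        have := hs k
        simp only [op] at this
        rw [← ih]
        linear_combination this
    have h3 := hc (m + 3)
    have h1 := hc (m + 1)
    rw [hy, hz] at h3
    have h0 : y.1 0 - z.1 0 = 0 := by linear_combination h1 - h3
    have := hc i
    rw [h0] at this
    exact sub_eq_zero.mp this
  · have hstep : ∀ k, y.1 (k + 1) - z.1 (k + 1) = -(y.1 k - z.1 k) := by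
      intro k
      have := hs k
      simp only [op] at this
      linear_combination this
    have h2 := hstep (m + 1)
    have h3 := hstep (m + 2)
    have h0 : y.1 0 - z.1 0 = 0 := by
      have e : y.1 (m + 3) - z.1 (m + 3) = y.1 (m + 1) - z.1 (m + 1) := by
        rw [h3, h2]; ring
      rw [hy, hz] at e
      linear_combination -e
    have : ∀ i, y.1 i - z.1 i = 0 := by
      intro i
      induction i with
      | zero => exact h0
      | succ k ih => rw [hstep k, ih]; ring
    exact sub_eq_zero.mp (this i)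

/-- extension of an initial segment by the recurrence -/
def extSeq (m : ℕ) (c : ℕ → ZMod 3) (i : ℕ) : ZMod 3 :=
  if _h : i < m + 3 then c i else extSeq m c (i - 2) - extSeq m c (i - (m + 3))
termination_by i
decreasing_by all_goals omega

/-- every initial segment of length `m + 3` extends to a sequence in `Ys m` -/
theorem Ys_extend (m : ℕ) (c : ℕ → ZMod 3) : ∃ y : Ys m, ∀ i, i < m + 3 → y.1 i = c i := by
  refine ⟨⟨extSeq m c, ?_⟩, ?_⟩
  · intro i
    rw [extSeq]
    have h : ¬ (i + m + 3 < m + 3) := by omega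
    rw [dif_neg h]
    have e1 : i + m + 3 - 2 = i + m + 1 := by omega
    have e2 : i + m + 3 - (m + 3) = i := by omega
    rw [e1, e2]
  · intro i hi
    show extSeq m c i = c i
    rw [extSeq, dif_pos hi]

instance Ys_finite (m : ℕ) : Finite (Ys m) := by
  apply Finite.of_injective (fun y : Ys m => fun i : Fin (m + 3) => y.1 i)
  intro y z h
  apply Ys_ext
  intro i hi
  exact congrFun h ⟨i, hi⟩

theorem Ys_card (m : ℕ) : m ≤ Nat.card (Ys m) := by
  have hsurj : Function.Surjective (fun y : Ys m => fun i : Fin (m + 3) => y.1 i) := by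
    intro c
    obtain ⟨y, hy⟩ := Ys_extend m (fun i => if h : i < m + 3 then c ⟨i, h⟩ else 0)
    refine ⟨y, funext fun i => ?_⟩
    have := hy i.1 i.2
    simpa [i.2] using this
  have h1 : Nat.card (Fin (m + 3) → ZMod 3) ≤ Nat.card (Ys m) :=
    Nat.card_le_card_of_surjective _ hsurj
  have h2 : Nat.card (Fin (m + 3) → ZMod 3) = 3 ^ (m + 3) := by
    rw [Nat.card_eq_fintype_card]; simp
  rw [h2] at h1
  have h3 : m + 3 < 3 ^ (m + 3) := Nat.lt_pow_self (by norm_num)
  omega

/-- the permutation of `Ys m` given by the operator -/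
noncomputable def tau (m : ℕ) (v : Fin 4) : Equiv.Perm (Ys m) :=
  Equiv.ofBijective (opY m v) ⟨opY_injective m v, Finite.surjective_of_injective (opY_injective m v)⟩

@[simp] theorem tau_apply (m : ℕ) (v : Fin 4) (y : Ys m) : tau m v y = opY m v y := rfl

theorem tau_comm (m : ℕ) (v w : Fin 4) : tau m v * tau m w = tau m w * tau m v := by
  ext1 y
  simp only [Equiv.Perm.mul_apply, tau_apply]
  exact Subtype.ext (op_comm v w y.1)

end VRC

end

section

set_option autoImplicit false

/-! The abstract amalgamation theorem. -/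

namespace VRC

/-- elementwise commutation -/
def L_AT_Co {K : Type} [Group K] (S T : Subgroup K) : Prop := S ≤ Subgroup.centralizer (T : Set K)

section basic

variable {K : Type} [Group K]

theorem L_AT_Co_of {S T : Subgroup K} (h : ∀ a ∈ S, ∀ b ∈ T, a * b = b * a) : L_AT_Co S T := by
  intro a ha
  rw [Subgroup.mem_centralizer_iff]
  intro b hb
  exact (h a ha b hb).symm

theorem L_AT_Co_to {S T : Subgroup K} (h : L_AT_Co S T) : ∀ a ∈ S, ∀ b ∈ T, a * b = b * a := by
  intro a ha b hb
  exact (Subgroup.mem_centralizer_iff.1 (h ha) b hb).symm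

theorem L_AT_Co_symm {S T : Subgroup K} (h : L_AT_Co S T) : L_AT_Co T S :=
  L_AT_Co_of fun a ha b hb => (L_AT_Co_to h b hb a ha).symm

theorem L_AT_Co_sup {S S' T : Subgroup K} (h : L_AT_Co S T) (h' : L_AT_Co S' T) :
    L_AT_Co (S ⊔ S') T := sup_le h h'

theorem L_AT_Co_iSup {ι : Sort*} {S : ι → Subgroup K} {T : Subgroup K}
    (h : ∀ i, L_AT_Co (S i) T) : L_AT_Co (⨆ i, S i) T := iSup_le h

theorem L_AT_Co_mono {S S' T T' : Subgroup K} (h : L_AT_Co S T) (h1 : S' ≤ S) (h2 : T' ≤ T) :
    L_AT_Co S' T' :=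
  L_AT_Co_of fun a ha b hb => L_AT_Co_to h a (h1 ha) b (h2 hb)

theorem L_AT_sup_meet (hK : commutator K = ⊤) {ι κ : Type} (D : ι → Subgroup K)
    (E : κ → Subgroup K) (hD : ∀ i, (D i).Normal) (hE : ∀ j, (E j).Normal) (hDt : ⨆ i, D i = ⊤)
    (hEt : ⨆ j, E j = ⊤) : ⨆ ij : ι × κ, D ij.1 ⊓ E ij.2 = ⊤ := by
  obtain ⟨N, hN⟩ : ∃ N, N = ⨆ ij : ι × κ, D ij.1 ⊓ E ij.2 := ⟨_, rfl⟩
  rw [← hN]
  have hn : N.Normal := by
    rw [hN]
    have : ∀ ij : ι × κ, (D ij.1 ⊓ E ij.2).Normal := fun ij => by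
      have := hD ij.1
      have := hE ij.2
      infer_instance
    exact Subgroup.iSup_normal _
  have h1 : ∀ i j, ∀ a ∈ D i, ∀ b ∈ E j, a * b * a⁻¹ * b⁻¹ ∈ N := by
    intro i j a ha b hb
    have h2 : a * b * a⁻¹ * b⁻¹ ∈ D i ⊓ E j := by
      constructor
      · have h3 := (D i).mul_mem ha ((hD i).conj_mem _ ((D i).inv_mem ha) b)
        have h4 : a * b * a⁻¹ * b⁻¹ = a * (b * a⁻¹ * b⁻¹) := by group
        rw [h4]
        exact h3
      · exact (E j).mul_mem ((hE j).conj_mem _ hb a) ((E j).inv_mem hb)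
    rw [hN]
    exact (le_iSup (fun ij : ι × κ => D ij.1 ⊓ E ij.2) (i, j)) h2
  have h2 : ∀ (a b : K), a * b * a⁻¹ * b⁻¹ ∈ N ↔
      QuotientGroup.mk' N a * QuotientGroup.mk' N b =
        QuotientGroup.mk' N b * QuotientGroup.mk' N a := by
    intro a b
    rw [← map_mul, ← map_mul, QuotientGroup.mk'_eq_mk']
    constructor
    · intro h
      refine ⟨b⁻¹ * a⁻¹ * (a * b * a⁻¹ * b⁻¹)⁻¹ * (a * b), ?_, by group⟩
      have := hn.conj_mem _ (N.inv_mem h) (b⁻¹ * a⁻¹)
      have h4 : b⁻¹ * a⁻¹ * (a * b * a⁻¹ * b⁻¹)⁻¹ * (a * b) =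
          b⁻¹ * a⁻¹ * (a * b * a⁻¹ * b⁻¹)⁻¹ * (b⁻¹ * a⁻¹)⁻¹ := by group
      rw [h4]
      exact this
    · rintro ⟨x, hx, h3⟩
      have h4 : a * b * a⁻¹ * b⁻¹ = (a * b) * x⁻¹ * (a * b)⁻¹ := by
        have h5 : a * b * a⁻¹ * b⁻¹ = (a * b) * (b * a)⁻¹ := by group
        rw [h5, ← h3]
        group
      rw [h4]
      exact hn.conj_mem _ (N.inv_mem hx) _
  have h3 : ∀ j, ∀ a : K, ∀ b ∈ E j, a * b * a⁻¹ * b⁻¹ ∈ N := by
    intro j
    have h4 : (⨆ i, D i) ≤ (Subgroup.centralizer
        ((E j).map (QuotientGroup.mk' N) : Set (K ⧸ N))).comap (QuotientGroup.mk' N) := by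
      refine iSup_le fun i a ha => ?_
      rw [Subgroup.mem_comap, Subgroup.mem_centralizer_iff]
      rintro _ ⟨b, hb, rfl⟩
      exact ((h2 a b).1 (h1 i j a ha b hb)).symm
    rw [hDt] at h4
    intro a b hb
    rw [h2]
    have h5 := h4 (Subgroup.mem_top a)
    rw [Subgroup.mem_comap, Subgroup.mem_centralizer_iff] at h5
    exact (h5 _ ⟨b, hb, rfl⟩).symm
  have h4 : ∀ a b : K, a * b * a⁻¹ * b⁻¹ ∈ N := by
    intro a
    have h5 : (⨆ j, E j) ≤ (Subgroup.centralizer
        ({QuotientGroup.mk' N a} : Set (K ⧸ N))).comap (QuotientGroup.mk' N) := by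
      refine iSup_le fun j b hb => ?_
      rw [Subgroup.mem_comap, Subgroup.mem_centralizer_iff]
      rintro _ rfl
      exact (h2 a b).1 (h3 j a b hb)
    rw [hEt] at h5
    intro b
    rw [h2]
    have h6 := h5 (Subgroup.mem_top b)
    rw [Subgroup.mem_comap, Subgroup.mem_centralizer_iff] at h6
    exact h6 _ rfl
  rw [eq_top_iff, ← hK, commutator_def, Subgroup.commutator_le]
  intro a _ b _
  exact h4 a b

end basic

section functions

variable {Y X : Type} [Group X]

theorem L_AT_mem_Ms {r : Setoid Y} {f : Y → X} : f ∈ Ms r ↔ ∀ y z, r y z → f y = f z := Iff.rfl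

theorem L_AT_mem_Sp {U : Set Y} {f : Y → X} : f ∈ Sp U ↔ ∀ y, y ∉ U → f y = 1 := Iff.rfl

theorem L_AT_Ms_mono {r s : Setoid Y} (h : ∀ x y, r x y → s x y) :
    (Ms s : Subgroup (Y → X)) ≤ Ms r := fun _ hf y z hyz => hf y z (h y z hyz)

theorem L_AT_Sp_mono {U W : Set Y} (h : U ⊆ W) : (Sp U : Subgroup (Y → X)) ≤ Sp W :=
  fun _ hf y hy => hf y fun h' => hy (h h')

/-- `Ms r` is perfect -/
theorem L_AT_Ms_perf [Finite Y] (hX : commutator X = ⊤) (r : Setoid Y) :
    (Ms r : Subgroup (Y → X)) ≤ ⁅(Ms r : Subgroup (Y → X)), Ms r⁆ := by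
  obtain ⟨Φ, hΦ⟩ : ∃ Φ : (Quotient r → X) →* (Y → X), ∀ f y, Φ f y = f (Quotient.mk r y) :=
    ⟨⟨⟨fun f y => f (Quotient.mk r y), rfl⟩, fun _ _ => rfl⟩, fun _ _ => rfl⟩
  have h1 : (⊤ : Subgroup (Quotient r → X)).map Φ = Ms r := by
    ext f
    constructor
    · rintro ⟨g, -, rfl⟩
      intro y z hyz
      rw [hΦ, hΦ, Quotient.sound hyz]
    · intro hf
      refine ⟨fun q => Quotient.lift f (fun a b h => hf a b h) q, Subgroup.mem_top _, ?_⟩
      funext y
      rw [hΦ]
      rfl
  have h2 : commutator (Quotient r → X) = ⊤ := prf_PerfPi (Quotient r) X hX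
  rw [← h1, ← Subgroup.map_commutator, ← commutator_def, h2]

/-- decomposition of a function along the classes of `p` -/
theorem L_AT_split [Finite Y] {R p : Setoid Y} (h : ∀ x y, R x y → p x y) :
    (Ms R : Subgroup (Y → X)) ≤ ⨆ y : Y, Ms R ⊓ Sp {z | p y z} := by
  classical
  have := Fintype.ofFinite (Quotient p)
  have key : ∀ (S : Finset (Quotient p)) (f : Y → X), f ∈ (Ms R : Subgroup (Y → X)) →
      (fun y => if Quotient.mk p y ∈ S then f y else 1) ∈
        (⨆ y : Y, Ms R ⊓ Sp {z | p y z} : Subgroup (Y → X)) := by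
    intro S f hf
    induction S using Finset.induction_on with
    | empty =>
      have h1 : (fun y => if Quotient.mk p y ∈ (∅ : Finset (Quotient p)) then f y else (1 : X)) =
          1 := by
        funext y
        simp
      rw [h1]
      exact Subgroup.one_mem _
    | insert q S hq ih =>
      obtain ⟨y0, rfl⟩ := Quotient.exists_rep q
      have h1 : (fun y => if Quotient.mk p y ∈ insert (Quotient.mk p y0) S then f y else (1 : X)) =
          (fun y => if Quotient.mk p y ∈ S then f y else (1 : X)) *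
            (fun y => if p y0 y then f y else (1 : X)) := by
        funext y
        rw [Pi.mul_apply]
        by_cases hy : p y0 y
        · have h2 : Quotient.mk p y = Quotient.mk p y0 := Quotient.sound (p.symm hy)
          rw [if_pos (by rw [h2]; exact Finset.mem_insert_self _ _), if_pos hy, if_neg (by
            rw [h2]; exact hq), one_mul]
        · have h2 : Quotient.mk p y ≠ Quotient.mk p y0 := fun h3 => hy (p.symm (Quotient.exact h3))
          rw [if_neg hy, mul_one]
          by_cases h3 : Quotient.mk p y ∈ S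
          · rw [if_pos h3, if_pos (Finset.mem_insert_of_mem h3)]
          · rw [if_neg h3, if_neg (fun h4 => by
              rcases Finset.mem_insert.1 h4 with h5 | h5
              · exact h2 h5
              · exact h3 h5)]
      rw [h1]
      refine Subgroup.mul_mem _ ih ?_
      refine (le_iSup (fun y : Y => (Ms R ⊓ Sp {z | p y z} : Subgroup (Y → X))) y0) ⟨?_, ?_⟩
      · intro y z hyz
        have h2 : p y0 y ↔ p y0 z :=
          ⟨fun h3 => p.trans h3 (h y z hyz), fun h3 => p.trans h3 (p.symm (h y z hyz))⟩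
        beta_reduce
        by_cases h3 : p y0 y
        · rw [if_pos h3, if_pos (h2.1 h3)]
          exact hf y z hyz
        · rw [if_neg h3, if_neg (fun h4 => h3 (h2.2 h4))]
      · intro y hy
        exact if_neg hy
  intro f hf
  have h1 := key Finset.univ f hf
  have h2 : (fun y => if Quotient.mk p y ∈ (Finset.univ : Finset (Quotient p)) then f y
      else (1 : X)) = f := by
    funext y
    rw [if_pos (Finset.mem_univ _)]
  rw [h2] at h1
  exact h1

/-- a function which is one on the intersection of the classes of `z` -/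
theorem L_AT_cut {ι : Type} {R : Setoid Y} {p : ι → Setoid Y} (z : Y) (S : Finset ι)
    (h : ∀ i ∈ S, ∀ x y, R x y → p i x y) (f : Y → X) (hf : f ∈ (Ms R : Subgroup (Y → X)))
    (h1 : ∀ x, (∀ i ∈ S, p i z x) → f x = 1) :
    f ∈ (⨆ i : {i // i ∈ S}, Ms R ⊓ Sp {x | p i.1 z x}ᶜ : Subgroup (Y → X)) := by
  classical
  induction S using Finset.induction_on generalizing f with
  | empty =>
    have h2 : f = 1 := by
      funext x
      exact h1 x fun i hi => absurd hi (Finset.notMem_empty i)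
    rw [h2]
    exact Subgroup.one_mem _
  | insert q S hq ih =>
    have hqR := h q (Finset.mem_insert_self q S)
    have h2 : f = (fun x => if p q z x then f x else (1 : X)) *
        (fun x => if p q z x then (1 : X) else f x) := by
      funext x
      rw [Pi.mul_apply]
      by_cases hx : p q z x
      · rw [if_pos hx, if_pos hx, mul_one]
      · rw [if_neg hx, if_neg hx, one_mul]
    have hiff : ∀ x y, R x y → (p q z x ↔ p q z y) := fun x y hxy =>
      ⟨fun h3 => (p q).trans h3 (hqR x y hxy),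
        fun h3 => (p q).trans h3 ((p q).symm (hqR x y hxy))⟩
    have h3 := ih (fun i hi => h i (Finset.mem_insert_of_mem hi))
      (fun x => if p q z x then f x else (1 : X)) (by
        intro x y hxy
        beta_reduce
        by_cases h4 : p q z x
        · rw [if_pos h4, if_pos ((hiff x y hxy).1 h4)]
          exact hf x y hxy
        · rw [if_neg h4, if_neg (fun h5 => h4 ((hiff x y hxy).2 h5))])
      (by
        intro x hx
        by_cases h4 : p q z x
        · rw [if_pos h4]
          refine h1 x fun i hi => ?_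
          rcases Finset.mem_insert.1 hi with rfl | h5
          · exact h4
          · exact hx i h5
        · rw [if_neg h4])
    have h4 : (⨆ i : {i // i ∈ S}, Ms R ⊓ Sp {x | p i.1 z x}ᶜ : Subgroup (Y → X)) ≤
        ⨆ i : {i // i ∈ insert q S}, Ms R ⊓ Sp {x | p i.1 z x}ᶜ := by
      refine iSup_le fun i => ?_
      exact le_iSup (fun i : {i // i ∈ insert q S} =>
        (Ms R ⊓ Sp {x | p i.1 z x}ᶜ : Subgroup (Y → X))) ⟨i.1, Finset.mem_insert_of_mem i.2⟩
    rw [h2]
    refine Subgroup.mul_mem _ (h4 h3) ?_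
    refine (le_iSup (fun i : {i // i ∈ insert q S} =>
        (Ms R ⊓ Sp {x | p i.1 z x}ᶜ : Subgroup (Y → X))) ⟨q, Finset.mem_insert_self q S⟩) ⟨?_, ?_⟩
    · intro x y hxy
      beta_reduce
      by_cases h4 : p q z x
      · rw [if_pos h4, if_pos ((hiff x y hxy).1 h4)]
      · rw [if_neg h4, if_neg (fun h5 => h4 ((hiff x y hxy).2 h5))]
        exact hf x y hxy
    · intro x hx
      have h5 : p q z x := by
        by_contra h6
        exact hx h6
      exact if_pos h5

end functions

/-- the hypotheses of the theorem -/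
structure L_AT_H (Y K X : Type) [Group K] [Group X] (π : K →* (Y → X))
    (r : Option (Fin 4) → Setoid Y) (A : Fin 4 → Subgroup K) (R : Fin 4 → Setoid Y)
    (B : Fin 4 → Fin 4 → Subgroup K) (RB : Fin 4 → Fin 4 → Setoid Y) (c : X →* K) : Prop where
  hX : commutator X = ⊤
  hind : ∀ y : Option (Fin 4) → Y, ∃ z : Y, ∀ p, r p z (y p)
  hBA : ∀ v w, v ≠ w → B v w ≤ A v
  hBA' : ∀ v w, v ≠ w → B v w ≤ A w
  hinj : ∀ v, ∀ a ∈ A v, π a = 1 → a = 1
  hAmap : ∀ v, (A v).map π = Ms (R v)
  hBmap : ∀ v w, v ≠ w → (B v w).map π = Ms (RB v w)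
  hRgen : ∀ v w z, v ≠ w → v ≠ z → w ≠ z → ∀ x y, RB v w x y → RB v z x y → R v x y
  hRBr : ∀ v w p, v ≠ w → p ≠ some v → p ≠ some w → ∀ x y, RB v w x y → r p x y
  hRr : ∀ v p, p ≠ some v → ∀ x y, R v x y → r p x y
  hrR : ∀ v x y, (∀ p, p ≠ some v → r p x y) → R v x y
  hc : ∀ v g, c g ∈ A v
  hcpi : ∀ g y, π (c g) y = g
  hgen : ∀ p : Option (Fin 4), (⨆ v : {v : Fin 4 // p ≠ some v}, A v.1) = ⊤

section main

variable {Y K X : Type} [Finite Y] [Group K] [Group X] {π : K →* (Y → X)}
    {r : Option (Fin 4) → Setoid Y} {A : Fin 4 → Subgroup K} {R : Fin 4 → Setoid Y}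
    {B : Fin 4 → Fin 4 → Subgroup K} {RB : Fin 4 → Fin 4 → Setoid Y} {c : X →* K}

omit [Finite Y] in
/-- pull back along an injective restriction -/
theorem L_AT_pull (h : L_AT_H Y K X π r A R B RB c) (v : Fin 4) {S T : Subgroup K}
    (hS : S ≤ A v) (hT : T ≤ A v) (hST : S.map π ≤ T.map π) : S ≤ T := by
  intro a ha
  obtain ⟨b, hb, hab⟩ := hST ⟨a, ha, rfl⟩
  have h1 : a * b⁻¹ = 1 := by
    apply h.hinj v _ ((A v).mul_mem (hS ha) ((A v).inv_mem (hT hb)))
    rw [map_mul, map_inv, hab, mul_inv_cancel]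
  rw [mul_inv_eq_one.1 h1]
  exact hb

/-- the part of a subgroup over `U` -/
def L_AT_cutS (π : K →* (Y → X)) (S : Subgroup K) (U : Set Y) : Subgroup K :=
  S ⊓ (Sp U).comap π

omit [Finite Y] in
theorem L_AT_cutS_le (π : K →* (Y → X)) (S : Subgroup K) (U : Set Y) :
    L_AT_cutS π S U ≤ S := inf_le_left

omit [Finite Y] in
theorem L_AT_cutS_map (π : K →* (Y → X)) (S : Subgroup K) (U : Set Y) :
    (L_AT_cutS π S U).map π = S.map π ⊓ Sp U := by
  ext f
  constructor
  · rintro ⟨a, ⟨h1, h2⟩, rfl⟩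
    exact ⟨⟨a, h1, rfl⟩, h2⟩
  · rintro ⟨⟨a, h1, rfl⟩, h2⟩
    exact ⟨a, ⟨h1, h2⟩, rfl⟩

omit [Finite Y] in
theorem L_AT_cutS_mono {S : Subgroup K} {U W : Set Y} (h : U ⊆ W) :
    L_AT_cutS π S U ≤ L_AT_cutS π S W :=
  inf_le_inf_left _ (Subgroup.comap_mono (L_AT_Sp_mono h))

omit [Finite Y] in
/-- elements of one `A u` with disjoint supports commute -/
theorem L_AT_same (h : L_AT_H Y K X π r A R B RB c) (u : Fin 4) {S T : Subgroup K}
    (hS : S ≤ A u) (hT : T ≤ A u) (U : Set Y) :
    L_AT_Co (L_AT_cutS π S U) (L_AT_cutS π T Uᶜ) := by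
  refine L_AT_Co_of fun a ha b hb => ?_
  have h1 : a * b * (b * a)⁻¹ = 1 := by
    apply h.hinj u _ ((A u).mul_mem ((A u).mul_mem (hS ha.1) (hT hb.1))
      ((A u).inv_mem ((A u).mul_mem (hT hb.1) (hS ha.1))))
    rw [map_mul, map_inv, map_mul, map_mul, mul_inv_eq_one]
    funext y
    rw [Pi.mul_apply, Pi.mul_apply]
    by_cases hy : y ∈ U
    · have h2 : π b y = 1 := hb.2 y fun h3 => h3 hy
      rw [h2, mul_one, one_mul]
    · have h2 : π a y = 1 := ha.2 y hy
      rw [h2, mul_one, one_mul]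
  exact mul_inv_eq_one.1 h1

theorem L_AT_gen (hGen : S_Gen) (h : L_AT_H Y K X π r A R B RB c) (p : Option (Fin 4))
    (v w z : Fin 4) (hvw : v ≠ w) (hvz : v ≠ z) (hwz : w ≠ z) (hpv : p ≠ some v)
    (hpw : p ≠ some w) (hpz : p ≠ some z) (U : Set Y) (hU : ∀ x y, r p x y → (x ∈ U ↔ y ∈ U)) :
    L_AT_cutS π (A v) U ≤ L_AT_cutS π (B v w) U ⊔ L_AT_cutS π (B v z) U := by
  refine L_AT_pull h v (L_AT_cutS_le _ _ _) (sup_le ((L_AT_cutS_le _ _ _).trans (h.hBA v w hvw))
    ((L_AT_cutS_le _ _ _).trans (h.hBA v z hvz))) ?_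
  rw [Subgroup.map_sup, L_AT_cutS_map, L_AT_cutS_map, L_AT_cutS_map, h.hAmap, h.hBmap v w hvw,
    h.hBmap v z hvz]
  have h1 : (Ms (R v) : Subgroup (Y → X)) ≤ Ms (RB v w ⊓ RB v z) :=
    L_AT_Ms_mono fun x y hxy => h.hRgen v w z hvw hvz hwz x y hxy.1 hxy.2
  exact (inf_le_inf_right _ h1).trans (hGen Y X h.hX (RB v w) (RB v z) U
    (fun x y hxy => hU x y (h.hRBr v w p hvw hpv hpw x y hxy))
    (fun x y hxy => hU x y (h.hRBr v z p hvz hpv hpz x y hxy)))

theorem L_AT_comm (hGen : S_Gen) (h : L_AT_H Y K X π r A R B RB c) (p : Option (Fin 4))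
    (v w : Fin 4) (hpv : p ≠ some v) (hpw : p ≠ some w) (U : Set Y)
    (hU : ∀ x y, r p x y → (x ∈ U ↔ y ∈ U)) :
    L_AT_Co (L_AT_cutS π (A v) U) (L_AT_cutS π (A w) Uᶜ) := by
  by_cases hvw : v = w
  · subst hvw
    exact L_AT_same h v le_rfl le_rfl U
  · obtain ⟨z, hzv, hzw, hpz⟩ : ∃ z : Fin 4, v ≠ z ∧ w ≠ z ∧ p ≠ some z := by
      revert hpv hpw hvw
      clear h hU
      revert p v w
      decide
    have hU' : ∀ x y, r p x y → (x ∈ Uᶜ ↔ y ∈ Uᶜ) := fun x y hxy => not_congr (hU x y hxy)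
    have h1 := L_AT_gen hGen h p v w z hvw hzv hzw hpv hpw hpz U hU
    have h2 := L_AT_gen hGen h p w v z (Ne.symm hvw) hzw hzv hpw hpv hpz Uᶜ hU'
    refine L_AT_Co_mono ?_ h1 h2
    refine L_AT_Co_sup ?_ ?_
    · refine L_AT_Co_symm (L_AT_Co_sup ?_ ?_)
      · exact L_AT_Co_symm (L_AT_same h v (h.hBA v w hvw) (h.hBA' w v (Ne.symm hvw)) U)
      · exact L_AT_Co_symm (L_AT_same h w (h.hBA' v w hvw) (h.hBA w z hzw) U)
    · refine L_AT_Co_symm (L_AT_Co_sup ?_ ?_)
      · exact L_AT_Co_symm (L_AT_same h v (h.hBA v z hzv) (h.hBA' w v (Ne.symm hvw)) U)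
      · exact L_AT_Co_symm (L_AT_same h z (h.hBA' v z hzv) (h.hBA' w z hzw) U)

/-- the subgroup generated by the parts over `U` of the `A v`, `v ≠ p` -/
def L_AT_Kp (π : K →* (Y → X)) (A : Fin 4 → Subgroup K) (p : Option (Fin 4)) (U : Set Y) :
    Subgroup K := ⨆ v : {v : Fin 4 // p ≠ some v}, L_AT_cutS π (A v.1) U

omit [Finite Y] in
theorem L_AT_Kp_mono (p : Option (Fin 4)) {U W : Set Y} (h : U ⊆ W) :
    L_AT_Kp π A p U ≤ L_AT_Kp π A p W := iSup_mono fun _ => L_AT_cutS_mono h

theorem L_AT_Kp_comm (hGen : S_Gen) (h : L_AT_H Y K X π r A R B RB c) (p : Option (Fin 4))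
    (U : Set Y) (hU : ∀ x y, r p x y → (x ∈ U ↔ y ∈ U)) :
    L_AT_Co (L_AT_Kp π A p U) (L_AT_Kp π A p Uᶜ) := by
  refine L_AT_Co_iSup fun v => L_AT_Co_symm (L_AT_Co_iSup fun w => ?_)
  exact L_AT_Co_symm (L_AT_comm hGen h p v.1 w.1 v.2 w.2 U hU)

omit [Finite Y] in
theorem L_AT_cls_sat (p : Option (Fin 4)) (y0 : Y) :
    ∀ x y, r p x y → (x ∈ {z | r p y0 z} ↔ y ∈ {z | r p y0 z}) := fun _ _ hxy =>
  ⟨fun h => (r p).trans h hxy, fun h => (r p).trans h ((r p).symm hxy)⟩

theorem L_AT_Kp_top (h : L_AT_H Y K X π r A R B RB c) (p : Option (Fin 4)) :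
    ⨆ y : Y, L_AT_Kp π A p {z | r p y z} = ⊤ := by
  rw [eq_top_iff, ← h.hgen p]
  refine iSup_le fun v => ?_
  have h1 : A v.1 ≤ ⨆ y : Y, L_AT_cutS π (A v.1) {z | r p y z} := by
    refine L_AT_pull h v.1 le_rfl (iSup_le fun y => L_AT_cutS_le _ _ _) ?_
    rw [Subgroup.map_iSup]
    simp only [L_AT_cutS_map, h.hAmap]
    exact L_AT_split (h.hRr v.1 p v.2)
  refine h1.trans (iSup_mono fun y => ?_)
  exact le_iSup (fun v : {v : Fin 4 // p ≠ some v} => L_AT_cutS π (A v.1) {z | r p y z}) v

theorem L_AT_Kp_normal (hGen : S_Gen) (h : L_AT_H Y K X π r A R B RB c) (p : Option (Fin 4))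
    (y : Y) : (L_AT_Kp π A p {z | r p y z}).Normal := by
  have h1 : (⨆ y' : Y, L_AT_Kp π A p {z | r p y' z}) ≤
      Subgroup.normalizer (L_AT_Kp π A p {z | r p y z} : Set K) := by
    refine iSup_le fun y' => ?_
    by_cases hy : r p y y'
    · have h2 : {z | r p y' z} = {z | r p y z} := by
        ext z
        exact ⟨fun h3 => (r p).trans hy h3, fun h3 => (r p).trans ((r p).symm hy) h3⟩
      rw [h2]
      exact Subgroup.le_normalizer
    · have h2 : L_AT_Co (L_AT_Kp π A p {z | r p y' z}) (L_AT_Kp π A p {z | r p y z}) := by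
        refine L_AT_Co_symm (L_AT_Co_mono (L_AT_Kp_comm hGen h p {z | r p y z}
          (L_AT_cls_sat p y)) le_rfl (L_AT_Kp_mono p ?_))
        intro z hz hz'
        exact hy ((r p).trans hz' ((r p).symm hz))
      exact h2.trans (Subgroup.centralizer_le_normalizer _)
  rw [L_AT_Kp_top h p, top_le_iff] at h1
  exact Subgroup.normalizer_eq_top_iff.1 h1

theorem L_AT_perf (h : L_AT_H Y K X π r A R B RB c) : commutator K = ⊤ := by
  rw [eq_top_iff, ← h.hgen none]
  refine iSup_le fun v => ?_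
  have h1 : A v.1 ≤ ⁅A v.1, A v.1⁆ := by
    refine L_AT_pull h v.1 le_rfl (Subgroup.commutator_le_self _) ?_
    rw [Subgroup.map_commutator, h.hAmap]
    exact L_AT_Ms_perf h.hX (R v.1)
  rw [commutator_def]
  exact h1.trans (Subgroup.commutator_mono le_top le_top)

/-- the iterated decomposition -/
theorem L_AT_iter (hGen : S_Gen) (h : L_AT_H Y K X π r A R B RB c) (y0 : Y)
    (S : Finset (Option (Fin 4))) :
    (⨆ y : Option (Fin 4) → Y, ⨅ p : {p // p ∈ S}, L_AT_Kp π A p.1 {z | r p.1 (y p.1) z}) = ⊤ := by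
  classical
  induction S using Finset.induction_on with
  | empty =>
    rw [eq_top_iff]
    refine le_trans ?_ (le_iSup _ (fun _ => y0))
    exact le_iInf fun p => absurd p.2 (Finset.notMem_empty _)
  | insert q S hq ih =>
    have h1 := L_AT_sup_meet (L_AT_perf h)
      (fun y : Option (Fin 4) → Y => ⨅ p : {p // p ∈ S}, L_AT_Kp π A p.1 {z | r p.1 (y p.1) z})
      (fun y : Y => L_AT_Kp π A q {z | r q y z})
      (fun y => Subgroup.normal_iInf_normal fun p => L_AT_Kp_normal hGen h p.1 _)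
      (fun y => L_AT_Kp_normal hGen h q y) ih (L_AT_Kp_top h q)
    rw [eq_top_iff, ← h1]
    refine iSup_le fun yz => ?_
    refine le_trans ?_ (le_iSup _ (Function.update yz.1 q yz.2))
    refine le_iInf fun p => ?_
    by_cases hp : p.1 = q
    · rw [hp, Function.update_self]
      exact inf_le_right
    · rw [Function.update_of_ne hp]
      have hpS : p.1 ∈ S := (Finset.mem_insert.1 p.2).resolve_left hp
      exact inf_le_left.trans (iInf_le
        (fun p : {p // p ∈ S} => L_AT_Kp π A p.1 {z | r p.1 (yz.1 p.1) z}) ⟨p.1, hpS⟩)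

/-- the part over a point -/
def L_AT_Kz (π : K →* (Y → X)) (A : Fin 4 → Subgroup K) (r : Option (Fin 4) → Setoid Y) (z : Y) :
    Subgroup K := ⨅ p : Option (Fin 4), L_AT_Kp π A p {x | r p z x}

theorem L_AT_Kz_top (hGen : S_Gen) (h : L_AT_H Y K X π r A R B RB c) (y0 : Y) :
    ⨆ z : Y, L_AT_Kz π A r z = ⊤ := by
  rw [eq_top_iff, ← L_AT_iter hGen h y0 Finset.univ]
  refine iSup_le fun y => ?_
  obtain ⟨z, hz⟩ := h.hind y
  refine le_trans ?_ (le_iSup _ z)
  refine le_iInf fun p => ?_
  refine (iInf_le (fun p : {p // p ∈ (Finset.univ : Finset (Option (Fin 4)))} =>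
    L_AT_Kp π A p.1 {x | r p.1 (y p.1) x}) ⟨p, Finset.mem_univ p⟩).trans ?_
  exact L_AT_Kp_mono p fun x hx => (r p).trans (hz p) hx

theorem L_AT_Kz_normal (hGen : S_Gen) (h : L_AT_H Y K X π r A R B RB c) (z : Y) :
    (L_AT_Kz π A r z).Normal :=
  Subgroup.normal_iInf_normal fun p => L_AT_Kp_normal hGen h p z

theorem L_AT_value (hGen : S_Gen) (h : L_AT_H Y K X π r A R B RB c) (z : Y) (v : Fin 4) (a : K)
    (ha : a ∈ A v) (haz : π a z = 1) : a ∈ Subgroup.centralizer (L_AT_Kz π A r z : Set K) := by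
  classical
  obtain ⟨S, hS⟩ : ∃ S : Finset (Option (Fin 4)), ∀ p, p ∈ S ↔ p ≠ some v :=
    ⟨Finset.univ.filter fun p => p ≠ some v, fun p => by simp⟩
  have hmem : π a ∈ (Ms (R v) : Subgroup (Y → X)) := by
    rw [← h.hAmap v]
    exact ⟨a, ha, rfl⟩
  have h1 : π a ∈ (⨆ i : {i // i ∈ S}, Ms (R v) ⊓ Sp {x | r i.1 z x}ᶜ : Subgroup (Y → X)) := by
    refine L_AT_cut z S (fun i hi => h.hRr v i ((hS i).1 hi)) (π a) hmem ?_
    intro x hx
    have h2 : R v z x := h.hrR v z x fun p hp => hx p ((hS p).2 hp)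
    rw [← hmem z x h2]
    exact haz
  have h2 : a ∈ ⨆ i : {i // i ∈ S}, L_AT_cutS π (A v) {x | r i.1 z x}ᶜ := by
    have h3 : Subgroup.zpowers a ≤ ⨆ i : {i // i ∈ S}, L_AT_cutS π (A v) {x | r i.1 z x}ᶜ := by
      refine L_AT_pull h v ((Subgroup.zpowers_le).2 ha) (iSup_le fun i => L_AT_cutS_le _ _ _) ?_
      rw [Subgroup.map_iSup]
      simp only [L_AT_cutS_map, h.hAmap]
      rw [MonoidHom.map_zpowers, Subgroup.zpowers_le]
      exact h1
    exact h3 (Subgroup.mem_zpowers a)
  have h3 : (⨆ i : {i // i ∈ S}, L_AT_cutS π (A v) {x | r i.1 z x}ᶜ) ≤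
      Subgroup.centralizer (L_AT_Kz π A r z : Set K) := by
    refine iSup_le fun i => ?_
    have h4 := L_AT_Co_symm (L_AT_Kp_comm hGen h i.1 {x | r i.1 z x} (L_AT_cls_sat i.1 z))
    have h5 : L_AT_cutS π (A v) {x | r i.1 z x}ᶜ ≤ L_AT_Kp π A i.1 {x | r i.1 z x}ᶜ :=
      le_iSup (fun w : {w : Fin 4 // i.1 ≠ some w} => L_AT_cutS π (A w.1) {x | r i.1 z x}ᶜ)
        ⟨v, (hS i.1).1 i.2⟩
    exact L_AT_Co_mono h4 h5 (iInf_le _ i.1)
  exact h3 h2

theorem L_AT_ker (hGen : S_Gen) (h : L_AT_H Y K X π r A R B RB c) (z : Y) :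
    π.ker ≤ Subgroup.centralizer (L_AT_Kz π A r z : Set K) := by
  have := L_AT_Kz_normal hGen h z
  obtain ⟨C, hC⟩ : ∃ C, C = Subgroup.centralizer (L_AT_Kz π A r z : Set K) := ⟨_, rfl⟩
  have hCn : C.Normal := by
    rw [hC]
    infer_instance
  have h1 : ∀ v, A v ≤ (QuotientGroup.mk' C).eqLocus
      ((QuotientGroup.mk' C).comp (c.comp ((Pi.evalMonoidHom (fun _ : Y => X) z).comp π))) := by
    intro v a ha
    show QuotientGroup.mk' C a = QuotientGroup.mk' C (c (π a z))
    have h2 : a * (c (π a z))⁻¹ ∈ C := by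
      rw [hC]
      refine L_AT_value hGen h z v _ ((A v).mul_mem ha ((A v).inv_mem (h.hc v _))) ?_
      rw [map_mul, map_inv, Pi.mul_apply, Pi.inv_apply, h.hcpi, mul_inv_cancel]
    rw [QuotientGroup.mk'_eq_mk']
    refine ⟨a⁻¹ * (a * (c (π a z))⁻¹)⁻¹ * a, ?_, by group⟩
    have h3 := hCn.conj_mem _ (C.inv_mem h2) a⁻¹
    rw [inv_inv] at h3
    exact h3
  have h2 : (⊤ : Subgroup K) ≤ (QuotientGroup.mk' C).eqLocus
      ((QuotientGroup.mk' C).comp (c.comp ((Pi.evalMonoidHom (fun _ : Y => X) z).comp π))) := by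
    rw [← h.hgen none]
    exact iSup_le fun v => h1 v.1
  intro k hk
  have h3 : QuotientGroup.mk' C k = QuotientGroup.mk' C (c (π k z)) := h2 (Subgroup.mem_top k)
  have h4 : π k = 1 := hk
  rw [h4, Pi.one_apply, map_one, map_one] at h3
  rw [← hC]
  exact (QuotientGroup.eq_one_iff k).1 h3

end main

theorem prf_AT (hGen : S_Gen) : S_AT := by
  intro Y K X _ _ _ hX π r A R B RB c hind hBA hBA' hinj hAmap hBmap hRgen hRBr hRr hrR hc hcpi
    hgen
  have h : L_AT_H Y K X π r A R B RB c :=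
    ⟨hX, hind, hBA, hBA', hinj, hAmap, hBmap, hRgen, hRBr, hRr, hrR, hc, hcpi, hgen⟩
  intro k hk
  rcases isEmpty_or_nonempty Y with hY | ⟨⟨y0⟩⟩
  · have h1 : ∀ x : K, x = 1 := by
      intro x
      have h2 : (⊤ : Subgroup K) ≤ ⊥ := by
        rw [← hgen none]
        refine iSup_le fun v a ha => ?_
        rw [Subgroup.mem_bot]
        refine hinj v.1 a ha ?_
        funext y
        exact hY.elim y
      exact Subgroup.mem_bot.1 (h2 (Subgroup.mem_top x))
    rw [h1 k]
    exact Subgroup.one_mem _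
  · have h1 : (⨆ z : Y, L_AT_Kz π A r z) ≤ Subgroup.centralizer ({k} : Set K) := by
      refine iSup_le fun z a ha => ?_
      rw [Subgroup.mem_centralizer_iff]
      rintro _ rfl
      exact ((Subgroup.mem_centralizer_iff.1 (L_AT_ker hGen h z hk)) a ha).symm
    rw [L_AT_Kz_top hGen h y0] at h1
    rw [Subgroup.mem_center_iff]
    intro g
    exact (Subgroup.mem_centralizer_iff.1 (h1 (Subgroup.mem_top g)) k rfl).symm

end VRC

end

section

set_option autoImplicit false

/-! Combinatorial conditions for the amalgamation theorem, in terms of sequences over `ZMod 3`. -/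

namespace VRC

/-- conditions on a sequence `f` (a difference of two points) -/
def RD (k : ℕ) (v : Fin 4) (f : ℕ → ZMod 3) : Prop := ∀ i, i < k + 3 → op v f i = 0

def RBD (k : ℕ) (v w : Fin 4) (f : ℕ → ZMod 3) : Prop := ∀ i, i < k + 2 → op v (op w f) i = 0

def rD (k : ℕ) (p : Option (Fin 4)) (f : ℕ → ZMod 3) : Prop :=
  match p with
  | none => ∀ i, i < k → op 1 (op 2 (op 3 f)) i = 0
  | some 0 => op 1 (op 2 (op 3 f)) k = 0
  | some 1 => op 2 (op 3 f) 0 = 0
  | some 2 => op 1 (op 3 f) 0 = 0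
  | some 3 => op 1 (op 2 f) 0 = 0

theorem opc_aux : ∀ a b : ZMod 3, (a = 0 → b = 0 → a = 0 ∧ b = 0) ∧
    (a = 0 → b - a = 0 → a = 0 ∧ b = 0) ∧ (a = 0 → b + a = 0 → a = 0 ∧ b = 0) ∧
    (b = 0 → b - a = 0 → a = 0 ∧ b = 0) ∧ (b = 0 → b + a = 0 → a = 0 ∧ b = 0) ∧
    (b - a = 0 → b + a = 0 → a = 0 ∧ b = 0) := by decide

theorem two_ops (w z : Fin 4) (hwz : w ≠ z) (g : ℕ → ZMod 3) (i : ℕ)
    (h1 : op w g i = 0) (h2 : op z g i = 0) : g i = 0 ∧ g (i + 1) = 0 := by
  obtain ⟨e1, e2, e3, e4, e5, e6⟩ := opc_aux (g i) (g (i + 1))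
  fin_cases w <;> fin_cases z <;> simp only [op] at h1 h2 <;>
    first
      | exact absurd rfl hwz
      | exact e1 h1 h2
      | exact e1 h2 h1
      | exact e2 h1 h2
      | exact e2 h2 h1
      | exact e3 h1 h2
      | exact e3 h2 h1
      | exact e4 h1 h2
      | exact e4 h2 h1
      | exact e5 h1 h2
      | exact e5 h2 h1
      | exact e6 h1 h2
      | exact e6 h2 h1

theorem RBD_RD (k : ℕ) (v w z : Fin 4) (hwz : w ≠ z) (f : ℕ → ZMod 3)
    (h1 : RBD k v w f) (h2 : RBD k v z f) : RD k v f := by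
  intro i hi
  have key : ∀ j, j < k + 2 → op v f j = 0 ∧ op v f (j + 1) = 0 := by
    intro j hj
    have a1 := h1 j hj
    have a2 := h2 j hj
    rw [op_comm] at a1 a2
    exact two_ops w z hwz (op v f) j a1 a2
  by_cases hi' : i < k + 2
  · exact (key i hi').1
  · have : i = (k + 1) + 1 := by omega
    rw [this]
    exact (key (k + 1) (by omega)).2

theorem op_zero_of (u : Fin 4) (h : ℕ → ZMod 3) (i : ℕ) (h0 : h i = 0) (h1 : h (i + 1) = 0) :
    op u h i = 0 := by
  fin_cases u <;> simp [op, h0, h1]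

theorem RBD_rD (k : ℕ) (v w : Fin 4) (p : Option (Fin 4)) (hvw : v ≠ w) (hpv : p ≠ some v)
    (hpw : p ≠ some w) (f : ℕ → ZMod 3) (h : RBD k v w f) : rD k p f := by
  unfold RBD at h
  match p, hpv, hpw with
  | none, _, _ =>
    intro i hi
    have h0 := h i (by omega)
    have h1 := h (i + 1) (by omega)
    have h2 := h (i + 2) (by omega)
    fin_cases v <;> fin_cases w <;>
      simp only [op, Fin.isValue, Fin.zero_eta, Fin.mk_one, Fin.reduceFinMk] at h0 h1 h2 ⊢ <;>
      first
        | exact absurd rfl hvw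
        | linear_combination h0
        | linear_combination h1
        | linear_combination h0 + h1
        | linear_combination h1 - h0
        | linear_combination h2 - h0
        | linear_combination h1 + h2
        | linear_combination h2 - h1
        | linear_combination h0 + h2
  | some 0, hv, hw =>
    show op 1 (op 2 (op 3 f)) k = 0
    have h0 := h k (by omega)
    have h1 := h (k + 1) (by omega)
    fin_cases v <;> fin_cases w <;>
      simp only [op, Fin.isValue, Fin.zero_eta, Fin.mk_one, Fin.reduceFinMk] at h0 h1 ⊢ <;>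
      first
        | exact absurd rfl hvw
        | exact absurd rfl hv
        | exact absurd rfl hw
        | linear_combination h0
        | linear_combination h1
        | linear_combination h0 + h1
        | linear_combination h1 - h0
  | some 1, hv, hw =>
    show op 2 (op 3 f) 0 = 0
    have h0 := h 0 (by omega)
    have h1 := h 1 (by omega)
    fin_cases v <;> fin_cases w <;>
      simp only [op, Fin.isValue, Fin.zero_eta, Fin.mk_one, Fin.reduceFinMk] at h0 h1 ⊢ <;>
      first
        | exact absurd rfl hvw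
        | exact absurd rfl hv
        | exact absurd rfl hw
        | linear_combination h0
        | linear_combination h1
        | linear_combination h0 + h1
        | linear_combination h1 - h0
  | some 2, hv, hw =>
    show op 1 (op 3 f) 0 = 0
    have h0 := h 0 (by omega)
    have h1 := h 1 (by omega)
    fin_cases v <;> fin_cases w <;>
      simp only [op, Fin.isValue, Fin.zero_eta, Fin.mk_one, Fin.reduceFinMk] at h0 h1 ⊢ <;>
      first
        | exact absurd rfl hvw
        | exact absurd rfl hv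
        | exact absurd rfl hw
        | linear_combination h0
        | linear_combination h1
        | linear_combination h0 + h1
        | linear_combination h1 - h0
  | some 3, hv, hw =>
    show op 1 (op 2 f) 0 = 0
    have h0 := h 0 (by omega)
    have h1 := h 1 (by omega)
    fin_cases v <;> fin_cases w <;>
      simp only [op, Fin.isValue, Fin.zero_eta, Fin.mk_one, Fin.reduceFinMk] at h0 h1 ⊢ <;>
      first
        | exact absurd rfl hvw
        | exact absurd rfl hv
        | exact absurd rfl hw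
        | linear_combination h0
        | linear_combination h1
        | linear_combination h0 + h1
        | linear_combination h1 - h0

theorem RD_rD (k : ℕ) (v : Fin 4) (p : Option (Fin 4)) (hpv : p ≠ some v)
    (f : ℕ → ZMod 3) (h : RD k v f) : rD k p f := by
  unfold RD at h
  match p, hpv with
  | none, _ =>
    intro i hi
    have h0 := h i (by omega)
    have h1 := h (i + 1) (by omega)
    have h2 := h (i + 2) (by omega)
    have h3 := h (i + 3) (by omega)
    fin_cases v <;>
      simp only [op, Fin.isValue, Fin.zero_eta, Fin.mk_one, Fin.reduceFinMk] at h0 h1 h2 h3 ⊢ <;>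
      first
        | linear_combination h3 - h1
        | linear_combination h2 - h0
        | linear_combination h2 + h1
        | linear_combination h2 - h1
  | some 0, hv =>
    show op 1 (op 2 (op 3 f)) k = 0
    have h0 := h k (by omega)
    have h1 := h (k + 1) (by omega)
    have h2 := h (k + 2) (by omega)
    fin_cases v <;>
      simp only [op, Fin.isValue, Fin.zero_eta, Fin.mk_one, Fin.reduceFinMk] at h0 h1 h2 ⊢ <;>
      first
        | exact absurd rfl hv
        | linear_combination h2 - h0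
        | linear_combination h2 + h1
        | linear_combination h2 - h1
  | some 1, hv =>
    show op 2 (op 3 f) 0 = 0
    have h0 := h 0 (by omega)
    have h1 := h 1 (by omega)
    have h2 := h 2 (by omega)
    fin_cases v <;>
      simp only [op, Fin.isValue, Fin.zero_eta, Fin.mk_one, Fin.reduceFinMk] at h0 h1 h2 ⊢ <;>
      first
        | exact absurd rfl hv
        | linear_combination h2 - h0
        | linear_combination h1 + h0
        | linear_combination h1 - h0
  | some 2, hv =>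
    show op 1 (op 3 f) 0 = 0
    have h0 := h 0 (by omega)
    have h1 := h 1 (by omega)
    have h2 := h 2 (by omega)
    fin_cases v <;>
      simp only [op, Fin.isValue, Fin.zero_eta, Fin.mk_one, Fin.reduceFinMk] at h0 h1 h2 ⊢ <;>
      first
        | exact absurd rfl hv
        | linear_combination h2 + h1
        | linear_combination h1 + h0
        | linear_combination h1
  | some 3, hv =>
    show op 1 (op 2 f) 0 = 0
    have h0 := h 0 (by omega)
    have h1 := h 1 (by omega)
    have h2 := h 2 (by omega)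
    fin_cases v <;>
      simp only [op, Fin.isValue, Fin.zero_eta, Fin.mk_one, Fin.reduceFinMk] at h0 h1 h2 ⊢ <;>
      first
        | exact absurd rfl hv
        | linear_combination h2 - h1
        | linear_combination h1 - h0
        | linear_combination h1

theorem zmod3_aux : ∀ a b : ZMod 3, a + b = 0 → a - b = 0 → a = 0 ∧ b = 0 := by decide

theorem rD_RD (k : ℕ) (v : Fin 4) (f : ℕ → ZMod 3)
    (h : ∀ p, p ≠ some v → rD k p f) : RD k v f := by
  have hn : ∀ i, i < k → f (i + 3) = f (i + 1) := by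
    intro i hi
    have := h none (by simp) i hi
    simp only [op] at this
    linear_combination this
  match v, h with
  | 0, h =>
    have h1 : op 2 (op 3 f) 0 = 0 := h (some 1) (by simp)
    have h2 : op 1 (op 3 f) 0 = 0 := h (some 2) (by simp)
    have h3 : op 1 (op 2 f) 0 = 0 := h (some 3) (by simp)
    simp only [op, zero_add, Nat.reduceAdd] at h1 h2 h3
    obtain ⟨e2, e1⟩ := zmod3_aux (f 2) (f 1) h2 h3
    have e0 : f 0 = 0 := by linear_combination e2 - h1
    intro i
    induction i using Nat.strong_induction_on with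
    | _ i ih =>
      intro hi
      show f i = 0
      match i, ih, hi with
      | 0, _, _ => exact e0
      | 1, _, _ => exact e1
      | 2, _, _ => exact e2
      | i + 3, ih, hi =>
        rw [hn i (by omega)]
        exact ih (i + 1) (by omega) (by omega)
  | 1, h =>
    have h0 : op 1 (op 2 (op 3 f)) k = 0 := h (some 0) (by simp)
    have h2 : op 1 (op 3 f) 0 = 0 := h (some 2) (by simp)
    have h3 : op 1 (op 2 f) 0 = 0 := h (some 3) (by simp)
    simp only [op, zero_add, Nat.reduceAdd] at h0 h2 h3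
    obtain ⟨e2, e1⟩ := zmod3_aux (f 2) (f 1) h2 h3
    have hk : ∀ i, i < k + 1 → f (i + 3) = f (i + 1) := by
      intro i hi
      by_cases hik : i < k
      · exact hn i hik
      · have : i = k := by omega
        subst this
        linear_combination h0
    intro i
    induction i using Nat.strong_induction_on with
    | _ i ih =>
      intro hi
      show f (i + 1) = 0
      match i, ih, hi with
      | 0, _, _ => exact e1
      | 1, _, _ => exact e2
      | i + 2, ih, hi =>
        have e : f (i + 2 + 1) = f (i + 1) := hk i (by omega)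
        rw [e]
        exact ih i (by omega) (by omega)
  | 2, h =>
    have h0 : op 1 (op 2 (op 3 f)) k = 0 := h (some 0) (by simp)
    have h1 : op 2 (op 3 f) 0 = 0 := h (some 1) (by simp)
    have h3 : op 1 (op 2 f) 0 = 0 := h (some 3) (by simp)
    simp only [op, zero_add, Nat.reduceAdd] at h0 h1 h3
    have hk : ∀ i, i < k + 1 → f (i + 3) = f (i + 1) := by
      intro i hi
      by_cases hik : i < k
      · exact hn i hik
      · have : i = k := by omega
        subst this
        linear_combination h0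
    have hc : ∀ i, i < k + 4 → f i = f 0 := by
      intro i
      induction i using Nat.strong_induction_on with
      | _ i ih =>
        intro hi
        match i, ih, hi with
        | 0, _, _ => rfl
        | 1, _, _ => linear_combination h1 - h3
        | 2, _, _ => linear_combination h1
        | i + 3, ih, hi =>
          rw [hk i (by omega)]
          exact ih (i + 1) (by omega) (by omega)
    intro i hi
    show f (i + 1) - f i = 0
    rw [hc i (by omega), hc (i + 1) (by omega), sub_self]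
  | 3, h =>
    have h0 : op 1 (op 2 (op 3 f)) k = 0 := h (some 0) (by simp)
    have h1 : op 2 (op 3 f) 0 = 0 := h (some 1) (by simp)
    have h2 : op 1 (op 3 f) 0 = 0 := h (some 2) (by simp)
    simp only [op, zero_add, Nat.reduceAdd] at h0 h1 h2
    have hk : ∀ i, i < k + 1 → f (i + 3) = f (i + 1) := by
      intro i hi
      by_cases hik : i < k
      · exact hn i hik
      · have : i = k := by omega
        subst this
        linear_combination h0
    intro i
    induction i using Nat.strong_induction_on with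
    | _ i ih =>
      intro hi
      show f (i + 1) + f i = 0
      match i, ih, hi with
      | 0, _, _ =>
        show f 1 + f 0 = 0
        linear_combination h2 - h1
      | 1, _, _ => exact h2
      | 2, _, hi =>
        have := hk 0 (by omega)
        simp only [zero_add] at this
        show f 3 + f 2 = 0
        rw [this]
        linear_combination h2
      | i + 3, ih, hi =>
        have e1 := hk (i + 1) (by omega)
        have e2 := hk i (by omega)
        have e3 := ih (i + 1) (by omega) (by omega)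
        simp only [op] at e3
        have e1' : f (i + 3 + 1) = f (i + 1 + 1) := e1
        rw [e1', e2]
        exact e3

/-- solution of the triangular system -/
def solveSeq (a0 a1 a2 : ZMod 3) (δ : ℕ → ZMod 3) : ℕ → ZMod 3
  | 0 => a0
  | 1 => a1
  | 2 => a2
  | (i + 3) => solveSeq a0 a1 a2 δ (i + 1) + δ i

end VRC

end

section

set_option autoImplicit false

/-! The equivalence relations on `Ys m`. -/

namespace VRC

/-- agreement of `L y` and `L z` on the indices in `I` -/
def agr (m : ℕ) (L : (ℕ → ZMod 3) → ℕ → ZMod 3) (I : ℕ → Prop) : Setoid (Ys m) where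
  r y z := ∀ i, I i → L y.1 i = L z.1 i
  iseqv := ⟨fun _ _ _ => rfl, fun h i hi => (h i hi).symm, fun h1 h2 i hi => (h1 i hi).trans (h2 i hi)⟩

theorem agr_apply {m : ℕ} {L : (ℕ → ZMod 3) → ℕ → ZMod 3} {I : ℕ → Prop} {y z : Ys m} :
    (agr m L I) y z ↔ ∀ i, I i → L y.1 i = L z.1 i := Iff.rfl

/-- windows: agreement of the first `n` terms -/
def win (m n : ℕ) : Setoid (Ys m) := agr m (fun f => f) (fun i => i < n)

theorem win_apply {m n : ℕ} {y z : Ys m} : (win m n) y z ↔ ∀ i, i < n → y.1 i = z.1 i := Iff.rfl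

def Rs (m k : ℕ) (v : Fin 4) : Setoid (Ys m) := agr m (op v) (fun i => i < k + 3)

def RBs (m k : ℕ) (v w : Fin 4) : Setoid (Ys m) := agr m (fun f => op v (op w f)) (fun i => i < k + 2)

def rs (m k : ℕ) (p : Option (Fin 4)) : Setoid (Ys m) :=
  match p with
  | none => agr m (fun f => op 1 (op 2 (op 3 f))) (fun i => i < k)
  | some 0 => agr m (fun f => op 1 (op 2 (op 3 f))) (fun i => i = k)
  | some 1 => agr m (fun f => op 2 (op 3 f)) (fun i => i = 0)
  | some 2 => agr m (fun f => op 1 (op 3 f)) (fun i => i = 0)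
  | some 3 => agr m (fun f => op 1 (op 2 f)) (fun i => i = 0)

theorem agr_iff {m : ℕ} {L : (ℕ → ZMod 3) → ℕ → ZMod 3} (hL : ∀ f g, L (f - g) = L f - L g)
    {I : ℕ → Prop} {y z : Ys m} :
    (agr m L I) y z ↔ ∀ i, I i → L (y.1 - z.1) i = 0 := by
  rw [agr_apply]
  constructor
  · intro h i hi
    rw [hL, Pi.sub_apply, h i hi, sub_self]
  · intro h i hi
    have := h i hi
    rw [hL, Pi.sub_apply] at this
    exact sub_eq_zero.mp this

theorem Rs_iff {m k : ℕ} {v : Fin 4} {y z : Ys m} : (Rs m k v) y z ↔ RD k v (y.1 - z.1) :=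
  agr_iff (op_sub v)

theorem RBs_iff {m k : ℕ} {v w : Fin 4} {y z : Ys m} :
    (RBs m k v w) y z ↔ RBD k v w (y.1 - z.1) :=
  agr_iff (fun f g => by rw [op_sub, op_sub])

theorem rs_iff {m k : ℕ} {p : Option (Fin 4)} {y z : Ys m} :
    (rs m k p) y z ↔ rD k p (y.1 - z.1) := by
  match p with
  | none =>
    show (agr m (fun f => op 1 (op 2 (op 3 f))) (fun i => i < k)) y z ↔ _
    rw [agr_iff (fun f g => by rw [op_sub, op_sub, op_sub])]
    rfl
  | some 0 =>
    show (agr m (fun f => op 1 (op 2 (op 3 f))) (fun i => i = k)) y z ↔ _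
    rw [agr_iff (fun f g => by rw [op_sub, op_sub, op_sub])]
    exact ⟨fun h => h k rfl, fun h i hi => by rw [hi]; exact h⟩
  | some 1 =>
    show (agr m (fun f => op 2 (op 3 f)) (fun i => i = 0)) y z ↔ _
    rw [agr_iff (fun f g => by rw [op_sub, op_sub])]
    exact ⟨fun h => h 0 rfl, fun h i hi => by rw [hi]; exact h⟩
  | some 2 =>
    show (agr m (fun f => op 1 (op 3 f)) (fun i => i = 0)) y z ↔ _
    rw [agr_iff (fun f g => by rw [op_sub, op_sub])]
    exact ⟨fun h => h 0 rfl, fun h i hi => by rw [hi]; exact h⟩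
  | some 3 =>
    show (agr m (fun f => op 1 (op 2 f)) (fun i => i = 0)) y z ↔ _
    rw [agr_iff (fun f g => by rw [op_sub, op_sub])]
    exact ⟨fun h => h 0 rfl, fun h i hi => by rw [hi]; exact h⟩

theorem zmod3_solve (β γ : ZMod 3) : (β + γ) + (β + γ) + (β - ((β + γ) + (β + γ))) = β ∧
    (β + γ) + (β + γ) - (β - ((β + γ) + (β + γ))) = γ := by
  revert β γ; decide

/-- independence of the five coordinates -/
theorem rs_indep (m k : ℕ) (hk : k + 4 ≤ m + 3) (y : Option (Fin 4) → Ys m) :
    ∃ z : Ys m, ∀ p, (rs m k p) z (y p) := by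
  set α := op 2 (op 3 (y (some 1)).1) 0 with hα
  set β := op 1 (op 3 (y (some 2)).1) 0 with hβ
  set γ := op 1 (op 2 (y (some 3)).1) 0 with hγ
  set c2 : ZMod 3 := (β + γ) + (β + γ) with hc2
  set c1 : ZMod 3 := β - c2 with hc1
  set c0 : ZMod 3 := c2 - α with hc0
  let δ : ℕ → ZMod 3 := fun i =>
    if i < k then op 1 (op 2 (op 3 (y none).1)) i else op 1 (op 2 (op 3 (y (some 0)).1)) i
  obtain ⟨z, hz⟩ := Ys_extend m (solveSeq c0 c1 c2 δ)
  have z0 : z.1 0 = c0 := hz 0 (by omega)
  have z1 : z.1 1 = c1 := hz 1 (by omega)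
  have z2 : z.1 2 = c2 := hz 2 (by omega)
  have zi : ∀ i, i < k + 1 → z.1 (i + 3) = z.1 (i + 1) + δ i := by
    intro i hi
    rw [hz (i + 3) (by omega), hz (i + 1) (by omega)]
    rfl
  obtain ⟨s1, s2⟩ := zmod3_solve β γ
  refine ⟨z, fun p => ?_⟩
  match p with
  | none =>
    intro i hi
    show op 1 (op 2 (op 3 z.1)) i = op 1 (op 2 (op 3 (y none).1)) i
    have hi' : i < k := hi
    have e : δ i = op 1 (op 2 (op 3 (y none).1)) i := if_pos hi'
    rw [← e]
    have := zi i (by omega)
    simp only [op]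
    have e3 : z.1 (i + 1 + 1 + 1) = z.1 (i + 1) + δ i := this
    rw [e3]; ring
  | some 0 =>
    intro i hi
    show op 1 (op 2 (op 3 z.1)) i = op 1 (op 2 (op 3 (y (some 0)).1)) i
    have hi' : i = k := hi
    have e : δ i = op 1 (op 2 (op 3 (y (some 0)).1)) i := if_neg (by omega)
    rw [← e]
    have := zi i (by omega)
    simp only [op]
    have e3 : z.1 (i + 1 + 1 + 1) = z.1 (i + 1) + δ i := this
    rw [e3]; ring
  | some 1 =>
    intro i hi
    have hi' : i = 0 := hi
    subst hi'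
    show op 2 (op 3 z.1) 0 = α
    show z.1 2 + z.1 1 - (z.1 1 + z.1 0) = α
    rw [z0, z1, z2, hc0]; ring
  | some 2 =>
    intro i hi
    have hi' : i = 0 := hi
    subst hi'
    show op 1 (op 3 z.1) 0 = β
    show z.1 2 + z.1 1 = β
    rw [z1, z2]; exact s1
  | some 3 =>
    intro i hi
    have hi' : i = 0 := hi
    subst hi'
    show op 1 (op 2 z.1) 0 = γ
    show z.1 2 - z.1 1 = γ
    rw [z1, z2]; exact s2

end VRC

end

section

set_option autoImplicit false

/-! The finitely presented group `Gt X`. -/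

namespace VRC

/-- local rule of the operators -/
def opc (v : Fin 4) (a b : ZMod 3) : ZMod 3 :=
  match v with
  | 0 => a
  | 1 => b
  | 2 => b - a
  | 3 => b + a

theorem op_eq_opc (v : Fin 4) (f : ℕ → ZMod 3) (i : ℕ) : op v f i = opc v (f i) (f (i + 1)) := by
  fin_cases v <;> rfl

/-- pull back of functions -/
def pull (X : Type) [Group X] {A B : Type} (u : A → B) : (B → X) →* (A → X) where
  toFun f := fun a => f (u a)
  map_one' := rfl
  map_mul' _ _ := rfl

@[simp] theorem pull_apply (X : Type) [Group X] {A B : Type} (u : A → B) (f : B → X) (a : A) :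
    pull X u f a = f (u a) := rfl

/-- window maps -/
def ua (v : Fin 4) (y : Fin 3 → ZMod 3) : Fin 2 → ZMod 3 :=
  fun i => opc v (y i.castSucc) (y i.succ)

/-- functions on windows of length two as functions on windows of length three -/
def em (X : Type) [Group X] (v : Fin 4) : ((Fin 2 → ZMod 3) → X) →* ((Fin 3 → ZMod 3) → X) :=
  pull X (ua v)

section
variable (X : Type) [Group X]

/-- free product of the functions on windows and a free group of rank three -/
abbrev Wt : Type := Monoid.Coprod ((Fin 3 → ZMod 3) → X) (FreeGroup (Fin 3))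

/-- the commutation relators -/
def rel1 (i j : Fin 3) : Wt X :=
  (Monoid.Coprod.inr (FreeGroup.of i) : Wt X) * Monoid.Coprod.inr (FreeGroup.of j) *
    (Monoid.Coprod.inr (FreeGroup.of i))⁻¹ * (Monoid.Coprod.inr (FreeGroup.of j))⁻¹

/-- the conjugation relators -/
def rel2 (i : Fin 3) (g : (Fin 2 → ZMod 3) → X) : Wt X :=
  (Monoid.Coprod.inr (FreeGroup.of i) : Wt X) * Monoid.Coprod.inl (em X 0 g) *
    (Monoid.Coprod.inr (FreeGroup.of i))⁻¹ * (Monoid.Coprod.inl (em X i.succ g))⁻¹

def RelSet (T : Set ((Fin 2 → ZMod 3) → X)) : Set (Wt X) :=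
  {w | ∃ i j, w = rel1 X i j} ∪ {w | ∃ i, ∃ g ∈ T, w = rel2 X i g}

/-- the group -/
def Gt : Type := Wt X ⧸ Subgroup.normalClosure (RelSet X Set.univ)

noncomputable instance : Group (Gt X) :=
  inferInstanceAs (Group (Wt X ⧸ Subgroup.normalClosure (RelSet X Set.univ)))

/-- projection -/
noncomputable def prj : Wt X →* Gt X := QuotientGroup.mk' _

theorem prj_surj : Function.Surjective (prj X) := QuotientGroup.mk'_surjective _

theorem prj_ker : (prj X).ker = Subgroup.normalClosure (RelSet X Set.univ) :=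
  QuotientGroup.ker_mk' _

noncomputable def io : ((Fin 3 → ZMod 3) → X) →* Gt X := (prj X).comp Monoid.Coprod.inl

noncomputable def st (i : Fin 3) : Gt X := prj X (Monoid.Coprod.inr (FreeGroup.of i))

theorem prj_rel {w : Wt X} (hw : w ∈ RelSet X Set.univ) : prj X w = 1 := by
  have : w ∈ (prj X).ker := by
    rw [prj_ker]; exact Subgroup.subset_normalClosure hw
  exact this

theorem st_comm (i j : Fin 3) : st X i * st X j = st X j * st X i := by
  have h := prj_rel X (w := rel1 X i j) (Or.inl ⟨i, j, rfl⟩)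
  unfold rel1 at h
  simp only [map_mul, map_inv] at h
  have h' : st X i * st X j * (st X i)⁻¹ * (st X j)⁻¹ = 1 := h
  rw [mul_inv_eq_one, mul_inv_eq_iff_eq_mul] at h'
  exact h'

theorem st_conj (i : Fin 3) (g : (Fin 2 → ZMod 3) → X) :
    st X i * io X (em X 0 g) * (st X i)⁻¹ = io X (em X i.succ g) := by
  have h := prj_rel X (w := rel2 X i g) (Or.inr ⟨i, g, Set.mem_univ _, rfl⟩)
  unfold rel2 at h
  simp only [map_mul, map_inv] at h
  exact mul_inv_eq_one.mp h

/-- universal property -/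
theorem Gt_lift {H : Type} [Group H] (f : ((Fin 3 → ZMod 3) → X) →* H) (u : Fin 3 → H)
    (h1 : ∀ i j, u i * u j = u j * u i)
    (h2 : ∀ i g, u i * f (em X 0 g) * (u i)⁻¹ = f (em X i.succ g)) :
    ∃ F : Gt X →* H, (∀ a, F (io X a) = f a) ∧ ∀ i, F (st X i) = u i := by
  let F0 : Wt X →* H := Monoid.Coprod.lift f (FreeGroup.lift u)
  have hk : Subgroup.normalClosure (RelSet X Set.univ) ≤ F0.ker := by
    apply Subgroup.normalClosure_le_normal
    rintro w (⟨i, j, rfl⟩ | ⟨i, g, -, rfl⟩)
    · show F0 (rel1 X i j) = 1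
      unfold rel1
      simp only [map_mul, map_inv, F0, Monoid.Coprod.lift_apply_inr, FreeGroup.lift_apply_of]
      rw [h1 i j, mul_inv_eq_one, mul_inv_eq_iff_eq_mul]
    · show F0 (rel2 X i g) = 1
      unfold rel2
      simp only [map_mul, map_inv, F0, Monoid.Coprod.lift_apply_inr, Monoid.Coprod.lift_apply_inl,
        FreeGroup.lift_apply_of]
      rw [h2 i g, mul_inv_cancel]
  refine ⟨QuotientGroup.lift _ F0 hk, fun a => ?_, fun i => ?_⟩
  · show F0 (Monoid.Coprod.inl a) = f a
    simp only [F0, Monoid.Coprod.lift_apply_inl]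
  · show F0 (Monoid.Coprod.inr (FreeGroup.of i)) = u i
    simp only [F0, Monoid.Coprod.lift_apply_inr, FreeGroup.lift_apply_of]

/-- generation -/
theorem Gt_gen (K : Subgroup (Gt X)) (h1 : ∀ a, io X a ∈ K) (h2 : ∀ i, st X i ∈ K) : K = ⊤ := by
  rw [eq_top_iff]
  intro g _
  obtain ⟨w, rfl⟩ := prj_surj X g
  have hw : (⊤ : Subgroup (Wt X)) ≤ K.comap (prj X) := by
    rw [← Monoid.Coprod.range_inl_sup_range_inr, sup_le_iff]
    constructor
    · rintro _ ⟨a, rfl⟩
      exact h1 a
    · rintro _ ⟨a, rfl⟩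
      have : (⊤ : Subgroup (FreeGroup (Fin 3))) ≤
          (K.comap (prj X)).comap (Monoid.Coprod.inr : FreeGroup (Fin 3) →* Wt X) := by
        rw [← FreeGroup.closure_range_of, Subgroup.closure_le]
        rintro _ ⟨i, rfl⟩
        exact h2 i
      exact this (Subgroup.mem_top a)
  exact hw (Subgroup.mem_top w)

theorem Gt_hom_ext {H : Type} [Group H] (F F' : Gt X →* H) (h1 : ∀ a, F (io X a) = F' (io X a))
    (h2 : ∀ i, F (st X i) = F' (st X i)) : F = F' := by
  have : F.eqLocus F' = ⊤ := Gt_gen X _ h1 h2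
  ext g
  have hg : g ∈ F.eqLocus F' := by rw [this]; exact Subgroup.mem_top g
  exact hg

/-- the relations for a generating set imply all the relations -/
theorem RelSet_closure (T : Set ((Fin 2 → ZMod 3) → X)) (hT : Subgroup.closure T = ⊤) :
    Subgroup.normalClosure (RelSet X Set.univ) = Subgroup.normalClosure (RelSet X T) := by
  apply le_antisymm
  · apply Subgroup.normalClosure_le_normal
    rintro w (⟨i, j, rfl⟩ | ⟨i, g, -, rfl⟩)
    · exact Subgroup.subset_normalClosure (Or.inl ⟨i, j, rfl⟩)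
    · set N := Subgroup.normalClosure (RelSet X T) with hN
      let q : Wt X →* Wt X ⧸ N := QuotientGroup.mk' N
      let F1 : ((Fin 2 → ZMod 3) → X) →* Wt X ⧸ N :=
        (MulAut.conj (q (Monoid.Coprod.inr (FreeGroup.of i)))).toMonoidHom.comp
          (q.comp (Monoid.Coprod.inl.comp (em X 0)))
      let F2 : ((Fin 2 → ZMod 3) → X) →* Wt X ⧸ N :=
        q.comp (Monoid.Coprod.inl.comp (em X i.succ))
      have key : ∀ g, F1 g * (F2 g)⁻¹ = q (rel2 X i g) := by
        intro g
        simp only [F1, F2, rel2, MonoidHom.comp_apply, MulEquiv.toMonoidHom_eq_coe,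
          MonoidHom.coe_coe, MulAut.conj_apply, map_mul, map_inv]
      have hle : (⊤ : Subgroup ((Fin 2 → ZMod 3) → X)) ≤ F1.eqLocus F2 := by
        rw [← hT, Subgroup.closure_le]
        intro t ht
        show F1 t = F2 t
        rw [← mul_inv_eq_one, key]
        show q (rel2 X i t) = 1
        exact (QuotientGroup.eq_one_iff _).mpr
          (Subgroup.subset_normalClosure (Or.inr ⟨i, t, ht, rfl⟩))
      have hg : F1 g = F2 g := hle (Subgroup.mem_top g)
      have : q (rel2 X i g) = 1 := by rw [← key, hg, mul_inv_cancel]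
      exact (QuotientGroup.eq_one_iff _).mp this
  · apply Subgroup.normalClosure_mono
    rintro w (⟨i, j, rfl⟩ | ⟨i, g, _, rfl⟩)
    · exact Or.inl ⟨i, j, rfl⟩
    · exact Or.inr ⟨i, g, Set.mem_univ _, rfl⟩

theorem RelSet_finite (T : Set ((Fin 2 → ZMod 3) → X)) (hT : T.Finite) : (RelSet X T).Finite := by
  apply Set.Finite.union
  · have : {w | ∃ i j, w = rel1 X i j} = Set.range (fun p : Fin 3 × Fin 3 => rel1 X p.1 p.2) := by
      ext w; constructor
      · rintro ⟨i, j, rfl⟩; exact ⟨(i, j), rfl⟩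
      · rintro ⟨p, rfl⟩; exact ⟨p.1, p.2, rfl⟩
    rw [this]; exact Set.finite_range _
  · have : {w | ∃ i, ∃ g ∈ T, w = rel2 X i g} = ⋃ i : Fin 3, (rel2 X i) '' T := by
      ext w; constructor
      · rintro ⟨i, g, hg, rfl⟩; exact Set.mem_iUnion.mpr ⟨i, g, hg, rfl⟩
      · intro h; obtain ⟨i, g, hg, rfl⟩ := Set.mem_iUnion.mp h; exact ⟨i, g, hg, rfl⟩
    rw [this]
    exact Set.finite_iUnion (fun i => hT.image _)

/-- a finitely presented group is finitely generated -/
theorem fp_fg {G : Type} [Group G] (h : Group.IsFinitelyPresented G) : Group.FG G := by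
  obtain ⟨n, φ, hφ, -⟩ := h.out
  exact Group.fg_of_surjective hφ

theorem Gt_fp (hpi : S_FPpi) (hX : Group.IsFinitelyPresented X) :
    Group.IsFinitelyPresented (Gt X) := by
  have h3 : Group.IsFinitelyPresented ((Fin 3 → ZMod 3) → X) := hpi (Fin 3 → ZMod 3) X hX
  have h2 : Group.IsFinitelyPresented ((Fin 2 → ZMod 3) → X) := hpi (Fin 2 → ZMod 3) X hX
  have hfg := fp_fg h2
  rw [Group.fg_iff] at hfg
  obtain ⟨T, hT, hTf⟩ := hfg
  have hF : Group.IsFinitelyPresented (FreeGroup (Fin 3)) := inferInstance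
  have hW : Group.IsFinitelyPresented (Monoid.Coprod ((Fin 3 → ZMod 3) → X) (FreeGroup (Fin 3))) :=
    inferInstance
  refine @Group.IsFinitelyPresented.of_surjective _ _ _ _ hW (prj X) (prj_surj X) ?_
  rw [prj_ker, RelSet_closure X T hT]
  exact ⟨RelSet X T, RelSet_finite X T hTf, rfl⟩

end

end VRC

end

section

set_option autoImplicit false

/-! The window subgroups of `Gt X`. -/

namespace VRC

/-- conjugate of a subgroup -/
def cj {G : Type} [Group G] (g : G) (K : Subgroup G) : Subgroup G :=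
  K.map (MulAut.conj g).toMonoidHom

theorem mem_cj {G : Type} [Group G] {g : G} {K : Subgroup G} {x : G} :
    x ∈ cj g K ↔ ∃ k ∈ K, g * k * g⁻¹ = x := by
  unfold cj
  simp only [Subgroup.mem_map, MulEquiv.toMonoidHom_eq_coe, MonoidHom.coe_coe, MulAut.conj_apply]

theorem mem_cj_iff {G : Type} [Group G] {g : G} {K : Subgroup G} {x : G} :
    x ∈ cj g K ↔ g⁻¹ * x * g ∈ K := by
  rw [mem_cj]
  constructor
  · rintro ⟨k, hk, rfl⟩
    have : g⁻¹ * (g * k * g⁻¹) * g = k := by group
    rw [this]; exact hk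
  · intro h
    exact ⟨_, h, by group⟩

theorem conj_mem_cj {G : Type} [Group G] {g : G} {K : Subgroup G} {k : G} (hk : k ∈ K) :
    g * k * g⁻¹ ∈ cj g K := mem_cj.mpr ⟨k, hk, rfl⟩

theorem cj_mono {G : Type} [Group G] (g : G) {K L : Subgroup G} (h : K ≤ L) : cj g K ≤ cj g L :=
  Subgroup.map_mono h

theorem cj_one {G : Type} [Group G] (K : Subgroup G) : cj 1 K = K := by
  ext x; rw [mem_cj_iff]; simp

theorem cj_mul {G : Type} [Group G] (g h : G) (K : Subgroup G) : cj (g * h) K = cj g (cj h K) := by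
  ext x; rw [mem_cj_iff, mem_cj_iff, mem_cj_iff]
  have : (g * h)⁻¹ * x * (g * h) = h⁻¹ * (g⁻¹ * x * g) * h := by group
  rw [this]

theorem cj_closure_le {G : Type} [Group G] (g : G) (S : Set G) (L : Subgroup G)
    (h : ∀ x ∈ S, g * x * g⁻¹ ∈ L) : cj g (Subgroup.closure S) ≤ L := by
  have : Subgroup.closure S ≤ L.comap (MulAut.conj g).toMonoidHom := by
    rw [Subgroup.closure_le]
    intro x hx
    show (MulAut.conj g) x ∈ L
    rw [MulAut.conj_apply]; exact h x hx
  exact Subgroup.map_le_iff_le_comap.mpr this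

section
variable (X : Type) [Group X]

/-- the four place elements -/
noncomputable def pl (v : Fin 4) : Gt X := Fin.cases 1 (st X) v

theorem pl_zero : pl X 0 = 1 := rfl
theorem pl_succ (i : Fin 3) : pl X i.succ = st X i := rfl

theorem pl_comm (v w : Fin 4) : pl X v * pl X w = pl X w * pl X v := by
  induction v using Fin.cases with
  | zero => rw [pl_zero, one_mul, mul_one]
  | succ i =>
    induction w using Fin.cases with
    | zero => rw [pl_zero, one_mul, mul_one]
    | succ j => rw [pl_succ, pl_succ]; exact st_comm X i j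

theorem pl_conj (v : Fin 4) (g : (Fin 2 → ZMod 3) → X) :
    pl X v * io X (em X 0 g) * (pl X v)⁻¹ = io X (em X v g) := by
  induction v using Fin.cases with
  | zero => rw [pl_zero]; simp
  | succ i => rw [pl_succ]; exact st_conj X i g

/-- generators of the window subgroups -/
noncomputable def gen (j : ℕ) (g : (Fin 2 → ZMod 3) → X) : Gt X :=
  st X 0 ^ j * io X (em X 0 g) * (st X 0 ^ j)⁻¹

/-- window subgroups -/
noncomputable def KN (N : ℕ) : Subgroup (Gt X) :=
  Subgroup.closure {x | ∃ j, j < N ∧ ∃ g, x = gen X j g}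

theorem gen_mem {N j : ℕ} (hj : j < N) (g : (Fin 2 → ZMod 3) → X) : gen X j g ∈ KN X N :=
  Subgroup.subset_closure ⟨j, hj, g, rfl⟩

theorem KN_le {N : ℕ} (L : Subgroup (Gt X)) (h : ∀ j, j < N → ∀ g, gen X j g ∈ L) : KN X N ≤ L := by
  unfold KN
  rw [Subgroup.closure_le]
  rintro x ⟨j, hj, g, rfl⟩
  exact h j hj g

theorem KN_mono {N M : ℕ} (h : N ≤ M) : KN X N ≤ KN X M :=
  KN_le X _ (fun _ hj g => gen_mem X (lt_of_lt_of_le hj h) g)

theorem cj_pow_KN (j N : ℕ) : cj (st X 0 ^ j) (KN X N) ≤ KN X (N + j) := by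
  apply cj_closure_le
  rintro x ⟨i, hi, g, rfl⟩
  have : st X 0 ^ j * gen X i g * (st X 0 ^ j)⁻¹ = gen X (i + j) g := by
    unfold gen
    rw [add_comm i j, pow_add]; group
  rw [this]
  exact gen_mem X (by omega) g

/-- measurable functions come from the window -/
theorem Ms_ker_le {A B : Type} (u : A → B) : (Ms (Setoid.ker u) : Subgroup (A → X)) ≤ (pull X u).range := by
  classical
  intro f hf
  refine ⟨fun b => if h : ∃ a, u a = b then f h.choose else 1, ?_⟩
  funext a
  rw [pull_apply]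
  have h : ∃ a', u a' = u a := ⟨a, rfl⟩
  rw [dif_pos h]
  exact hf _ _ h.choose_spec

theorem opc_two : ∀ (v w : Fin 4) (a b a' b' : ZMod 3), v ≠ w → opc v a b = opc v a' b' →
    opc w a b = opc w a' b' → a = a' ∧ b = b' := by
  intro v w a b a' b' hvw
  fin_cases v <;> fin_cases w <;>
    first
      | exact absurd rfl hvw
      | (simp only [opc]; revert a b a' b'; decide)

/-- two distinct places generate all the functions on windows of length three -/
theorem em_gen (hGen : S_Gen) (hX : commutator X = ⊤) (v w : Fin 4) (hvw : v ≠ w)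
    (a : (Fin 3 → ZMod 3) → X) : a ∈ (em X v).range ⊔ (em X w).range := by
  have h := hGen (Fin 3 → ZMod 3) X hX (Setoid.ker (ua v)) (Setoid.ker (ua w)) Set.univ
    (fun _ _ _ => by simp) (fun _ _ _ => by simp)
  have ha : a ∈ (Ms (Setoid.ker (ua v) ⊓ Setoid.ker (ua w)) ⊓ Sp Set.univ :
      Subgroup ((Fin 3 → ZMod 3) → X)) := by
    refine ⟨?_, fun y hy => absurd (Set.mem_univ y) hy⟩
    intro y z hyz
    have h1 : ua v y = ua v z := hyz.1
    have h2 : ua w y = ua w z := hyz.2
    have hz : y = z := by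
      funext i
      have e0 := opc_two v w (y 0) (y 1) (z 0) (z 1) hvw (congrFun h1 0) (congrFun h2 0)
      have e1 := opc_two v w (y 1) (y 2) (z 1) (z 2) hvw (congrFun h1 1) (congrFun h2 1)
      fin_cases i
      · exact e0.1
      · exact e0.2
      · exact e1.2
    rw [hz]
  have h' := h ha
  exact (sup_le_sup (inf_le_left.trans (Ms_ker_le X (ua v)))
    (inf_le_left.trans (Ms_ker_le X (ua w)))) h'

theorem em_one_gen (g : (Fin 2 → ZMod 3) → X) : io X (em X 1 g) = gen X 1 g := by
  unfold gen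
  rw [pow_one]
  exact (st_conj X 0 g).symm

theorem em_zero_gen (g : (Fin 2 → ZMod 3) → X) : io X (em X 0 g) = gen X 0 g := by
  unfold gen; simp

theorem io_mem_KN2 (hGen : S_Gen) (hX : commutator X = ⊤) (a : (Fin 3 → ZMod 3) → X) :
    io X a ∈ KN X 2 := by
  have h := em_gen X hGen hX 0 1 (by decide) a
  have hle : (em X 0).range ⊔ (em X 1).range ≤ (KN X 2).comap (io X) := by
    rw [sup_le_iff]
    constructor
    · rintro _ ⟨g, rfl⟩
      show io X (em X 0 g) ∈ KN X 2
      rw [em_zero_gen]; exact gen_mem X (by omega) g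
    · rintro _ ⟨g, rfl⟩
      show io X (em X 1 g) ∈ KN X 2
      rw [em_one_gen]; exact gen_mem X (by omega) g
  exact hle h

theorem st0_pl_comm (v : Fin 4) (j : ℕ) : pl X v * st X 0 ^ j = st X 0 ^ j * pl X v := by
  have : Commute (pl X v) (st X 0) := pl_comm X v 1
  exact (this.pow_right j).eq

/-- conjugation of a generator by a place element -/
theorem pl_gen (v : Fin 4) (j : ℕ) (g : (Fin 2 → ZMod 3) → X) :
    pl X v * gen X j g * (pl X v)⁻¹ = st X 0 ^ j * io X (em X v g) * (st X 0 ^ j)⁻¹ := by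
  unfold gen
  have h := st0_pl_comm X v j
  have h2 : (st X 0 ^ j)⁻¹ * (pl X v)⁻¹ = (pl X v)⁻¹ * (st X 0 ^ j)⁻¹ := by
    rw [← mul_inv_rev, ← mul_inv_rev, h]
  calc pl X v * (st X 0 ^ j * io X (em X 0 g) * (st X 0 ^ j)⁻¹) * (pl X v)⁻¹
      = (pl X v * st X 0 ^ j) * io X (em X 0 g) * ((st X 0 ^ j)⁻¹ * (pl X v)⁻¹) := by group
    _ = st X 0 ^ j * (pl X v * io X (em X 0 g) * (pl X v)⁻¹) * (st X 0 ^ j)⁻¹ := by
        rw [h, h2]; group
    _ = st X 0 ^ j * io X (em X v g) * (st X 0 ^ j)⁻¹ := by rw [pl_conj]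

theorem cj_pl_KN (hGen : S_Gen) (hX : commutator X = ⊤) (v : Fin 4) (N : ℕ) :
    cj (pl X v) (KN X N) ≤ KN X (N + 1) := by
  apply cj_closure_le
  rintro x ⟨j, hj, g, rfl⟩
  rw [pl_gen]
  have h1 : io X (em X v g) ∈ KN X 2 := io_mem_KN2 X hGen hX _
  have h2 := cj_pow_KN X j 2 (conj_mem_cj h1)
  exact KN_mono X (by omega) h2

/-- generation by two places -/
theorem KN_gen (hGen : S_Gen) (hX : commutator X = ⊤) (v w : Fin 4) (hvw : v ≠ w) (n : ℕ) :
    KN X (n + 2) ≤ cj (pl X v) (KN X (n + 1)) ⊔ cj (pl X w) (KN X (n + 1)) := by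
  set L := cj (pl X v) (KN X (n + 1)) ⊔ cj (pl X w) (KN X (n + 1)) with hL
  have key : ∀ j, j < n + 1 → ∀ a, st X 0 ^ j * io X a * (st X 0 ^ j)⁻¹ ∈ L := by
    intro j hj a
    have h := em_gen X hGen hX v w hvw a
    let F : ((Fin 3 → ZMod 3) → X) →* Gt X :=
      (MulAut.conj (st X 0 ^ j)).toMonoidHom.comp (io X)
    have hF : ∀ a, F a = st X 0 ^ j * io X a * (st X 0 ^ j)⁻¹ := fun a => by
      simp only [F, MonoidHom.comp_apply, MulEquiv.toMonoidHom_eq_coe, MonoidHom.coe_coe,
        MulAut.conj_apply]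
    have hle : (em X v).range ⊔ (em X w).range ≤ L.comap F := by
      rw [sup_le_iff]
      constructor
      · rintro _ ⟨g, rfl⟩
        show F (em X v g) ∈ L
        rw [hF, ← pl_gen]
        exact (le_sup_left : _ ≤ L) (conj_mem_cj (gen_mem X hj g))
      · rintro _ ⟨g, rfl⟩
        show F (em X w g) ∈ L
        rw [hF, ← pl_gen]
        exact (le_sup_right : _ ≤ L) (conj_mem_cj (gen_mem X hj g))
    have := hle h
    rw [← hF]; exact this
  apply KN_le
  intro j hj g
  by_cases hj' : j < n + 1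
  · exact key j hj' (em X 0 g)
  · have : j = n + 1 := by omega
    subst this
    have e : gen X (n + 1) g = st X 0 ^ n * io X (em X 1 g) * (st X 0 ^ n)⁻¹ := by
      rw [em_one_gen]; unfold gen; rw [pow_succ]; group
    rw [e]
    exact key n (by omega) _

end

end VRC

end

section

set_option autoImplicit false

/-! The finite quotients of `Gt X` and the evaluation cocycle. -/

namespace VRC

/-- action of permutations on functions -/
def wr (X : Type) [Group X] (Y : Type) : Equiv.Perm Y →* MulAut (Y → X) where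
  toFun σ :=
    { toFun := fun f y => f (σ⁻¹ y)
      invFun := fun f y => f (σ y)
      left_inv := fun f => by funext y; simp
      right_inv := fun f => by funext y; simp
      map_mul' := fun f g => rfl }
  map_one' := by ext f y; rfl
  map_mul' := fun σ τ => by
    ext f y
    show f ((σ * τ)⁻¹ y) = f (τ⁻¹ (σ⁻¹ y))
    rw [mul_inv_rev]; rfl

theorem wr_apply (X : Type) [Group X] (Y : Type) (σ : Equiv.Perm Y) (f : Y → X) (y : Y) :
    wr X Y σ f y = f (σ⁻¹ y) := rfl

section
variable (X : Type) [Group X] (m : ℕ)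

/-- the first three terms -/
def w3 (y : Ys m) : Fin 3 → ZMod 3 := fun i => y.1 i

theorem w3_tau (v : Fin 4) (y : Ys m) : ua 0 (w3 m (tau m v y)) = ua v (w3 m y) := by
  funext i
  show opc 0 ((tau m v y).1 (i.castSucc : Fin 3)) ((tau m v y).1 (i.succ : Fin 3)) = _
  show op v y.1 (i.castSucc : Fin 3) = opc v (y.1 (i.castSucc : Fin 3)) (y.1 (i.succ : Fin 3))
  rw [op_eq_opc]
  rfl

theorem exists_Pm : ∃ F : Gt X →* ((Ys m → X) ⋊[wr X (Ys m)] Equiv.Perm (Ys m)),
    (∀ a, F (io X a) = SemidirectProduct.inl (pull X (w3 m) a)) ∧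
      ∀ i, F (st X i) = SemidirectProduct.inr (tau m i.succ)⁻¹ := by
  have := Gt_lift X (H := (Ys m → X) ⋊[wr X (Ys m)] Equiv.Perm (Ys m))
    ((SemidirectProduct.inl).comp (pull X (w3 m))) (fun i => SemidirectProduct.inr (tau m i.succ)⁻¹)
    (fun i j => by
      rw [← map_mul, ← map_mul, ← mul_inv_rev, ← mul_inv_rev, tau_comm])
    (fun i g => by
      rw [← map_inv]
      simp only [MonoidHom.comp_apply]
      rw [← SemidirectProduct.inl_aut]
      congr 1
      funext y
      rw [wr_apply, pull_apply, inv_inv, pull_apply]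
      show g (ua 0 (w3 m (tau m i.succ y))) = g (ua i.succ (w3 m y))
      rw [w3_tau])
  exact this

/-- the homomorphism to the finite wreath product -/
noncomputable def Pm : Gt X →* ((Ys m → X) ⋊[wr X (Ys m)] Equiv.Perm (Ys m)) :=
  (exists_Pm X m).choose

theorem Pm_io (a : (Fin 3 → ZMod 3) → X) :
    Pm X m (io X a) = SemidirectProduct.inl (pull X (w3 m) a) :=
  (exists_Pm X m).choose_spec.1 a

theorem Pm_st (i : Fin 3) : Pm X m (st X i) = SemidirectProduct.inr (tau m i.succ)⁻¹ :=
  (exists_Pm X m).choose_spec.2 i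

theorem tau_zero : tau m 0 = 1 := by
  ext1 y
  exact Subtype.ext rfl

theorem Pm_pl (v : Fin 4) : Pm X m (pl X v) = SemidirectProduct.inr (tau m v)⁻¹ := by
  induction v using Fin.cases with
  | zero => rw [pl_zero, map_one, tau_zero, inv_one, map_one]
  | succ i => rw [pl_succ, Pm_st]

/-- action -/
noncomputable def actm : Gt X →* Equiv.Perm (Ys m) := SemidirectProduct.rightHom.comp (Pm X m)

/-- cocycle -/
noncomputable def evm (g : Gt X) : Ys m → X := (Pm X m g).left

theorem evm_mul (g h : Gt X) (y : Ys m) :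
    evm X m (g * h) y = evm X m g y * evm X m h ((actm X m g)⁻¹ y) := by
  unfold evm
  rw [map_mul, SemidirectProduct.mul_left, Pi.mul_apply, wr_apply]
  rfl

theorem evm_one : evm X m 1 = 1 := by unfold evm; rw [map_one]; rfl

theorem actm_io (a : (Fin 3 → ZMod 3) → X) : actm X m (io X a) = 1 := by
  unfold actm; rw [MonoidHom.comp_apply, Pm_io]; exact SemidirectProduct.rightHom_inl _

theorem actm_pl (v : Fin 4) : actm X m (pl X v) = (tau m v)⁻¹ := by
  unfold actm; rw [MonoidHom.comp_apply, Pm_pl]; exact SemidirectProduct.rightHom_inr _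

theorem evm_io (a : (Fin 3 → ZMod 3) → X) : evm X m (io X a) = pull X (w3 m) a := by
  unfold evm; rw [Pm_io]; rfl

theorem evm_pl (v : Fin 4) : evm X m (pl X v) = 1 := by
  unfold evm; rw [Pm_pl]; rfl

/-- evaluation on the kernel of the action -/
noncomputable def evK : (actm X m).ker →* (Ys m → X) where
  toFun k := evm X m k.1
  map_one' := evm_one X m
  map_mul' := fun a b => by
    funext y
    show evm X m (a.1 * b.1) y = evm X m a.1 y * evm X m b.1 y
    rw [evm_mul]
    have : actm X m a.1 = 1 := a.2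
    rw [this, inv_one]; rfl

theorem evm_mul_of (a b : Gt X) (ha : actm X m a = 1) : evm X m (a * b) = evm X m a * evm X m b := by
  funext y
  rw [evm_mul, ha, inv_one]; rfl

theorem evm_conj (g k : Gt X) (hk : actm X m k = 1) (hg : evm X m g = 1) (y : Ys m) :
    evm X m (g * k * g⁻¹) y = evm X m k ((actm X m g)⁻¹ y) := by
  have h1 : evm X m g⁻¹ = 1 := by
    funext y
    have h := evm_mul X m g⁻¹ g y
    rw [inv_mul_cancel, evm_one, hg] at h
    simpa using h.symm
  rw [evm_mul, evm_mul, hg, h1]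
  simp

/-- the action of the window subgroups is trivial -/
theorem actm_gen (j : ℕ) (g : (Fin 2 → ZMod 3) → X) : actm X m (gen X j g) = 1 := by
  unfold gen
  rw [map_mul, map_mul, map_inv, actm_io, mul_one, mul_inv_cancel]

theorem actm_KN (N : ℕ) : KN X N ≤ (actm X m).ker :=
  KN_le X _ (fun j _ g => actm_gen X m j g)

theorem actm_cj {g : Gt X} {K : Subgroup (Gt X)} (hK : K ≤ (actm X m).ker) :
    cj g K ≤ (actm X m).ker := by
  intro x hx
  obtain ⟨k, hk, rfl⟩ := mem_cj.mp hx
  show actm X m (g * k * g⁻¹) = 1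
  have : actm X m k = 1 := hK hk
  rw [map_mul, map_mul, this, map_inv, mul_one, mul_inv_cancel]

/-- the functions realised by a subgroup -/
noncomputable def EV (K : Subgroup (Gt X)) : Subgroup (Ys m → X) :=
  (K.comap (actm X m).ker.subtype).map (evK X m)

theorem mem_EV {K : Subgroup (Gt X)} (hK : K ≤ (actm X m).ker) {f : Ys m → X} :
    f ∈ EV X m K ↔ ∃ k ∈ K, evm X m k = f := by
  unfold EV
  simp only [Subgroup.mem_map, Subgroup.mem_comap]
  constructor
  · rintro ⟨k, hk, rfl⟩
    exact ⟨k.1, hk, rfl⟩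
  · rintro ⟨k, hk, rfl⟩
    exact ⟨⟨k, hK hk⟩, hk, rfl⟩

theorem EV_mono {K L : Subgroup (Gt X)} (h : K ≤ L) : EV X m K ≤ EV X m L :=
  Subgroup.map_mono (Subgroup.comap_mono h)

/-- evaluation of a generator -/
theorem evm_gen (j : ℕ) (g : (Fin 2 → ZMod 3) → X) (y : Ys m) :
    evm X m (gen X j g) y = g (fun i : Fin 2 => y.1 (j + i)) := by
  have hst : ∀ j, evm X m (st X 0 ^ j) = 1 := by
    intro j
    induction j with
    | zero => rw [pow_zero]; exact evm_one X m
    | succ n ih =>
      funext y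
      rw [pow_succ, evm_mul, ih]
      have : evm X m (st X 0) = 1 := evm_pl X m 1
      rw [this]; simp
  have hact : ∀ j (y : Ys m), ((actm X m (st X 0 ^ j))⁻¹ y).1 = fun i => y.1 (j + i) := by
    intro j
    induction j with
    | zero => intro y; rw [pow_zero, map_one, inv_one]; funext i; rw [zero_add]; rfl
    | succ n ih =>
      intro y
      rw [pow_succ', map_mul, mul_inv_rev]
      have e : actm X m (st X 0) = (tau m 1)⁻¹ := actm_pl X m 1
      rw [e, inv_inv]
      show ((actm X m (st X 0 ^ n))⁻¹ (tau m 1 y)).1 = _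
      rw [ih]
      funext i
      show y.1 (n + i + 1) = y.1 (n + 1 + i)
      rw [add_right_comm]
  unfold gen
  rw [evm_conj X m _ _ (actm_io X m _) (hst j), evm_io, pull_apply]
  show g (ua 0 (w3 m _)) = _
  congr 1
  funext i
  show ((actm X m (st X 0 ^ j))⁻¹ y).1 (i.castSucc : Fin 3) = _
  rw [hact]
  rfl

/-- the functions realised by the conjugate of a subgroup -/
theorem mem_EV_cj {K : Subgroup (Gt X)} (hK : K ≤ (actm X m).ker) {g : Gt X}
    (hg : evm X m g = 1) {f : Ys m → X} :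
    f ∈ EV X m (cj g K) ↔ (fun y => f (actm X m g y)) ∈ EV X m K := by
  rw [mem_EV X m (actm_cj X m hK), mem_EV X m hK]
  constructor
  · rintro ⟨x, hx, rfl⟩
    obtain ⟨k, hk, rfl⟩ := mem_cj.mp hx
    refine ⟨k, hk, ?_⟩
    funext y
    rw [evm_conj X m g k (hK hk) hg]
    simp
  · rintro ⟨k, hk, h⟩
    refine ⟨g * k * g⁻¹, conj_mem_cj hk, ?_⟩
    funext y
    rw [evm_conj X m g k (hK hk) hg, h]
    simp

/-- the window subgroup realises exactly the functions of the window -/
theorem EV_KN (hGen : S_Gen) (hX : commutator X = ⊤) (N : ℕ) :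
    EV X m (KN X (N + 1)) = Ms (win m (N + 2)) := by
  apply le_antisymm
  · intro f hf
    obtain ⟨k, hk, rfl⟩ := (mem_EV X m (actm_KN X m _)).mp hf
    have hle : KN X (N + 1) ≤ ((Ms (win m (N + 2))).comap (evK X m)).map (actm X m).ker.subtype := by
      apply KN_le
      intro j hj g
      refine ⟨⟨gen X j g, actm_gen X m j g⟩, ?_, rfl⟩
      show evm X m (gen X j g) ∈ Ms (win m (N + 2))
      intro y z hyz
      rw [evm_gen, evm_gen]
      congr 1
      funext i
      exact hyz (j + i) (by have := i.2; omega)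
    obtain ⟨x, hx, hxk⟩ := hle hk
    have hxk' : x.1 = k := hxk
    rw [← hxk']
    exact hx
  · induction N with
    | zero =>
      intro f hf
      have h1 : (Ms (win m 2) : Subgroup (Ys m → X)) ≤
          (pull X (fun y : Ys m => fun i : Fin 2 => y.1 i)).range := by
        refine le_trans ?_ (Ms_ker_le X _)
        intro f hf y z hyz
        apply hf
        intro i hi
        exact congrFun (show (fun i : Fin 2 => y.1 i) = (fun i : Fin 2 => z.1 i) from hyz) ⟨i, hi⟩
      obtain ⟨g, rfl⟩ := h1 hf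
      rw [mem_EV X m (actm_KN X m _)]
      refine ⟨gen X 0 g, gen_mem X (by omega) g, ?_⟩
      funext y
      rw [evm_gen, pull_apply]
      congr 1
      funext i
      rw [zero_add]
    | succ N ih =>
      have hG := hGen (Ys m) X hX (win m (N + 2))
        (agr m (op 1) (fun i => i < N + 2)) Set.univ
        (fun _ _ _ => by simp) (fun _ _ _ => by simp)
      intro f hf
      have hf' : f ∈ (Ms (win m (N + 2) ⊓ agr m (op 1) (fun i => i < N + 2)) ⊓ Sp Set.univ :
          Subgroup (Ys m → X)) := by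
        refine ⟨?_, fun y hy => absurd (Set.mem_univ y) hy⟩
        intro y z hyz
        apply hf
        intro i hi
        have h1 : ∀ i, i < N + 2 → y.1 i = z.1 i := hyz.1
        have h2 : ∀ i, i < N + 2 → op 1 y.1 i = op 1 z.1 i := hyz.2
        by_cases h : i < N + 2
        · exact h1 i h
        · have : i = (N + 1) + 1 := by omega
          rw [this]
          exact h2 (N + 1) (by omega)
      have h3 := hG hf'
      have hA : (Ms (win m (N + 2)) ⊓ Sp Set.univ : Subgroup (Ys m → X)) ≤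
          EV X m (KN X (N + 1 + 1)) :=
        inf_le_left.trans (ih.trans (EV_mono X m (KN_mono X (by omega))))
      have hB : (Ms (agr m (op 1) (fun i => i < N + 2)) ⊓ Sp Set.univ : Subgroup (Ys m → X)) ≤
          EV X m (KN X (N + 1 + 1)) := by
        refine inf_le_left.trans ?_
        refine le_trans ?_ (EV_mono X m (cj_pow_KN X 1 (N + 1)))
        intro f hf
        have hs1 : evm X m (st X 0 ^ 1) = 1 := by rw [pow_one]; exact evm_pl X m 1
        rw [mem_EV_cj X m (actm_KN X m _) hs1]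
        apply ih
        intro y z hyz
        apply hf
        intro i hi
        have e : actm X m (st X 0 ^ 1) = (tau m 1)⁻¹ := by rw [pow_one]; exact actm_pl X m 1
        rw [e]
        have e2 : ∀ y : Ys m, op 1 ((tau m 1)⁻¹ y).1 = y.1 := by
          intro y
          have : tau m 1 ((tau m 1)⁻¹ y) = y := by simp
          exact congrArg Subtype.val this
        rw [e2, e2]
        exact hyz i hi
      exact (sup_le hA hB) h3

end

end VRC

end
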