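import Mathlib
import Pool.Agent.Work.MP_332575_al.Bd.B07

/-! Bundle of small proof modules (one section per former module). -/

section

set_option autoImplicit false

/-! Injectivity of the evaluation on the window subgroups. -/

namespace VRC

section
variable (X : Type) [Group X] (m : ℕ)

theorem EV_cj_agr (hGen : S_Gen) (hX : commutator X = ⊤) (g : Gt X) (σ : Equiv.Perm (Ys m))
    (L : (ℕ → ZMod 3) → ℕ → ZMod 3) (hσ : ∀ y, (σ y).1 = L y.1) (hact : actm X m g = σ⁻¹)
    (hev : evm X m g = 1) (N : ℕ) :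
    EV X m (cj g (KN X (N + 1))) = Ms (agr m L (fun i => i < N + 2)) := by
  ext f
  rw [mem_EV_cj X m (actm_KN X m _) hev, EV_KN X m hGen hX N, hact]
  constructor
  · intro h y z hyz
    have := h (σ y) (σ z) (fun i hi => by
      show (σ y).1 i = (σ z).1 i
      rw [hσ, hσ]; exact hyz i hi)
    simpa using this
  · intro h y z hyz
    apply h
    intro i hi
    have e : ∀ y, L (σ⁻¹ y).1 = y.1 := fun y => by rw [← hσ]; simp
    rw [e, e]
    exact hyz i hi

/-- the evaluation restricted to a window subgroup -/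
noncomputable def piN (N : ℕ) : KN X N →* (Ys m → X) :=
  (evK X m).comp (Subgroup.inclusion (actm_KN X m N))

theorem piN_apply (N : ℕ) (x : KN X N) : piN X m N x = evm X m x.1 := rfl

theorem map_subgroupOf {N : ℕ} (L : Subgroup (Gt X)) (hL : L ≤ KN X N) :
    (L.subgroupOf (KN X N)).map (piN X m N) = EV X m L := by
  ext f
  rw [mem_EV X m (hL.trans (actm_KN X m N)), Subgroup.mem_map]
  constructor
  · rintro ⟨x, hx, rfl⟩
    exact ⟨x.1, hx, rfl⟩
  · rintro ⟨x, hx, rfl⟩
    exact ⟨⟨x, hL hx⟩, hx, rfl⟩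

/-- constants -/
noncomputable def cst (N : ℕ) (hN : 0 < N) : X →* KN X N where
  toFun g := ⟨io X (fun _ => g), by
    have : io X (fun _ => g) = gen X 0 (fun _ => g) := (em_zero_gen X (fun _ => g)) ▸ rfl
    rw [this]; exact gen_mem X hN _⟩
  map_one' := Subtype.ext (map_one (io X))
  map_mul' := fun a b => Subtype.ext (map_mul (io X) (fun _ => a) (fun _ => b))

theorem cst_mem (v : Fin 4) (N : ℕ) (hN : 0 < N) (g : X) :
    io X (fun _ => g) ∈ cj (pl X v) (KN X N) := by
  have h := pl_conj X v (fun _ => g)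
  have e1 : em X v (fun _ => g) = fun _ => g := rfl
  rw [e1] at h
  rw [← h]
  apply conj_mem_cj
  rw [em_zero_gen]
  exact gen_mem X hN _

theorem KN_perfect (hPP : S_PerfPi) (hX : commutator X = ⊤) (N : ℕ) :
    commutator (KN X N) = ⊤ := by
  have hP : commutator ((Fin 2 → ZMod 3) → X) = ⊤ := hPP _ X hX
  have key : ∀ j (hj : j < N) (g : (Fin 2 → ZMod 3) → X),
      (⟨gen X j g, gen_mem X hj g⟩ : KN X N) ∈ commutator (KN X N) := by
    intro j hj g
    let h : ((Fin 2 → ZMod 3) → X) →* KN X N :=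
      { toFun := fun g => ⟨gen X j g, gen_mem X hj g⟩
        map_one' := Subtype.ext (by show gen X j 1 = 1; unfold gen; simp)
        map_mul' := fun a b => Subtype.ext (by
          show gen X j (a * b) = gen X j a * gen X j b
          unfold gen; rw [map_mul, map_mul]; group) }
    have hg : g ∈ commutator ((Fin 2 → ZMod 3) → X) := by rw [hP]; exact Subgroup.mem_top g
    have : h g ∈ (commutator ((Fin 2 → ZMod 3) → X)).map h := Subgroup.mem_map_of_mem h hg
    rw [commutator_def, Subgroup.map_commutator] at this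
    exact Subgroup.commutator_mono le_top le_top this
  rw [eq_top_iff]
  rintro ⟨x, hx⟩ -
  have hle : KN X N ≤ (commutator (KN X N)).map (KN X N).subtype := by
    apply KN_le
    intro j hj g
    exact ⟨_, key j hj g, rfl⟩
  obtain ⟨z, hz, hzx⟩ := hle hx
  have : z = ⟨x, hx⟩ := Subtype.ext hzx
  rw [← this]; exact hz

theorem inj_step (hAT : S_AT) (hSPpi : S_SPpi) (hPP : S_PerfPi) (hGen : S_Gen)
    (hX : commutator X = ⊤) (hSP : SP X) (k : ℕ) (hk : k + 4 ≤ m + 3)
    (ih : ∀ x ∈ KN X (k + 2), evm X m x = 1 → x = 1) :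
    ∀ x ∈ KN X (k + 3), evm X m x = 1 → x = 1 := by
  classical
  have hAle : ∀ v, cj (pl X v) (KN X (k + 2)) ≤ KN X (k + 3) := fun v => cj_pl_KN X hGen hX v _
  have hBleA : ∀ v w, cj (pl X v * pl X w) (KN X (k + 1)) ≤ cj (pl X v) (KN X (k + 2)) := by
    intro v w
    rw [cj_mul]
    exact cj_mono _ (cj_pl_KN X hGen hX w _)
  have hBleA' : ∀ v w, cj (pl X v * pl X w) (KN X (k + 1)) ≤ cj (pl X w) (KN X (k + 2)) := by
    intro v w
    rw [pl_comm]
    exact hBleA w v
  have hcen := hAT (Ys m) (KN X (k + 3)) X hX (piN X m (k + 3)) (rs m k)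
    (fun v => (cj (pl X v) (KN X (k + 2))).subgroupOf (KN X (k + 3)))
    (Rs m k)
    (fun v w => (cj (pl X v * pl X w) (KN X (k + 1))).subgroupOf (KN X (k + 3)))
    (RBs m k)
    (cst X (k + 3) (by omega))
    (rs_indep m k hk)
    (fun v w _ => Subgroup.comap_mono (hBleA v w))
    (fun v w _ => Subgroup.comap_mono (hBleA' v w))
    (fun v a ha h1 => by
      obtain ⟨x, hx, hxa⟩ := mem_cj.mp (show a.1 ∈ cj (pl X v) (KN X (k + 2)) from ha)
      have hax : evm X m a.1 = 1 := h1
      have hker : actm X m x = 1 := actm_KN X m _ hx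
      have hx1 : evm X m x = 1 := by
        funext y
        have := congrFun hax (actm X m (pl X v) y)
        rw [← hxa, evm_conj X m _ x hker (evm_pl X m v)] at this
        simpa using this
      have := ih x hx hx1
      apply Subtype.ext
      rw [← hxa, this]; simp)
    (fun v => by
      rw [map_subgroupOf X m _ (hAle v)]
      exact EV_cj_agr X m hGen hX (pl X v) (tau m v) (op v) (fun y => rfl) (actm_pl X m v)
        (evm_pl X m v) (k + 1))
    (fun v w _ => by
      rw [map_subgroupOf X m _ ((hBleA v w).trans (hAle v))]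
      refine EV_cj_agr X m hGen hX (pl X v * pl X w) (tau m w * tau m v)
        (fun f => op v (op w f)) (fun y => ?_) ?_ ?_ k
      · show op w (op v y.1) = op v (op w y.1)
        exact op_comm w v y.1
      · rw [map_mul, actm_pl, actm_pl, mul_inv_rev]
      · funext y
        rw [evm_mul, evm_pl, evm_pl]; simp)
    (fun v w z hvw hvz hwz x y h1 h2 => by
      rw [RBs_iff] at h1 h2
      rw [Rs_iff]
      exact RBD_RD k v w z hwz _ h1 h2)
    (fun v w p hvw hpv hpw x y h => by
      rw [RBs_iff] at h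
      rw [rs_iff]
      exact RBD_rD k v w p hvw hpv hpw _ h)
    (fun v p hpv x y h => by
      rw [Rs_iff] at h
      rw [rs_iff]
      exact RD_rD k v p hpv _ h)
    (fun v x y h => by
      rw [Rs_iff]
      apply rD_RD
      intro p hp
      rw [← rs_iff]
      exact h p hp)
    (fun v g => cst_mem X v (k + 2) (by omega) g)
    (fun g y => by
      show evm X m (io X (fun _ => g)) y = g
      rw [evm_io]; rfl)
    (fun p => by
      obtain ⟨v, w, hvw, hpv, hpw⟩ : ∃ v w : Fin 4, v ≠ w ∧ p ≠ some v ∧ p ≠ some w := by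
        revert p; decide
      rw [eq_top_iff]
      rintro ⟨x, hx⟩ -
      have h1 := KN_gen X hGen hX v w hvw (k + 1) hx
      have h2 : (⟨x, hx⟩ : KN X (k + 3)) ∈
          (cj (pl X v) (KN X (k + 2)) ⊔ cj (pl X w) (KN X (k + 2))).subgroupOf (KN X (k + 3)) := h1
      rw [Subgroup.subgroupOf_sup (hAle v) (hAle w)] at h2
      exact (sup_le (le_iSup (fun v : {v : Fin 4 // p ≠ some v} =>
          (cj (pl X v.1) (KN X (k + 2))).subgroupOf (KN X (k + 3))) ⟨v, hpv⟩)
        (le_iSup (fun v : {v : Fin 4 // p ≠ some v} =>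
          (cj (pl X v.1) (KN X (k + 2))).subgroupOf (KN X (k + 3))) ⟨w, hpw⟩)) h2)
  -- the window map
  let w : Ys m → (Fin (k + 4) → ZMod 3) := fun y i => y.1 i
  have hw : Function.Surjective w := by
    intro c
    obtain ⟨y, hy⟩ := Ys_extend m (fun i => if h : i < k + 4 then c ⟨i, h⟩ else 0)
    refine ⟨y, funext fun i => ?_⟩
    have h1 := hy i.1 (lt_of_lt_of_le i.2 hk)
    have h2 : (i : ℕ) < k + 4 := i.2
    show y.1 i = c i
    rw [h1]
    simp [h2]
  have hinj : Function.Injective (pull X w) := by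
    intro f g h
    funext c
    obtain ⟨y, rfl⟩ := hw c
    exact congrFun h y
  have hEV : ∀ x : KN X (k + 3), piN X m (k + 3) x ∈ (pull X w).range := by
    intro x
    have h1 : piN X m (k + 3) x ∈ EV X m (KN X (k + 3)) :=
      (mem_EV X m (actm_KN X m _)).mpr ⟨x.1, x.2, rfl⟩
    rw [EV_KN X m hGen hX (k + 2)] at h1
    apply Ms_ker_le X w
    intro y z hyz
    apply h1
    intro i hi
    exact congrFun (show w y = w z from hyz) ⟨i, hi⟩
  let p : KN X (k + 3) →* ((Fin (k + 4) → ZMod 3) → X) :=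
    (MonoidHom.ofInjective hinj).symm.toMonoidHom.comp ((piN X m (k + 3)).codRestrict _ hEV)
  have hp : ∀ x, pull X w (p x) = piN X m (k + 3) x := by
    intro x
    have := congrArg Subtype.val ((MonoidHom.ofInjective hinj).apply_symm_apply
      ((piN X m (k + 3)).codRestrict _ hEV x))
    exact this
  have hpsurj : Function.Surjective p := by
    intro f
    have h1 : pull X w f ∈ EV X m (KN X (k + 3)) := by
      rw [EV_KN X m hGen hX (k + 2)]
      intro y z hyz
      rw [pull_apply, pull_apply]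
      congr 1
      funext i
      exact hyz i i.2
    obtain ⟨x, hx, hxf⟩ := (mem_EV X m (actm_KN X m _)).mp h1
    refine ⟨⟨x, hx⟩, hinj ?_⟩
    rw [hp]; exact hxf
  have hpker : p.ker ≤ Subgroup.center (KN X (k + 3)) := by
    intro x hx
    apply hcen
    show piN X m (k + 3) x = 1
    rw [← hp, show p x = 1 from hx, map_one]
  have hpinj := hSPpi (Fin (k + 4) → ZMod 3) X hX hSP (KN X (k + 3)) p hpsurj hpker
    (KN_perfect X hPP hX (k + 3))
  intro x hx hx1
  have h1 : p ⟨x, hx⟩ = 1 := by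
    apply hinj
    rw [hp, map_one]; exact hx1
  have h2 : (⟨x, hx⟩ : KN X (k + 3)) = 1 := hpinj (by rw [h1, map_one])
  exact congrArg Subtype.val h2

theorem w3_surj : Function.Surjective (w3 m) := by
  intro c
  obtain ⟨y, hy⟩ := Ys_extend m (fun i => if h : i < 3 then c ⟨i, h⟩ else 0)
  refine ⟨y, funext fun i => ?_⟩
  have h2 : (i : ℕ) < 3 := i.2
  have h1 := hy i.1 (by omega)
  show y.1 i = c i
  rw [h1]; simp [h2]

theorem inj_base : ∀ x ∈ KN X 2, evm X m x = 1 → x = 1 := by
  have hle : KN X 2 ≤ (io X).range := by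
    apply KN_le
    intro j hj g
    match j, hj with
    | 0, _ => rw [← em_zero_gen]; exact ⟨_, rfl⟩
    | 1, _ => rw [← em_one_gen]; exact ⟨_, rfl⟩
  intro x hx h
  obtain ⟨a, rfl⟩ := hle hx
  rw [evm_io] at h
  have : a = 1 := by
    funext c
    obtain ⟨y, rfl⟩ := w3_surj m c
    exact congrFun h y
  rw [this, map_one]

theorem inj_all (hAT : S_AT) (hSPpi : S_SPpi) (hPP : S_PerfPi) (hGen : S_Gen)
    (hX : commutator X = ⊤) (hSP : SP X) (k : ℕ) (hk : k ≤ m) :
    ∀ x ∈ KN X (k + 2), evm X m x = 1 → x = 1 := by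
  induction k with
  | zero => exact inj_base X m
  | succ k ih =>
    exact inj_step X m hAT hSPpi hPP hGen hX hSP k (by omega) (ih (by omega))

end

end VRC

end

section

set_option autoImplicit false

/-! The tower of finite quotients of `Gt X`. -/

namespace VRC

section
variable (X : Type) [Group X]

/-- the product of the three stable letters -/
noncomputable def sig : Gt X := pl X 1 * pl X 2 * pl X 3

theorem cm (v w : Fin 4) : Commute (pl X v) (pl X w) := pl_comm X v w

theorem cm_sig (v : Fin 4) : Commute (pl X v) (sig X) :=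
  ((cm X v 1).mul_right (cm X v 2)).mul_right (cm X v 3)

theorem cj_sig (hGen : S_Gen) (hX : commutator X = ⊤) (N : ℕ) :
    cj (sig X) (KN X N) ≤ KN X (N + 3) := by
  unfold sig
  rw [cj_mul, cj_mul]
  exact (cj_mono _ ((cj_mono _ (cj_pl_KN X hGen hX 3 N)).trans (cj_pl_KN X hGen hX 2 (N + 1)))).trans
    (cj_pl_KN X hGen hX 1 (N + 2))

theorem cj_sig_pl (hGen : S_Gen) (hX : commutator X = ⊤) (v : Fin 4) (N : ℕ) :
    cj (sig X * pl X v) (KN X N) ≤ KN X (N + 4) := by
  rw [cj_mul]
  exact (cj_mono _ (cj_pl_KN X hGen hX v N)).trans (cj_sig X hGen hX (N + 1))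

theorem cj_sig_pl_inv (hGen : S_Gen) (hX : commutator X = ⊤) (v : Fin 4) (N : ℕ) :
    cj (sig X * (pl X v)⁻¹) (KN X N) ≤ KN X (N + 4) := by
  have h2 : ∀ a b : Fin 4, cj (pl X a * pl X b) (KN X N) ≤ KN X (N + 4) := by
    intro a b
    rw [cj_mul]
    exact ((cj_mono _ (cj_pl_KN X hGen hX b N)).trans (cj_pl_KN X hGen hX a (N + 1))).trans
      (KN_mono X (by omega))
  have c23 := pl_comm X 2 3
  match v with
  | 0 =>
    rw [pl_zero, inv_one, mul_one]
    exact (cj_sig X hGen hX N).trans (KN_mono X (by omega))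
  | 1 =>
    have : sig X * (pl X 1)⁻¹ = pl X 2 * pl X 3 := by
      rw [← ((cm_sig X 1).inv_left).eq]
      unfold sig
      group
    rw [this]; exact h2 2 3
  | 2 =>
    have : sig X * (pl X 2)⁻¹ = pl X 1 * pl X 3 := by
      unfold sig
      rw [mul_assoc (pl X 1), c23]
      group
    rw [this]; exact h2 1 3
  | 3 =>
    have : sig X * (pl X 3)⁻¹ = pl X 1 * pl X 2 := by
      unfold sig
      group
    rw [this]; exact h2 1 2

/-- the increasing sequence of subgroups -/
noncomputable def Jt (t : ℕ) : Subgroup (Gt X) := cj ((sig X ^ t)⁻¹) (KN X (4 * t + 2))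

theorem Jt_le (g : Gt X) (t : ℕ) (hg : cj (sig X * g) (KN X (4 * t + 2)) ≤ KN X (4 * t + 6))
    (hc : Commute g (sig X)) : cj g (Jt X t) ≤ Jt X (t + 1) := by
  unfold Jt
  rw [← cj_mul]
  have e : g * (sig X ^ t)⁻¹ = (sig X ^ (t + 1))⁻¹ * (sig X * g) := by
    have h := (hc.pow_right t).eq
    rw [pow_succ, mul_inv_rev]
    have h2 : g * (sig X ^ t)⁻¹ = (sig X ^ t)⁻¹ * g := by
      rw [mul_inv_eq_iff_eq_mul, mul_assoc, h]; group
    rw [h2]
    have h3 : (sig X)⁻¹ * (sig X ^ t)⁻¹ = (sig X ^ t)⁻¹ * (sig X)⁻¹ := by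
      rw [← mul_inv_rev, ← mul_inv_rev, ← pow_succ, ← pow_succ']
    rw [h3]; group
  rw [e, cj_mul]
  exact cj_mono _ hg

theorem Jt_succ (hGen : S_Gen) (hX : commutator X = ⊤) (t : ℕ) : Jt X t ≤ Jt X (t + 1) := by
  have := Jt_le X 1 t (by
    rw [mul_one]
    exact (cj_sig X hGen hX _).trans (KN_mono X (by omega))) (Commute.one_left _)
  rwa [cj_one] at this

theorem Jt_mono (hGen : S_Gen) (hX : commutator X = ⊤) : Monotone (Jt X) :=
  monotone_nat_of_le_succ (Jt_succ X hGen hX)

/-- the union -/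
noncomputable def KK : Subgroup (Gt X) := ⨆ t, Jt X t

theorem mem_KK (hGen : S_Gen) (hX : commutator X = ⊤) {g : Gt X} :
    g ∈ KK X ↔ ∃ t, g ∈ Jt X t := by
  unfold KK
  exact Subgroup.mem_iSup_of_directed (Jt_mono X hGen hX).directed_le

theorem KK_conj (hGen : S_Gen) (hX : commutator X = ⊤) (g : Gt X)
    (h : ∀ t, cj g (Jt X t) ≤ Jt X (t + 1)) {x : Gt X} (hx : x ∈ KK X) : g * x * g⁻¹ ∈ KK X := by
  obtain ⟨t, ht⟩ := (mem_KK X hGen hX).mp hx
  exact (mem_KK X hGen hX).mpr ⟨t + 1, h t (conj_mem_cj ht)⟩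

theorem Jt_zero : Jt X 0 = KN X 2 := by
  unfold Jt; rw [pow_zero, inv_one, cj_one]

theorem KK_normal (hGen : S_Gen) (hX : commutator X = ⊤) : (KK X).Normal := by
  have hio : ∀ a, io X a ∈ KK X := fun a =>
    (mem_KK X hGen hX).mpr ⟨0, by rw [Jt_zero]; exact io_mem_KN2 X hGen hX a⟩
  have h1 : ∀ v t, cj (pl X v) (Jt X t) ≤ Jt X (t + 1) := fun v t =>
    Jt_le X (pl X v) t (cj_sig_pl X hGen hX v _) (cm_sig X v)
  have h2 : ∀ v t, cj (pl X v)⁻¹ (Jt X t) ≤ Jt X (t + 1) := fun v t =>
    Jt_le X (pl X v)⁻¹ t (cj_sig_pl_inv X hGen hX v _) (cm_sig X v).inv_left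
  have hn : Subgroup.normalizer (KK X : Set (Gt X)) = ⊤ := by
    apply Gt_gen
    · intro a
      exact Subgroup.le_normalizer (hio a)
    · intro i
      rw [Subgroup.mem_normalizer_iff]
      intro x
      constructor
      · intro hx
        exact KK_conj X hGen hX (pl X i.succ) (h1 _) hx
      · intro hx
        have := KK_conj X hGen hX (pl X i.succ)⁻¹ (h2 _) hx
        have e : (pl X i.succ)⁻¹ * (st X i * x * (st X i)⁻¹) * ((pl X i.succ)⁻¹)⁻¹ = x := by
          rw [pl_succ]; group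
        rwa [e] at this
  exact Subgroup.normalizer_eq_top_iff.mp hn

theorem exists_q : ∃ F : Gt X →* Multiplicative (Fin 3 → ℤ), (∀ a, F (io X a) = 1) ∧
    ∀ i, F (st X i) = Multiplicative.ofAdd (Pi.single i 1) :=
  Gt_lift X 1 (fun i => Multiplicative.ofAdd (Pi.single i 1)) (fun i j => mul_comm _ _)
    (fun i g => by simp)

/-- the projection to the free abelian group -/
noncomputable def qq : Gt X →* Multiplicative (Fin 3 → ℤ) := (exists_q X).choose

theorem qq_io (a : (Fin 3 → ZMod 3) → X) : qq X (io X a) = 1 := (exists_q X).choose_spec.1 a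
theorem qq_st (i : Fin 3) : qq X (st X i) = Multiplicative.ofAdd (Pi.single i 1) :=
  (exists_q X).choose_spec.2 i

/-- homomorphism out of the free abelian group of rank three -/
def lift3 {A : Type} [Group A] (a : Fin 3 → A) (h : ∀ i j, Commute (a i) (a j)) :
    Multiplicative (Fin 3 → ℤ) →* A where
  toFun n := a 0 ^ (Multiplicative.toAdd n 0) * a 1 ^ (Multiplicative.toAdd n 1) *
    a 2 ^ (Multiplicative.toAdd n 2)
  map_one' := by simp
  map_mul' := fun n k => by
    simp only [toAdd_mul, Pi.add_apply, zpow_add]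
    have h10 : Commute (a 1 ^ (Multiplicative.toAdd n 1)) (a 0 ^ (Multiplicative.toAdd k 0)) :=
      (h 1 0).zpow_zpow _ _
    have h20 : Commute (a 2 ^ (Multiplicative.toAdd n 2)) (a 0 ^ (Multiplicative.toAdd k 0)) :=
      (h 2 0).zpow_zpow _ _
    have h21 : Commute (a 2 ^ (Multiplicative.toAdd n 2)) (a 1 ^ (Multiplicative.toAdd k 1)) :=
      (h 2 1).zpow_zpow _ _
    generalize a 0 ^ (Multiplicative.toAdd n 0) = x0 at *
    generalize a 1 ^ (Multiplicative.toAdd n 1) = x1 at *
    generalize a 2 ^ (Multiplicative.toAdd n 2) = x2 at *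
    generalize a 0 ^ (Multiplicative.toAdd k 0) = y0 at *
    generalize a 1 ^ (Multiplicative.toAdd k 1) = y1 at *
    generalize a 2 ^ (Multiplicative.toAdd k 2) = y2 at *
    calc x0 * y0 * (x1 * y1) * (x2 * y2) = x0 * (y0 * x1) * (y1 * x2) * y2 := by group
      _ = x0 * (x1 * y0) * (x2 * y1) * y2 := by rw [h10.eq, h21.eq]
      _ = x0 * x1 * (y0 * x2) * y1 * y2 := by group
      _ = x0 * x1 * (x2 * y0) * y1 * y2 := by rw [h20.eq]
      _ = x0 * x1 * x2 * (y0 * y1 * y2) := by group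

theorem ker_qq_le (hGen : S_Gen) (hX : commutator X = ⊤) (g : Gt X) (hg : qq X g = 1) :
    g ∈ KK X := by
  have := KK_normal X hGen hX
  let p : Gt X →* Gt X ⧸ KK X := QuotientGroup.mk' (KK X)
  let r : Multiplicative (Fin 3 → ℤ) →* Gt X ⧸ KK X :=
    lift3 (fun i => p (st X i)) (fun i j => by
      show p (st X i) * p (st X j) = p (st X j) * p (st X i)
      rw [← map_mul, ← map_mul, st_comm])
  have hcomp : r.comp (qq X) = p := by
    apply Gt_hom_ext
    · intro a
      rw [MonoidHom.comp_apply, qq_io, map_one]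
      have : io X a ∈ KK X := (mem_KK X hGen hX).mpr
        ⟨0, by rw [Jt_zero]; exact io_mem_KN2 X hGen hX a⟩
      exact ((QuotientGroup.eq_one_iff _).mpr this).symm
    · intro i
      rw [MonoidHom.comp_apply, qq_st]
      show p (st X 0) ^ ((Pi.single i 1 : Fin 3 → ℤ) 0) * p (st X 1) ^ ((Pi.single i 1 : Fin 3 → ℤ) 1) *
        p (st X 2) ^ ((Pi.single i 1 : Fin 3 → ℤ) 2) = p (st X i)
      fin_cases i <;> simp
  have : p g = 1 := by rw [← hcomp, MonoidHom.comp_apply, hg, map_one]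
  exact (QuotientGroup.eq_one_iff _).mp this

variable (m : ℕ)

/-- elements with trivial cocycle -/
noncomputable def E1 : Subgroup (Gt X) where
  carrier := {g | evm X m g = 1}
  one_mem' := evm_one X m
  mul_mem' := fun {a b} ha hb => by
    have ha' : evm X m a = 1 := ha
    have hb' : evm X m b = 1 := hb
    show evm X m (a * b) = 1
    funext y; rw [evm_mul, ha', hb']; simp
  inv_mem' := fun {a} ha => by
    have ha' : evm X m a = 1 := ha
    show evm X m a⁻¹ = 1
    funext y
    have h := evm_mul X m a⁻¹ a y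
    rw [inv_mul_cancel, evm_one, ha'] at h
    simpa using h.symm

theorem sig_mem_E1 (t : ℕ) : evm X m ((sig X ^ t)⁻¹) = 1 := by
  have : (sig X ^ t)⁻¹ ∈ E1 X m := by
    apply Subgroup.inv_mem
    apply Subgroup.pow_mem
    exact Subgroup.mul_mem _ (Subgroup.mul_mem _ (evm_pl X m 1) (evm_pl X m 2)) (evm_pl X m 3)
  exact this

theorem Jt_inj (hAT : S_AT) (hSPpi : S_SPpi) (hPP : S_PerfPi) (hGen : S_Gen)
    (hX : commutator X = ⊤) (hSP : SP X) (t : ℕ) (ht : 4 * t ≤ m) (h : Gt X) (hh : h ∈ Jt X t)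
    (h1 : evm X m h = 1) : h = 1 := by
  obtain ⟨k, hk, rfl⟩ := mem_cj.mp hh
  have hker : actm X m k = 1 := actm_KN X m _ hk
  have hk1 : evm X m k = 1 := by
    funext y
    have := congrFun h1 (actm X m (sig X ^ t)⁻¹ y)
    rw [evm_conj X m _ k hker (sig_mem_E1 X m t)] at this
    simpa using this
  have := inj_all X m hAT hSPpi hPP hGen hX hSP (4 * t) ht k hk hk1
  rw [this]; simp

theorem actm_Jt (t : ℕ) : Jt X t ≤ (actm X m).ker := actm_cj X m (actm_KN X m _)

theorem qq_KN (N : ℕ) : KN X N ≤ (qq X).ker := by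
  apply KN_le
  intro j _ g
  show qq X (gen X j g) = 1
  unfold gen
  rw [map_mul, map_mul, map_inv, qq_io, mul_one, mul_inv_cancel]

theorem evm_surj (hGen : S_Gen) (hX : commutator X = ⊤) (f : Ys m → X) :
    ∃ g, qq X g = 1 ∧ evm X m g = f := by
  have h1 : f ∈ EV X m (KN X (m + 2)) := by
    rw [EV_KN X m hGen hX (m + 1)]
    intro y z hyz
    have : y = z := Ys_ext hyz
    rw [this]
  obtain ⟨k, hk, hkf⟩ := (mem_EV X m (actm_KN X m _)).mp h1
  exact ⟨k, qq_KN X _ hk, hkf⟩

/-- the tower -/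
noncomputable def towerGt (hAT : S_AT) (hSPpi : S_SPpi) (hPP : S_PerfPi) (hGen : S_Gen)
    (hX : commutator X = ⊤) (hSP : SP X) : Tower X (Gt X) where
  Y n := Ys n
  fin n := inferInstance
  card n := Ys_card n
  q := qq X
  act n := actm X n
  ev n := evm X n
  ev_mul n g h y := evm_mul X n g h y
  act_ker n g hg := by
    obtain ⟨t, ht⟩ := (mem_KK X hGen hX).mp (ker_qq_le X hGen hX g hg)
    exact actm_Jt X n t ht
  resid g hg := by
    obtain ⟨t, ht⟩ := (mem_KK X hGen hX).mp (ker_qq_le X hGen hX g hg)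
    refine ⟨4 * t, fun h hh h1 => ?_⟩
    have hh' : h ∈ Jt X t := (Subgroup.zpowers_le.mpr ht) hh
    exact Jt_inj X (4 * t) hAT hSPpi hPP hGen hX hSP t le_rfl h hh' h1
  surj n f := evm_surj X n hGen hX f

end

theorem prf_Tower (hAT : S_AT) (hSPpi : S_SPpi) (hPP : S_PerfPi) (hGen : S_Gen) (hFP : S_FPpi) :
    S_Tower := by
  intro X _ hfp hX hSP
  exact ⟨Gt X, inferInstance, Gt_fp X hFP hfp, ⟨towerGt X hAT hSPpi hPP hGen hX hSP⟩⟩

end VRC

end
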