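import Mathlib
import Mathlib.Data.Int.Notation
import Mathlib.Data.Nat.Notation

/-! Bundle of small proof modules (one section per former module). -/

section

/-!
# The presented group of a lattice with letters

Generators: `t_i` (`i < d`) and letters `ℓ_y` (`y < k`). Relators: `[t_i, t_j]`,
`ℓ_y t_i ℓ_y⁻¹ = t^(M y i)`, and rules `U = t^n V` with positive words `U, V` in the letters.
-/

set_option autoImplicit false

namespace VRC.Cx

/-- vector of a list -/
def vc (d : ℕ) (l : List ℤ) : Fin d → ℤ := fun i => l.getD i.1 0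

/-- ordered product `t^v` -/
def tpw {G : Type*} [Group G] {d : ℕ} (t : Fin d → G) (v : Fin d → ℤ) : G :=
  (List.ofFn fun i => t i ^ v i).prod

/-- value of a word in the letters -/
def lw {G : Type*} [Monoid G] {k : ℕ} (l : Fin k → G) (w : List (Fin k)) : G := (w.map l).prod

/-- presentation data -/
structure PD where
  d : ℕ
  k : ℕ
  M : Fin k → Fin d → Fin d → ℤ
  R : List (List (Fin k) × List (Fin k) × (Fin d → ℤ))

namespace PD

variable (D : PD)

/-- elements of a group satisfying the relations -/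
structure Sat {G : Type*} [Group G] (t : Fin D.d → G) (l : Fin D.k → G) : Prop where
  comm : ∀ i j, t i * t j = t j * t i
  conj : ∀ y i, l y * t i * (l y)⁻¹ = tpw t (D.M y i)
  rule : ∀ r ∈ D.R, lw l r.1 = tpw t r.2.2 * lw l r.2.1

/-- free generators -/
def ft (i : Fin D.d) : FreeGroup (Fin D.d ⊕ Fin D.k) := FreeGroup.of (Sum.inl i)
def fl (y : Fin D.k) : FreeGroup (Fin D.d ⊕ Fin D.k) := FreeGroup.of (Sum.inr y)

/-- the relators -/
def rels : Set (FreeGroup (Fin D.d ⊕ Fin D.k)) :=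
  Set.range (fun p : Fin D.d × Fin D.d => D.ft p.1 * D.ft p.2 * (D.ft p.1)⁻¹ * (D.ft p.2)⁻¹) ∪
  Set.range (fun p : Fin D.k × Fin D.d =>
    D.fl p.1 * D.ft p.2 * (D.fl p.1)⁻¹ * (tpw D.ft (D.M p.1 p.2))⁻¹) ∪
  {x | ∃ r ∈ D.R, x = lw D.fl r.1 * (tpw D.ft r.2.2 * lw D.fl r.2.1)⁻¹}

lemma rels_finite : D.rels.Finite := by
  refine Set.Finite.union (Set.Finite.union (Set.finite_range _) (Set.finite_range _)) ?_
  have : {x | ∃ r ∈ D.R, x = lw D.fl r.1 * (tpw D.ft r.2.2 * lw D.fl r.2.1)⁻¹} =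
      (fun r : List (Fin D.k) × List (Fin D.k) × (Fin D.d → ℤ) =>
        lw D.fl r.1 * (tpw D.ft r.2.2 * lw D.fl r.2.1)⁻¹) '' {r | r ∈ D.R} := by
    ext x
    constructor
    · rintro ⟨r, hr, rfl⟩; exact ⟨r, hr, rfl⟩
    · rintro ⟨r, hr, rfl⟩; exact ⟨r, hr, rfl⟩
  rw [this]
  exact Set.Finite.image _ (List.finite_toSet D.R)

/-- the group -/
abbrev X : Type := PresentedGroup D.rels

/-- its generators -/
def tX (i : Fin D.d) : D.X := PresentedGroup.of (Sum.inl i)
def lX (y : Fin D.k) : D.X := PresentedGroup.of (Sum.inr y)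

lemma map_tpw {G H : Type*} [Group G] [Group H] (f : G →* H) {d : ℕ} (t : Fin d → G)
    (v : Fin d → ℤ) : f (tpw t v) = tpw (fun i => f (t i)) v := by
  unfold tpw
  rw [map_list_prod, List.map_ofFn]
  congr 1
  congr 1
  funext i
  simp

lemma map_lw {G H : Type*} [Monoid G] [Monoid H] (f : G →* H) {k : ℕ} (l : Fin k → G)
    (w : List (Fin k)) : f (lw l w) = lw (fun y => f (l y)) w := by
  unfold lw
  rw [map_list_prod, List.map_map]
  rfl

/-- the generators of `X` satisfy the relations -/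
theorem sat_X : D.Sat D.tX D.lX := by
  have key : ∀ r ∈ D.rels, PresentedGroup.mk D.rels r = 1 := fun r hr =>
    PresentedGroup.one_of_mem hr
  refine ⟨fun i j => ?_, fun y i => ?_, fun r hr => ?_⟩
  · have h := key _ (Or.inl (Or.inl ⟨(i, j), rfl⟩))
    simp only [map_mul, map_inv] at h
    change D.tX i * D.tX j * (D.tX i)⁻¹ * (D.tX j)⁻¹ = 1 at h
    rw [mul_inv_eq_one, mul_inv_eq_iff_eq_mul] at h
    exact h
  · have h := key _ (Or.inl (Or.inr ⟨(y, i), rfl⟩))
    simp only [map_mul, map_inv, map_tpw] at h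
    change D.lX y * D.tX i * (D.lX y)⁻¹ * (tpw D.tX (D.M y i))⁻¹ = 1 at h
    rw [mul_inv_eq_one] at h
    exact h
  · have h := key _ (Or.inr ⟨r, hr, rfl⟩)
    simp only [map_mul, map_inv, map_tpw, map_lw] at h
    change lw D.lX r.1 * (tpw D.tX r.2.2 * lw D.lX r.2.1)⁻¹ = 1 at h
    rw [mul_inv_eq_one] at h
    exact h

/-- universal property -/
theorem exists_hom {G : Type*} [Group G] (t : Fin D.d → G) (l : Fin D.k → G) (h : D.Sat t l) :
    ∃ φ : D.X →* G, (∀ i, φ (D.tX i) = t i) ∧ ∀ y, φ (D.lX y) = l y := by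
  have hr : ∀ r ∈ D.rels, FreeGroup.lift (Sum.elim t l) r = 1 := by
    have e1 : ∀ i, FreeGroup.lift (Sum.elim t l) (D.ft i) = t i := fun i => by simp [ft]
    have e2 : ∀ y, FreeGroup.lift (Sum.elim t l) (D.fl y) = l y := fun y => by simp [fl]
    have e3 : ∀ v, FreeGroup.lift (Sum.elim t l) (tpw D.ft v) = tpw t v := fun v => by
      rw [map_tpw]; simp only [e1]
    have e4 : ∀ w, FreeGroup.lift (Sum.elim t l) (lw D.fl w) = lw l w := fun w => by
      rw [map_lw]; simp only [e2]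
    rintro r ((⟨⟨i, j⟩, rfl⟩ | ⟨⟨y, i⟩, rfl⟩) | ⟨r, hr, rfl⟩)
    · simp only [map_mul, map_inv, e1]
      rw [h.comm i j, mul_inv_cancel_right, mul_inv_cancel]
    · simp only [map_mul, map_inv, e1, e2, e3]
      rw [h.conj y i, mul_inv_cancel]
    · simp only [map_mul, map_inv, e3, e4]
      rw [h.rule r hr, mul_inv_cancel]
  refine ⟨PresentedGroup.toGroup (f := Sum.elim t l) hr, fun i => ?_, fun y => ?_⟩
  · exact PresentedGroup.toGroup.of hr
  · exact PresentedGroup.toGroup.of hr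

/-- induction -/
theorem induct {p : D.X → Prop} (h1 : p 1) (ht : ∀ i, p (D.tX i)) (hl : ∀ y, p (D.lX y))
    (hm : ∀ x y, p x → p y → p (x * y)) (hi : ∀ x, p x → p x⁻¹) (x : D.X) : p x := by
  have hx : x ∈ Subgroup.closure (Set.range (PresentedGroup.of (rels := D.rels))) := by
    rw [PresentedGroup.closure_range_of]; exact Subgroup.mem_top x
  induction hx using Subgroup.closure_induction with
  | mem x hx =>
    obtain ⟨g, rfl⟩ := hx
    cases g with
    | inl i => exact ht i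
    | inr y => exact hl y
  | one => exact h1
  | mul x y _ _ hx hy => exact hm x y hx hy
  | inv x _ hx => exact hi x hx

end PD

end VRC.Cx

end

section

/-!
# Kernel program for the affine representation

A letter is a list of rows, LAST ROW FIRST; a row is `(sparse entries, constant)`; the state is the list of
the coordinates of one vector.
-/

set_option autoImplicit false

namespace VRC.Cx

/-- forced evaluation -/
def fc {α : Type} (n : ℕ) (f : ℕ → α) : α :=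
  match n with
  | 0 => f 0
  | Nat.succ k => f (Nat.succ k)

/-- forced evaluation of an integer -/
def fi {α : Type} (z : ℤ) (f : ℤ → α) : α :=
  match z with
  | Int.ofNat n => fc n fun m => f (Int.ofNat m)
  | Int.negSucc n => fc n fun m => f (Int.negSucc m)

/-- equality of integers -/
def ibeq (a b : ℤ) : Bool :=
  match a, b with
  | Int.ofNat m, Int.ofNat n => Nat.beq m n
  | Int.negSucc m, Int.negSucc n => Nat.beq m n
  | _, _ => false

/-- coordinate -/
noncomputable def gt (l : List ℤ) : ℕ → ℤ :=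
  List.rec (motive := fun _ => ℕ → ℤ) (fun _ => Int.ofNat 0)
    (fun x _ ih k => cond (Nat.beq k 0) x (ih (Nat.pred k))) l

/-- `a + ∑ c * x_k` over the sparse entries, with continuation -/
noncomputable def rowK {α : Type} (x : List ℤ) (k : ℤ → α) (r : List (ℕ × ℤ)) : ℤ → α :=
  List.rec (motive := fun _ => ℤ → α) k
    (fun p _ ih a => fi (Int.add a (Int.mul p.2 (gt x p.1))) ih) r

/-- action of a letter on a vector, with continuation -/
noncomputable def actK {α : Type} (x : List ℤ) (k : List ℤ → α) (rows : List (List (ℕ × ℤ) × ℤ)) :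
    List ℤ → α :=
  List.rec (motive := fun _ => List ℤ → α) k
    (fun p _ ih acc => rowK x (fun z => ih (z :: acc)) p.1 p.2) rows

/-- action of a word on a vector, with continuation -/
noncomputable def evK {α : Type} (x : List ℤ) (w : List (List (List (ℕ × ℤ) × ℤ))) :
    (List ℤ → α) → α :=
  List.rec (motive := fun _ => (List ℤ → α) → α) (fun k => k x)
    (fun l _ ih k => ih fun y => actK y k l []) w

/-- `a = b + c` coordinatewise -/
noncomputable def eqK (a : List ℤ) : List ℤ → List ℤ → Bool :=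
  List.rec (motive := fun _ => List ℤ → List ℤ → Bool)
    (fun b c => List.rec (motive := fun _ => Bool)
      (List.rec (motive := fun _ => Bool) true (fun _ _ _ => false) c) (fun _ _ _ => false) b)
    (fun x _ ih b c => List.rec (motive := fun _ => Bool) false
      (fun y b' _ => List.rec (motive := fun _ => Bool) false
        (fun z c' _ => cond (ibeq x (Int.add y z)) (ih b' c') false) c) b) a

/-- the check of an equality of two words up to a translation -/
noncomputable def chkW (x c : List ℤ) (u v : List (List (List (ℕ × ℤ) × ℤ))) : Bool :=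
  evK x u fun a => evK x v fun b => eqK a b c

end VRC.Cx

end

section

set_option autoImplicit false

/-! # Torsion freeness of a crystallographic group by a finite check

`X` acts on `ℤ^d` (after scaling by `m`) by affine maps `v ↦ lin x v + tr x`. If every element of
`X` is the product of a translation by an element of `m ℤ^d` and of one of finitely many words `w`,
and if for every word `w` (except the empty one) there is an integral functional `φ`, invariant
under `lin w`, with `φ (tr w)` not divisible by `m`, then all the elements of finite order of `X`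
act trivially. -/

namespace VRC.Tor

open Matrix

section abstr

variable {X : Type*} [Group X] {d : ℕ} (lin : X →* Matrix (Fin d) (Fin d) ℤ)
  (tr : X → Fin d → ℤ) (htr : ∀ x y, tr (x * y) = tr x + lin x *ᵥ tr y)

include htr

lemma tr_one : tr 1 = 0 := by
  have h := htr 1 1
  rw [mul_one, map_one, one_mulVec] at h
  simpa using h

lemma tr_inv (x : X) : tr x⁻¹ = - (lin x⁻¹ *ᵥ tr x) := by
  have h := htr x⁻¹ x
  rw [inv_mul_cancel, tr_one lin tr htr] at h
  exact eq_neg_of_add_eq_zero_left h.symm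

/-- the translations by elements of `m ℤ^d` -/
def Lat (m : ℤ) : Subgroup X where
  carrier := {x | lin x = 1 ∧ ∀ i, m ∣ tr x i}
  one_mem' := ⟨map_one _, fun i => by rw [tr_one lin tr htr]; simp⟩
  mul_mem' := by
    intro x y hx hy
    refine ⟨by rw [map_mul, hx.1, hy.1, one_mul], fun i => ?_⟩
    rw [htr, hx.1, one_mulVec]
    exact dvd_add (hx.2 i) (hy.2 i)
  inv_mem' := by
    intro x hx
    have h1 : lin x⁻¹ = 1 := by
      have h := map_mul lin x⁻¹ x
      rw [inv_mul_cancel, map_one, hx.1, mul_one] at h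
      exact h.symm
    refine ⟨h1, fun i => ?_⟩
    rw [tr_inv lin tr htr, h1, one_mulVec]
    exact (dvd_neg).mpr (hx.2 i)

lemma mem_Lat {m : ℤ} {x : X} : x ∈ Lat lin tr htr m ↔ lin x = 1 ∧ ∀ i, m ∣ tr x i := Iff.rfl

lemma phi_pow (x : X) (φ : Fin d → ℤ) (h : φ ᵥ* lin x = φ) (k : ℕ) :
    φ ⬝ᵥ tr (x ^ k) = k * (φ ⬝ᵥ tr x) := by
  induction k with
  | zero => rw [pow_zero, tr_one lin tr htr]; simp
  | succ k ih =>
    rw [pow_succ', htr, dotProduct_add, dotProduct_mulVec, h, ih]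
    push_cast; ring

lemma tr_pow (x : X) (h : lin x = 1) (k : ℕ) : tr (x ^ k) = k • tr x := by
  induction k with
  | zero => rw [pow_zero, tr_one lin tr htr]; simp
  | succ k ih =>
    rw [pow_succ', htr, h, one_mulVec, ih, succ_nsmul, add_comm]

/-- the criterion -/
theorem torsion_free (m : ℤ)
    (hker : ∀ x : X, lin x = 1 → tr x = 0 → x ≠ 1 → ¬ IsOfFinOrder x)
    (hall : ∀ x : X, ∃ n ∈ Lat lin tr htr m, ∃ w : X, x = n * w ∧
      (w = 1 ∨ ∃ φ : Fin d → ℤ, φ ᵥ* lin w = φ ∧ ¬ m ∣ φ ⬝ᵥ tr w)) :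
    ∀ x : X, x ≠ 1 → ¬ IsOfFinOrder x := by
  intro x hx hfin
  obtain ⟨k, hk, hxk⟩ := isOfFinOrder_iff_pow_eq_one.mp hfin
  obtain ⟨n, hn, w, hxw, hw⟩ := hall x
  rcases hw with rfl | ⟨φ, hφ, hm⟩
  · rw [mul_one] at hxw
    subst hxw
    have h1 : k • tr x = 0 := by rw [← tr_pow lin tr htr x hn.1, hxk, tr_one lin tr htr]
    have h2 : tr x = 0 := by
      rcases smul_eq_zero.mp h1 with h | h
      · exact absurd h hk.ne'
      · exact h
    exact hker x hn.1 h2 hx hfin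
  · have hl : lin x = lin w := by rw [hxw, map_mul, hn.1, one_mul]
    have h1 : φ ⬝ᵥ tr (x ^ k) = k * (φ ⬝ᵥ tr x) := phi_pow lin tr htr x φ (by rw [hl]; exact hφ) k
    rw [hxk, tr_one lin tr htr, dotProduct_zero] at h1
    have h2 : φ ⬝ᵥ tr x = 0 := by
      rcases mul_eq_zero.mp h1.symm with h | h
      · exact absurd (by exact_mod_cast h) hk.ne'
      · exact h
    rw [hxw, htr, hn.1, one_mulVec, dotProduct_add] at h2
    apply hm
    have h3 : m ∣ φ ⬝ᵥ tr n := by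
      unfold dotProduct
      exact Finset.dvd_sum fun i _ => Dvd.dvd.mul_left (hn.2 i) _
    have h4 : φ ⬝ᵥ tr w = - (φ ⬝ᵥ tr n) := by linarith
    rw [h4]
    exact (dvd_neg).mpr h3

end abstr

/-! ### Computation with lists -/

/-- `acc + c * r` -/
def addMul (c : ℤ) : List ℤ → List ℤ → List ℤ
  | [], acc => acc
  | r :: rs, [] => (c * r) :: addMul c rs []
  | r :: rs, x :: xs => (x + c * r) :: addMul c rs xs

/-- row vector times matrix -/
def rowMul : List ℤ → List (List ℤ) → List ℤ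
  | [], _ => []
  | _ :: _, [] => []
  | c :: cs, r :: rs => if c = 0 then rowMul cs rs else addMul c r (rowMul cs rs)

/-- the scalar product -/
def dot : List ℤ → List ℤ → ℤ
  | [], _ => 0
  | _ :: _, [] => 0
  | x :: xs, y :: ys => x * y + dot xs ys

/-- `(φ, v)` times the word `w` -/
def run {k : ℕ} (LA : Fin k → List (List ℤ)) (Lt : Fin k → List ℤ) :
    List ℤ → List (Fin k) → ℤ → List ℤ × ℤ
  | φ, [], v => (φ, v)
  | φ, s :: w, v => run LA Lt (rowMul φ (LA s)) w (v + dot φ (Lt s))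

/-- the vector with the given list of coordinates -/
def vec (d : ℕ) (l : List ℤ) : Fin d → ℤ := fun i => l.getD i 0

/-- the matrix with the given list of rows -/
def mat (d : ℕ) (l : List (List ℤ)) : Matrix (Fin d) (Fin d) ℤ :=
  Matrix.of fun i j => (l.getD i []).getD j 0

lemma addMul_getD (c : ℤ) (r acc : List ℤ) (j : ℕ) :
    (addMul c r acc).getD j 0 = acc.getD j 0 + c * r.getD j 0 := by
  induction r generalizing acc j with
  | nil => simp [addMul]
  | cons r rs ih =>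
    cases acc with
    | nil =>
      cases j with
      | zero => simp [addMul]
      | succ j => simpa [addMul] using ih [] j
    | cons x xs =>
      cases j with
      | zero => simp [addMul]
      | succ j => simpa [addMul] using ih xs j

lemma rowMul_getD (cs : List ℤ) (rs : List (List ℤ)) (N : ℕ) (hN : rs.length ≤ N) (j : ℕ) :
    (rowMul cs rs).getD j 0 = ∑ i ∈ Finset.range N, cs.getD i 0 * (rs.getD i []).getD j 0 := by
  induction cs generalizing rs N with
  | nil => simp [rowMul]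
  | cons c cs ih =>
    cases rs with
    | nil => simp [rowMul]
    | cons r rs =>
      obtain ⟨N, rfl⟩ : ∃ M, N = M + 1 := ⟨N - 1, by simp at hN; omega⟩
      rw [Finset.sum_range_succ']
      have h := ih rs N (by simpa using hN)
      have h1 : (rowMul (c :: cs) (r :: rs)).getD j 0 =
          (rowMul cs rs).getD j 0 + c * r.getD j 0 := by
        show (if c = 0 then rowMul cs rs else addMul c r (rowMul cs rs)).getD j 0 = _
        split_ifs with hc
        · rw [hc]; simp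
        · exact addMul_getD _ _ _ _
      rw [h1, h]
      simp

lemma dot_eq (xs ys : List ℤ) (N : ℕ) (hN : ys.length ≤ N) :
    dot xs ys = ∑ i ∈ Finset.range N, xs.getD i 0 * ys.getD i 0 := by
  induction xs generalizing ys N with
  | nil => simp [dot]
  | cons x xs ih =>
    cases ys with
    | nil => simp [dot]
    | cons y ys =>
      obtain ⟨N, rfl⟩ : ∃ M, N = M + 1 := ⟨N - 1, by simp at hN; omega⟩
      rw [Finset.sum_range_succ']
      have h := ih ys N (by simpa using hN)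
      have h1 : dot (x :: xs) (y :: ys) = x * y + dot xs ys := rfl
      rw [h1, h]
      simp [add_comm]

lemma vec_rowMul (d : ℕ) (φ : List ℤ) (A : List (List ℤ)) (hA : A.length ≤ d) :
    vec d (rowMul φ A) = vec d φ ᵥ* mat d A := by
  ext j
  show (rowMul φ A).getD j 0 = _
  rw [rowMul_getD φ A d hA]
  unfold vecMul dotProduct vec mat
  simp only [Matrix.of_apply]
  rw [Fin.sum_univ_eq_sum_range (fun i => φ.getD i 0 * (A.getD i []).getD j 0)]

lemma vec_dot (d : ℕ) (φ t : List ℤ) (ht : t.length ≤ d) : dot φ t = vec d φ ⬝ᵥ vec d t := by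
  rw [dot_eq φ t d ht]
  unfold dotProduct vec
  rw [Fin.sum_univ_eq_sum_range (fun i => φ.getD i 0 * t.getD i 0)]

section

variable {X : Type*} [Group X] {d : ℕ} (lin : X →* Matrix (Fin d) (Fin d) ℤ)
  (tr : X → Fin d → ℤ) (htr : ∀ x y, tr (x * y) = tr x + lin x *ᵥ tr y)
  {k : ℕ} (LA : Fin k → List (List ℤ)) (Lt : Fin k → List ℤ) (ℓ : Fin k → X)
  (hLA : ∀ s, (LA s).length ≤ d) (hLt : ∀ s, (Lt s).length ≤ d)
  (h1 : ∀ s, lin (ℓ s) = mat d (LA s)) (h2 : ∀ s, tr (ℓ s) = vec d (Lt s))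

include htr hLA hLt h1 h2

lemma run_spec (w : List (Fin k)) (φ : List ℤ) (v : ℤ) :
    vec d (run LA Lt φ w v).1 = vec d φ ᵥ* lin (w.map ℓ).prod ∧
      (run LA Lt φ w v).2 = v + vec d φ ⬝ᵥ tr (w.map ℓ).prod := by
  induction w generalizing φ v with
  | nil =>
    refine ⟨?_, ?_⟩
    · simp [run]
    · simp [run, tr_one lin tr htr]
  | cons s w ih =>
    obtain ⟨ih1, ih2⟩ := ih (rowMul φ (LA s)) (v + dot φ (Lt s))
    have e : run LA Lt φ (s :: w) v = run LA Lt (rowMul φ (LA s)) w (v + dot φ (Lt s)) := rfl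
    rw [e, ih1, ih2, vec_rowMul d φ _ (hLA s), vec_dot d φ _ (hLt s), List.map_cons,
      List.prod_cons, map_mul, htr, h1, h2]
    refine ⟨?_, ?_⟩
    · rw [vecMul_vecMul]
    · rw [dotProduct_add, dotProduct_mulVec]; ring

/-- the finite check -/
def chk {k : ℕ} (LA : Fin k → List (List ℤ)) (Lt : Fin k → List ℤ) (m : ℕ)
    (p : List (Fin k) × List ℤ) : Bool :=
  let r := run LA Lt p.2 p.1 0
  decide (r.1 = p.2) && (r.2 % (m : ℤ) != 0)

lemma chk_spec (m : ℕ) (p : List (Fin k) × List ℤ) (h : chk LA Lt m p = true) :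
    ∃ φ : Fin d → ℤ, φ ᵥ* lin (p.1.map ℓ).prod = φ ∧ ¬ (m : ℤ) ∣ φ ⬝ᵥ tr (p.1.map ℓ).prod := by
  obtain ⟨e1, e2⟩ := run_spec lin tr htr LA Lt ℓ hLA hLt h1 h2 p.1 p.2 0
  unfold chk at h
  simp only [Bool.and_eq_true, decide_eq_true_eq, bne_iff_ne, ne_eq] at h
  refine ⟨vec d p.2, ?_, ?_⟩
  · rw [← e1, h.1]
  · intro hd
    apply h.2
    rw [e2, zero_add]
    exact Int.emod_eq_zero_of_dvd hd

/-- torsion freeness by a finite table -/
theorem torsion_free_tab (m : ℕ) (tab : List (List (Fin k) × List ℤ))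
    (htab : tab.all (chk LA Lt m) = true)
    (hker : ∀ x : X, lin x = 1 → tr x = 0 → x ≠ 1 → ¬ IsOfFinOrder x)
    (hall : ∀ x : X, ∃ n ∈ Lat lin tr htr m, x = n ∨ ∃ p ∈ tab, x = n * (p.1.map ℓ).prod) :
    ∀ x : X, x ≠ 1 → ¬ IsOfFinOrder x := by
  apply torsion_free lin tr htr m hker
  intro x
  obtain ⟨n, hn, h⟩ := hall x
  rcases h with h | ⟨p, hp, h⟩
  · exact ⟨n, hn, 1, by rw [h, mul_one], Or.inl rfl⟩
  · refine ⟨n, hn, _, h, Or.inr ?_⟩
    exact chk_spec lin tr htr LA Lt ℓ hLA hLt h1 h2 m p (List.all_eq_true.mp htab p hp)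

end

end VRC.Tor

end

section

set_option autoImplicit false

/-! Packed arithmetic for central extensions of a lattice: the evaluation functions. -/

namespace VRC.Pk

/-- digit base `2^40` -/
def B : ℕ := 1099511627776

/-- an element of the extended lattice: exponent vector `p - n` (digits in base `B`, and with
stride 36 in `p6`, `n6`), digit bound `b`, central part `rp - rn` with digit bound `rb` -/
structure El where
  p : ℕ
  n : ℕ
  p6 : ℕ
  n6 : ℕ
  b : ℕ
  rp : ℕ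
  rn : ℕ
  rb : ℕ

/-- a vector with its self pairing -/
structure Wt where
  p : ℕ
  n : ℕ
  p6 : ℕ
  n6 : ℕ
  qp : ℕ
  qn : ℕ

def El.one : El := ⟨0, 0, 0, 0, 0, 0, 0, 0⟩

def El.mul (e f : El) : El :=
  ⟨Nat.add e.p f.p, Nat.add e.n f.n, Nat.add e.p6 f.p6, Nat.add e.n6 f.n6, Nat.add e.b f.b,
   Nat.add (Nat.add e.rp f.rp) (Nat.add (Nat.mul e.p6 f.p) (Nat.mul e.n6 f.n)),
   Nat.add (Nat.add e.rn f.rn) (Nat.add (Nat.mul e.p6 f.n) (Nat.mul e.n6 f.p)),
   Nat.add (Nat.add e.rb f.rb) (Nat.mul e.b f.b)⟩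

/-- accumulator of the conjugation loop -/
structure Ac where
  p : ℕ
  n : ℕ
  p6 : ℕ
  n6 : ℕ
  qp : ℕ
  qn : ℕ
  s : ℕ

/-- multiply by the `c`-th power of the vector `w` -/
def Ac.pos (a : Ac) (c : ℕ) (w : Wt) : Ac :=
  (fun cp cn t => Ac.mk (Nat.add a.p cp) (Nat.add a.n cn) (Nat.add a.p6 (Nat.mul c w.p6))
    (Nat.add a.n6 (Nat.mul c w.n6))
    (Nat.add (Nat.add a.qp (Nat.mul t w.qp)) (Nat.add (Nat.mul a.p6 cp) (Nat.mul a.n6 cn)))
    (Nat.add (Nat.add a.qn (Nat.mul t w.qn)) (Nat.add (Nat.mul a.p6 cn) (Nat.mul a.n6 cp)))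
    (Nat.add a.s c)) (Nat.mul c w.p) (Nat.mul c w.n) (Nat.div (Nat.mul c (Nat.sub c 1)) 2)

/-- multiply by the `-c`-th power of the vector `w` -/
def Ac.neg (a : Ac) (c : ℕ) (w : Wt) : Ac :=
  (fun cp cn t => Ac.mk (Nat.add a.p cp) (Nat.add a.n cn) (Nat.add a.p6 (Nat.mul c w.n6))
    (Nat.add a.n6 (Nat.mul c w.p6))
    (Nat.add (Nat.add a.qp (Nat.mul t w.qp)) (Nat.add (Nat.mul a.p6 cp) (Nat.mul a.n6 cn)))
    (Nat.add (Nat.add a.qn (Nat.mul t w.qn)) (Nat.add (Nat.mul a.p6 cn) (Nat.mul a.n6 cp)))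
    (Nat.add a.s c)) (Nat.mul c w.n) (Nat.mul c w.p) (Nat.div (Nat.mul c (Nat.add c 1)) 2)

def Ac.step (a : Ac) (dp dn : ℕ) (w : Wt) : Ac :=
  cond (Nat.blt dp dn) (a.neg (Nat.sub dn dp) w)
    (cond (Nat.ble dp dn) a (a.pos (Nat.sub dp dn) w))

def cjLoop : List Wt → ℕ → ℕ → Ac → Ac
  | [], _, _, a => a
  | w :: ws, p, n, a =>
    cjLoop ws (Nat.div p B) (Nat.div n B) (a.step (Nat.mod p B) (Nat.mod n B) w)

/-- table of a letter: the vectors, a bound for their digits, the offset (in bits) of its digits,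
a penalty (`0` for a letter, `B` for an undefined one) -/
structure Lt where
  T : List Wt
  bw : ℕ
  off : ℕ
  bad : ℕ

def El.cj (L : Lt) (e : El) : El :=
  cond (and (Nat.beq e.p 0) (Nat.beq e.n 0)) e
    ((fun a bb => El.mk a.p a.n a.p6 a.n6 bb
        (Nat.add (Nat.add e.rp a.qp) (Nat.shiftLeft e.p L.off))
        (Nat.add (Nat.add e.rn a.qn) (Nat.shiftLeft e.n L.off))
        (Nat.add (Nat.add (Nat.add e.rb e.b) (Nat.mul bb bb))
          (Nat.add (Nat.mul B (Nat.div e.b B)) L.bad)))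
      (cjLoop L.T e.p e.n ⟨0, 0, 0, 0, 0, 0, 0⟩)
      (Nat.mul (cjLoop L.T e.p e.n ⟨0, 0, 0, 0, 0, 0, 0⟩).s L.bw))

/-- conjugation by `t^n`, `n` the vector of `x` -/
def El.ct (x e : El) : El :=
  ⟨e.p, e.n, e.p6, e.n6, e.b,
   Nat.add e.rp (Nat.add (Nat.add (Nat.mul x.p6 e.p) (Nat.mul x.n6 e.n))
     (Nat.add (Nat.mul e.p6 x.n) (Nat.mul e.n6 x.p))),
   Nat.add e.rn (Nat.add (Nat.add (Nat.mul x.p6 e.n) (Nat.mul x.n6 e.p))
     (Nat.add (Nat.mul e.p6 x.p) (Nat.mul e.n6 x.n))),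
   Nat.add e.rb (Nat.mul 2 (Nat.mul x.b e.b))⟩

/-- a rule: left side without its first letter, right side, value of `U V⁻¹` -/
structure Rl where
  u : List ℕ
  v : List ℕ
  e : El

def strip : List ℕ → List ℕ → Option (List ℕ)
  | [], w => some w
  | _ :: _, [] => none
  | a :: u, b :: w => cond (Nat.beq a b) (strip u w) none

def find (w : List ℕ) : List Rl → Option (Rl × List ℕ)
  | [] => none
  | r :: rs =>
    match strip r.u w with
    | some rest => some (r, rest)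
    | none => find w rs

/-- the data of one letter -/
structure Le where
  lt : Lt
  rs : List Rl

def nth (L : List Le) (y : ℕ) : Le := L.getD y ⟨⟨[], 0, 0, B⟩, []⟩

/-- put the letters of the first word in front of the second one and reduce; the result is the
element in front and the reduced word -/
def consl (D : List Le) (f : ℕ → List ℕ → El × List ℕ) : List ℕ → List ℕ → El × List ℕ
  | [], w => (El.one, w)
  | x :: V, w =>
    (fun r : El × List ℕ => (fun s : El × List ℕ => (El.mul (El.cj (nth D x).lt r.1) s.1, s.2))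
      (f x r.2)) (consl D f V w)

def cons (D : List Le) : ℕ → ℕ → List ℕ → El × List ℕ
  | 0, x, w => (El.one, x :: w)
  | k + 1, x, w =>
    match find w (nth D x).rs with
    | none => (El.one, x :: w)
    | some (r, rest) =>
      (fun s : El × List ℕ => (El.mul r.e s.1, s.2)) (consl D (cons D k) r.v rest)

/-- conjugation by a word -/
def cw (D : List Le) : List ℕ → El → El
  | [], e => e
  | y :: w, e => El.cj (nth D y).lt (cw D w e)

/-- a row which has to be trivial -/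
structure Rw where
  p : ℕ
  n : ℕ
  b : ℕ

def El.diff (e f : El) : Rw := ⟨Nat.add e.rp f.rn, Nat.add e.rn f.rp, Nat.add e.rb f.rb⟩

def El.same (e f : El) : Bool :=
  and (Nat.beq (Nat.add e.p f.n) (Nat.add f.p e.n)) (Nat.blt (Nat.add e.b f.b) B)

end VRC.Pk

end

section

/-!
# The affine group and the soundness of the program
-/

set_option autoImplicit false

namespace VRC.Cx

open Matrix

/-! ### Affine maps -/

/-- affine maps of `ℤ^d` (monoid) -/
@[ext] structure Am (d : ℕ) where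
  L : Matrix (Fin d) (Fin d) ℤ
  t : Fin d → ℤ

namespace Am

variable {d : ℕ}

instance : Monoid (Am d) where
  mul x y := ⟨x.L * y.L, x.t + x.L *ᵥ y.t⟩
  one := ⟨1, 0⟩
  mul_assoc x y z := by
    apply Am.ext
    · exact Matrix.mul_assoc _ _ _
    · show (x.t + x.L *ᵥ y.t) + (x.L * y.L) *ᵥ z.t = x.t + x.L *ᵥ (y.t + y.L *ᵥ z.t)
      rw [mulVec_add, mulVec_mulVec, add_assoc]
  one_mul x := by
    apply Am.ext
    · exact Matrix.one_mul _
    · show 0 + (1 : Matrix (Fin d) (Fin d) ℤ) *ᵥ x.t = x.t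
      rw [one_mulVec, zero_add]
  mul_one x := by
    apply Am.ext
    · exact Matrix.mul_one _
    · show x.t + x.L *ᵥ 0 = x.t
      rw [mulVec_zero, add_zero]

@[simp] lemma mul_L (x y : Am d) : (x * y).L = x.L * y.L := rfl
@[simp] lemma mul_t (x y : Am d) : (x * y).t = x.t + x.L *ᵥ y.t := rfl
@[simp] lemma one_L : (1 : Am d).L = 1 := rfl
@[simp] lemma one_t : (1 : Am d).t = 0 := rfl

/-- the action on vectors -/
def ap (f : Am d) (x : Fin d → ℤ) : Fin d → ℤ := f.L *ᵥ x + f.t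

lemma ap_one (x : Fin d → ℤ) : ap 1 x = x := by simp [ap]

lemma ap_mul (f g : Am d) (x : Fin d → ℤ) : ap (f * g) x = ap f (ap g x) := by
  simp only [ap, mul_L, mul_t, mulVec_add, mulVec_mulVec]
  abel

/-- the translation by `v` -/
def tr (v : Fin d → ℤ) : Am d := ⟨1, v⟩

lemma tr_mul (v : Fin d → ℤ) (f : Am d) : tr v * f = ⟨f.L, v + f.t⟩ := by
  apply Am.ext
  · exact Matrix.one_mul _
  · show v + (1 : Matrix (Fin d) (Fin d) ℤ) *ᵥ f.t = _
    rw [one_mulVec]

lemma tr_add (v w : Fin d → ℤ) : tr (v + w) = tr v * tr w := by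
  rw [tr_mul]; rfl

lemma tr_zero : tr (0 : Fin d → ℤ) = 1 := rfl

lemma mul_tr (f : Am d) (v : Fin d → ℤ) : f * tr v = tr (f.L *ᵥ v) * f := by
  rw [tr_mul]
  apply Am.ext
  · exact Matrix.mul_one _
  · show f.t + f.L *ᵥ v = f.L *ᵥ v + f.t
    exact add_comm _ _

/-- bound of the rows -/
def Bd (C : ℤ) (f : Am d) : Prop := ∀ i, |f.t i| + ∑ j, |f.L i j| ≤ C

lemma Bd.mul {C D : ℤ} {f g : Am d} (hf : Bd C f) (hg : Bd D g) (hD : 1 ≤ D) :
    Bd (C * D) (f * g) := by
  intro i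
  have h1 : |(f * g).t i| ≤ |f.t i| + ∑ k, |f.L i k| * |g.t k| := by
    show |f.t i + ∑ k, f.L i k * g.t k| ≤ _
    refine (abs_add_le _ _).trans ?_
    gcongr
    refine (Finset.abs_sum_le_sum_abs _ _).trans ?_
    exact Finset.sum_le_sum fun k _ => by rw [abs_mul]
  have h2 : ∑ j, |(f * g).L i j| ≤ ∑ k, |f.L i k| * ∑ j, |g.L k j| := by
    have : ∀ j, |(f * g).L i j| ≤ ∑ k, |f.L i k| * |g.L k j| := by
      intro j
      show |∑ k, f.L i k * g.L k j| ≤ _
      refine (Finset.abs_sum_le_sum_abs _ _).trans ?_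
      exact Finset.sum_le_sum fun k _ => by rw [abs_mul]
    refine (Finset.sum_le_sum fun j _ => this j).trans ?_
    rw [Finset.sum_comm]
    exact Finset.sum_le_sum fun k _ => by rw [Finset.mul_sum]
  have h3 : ∑ k, |f.L i k| * |g.t k| + ∑ k, |f.L i k| * ∑ j, |g.L k j| ≤
      (∑ k, |f.L i k|) * D := by
    rw [← Finset.sum_add_distrib, Finset.sum_mul]
    refine Finset.sum_le_sum fun k _ => ?_
    rw [← mul_add]
    exact mul_le_mul_of_nonneg_left (hg k) (abs_nonneg _)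
  have h4 := hf i
  have h5 : |f.t i| ≤ |f.t i| * D := le_mul_of_one_le_right (abs_nonneg _) hD
  nlinarith [abs_nonneg (f.t i)]

lemma Bd.one : Bd 1 (1 : Am d) := by
  intro i
  have : ∑ j, |(1 : Matrix (Fin d) (Fin d) ℤ) i j| = 1 := by
    rw [Finset.sum_eq_single i]
    · simp
    · intro j _ hj; simp [Matrix.one_apply_ne (Ne.symm hj)]
    · simp
  simp [this]

lemma Bd.prod {C : ℤ} (hC : 1 ≤ C) (l : List (Am d)) (h : ∀ f ∈ l, Bd C f) :
    Bd (C ^ l.length) l.prod := by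
  induction l with
  | nil => simpa using Bd.one
  | cons f l ih =>
    rw [List.prod_cons, List.length_cons, pow_succ']
    exact Bd.mul (h f (by simp)) (ih fun g hg => h g (by simp [hg])) (one_le_pow₀ hC)

end Am

/-! ### Separation -/

lemma digits_zero (X : ℤ) (hX : 0 < X) (n : ℕ) (c : ℕ → ℤ) (hc : ∀ j < n, |c j| < X)
    (h : ∑ j ∈ Finset.range n, c j * X ^ j = 0) : ∀ j < n, c j = 0 := by
  induction n generalizing c with
  | zero => intro j hj; omega
  | succ n ih =>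
    rw [Finset.sum_range_succ'] at h
    have e : ∑ j ∈ Finset.range n, c (j + 1) * X ^ (j + 1) =
        X * ∑ j ∈ Finset.range n, c (j + 1) * X ^ j := by
      rw [Finset.mul_sum]
      exact Finset.sum_congr rfl fun j _ => by ring
    rw [e, pow_zero, mul_one] at h
    have h0 : c 0 = 0 := by
      have hd : X ∣ c 0 := ⟨-∑ j ∈ Finset.range n, c (j + 1) * X ^ j, by linarith⟩
      exact Int.eq_zero_of_abs_lt_dvd hd (hc 0 (by omega))
    have h1 : ∑ j ∈ Finset.range n, c (j + 1) * X ^ j = 0 := by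
      rw [h0, add_zero] at h
      rcases mul_eq_zero.mp h with h | h
      · exact absurd h hX.ne'
      · exact h
    have h2 := ih (fun j => c (j + 1)) (fun j hj => hc (j + 1) (by omega)) h1
    intro j hj
    cases j with
    | zero => exact h0
    | succ j => exact h2 j (by omega)

/-- the test vector -/
def tv (d : ℕ) (X : ℤ) : Fin d → ℤ := fun j => X ^ (j.1 + 1)

lemma Am.sep {d : ℕ} (X C : ℤ) (hC : 0 ≤ C) (hX : 2 * C < X) (f g : Am d) (hf : f.Bd C)
    (hg : g.Bd C) (h : f.ap (tv d X) = g.ap (tv d X)) : f = g := by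
  have hX0 : 0 < X := by linarith
  have key : ∀ i, f.t i = g.t i ∧ ∀ j, f.L i j = g.L i j := by
    intro i
    let c : ℕ → ℤ := fun k => if hk : k = 0 then f.t i - g.t i else
      if hk' : k - 1 < d then f.L i ⟨k - 1, hk'⟩ - g.L i ⟨k - 1, hk'⟩ else 0
    have hci := congrFun h i
    have hL : ∀ (m : Am d) (hm : m.Bd C) (j : Fin d), |m.L i j| ≤ C := by
      intro m hm j
      have h1 := hm i
      have h2 : |m.L i j| ≤ ∑ j, |m.L i j| :=
        Finset.single_le_sum (f := fun j => |m.L i j|) (fun _ _ => abs_nonneg _) (Finset.mem_univ j)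
      have h3 := abs_nonneg (m.t i)
      linarith
    have hT : ∀ (m : Am d) (hm : m.Bd C), |m.t i| ≤ C := by
      intro m hm
      have h1 := hm i
      have h2 : (0 : ℤ) ≤ ∑ j, |m.L i j| := Finset.sum_nonneg fun _ _ => abs_nonneg _
      linarith
    have hz := digits_zero X hX0 (d + 1) c (by
      intro k hk
      show |c k| < X
      by_cases hk0 : k = 0
      · subst hk0
        have : c 0 = f.t i - g.t i := by simp [c]
        rw [this]
        have := abs_sub (f.t i) (g.t i)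
        have := hT f hf; have := hT g hg
        linarith
      · have hk' : k - 1 < d := by omega
        have : c k = f.L i ⟨k - 1, hk'⟩ - g.L i ⟨k - 1, hk'⟩ := by simp [c, hk0, hk']
        rw [this]
        have := abs_sub (f.L i ⟨k - 1, hk'⟩) (g.L i ⟨k - 1, hk'⟩)
        have := hL f hf ⟨k - 1, hk'⟩; have := hL g hg ⟨k - 1, hk'⟩
        linarith) (by
      rw [Finset.sum_range_succ']
      have e0 : c 0 = f.t i - g.t i := by simp [c]
      have e1 : ∑ k ∈ Finset.range d, c (k + 1) * X ^ (k + 1) =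
          ∑ j : Fin d, (f.L i j - g.L i j) * X ^ (j.1 + 1) := by
        rw [← Fin.sum_univ_eq_sum_range (fun k => c (k + 1) * X ^ (k + 1))]
        refine Finset.sum_congr rfl fun j _ => ?_
        have : c (j.1 + 1) = f.L i j - g.L i j := by simp [c]
        rw [this]
      rw [e0, e1]
      have h1 : (f.ap (tv d X)) i = ∑ j, f.L i j * X ^ (j.1 + 1) + f.t i := rfl
      have h2 : (g.ap (tv d X)) i = ∑ j, g.L i j * X ^ (j.1 + 1) + g.t i := rfl
      rw [h1, h2] at hci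
      simp only [sub_mul, Finset.sum_sub_distrib, pow_zero, mul_one]
      linarith)
    refine ⟨?_, fun j => ?_⟩
    · have := hz 0 (by omega)
      simp [c] at this
      linarith
    · have := hz (j.1 + 1) (by omega)
      simp [c] at this
      linarith
  apply Am.ext
  · ext i j; exact (key i).2 j
  · ext i; exact (key i).1

/-! ### The program -/

lemma fc_eq {α : Type} (n : ℕ) (f : ℕ → α) : fc n f = f n := by cases n <;> rfl

lemma fi_eq {α : Type} (z : ℤ) (f : ℤ → α) : fi z f = f z := by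
  cases z with
  | ofNat n => exact fc_eq n fun m => f (Int.ofNat m)
  | negSucc n => exact fc_eq n fun m => f (Int.negSucc m)

lemma ibeq_eq {a b : ℤ} (h : ibeq a b = true) : a = b := by
  cases a <;> cases b <;> simp [ibeq] at h
  · exact congrArg Int.ofNat h
  · exact congrArg Int.negSucc h

lemma gt_eq (l : List ℤ) (k : ℕ) : gt l k = l.getD k 0 := by
  induction l generalizing k with
  | nil => rfl
  | cons x l ih =>
    cases k with
    | zero => rfl
    | succ k => exact ih k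

/-- the value of a row -/
def rv (x : List ℤ) (r : List (ℕ × ℤ)) (a : ℤ) : ℤ := a + (r.map fun p => p.2 * x.getD p.1 0).sum

lemma rowK_eq {α : Type} (x : List ℤ) (k : ℤ → α) (r : List (ℕ × ℤ)) (a : ℤ) :
    rowK x k r a = k (rv x r a) := by
  induction r generalizing a with
  | nil => simp [rv]; rfl
  | cons p r ih =>
    show fi (Int.add a (Int.mul p.2 (gt x p.1))) (rowK x k r) = _
    rw [fi_eq, ih, gt_eq]
    congr 1
    show a + p.2 * x.getD p.1 0 + _ = _
    simp [rv, add_assoc]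

lemma actK_eq {α : Type} (x : List ℤ) (k : List ℤ → α) (rows : List (List (ℕ × ℤ) × ℤ))
    (acc : List ℤ) :
    actK x k rows acc = k ((rows.reverse.map fun p => rv x p.1 p.2) ++ acc) := by
  induction rows generalizing acc with
  | nil => rfl
  | cons p r ih =>
    show rowK x (fun z => actK x k r (z :: acc)) p.1 p.2 = _
    rw [rowK_eq, ih]
    simp

/-- the affine map of a letter (rows in reversed order) -/
def toAm (d : ℕ) (rows : List (List (ℕ × ℤ) × ℤ)) : Am d where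
  L := Matrix.of fun i j =>
    (((rows.reverse.getD i.1 ([], 0)).1.filter fun p => p.1 == j.1).map fun p => p.2).sum
  t := fun i => (rows.reverse.getD i.1 ([], 0)).2

/-- a letter is good: `d` rows with entries in the columns `< d` -/
def okR (d : ℕ) (rows : List (List (ℕ × ℤ) × ℤ)) : Prop :=
  rows.length = d ∧ ∀ r ∈ rows, ∀ p ∈ r.1, p.1 < d

lemma row_sum (d : ℕ) (x : List ℤ) (r : List (ℕ × ℤ)) (h : ∀ p ∈ r, p.1 < d) :
    (r.map fun p => p.2 * x.getD p.1 0).sum =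
      ∑ j : Fin d, ((r.filter fun p => p.1 == j.1).map fun p => p.2).sum * x.getD j.1 0 := by
  induction r with
  | nil => simp
  | cons p r ih =>
    rw [List.map_cons, List.sum_cons, ih fun q hq => h q (by simp [hq])]
    have hp : p.1 < d := h p (by simp)
    have e : ∀ j : Fin d, (((p :: r).filter fun p => p.1 == j.1).map fun p => p.2).sum =
        (if j = ⟨p.1, hp⟩ then p.2 else 0) +
          ((r.filter fun p => p.1 == j.1).map fun p => p.2).sum := by
      intro j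
      rw [List.filter_cons]
      by_cases hj : j = ⟨p.1, hp⟩
      · subst hj; simp
      · have : (p.1 == j.1) = false := by
          simp only [beq_eq_false_iff_ne, ne_eq]
          intro h'
          exact hj (Fin.ext h'.symm)
        simp [this, hj]
    simp only [e, add_mul, Finset.sum_add_distrib]
    congr 1
    rw [Finset.sum_eq_single ⟨p.1, hp⟩]
    · simp
    · intro j _ hj; simp [hj]
    · simp

/-- the list computed for one letter -/
def act (x : List ℤ) (rows : List (List (ℕ × ℤ) × ℤ)) : List ℤ :=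
  rows.reverse.map fun p => rv x p.1 p.2

lemma vc_act (d : ℕ) (x : List ℤ) (rows : List (List (ℕ × ℤ) × ℤ)) (h : okR d rows) :
    vc d (act x rows) = (toAm d rows).ap (vc d x) := by
  funext i
  have hi : i.1 < rows.reverse.length := by rw [List.length_reverse, h.1]; exact i.2
  show (rows.reverse.map fun p => rv x p.1 p.2).getD i.1 0 = _
  rw [List.getD_eq_getElem _ _ (by rw [List.length_map]; exact hi), List.getElem_map]
  unfold Am.ap toAm rv
  simp only [Pi.add_apply]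
  rw [List.getD_eq_getElem _ _ hi, row_sum d x _ (fun p hp => h.2 _
    (List.mem_reverse.mp (List.getElem_mem hi)) p hp), add_comm]
  congr 1
  unfold mulVec dotProduct vc
  refine Finset.sum_congr rfl fun j _ => ?_
  simp only [Matrix.of_apply]
  rw [List.getD_eq_getElem _ _ hi]

lemma evK_eq {α : Type} (x : List ℤ) (w : List (List (List (ℕ × ℤ) × ℤ))) (k : List ℤ → α) :
    evK x w k = k (w.foldr (fun l y => act y l) x) := by
  induction w generalizing k with
  | nil => rfl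
  | cons l w ih =>
    show evK x w (fun y => actK y k l []) = _
    rw [ih, actK_eq, List.append_nil]
    rfl

lemma vc_foldr (d : ℕ) (x : List ℤ) (w : List (List (List (ℕ × ℤ) × ℤ)))
    (h : ∀ l ∈ w, okR d l) :
    vc d (w.foldr (fun l y => act y l) x) = ((w.map (toAm d)).prod).ap (vc d x) := by
  induction w with
  | nil => simp [Am.ap_one]
  | cons l w ih =>
    rw [List.foldr_cons, vc_act d _ l (h l (by simp)), ih fun l hl => h l (by simp [hl]),
      List.map_cons, List.prod_cons, Am.ap_mul]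

lemma eqK_eq (a b c : List ℤ) (h : eqK a b c = true) (i : ℕ) :
    a.getD i 0 = b.getD i 0 + c.getD i 0 := by
  induction a generalizing b c i with
  | nil =>
    cases b with
    | nil =>
      cases c with
      | nil => simp
      | cons z c => exact absurd h (by simp [eqK])
    | cons y b => exact absurd h (by simp [eqK])
  | cons x a ih =>
    cases b with
    | nil => exact absurd h (by simp [eqK])
    | cons y b =>
      cases c with
      | nil => exact absurd h (by simp [eqK])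
      | cons z c =>
        have h' : cond (ibeq x (Int.add y z)) (eqK a b c) false = true := h
        cases hi : ibeq x (Int.add y z) with
        | false => rw [hi] at h'; exact absurd h' (by simp)
        | true =>
          rw [hi] at h'
          cases i with
          | zero => exact ibeq_eq hi
          | succ i => exact ih b c h' i

/-- bound of the rows of a letter -/
def okB (C : ℕ) (rows : List (List (ℕ × ℤ) × ℤ)) : Prop :=
  ∀ r ∈ rows, r.2.natAbs + (r.1.map fun p => p.2.natAbs).sum ≤ C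

lemma sum_filter_le (d : ℕ) (r : List (ℕ × ℤ)) :
    ∑ j : Fin d, |((r.filter fun p => p.1 == j.1).map fun p => p.2).sum| ≤
      (r.map fun p => |p.2|).sum := by
  induction r with
  | nil => simp
  | cons p r ih =>
    have e : ∀ j : Fin d, |(((p :: r).filter fun p => p.1 == j.1).map fun p => p.2).sum| ≤
        (if p.1 = j.1 then |p.2| else 0) +
          |((r.filter fun p => p.1 == j.1).map fun p => p.2).sum| := by
      intro j
      rw [List.filter_cons]
      by_cases hj : p.1 = j.1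
      · simp only [hj, beq_self_eq_true, if_true, List.map_cons, List.sum_cons]
        exact abs_add_le _ _
      · have : (p.1 == j.1) = false := by simpa using hj
        simp [this, hj]
    refine (Finset.sum_le_sum fun j _ => e j).trans ?_
    rw [Finset.sum_add_distrib, List.map_cons, List.sum_cons]
    gcongr
    by_cases hp : p.1 < d
    · rw [Finset.sum_eq_single ⟨p.1, hp⟩]
      · simp
      · intro j _ hj
        rw [if_neg]
        intro h; exact hj (Fin.ext h.symm)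
      · simp
    · rw [Finset.sum_eq_zero]
      · exact abs_nonneg _
      · intro j _
        rw [if_neg]
        intro h; exact hp (by rw [h]; exact j.2)

lemma toAm_Bd (d : ℕ) (C : ℕ) (rows : List (List (ℕ × ℤ) × ℤ)) (h : okR d rows)
    (hB : okB C rows) : (toAm d rows).Bd C := by
  intro i
  have hi : i.1 < rows.reverse.length := by rw [List.length_reverse, h.1]; exact i.2
  have hm := hB _ (List.mem_reverse.mp (List.getElem_mem hi))
  show |(rows.reverse.getD i.1 ([], 0)).2| + ∑ j : Fin d,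
    |(((rows.reverse.getD i.1 ([], 0)).1.filter fun p => p.1 == j.1).map fun p => p.2).sum| ≤ C
  rw [List.getD_eq_getElem _ _ hi]
  refine (add_le_add_right (sum_filter_le d _) _).trans ?_
  have e : ((rows.reverse[i.1].1.map fun p => |p.2|).sum : ℤ) =
      ((rows.reverse[i.1].1.map fun p => p.2.natAbs).sum : ℕ) := by
    generalize rows.reverse[i.1].1 = r
    induction r with
    | nil => rfl
    | cons p r ih => simp [ih]
  rw [e, Int.abs_eq_natAbs]
  exact_mod_cast hm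

/-- soundness of the check of an equality of words -/
theorem chkW_sound (d C N : ℕ) (X : ℤ) (x c : List ℤ) (u v : List (List (List (ℕ × ℤ) × ℤ)))
    (hC : 1 ≤ C) (hN : u.length ≤ N) (hN' : v.length ≤ N)
    (hX : 2 * ((C : ℤ) ^ N + C) < X) (hx : vc d x = tv d X) (hc : ∀ i, |vc d c i| ≤ C)
    (hu : ∀ l ∈ u, okR d l ∧ okB C l) (hv : ∀ l ∈ v, okR d l ∧ okB C l)
    (h : chkW x c u v = true) :
    (u.map (toAm d)).prod = Am.tr (vc d c) * (v.map (toAm d)).prod := by
  have hC' : (1 : ℤ) ≤ C := by exact_mod_cast hC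
  unfold chkW at h
  rw [evK_eq, evK_eq] at h
  have h1 := eqK_eq _ _ _ h
  have hb : ∀ w : List (List (List (ℕ × ℤ) × ℤ)), w.length ≤ N →
      (∀ l ∈ w, okR d l ∧ okB C l) → ((w.map (toAm d)).prod).Bd ((C : ℤ) ^ N) := by
    intro w hw hl
    have h2 := Am.Bd.prod hC' (w.map (toAm d)) (by
      intro f hf
      obtain ⟨l, hl', rfl⟩ := List.mem_map.mp hf
      exact toAm_Bd d C l (hl l hl').1 (hl l hl').2)
    intro i
    refine (h2 i).trans ?_
    rw [List.length_map]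
    exact pow_le_pow_right₀ hC' hw
  have hCN : (0 : ℤ) ≤ (C : ℤ) ^ N := by positivity
  apply Am.sep X ((C : ℤ) ^ N + C) (by positivity) hX
  · intro i
    have := hb u hN hu i
    linarith
  · intro i
    rw [Am.tr_mul]
    have h3 := hb v hN' hv i
    have h4 := hc i
    have h5 := abs_add_le (vc d c i) ((v.map (toAm d)).prod.t i)
    show |vc d c i + (v.map (toAm d)).prod.t i| + _ ≤ _
    show _ + ∑ j, |(v.map (toAm d)).prod.L i j| ≤ _
    linarith
  · rw [← hx, ← vc_foldr d x u fun l hl => (hu l hl).1, Am.ap_mul,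
      ← vc_foldr d x v fun l hl => (hv l hl).1]
    funext i
    show _ = (Am.tr (vc d c)).ap _ i
    unfold Am.ap Am.tr
    simp only [one_mulVec, Pi.add_apply]
    exact h1 i.1

end VRC.Cx

end

section

/-! # Programs for lists of rules -/

set_option autoImplicit false

namespace VRC.Cx

/-- letter of a table -/
noncomputable def lkp (L : List (List (List (ℕ × ℤ) × ℤ))) : ℕ → List (List (ℕ × ℤ) × ℤ) :=
  List.rec (motive := fun _ => ℕ → List (List (ℕ × ℤ) × ℤ)) (fun _ => [])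
    (fun x _ ih k => cond (Nat.beq k 0) x (ih (Nat.pred k))) L

/-- action of a word given by the numbers of the letters -/
noncomputable def evN {α : Type} (L : List (List (List (ℕ × ℤ) × ℤ))) (x : List ℤ) (w : List ℕ) :
    (List ℤ → α) → α :=
  List.rec (motive := fun _ => (List ℤ → α) → α) (fun k => k x)
    (fun y _ ih k => ih fun z => actK z k (lkp L y) []) w

/-- the test vector, with continuation: `[2^s, 2^(2s), ..., 2^(ds)]` -/
noncomputable def xK {α : Type} (s : ℕ) (k : List ℤ → α) (d : ℕ) : List ℤ → α :=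
  Nat.rec (motive := fun _ => List ℤ → α) k
    (fun j ih acc => fc (Nat.pow 2 (Nat.mul s (Nat.succ j))) fun p => ih (Int.ofNat p :: acc)) d

/-- check of one rule `U = t^n V` -/
noncomputable def chkN (L : List (List (List (ℕ × ℤ) × ℤ))) (Bt : List (List (ℕ × ℤ) × ℤ))
    (x : List ℤ) (r : List ℕ × List ℕ × List ℤ) : Bool :=
  evN L x r.1 fun a => evN L x r.2.1 fun b => actK r.2.2 (fun c => eqK a b c) Bt []

/-- check of a list of rules -/
noncomputable def chkNs (L : List (List (List (ℕ × ℤ) × ℤ))) (Bt : List (List (ℕ × ℤ) × ℤ))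
    (x : List ℤ) (rs : List (List ℕ × List ℕ × List ℤ)) : Bool :=
  List.rec (motive := fun _ => Bool) true (fun r _ ih => cond (chkN L Bt x r) ih false) rs

end VRC.Cx

end

section

set_option autoImplicit false

/-! # The table for the crystallographic group of dimension 15 with holonomy `L_3(2)`

The letters are `0 = a`, `1 = b` (data `A15`, `t15` of h50_x36.json, translations scaled by 84).
The 167 non empty irreducible words with their functionals. -/

namespace VRC.Tor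

/-- the linear parts -/
def LA15 : Fin 2 → List (List ℤ) :=
  ![[[0, 1, 0, 0, 0, 0, 0, 0, 0, 0, 0, 0, 0, 0, 0],
    [1, 0, 0, 0, 0, 0, 0, 0, 0, 0, 0, 0, 0, 0, 0],
    [0, 0, 0, 0, 1, 0, 0, 0, 0, 0, 0, 0, 0, 0, 0],
    [0, 0, 0, -1, 0, 0, 0, 0, 0, 0, 0, 0, 0, 0, 0],
    [0, 0, 1, 0, 0, 0, 0, 0, 0, 0, 0, 0, 0, 0, 0],
    [0, 0, 0, 0, 0, -1, 0, 0, 0, 0, 0, 0, 0, 0, 0],
    [0, 0, 0, 0, 0, 0, 1, 0, 0, 0, 0, 0, 0, 0, 0],
    [0, 0, 0, 0, 0, 0, 0, 0, 1, 0, 0, 0, 0, 0, 0],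
    [0, 0, 0, 0, 0, 0, 0, 1, 0, 0, 0, 0, 0, 0, 0],
    [0, 0, 0, 0, 0, 0, 0, 0, 0, -1, 0, 0, 0, -1, 0],
    [0, 0, 0, 0, 0, 0, 0, 0, 0, 0, 0, 1, 0, 0, 0],
    [0, 0, 0, 0, 0, 0, 0, 0, 0, 0, 1, 0, 0, 0, 0],
    [0, 0, 0, 0, 0, 0, 0, 0, 0, 0, 0, 0, 0, 0, 1],
    [0, 0, 0, 0, 0, 0, 0, 0, 0, 0, 0, 0, 0, 1, 0],
    [0, 0, 0, 0, 0, 0, 0, 0, 0, 0, 0, 0, 1, 0, 0]],
    [[0, 0, 0, 0, 0, 0, -1, 0, 0, 0, 0, 0, 0, 0, 0],
    [0, 1, 0, 0, 0, 1, 0, 0, 0, 0, 0, 0, 0, 0, 0],
    [-1, 0, 0, 0, 0, 0, 1, 0, 0, 0, 0, 0, 0, 0, 0],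
    [0, 0, 0, -1, 0, -1, 0, 0, 0, 0, 0, 0, 0, 0, 0],
    [0, 0, 0, 1, 0, 0, 0, 0, 0, 0, 0, 0, 0, 0, 0],
    [0, 0, 0, 1, 1, 0, 0, 0, 0, 0, 0, 0, 0, 0, 0],
    [0, 0, -1, 0, 0, 0, -1, 0, 0, 0, 0, 0, 0, 0, 0],
    [0, 0, 0, 0, 0, 0, 0, 0, 0, 0, 1, 0, 0, 0, 0],
    [0, 0, 0, 0, 0, 0, 0, 0, 0, -1, 0, 0, 0, 0, 0],
    [0, 0, 0, 0, 0, 0, 0, 1, 1, 0, 0, 0, 0, 0, 0],
    [0, 0, 0, 0, 0, 0, 0, 1, 0, 0, 0, 0, 0, 0, 0],
    [0, 0, 0, 0, 0, 0, 0, 0, 0, 0, 0, 0, 0, -1, 0],
    [0, 0, 0, 0, 0, 0, 0, 0, 0, 0, 0, 1, 0, 1, 0],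
    [0, 0, 0, 0, 0, 0, 0, 0, 0, 0, 0, 0, -1, 1, -1],
    [0, 0, 0, 0, 0, 0, 0, 0, 0, 0, 0, 0, 0, 0, -1]]]

/-- the translation parts -/
def Lt15 : Fin 2 → List ℤ :=
  ![[42, -42, -70, -28, -14, 14, -42, -36, 36, -60, 48, -48, 24, 0, -24],
    [28, -14, -14, -42, -28, -28, 28, -24, -24, 48, 24, 72, -84, -12, 0]]

/-- the word with the given code (binary, lowest digit first, leading digit 1 is the end mark) -/
def decW : ℕ → ℕ → List (Fin 2)
  | 0, _ => []
  | f + 1, n => if n ≤ 1 then [] else (if n % 2 = 0 then 0 else 1) :: decW f (n / 2)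

/-- the functional with the given code (15 digits in base 5, shifted by 2) -/
def decP : ℕ → ℕ → List ℤ
  | 0, _ => []
  | f + 1, n => ((n % 5 : ℕ) - 2 : ℤ) :: decP f (n / 5)

/-- codes of the words and of the functionals -/
def codes15 : List (ℕ × ℕ) :=
  [(2, 15258804687), (3, 15258792947), (6, 16235351562), (5, 20141601562), (7, 15258789692),
   (10, 15258792285), (14, 15258792187), (13, 15258789812), (11, 15258792187), (15, 15258792947),
   (26, 14282226562), (22, 15258789088), (30, 20141601562), (21, 20141601562), (29, 21313476562),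
   (27, 21655273437), (23, 14282226562), (42, 15258789162), (58, 21616210937), (54, 21313476562),
   (46, 15258792285), (53, 16528242187), (45, 21655273437), (61, 15258789063), (43, 15493164062),
   (55, 15258804712), (106, 14282226562), (90, 15024414062), (122, 15258789187),
   (86, 21616210937), (110, 15258792312), (85, 20141601562), (117, 15258789687),
   (109, 15258789812), (93, 15258789187), (107, 15258791562), (87, 15258792312),
   (170, 16488867187), (234, 15493164062), (218, 20141601562), (186, 15258789067),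
   (214, 21655273437), (174, 15258805312), (213, 16488867187), (181, 21313476562),
   (245, 15258773511), (173, 14282226562), (221, 16488867187), (171, 21616210937),
   (235, 15258820962), (215, 15258802188), (426, 14282226562), (362, 15258789087),
   (490, 15258789186), (346, 15258789162), (442, 15258788942), (342, 15258792212),
   (470, 15258820962), (430, 15258804713), (341, 20141601562), (469, 15258801562),
   (437, 15258804613), (373, 15258789192), (429, 15258802188), (349, 15258789188),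
   (427, 15258789068), (491, 21313476562), (343, 15258792213), (471, 21655273437),
   (682, 16528242187), (938, 15258789136), (874, 15258789192), (746, 15258772057),
   (858, 15258792213), (698, 16528242187), (854, 15258789068), (982, 15258789687),
   (686, 15258807842), (942, 15258792212), (725, 15258801432), (981, 15258789068),
   (693, 15258788938), (885, 15258804686), (685, 15258804713), (941, 15258786562),
   (861, 15258805436), (683, 15258789068), (939, 15258786537), (747, 15258789087),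
   (855, 15258789718), (983, 16488867187), (1450, 15258807812), (1962, 15258789068),
   (1386, 15258806067), (1770, 15258801557), (1370, 15258807842), (1882, 21616210937),
   (1722, 15258789157), (1366, 15258789068), (1878, 15258792192), (1494, 15493164062),
   (1710, 15258807812), (1966, 15258789188), (1749, 15258789817), (1493, 15258789068),
   (1717, 16528242187), (1397, 15258807811), (1709, 15258789067), (1373, 15258789813),
   (1885, 15258789661), (1451, 15258792186), (1963, 21313476562), (1771, 15258789693),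
   (1367, 15258801562), (1879, 21655273437), (1495, 15258788942), (3498, 15258792916),
   (2986, 15258789068), (3434, 15258789818), (2794, 15258804682), (3418, 15258795441),
   (2746, 15258804582), (3770, 15493164062), (2902, 15258791587), (3926, 15258804713),
   (3542, 21655273437), (2734, 15258789718), (3758, 15258789093), (2990, 16528242187),
   (2773, 15258785208), (3541, 15258789813), (2741, 15258789156), (3765, 21313476562),
   (3445, 16488867187), (2733, 15258782683), (3421, 15258801557), (3933, 15258792217),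
   (2987, 15258789667), (2795, 21616210937), (2903, 15258789693), (3927, 16528242187),
   (3543, 15258792186), (5546, 15258791561), (7082, 15258805436), (7530, 15258792161),
   (5466, 15258789063), (6842, 15258804682), (7866, 15258789692), (5974, 15493164062),
   (5590, 15258789093), (5806, 21616210937), (7854, 15258789156), (7086, 15258789063),
   (6869, 15258789787), (5589, 15258804582), (6837, 15258792191), (7541, 15258804712),
   (5469, 15258804686), (6891, 15258804687), (5975, 15258789818), (13738, 15258804687),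
   (11178, 15258788967), (10938, 15258807811), (13782, 15258789787), (11950, 16488867187),
   (15061, 15258792191), (10933, 15258805312)]

/-- words and functionals -/
def tab15 : List (List (Fin 2) × List ℤ) := codes15.map fun p => (decW 13 p.1, decP 15 p.2)

theorem tab15_chk : tab15.all (chk LA15 Lt15 84) = true := by decide +kernel

end VRC.Tor

end

section

set_option autoImplicit false

/-! Tables and equations. -/

namespace VRC.Pk

/-- packed vector with stride `k` bits from codes `64 c + j` -/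
def mkv (k : ℕ) : List ℕ → ℕ
  | [] => 0
  | a :: l => Nat.add (Nat.shiftLeft (Nat.div a 64) (Nat.mul k (Nat.mod a 64))) (mkv k l)

def mkW (P N : List ℕ) : Wt :=
  (fun p n p6 n6 => Wt.mk p n p6 n6 (Nat.add (Nat.mul p6 p) (Nat.mul n6 n))
    (Nat.add (Nat.mul p6 n) (Nat.mul n6 p))) (mkv 40 P) (mkv 40 N) (mkv 1440 P) (mkv 1440 N)

def mkT : List (List ℕ × List ℕ) → List Wt
  | [] => []
  | a :: l => mkW a.1 a.2 :: mkT l

/-- a rule `U = t^n V` -/
structure Ru where
  U : List ℕ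
  V : List ℕ
  P : List ℕ
  N : List ℕ
  b : ℕ

def mkE (r : Ru) (l : ℕ) : El :=
  ⟨mkv 40 r.P, mkv 40 r.N, mkv 1440 r.P, mkv 1440 r.N, r.b,
    Nat.shiftLeft 1 (Nat.mul 40 (Nat.add 1764 l)), 0, 1⟩

/-- the whole data: for every letter the vectors and a bound; the rules -/
structure Dat where
  M : List (List (List ℕ × List ℕ) × ℕ)
  R : List Ru

def selR (x : ℕ) : List Ru → ℕ → List Rl
  | [], _ => []
  | r :: rs, l =>
    match r.U with
    | [] => selR x rs (Nat.succ l)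
    | y :: u => cond (Nat.beq x y) (Rl.mk u r.V (mkE r l) :: selR x rs (Nat.succ l))
        (selR x rs (Nat.succ l))

def mkL (R : List Ru) : List (List (List ℕ × List ℕ) × ℕ) → ℕ → List Le
  | [], _ => []
  | a :: M, y => ⟨⟨mkT a.1, a.2, Nat.mul 40 (Nat.add 1296 (Nat.mul 36 y)), 0⟩, selR y R 0⟩ ::
      mkL R M (Nat.succ y)

inductive Eqn where
  | A (y i j : ℕ)
  | C (l i : ℕ)
  | D (l k m : ℕ)

def unit (i : ℕ) : El := ⟨Nat.shiftLeft 1 (Nat.mul 40 i), 0, Nat.shiftLeft 1 (Nat.mul 1440 i), 0, 1,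
  0, 0, 0⟩

def nthR (R : List Ru) (l : ℕ) : Ru := R.getD l ⟨[], [], [], [], 0⟩

def nthW (L : Le) (i : ℕ) : Wt := L.lt.T.getD i ⟨0, 0, 0, 0, 0, 0⟩

def rowA (D : List Le) (y i j : ℕ) : Rw :=
  (fun a b bw => Rw.mk
    (Nat.add (Nat.add (Nat.mul (Wt.p6 a) (Wt.p b)) (Nat.mul (Wt.n6 a) (Wt.n b)))
      (Nat.add (Nat.mul (Wt.p6 b) (Wt.n a)) (Nat.mul (Wt.n6 b) (Wt.p a))))
    (Nat.add (Nat.add (Nat.add (Nat.mul (Wt.p6 a) (Wt.n b)) (Nat.mul (Wt.n6 a) (Wt.p b)))
      (Nat.add (Nat.mul (Wt.p6 b) (Wt.p a)) (Nat.mul (Wt.n6 b) (Wt.n a))))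
      (Nat.shiftLeft 1 (Nat.mul 40 (Nat.add (Nat.mul 36 i) j))))
    (Nat.succ (Nat.mul 2 (Nat.mul bw bw))))
  (nthW (nth D y) i) (nthW (nth D y) j) (nth D y).lt.bw

def rowC (D : List Le) (R : List Ru) (l i : ℕ) : Rw × Bool :=
  (fun e f => (El.diff e f, El.same e f))
    (cw D (nthR R l).U (unit i)) (El.ct (mkE (nthR R l) l) (cw D (nthR R l).V (unit i)))

def leq : List ℕ → List ℕ → Bool
  | [], [] => true
  | a :: u, b :: w => cond (Nat.beq a b) (leq u w) false
  | _, _ => false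

/-- overlap of the rules `l` and `m`: the word `U_l s = p U_m`, `p` of length `k` -/
def rowD (D : List Le) (R : List Ru) (fuel l k m : ℕ) : Rw × Bool :=
  (fun r s p => (fun a b => (fun e f =>
      (El.diff e f, and (El.same e f) (and (leq a.2 b.2)
        (leq (r.U ++ s.U.drop (r.U.length - k)) (p ++ s.U)))))
      (El.mul (mkE r l) a.1) (El.mul (cw D p (mkE s m)) b.1))
    (consl D (cons D fuel) (r.V ++ s.U.drop (r.U.length - k)) [])
    (consl D (cons D fuel) (p ++ s.V) []))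
  (nthR R l) (nthR R m) ((nthR R l).U.take k)

def evl (D : List Le) (R : List Ru) (fuel : ℕ) : Eqn → Rw × Bool
  | Eqn.A y i j => (rowA D y i j, and (Nat.blt i 36) (Nat.blt j i))
  | Eqn.C l i => rowC D R l i
  | Eqn.D l k m => rowD D R fuel l k m

end VRC.Pk

end

section

/-! # The affine representation of the presented group -/

set_option autoImplicit false

namespace VRC.Cx

open Matrix

lemma lkp_eq (L : List (List (List (ℕ × ℤ) × ℤ))) (k : ℕ) : lkp L k = L.getD k [] := by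
  induction L generalizing k with
  | nil => rfl
  | cons x L ih =>
    cases k with
    | zero => rfl
    | succ k => exact ih k

lemma evN_eq {α : Type} (L : List (List (List (ℕ × ℤ) × ℤ))) (x : List ℤ) (w : List ℕ)
    (k : List ℤ → α) : evN L x w k = evK x (w.map (lkp L)) k := by
  induction w generalizing k with
  | nil => rfl
  | cons y w ih =>
    show evN L x w (fun z => actK z k (lkp L y) []) = _
    rw [ih]; rfl

/-- the test vector as a list -/
def xL (s d : ℕ) : List ℤ := (List.range d).map fun j => ((2 ^ (s * (j + 1)) : ℕ) : ℤ)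

lemma xK_eq {α : Type} (s : ℕ) (k : List ℤ → α) (d : ℕ) (acc : List ℤ) :
    xK s k d acc = k (xL s d ++ acc) := by
  induction d generalizing acc with
  | zero => rfl
  | succ d ih =>
    show fc (Nat.pow 2 (Nat.mul s (Nat.succ d))) (fun p => xK s k d (Int.ofNat p :: acc)) = _
    rw [fc_eq, ih]
    congr 1
    unfold xL
    rw [List.range_succ, List.map_append, List.append_assoc]
    rfl

lemma vc_xL (s d : ℕ) : vc d (xL s d) = tv d ((2 : ℤ) ^ s) := by
  funext i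
  show (xL s d).getD i.1 0 = _
  unfold xL
  rw [List.getD_eq_getElem _ _ (by simp)]
  simp only [List.getElem_map, List.getElem_range]
  unfold tv
  push_cast
  rw [← pow_mul]

/-- the rectangular matrix of a list of rows -/
def toMx (d n : ℕ) (rows : List (List (ℕ × ℤ) × ℤ)) : Matrix (Fin d) (Fin n) ℤ :=
  Matrix.of fun i j =>
    (((rows.reverse.getD i.1 ([], 0)).1.filter fun p => p.1 == j.1).map fun p => p.2).sum

/-- rectangular letter without constants -/
def okM (d n : ℕ) (rows : List (List (ℕ × ℤ) × ℤ)) : Prop :=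
  rows.length = d ∧ ∀ r ∈ rows, r.2 = 0 ∧ ∀ p ∈ r.1, p.1 < n

lemma vc_actM (d n : ℕ) (x : List ℤ) (rows : List (List (ℕ × ℤ) × ℤ)) (h : okM d n rows) :
    vc d (act x rows) = toMx d n rows *ᵥ vc n x := by
  funext i
  have hi : i.1 < rows.reverse.length := by rw [List.length_reverse, h.1]; exact i.2
  have hm := h.2 _ (List.mem_reverse.mp (List.getElem_mem hi))
  show (rows.reverse.map fun p => rv x p.1 p.2).getD i.1 0 = _
  rw [List.getD_eq_getElem _ _ (by rw [List.length_map]; exact hi), List.getElem_map]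
  unfold rv toMx
  rw [hm.1, zero_add, row_sum n x _ hm.2]
  unfold mulVec dotProduct vc
  refine Finset.sum_congr rfl fun j _ => ?_
  simp only [Matrix.of_apply]
  rw [List.getD_eq_getElem _ _ hi]

lemma chkN_sound (d n C N s : ℕ) (L : List (List (List (ℕ × ℤ) × ℤ)))
    (Bt : List (List (ℕ × ℤ) × ℤ)) (r : List ℕ × List ℕ × List ℤ)
    (hC : 1 ≤ C) (hN : r.1.length ≤ N) (hN' : r.2.1.length ≤ N)
    (hX : 2 * ((C : ℤ) ^ N + C) < 2 ^ s) (hB : okM d n Bt)
    (hc : ∀ i, |(toMx d n Bt *ᵥ vc n r.2.2) i| ≤ C)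
    (hu : ∀ y ∈ r.1, okR d (lkp L y) ∧ okB C (lkp L y))
    (hv : ∀ y ∈ r.2.1, okR d (lkp L y) ∧ okB C (lkp L y))
    (h : chkN L Bt (xL s d) r = true) :
    (r.1.map fun y => toAm d (lkp L y)).prod =
      Am.tr (toMx d n Bt *ᵥ vc n r.2.2) * (r.2.1.map fun y => toAm d (lkp L y)).prod := by
  unfold chkN at h
  rw [evN_eq, evK_eq, evN_eq, evK_eq, actK_eq, List.append_nil] at h
  have h' : chkW (xL s d) (act r.2.2 Bt) (r.1.map (lkp L)) (r.2.1.map (lkp L)) = true := by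
    unfold chkW
    rw [evK_eq, evK_eq]
    exact h
  have hb := vc_actM d n r.2.2 Bt hB
  have := chkW_sound d C N (2 ^ s) (xL s d) (act r.2.2 Bt) (r.1.map (lkp L)) (r.2.1.map (lkp L))
    hC (by rw [List.length_map]; exact hN) (by rw [List.length_map]; exact hN') hX (vc_xL s d)
    (by intro i; rw [hb]; exact hc i)
    (by
      intro l hl
      obtain ⟨y, hy, rfl⟩ := List.mem_map.mp hl
      exact hu y hy)
    (by
      intro l hl
      obtain ⟨y, hy, rfl⟩ := List.mem_map.mp hl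
      exact hv y hy) h'
  rw [hb, List.map_map, List.map_map] at this
  exact this

lemma chkNs_mem (L : List (List (List (ℕ × ℤ) × ℤ))) (Bt : List (List (ℕ × ℤ) × ℤ))
    (x : List ℤ) (rs : List (List ℕ × List ℕ × List ℤ)) (h : chkNs L Bt x rs = true) :
    ∀ r ∈ rs, chkN L Bt x r = true := by
  induction rs with
  | nil => intro r hr; simp at hr
  | cons r rs ih =>
    have h' : cond (chkN L Bt x r) (chkNs L Bt x rs) false = true := h
    cases hr : chkN L Bt x r with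
    | false => rw [hr] at h'; exact absurd h' (by simp)
    | true =>
      rw [hr] at h'
      intro q hq
      rcases List.mem_cons.mp hq with rfl | hq
      · exact hr
      · exact ih h' q hq

/-! ### Units -/

namespace Am

variable {d : ℕ}

/-- translation as a unit -/
def trU (v : Fin d → ℤ) : (Am d)ˣ where
  val := tr v
  inv := tr (-v)
  val_inv := by rw [← tr_add, add_neg_cancel, tr_zero]
  inv_val := by rw [← tr_add, neg_add_cancel, tr_zero]

lemma trU_add (v w : Fin d → ℤ) : trU (v + w) = trU v * trU w := Units.ext (tr_add v w)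

lemma trU_zero : trU (0 : Fin d → ℤ) = 1 := Units.ext tr_zero

/-- translations as a homomorphism -/
def trH : Multiplicative (Fin d → ℤ) →* (Am d)ˣ where
  toFun v := trU (Multiplicative.toAdd v)
  map_one' := trU_zero
  map_mul' v w := trU_add _ _

lemma trU_inj {v w : Fin d → ℤ} (h : trU v = trU w) : v = w :=
  congrArg (fun u : (Am d)ˣ => u.val.t) h

lemma trU_zsmul (v : Fin d → ℤ) (n : ℤ) : trU (n • v) = trU v ^ n :=
  (map_zpow (trH (d := d)) (Multiplicative.ofAdd v) n)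

lemma trU_sum {n : ℕ} (b : Fin n → Fin d → ℤ) (v : Fin n → ℤ) :
    tpw (fun i => trU (b i)) v = trU (∑ i, v i • b i) := by
  unfold tpw
  have h1 : ∀ (l : List (Fin n)), (l.map fun i => trU (b i) ^ v i).prod =
      trU ((l.map fun i => v i • b i).sum) := by
    intro l
    induction l with
    | nil => exact trU_zero.symm
    | cons i l ih => rw [List.map_cons, List.prod_cons, List.map_cons, List.sum_cons, trU_add, ih,
        trU_zsmul]
  have h2 := h1 (List.finRange n)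
  rw [← List.ofFn_eq_map, ← List.ofFn_eq_map, List.sum_ofFn] at h2
  exact h2

/-- linear part -/
def linH : Am d →* Matrix (Fin d) (Fin d) ℤ where
  toFun f := f.L
  map_one' := rfl
  map_mul' _ _ := rfl

end Am

end VRC.Cx

end

section

set_option autoImplicit false

/-! The presentation given by the data: generators `t_0, ..., t_35` (the lattice) and the letters
`g_0, ..., g_12`. -/

namespace VRC.Pk

/-- the coefficient at `i` of a list of codes `64 c + i` -/
def cf (L : List ℕ) (i : ℕ) : ℕ := (L.map (fun a => if a % 64 = i then a / 64 else 0)).sum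

/-- the integral vector with positive part `P` and negative part `N` -/
def vec (P N : List ℕ) (i : ℕ) : ℤ := (cf P i : ℤ) - (cf N i : ℤ)

/-- the ordered product `t_0 ^ v 0 * ... * t_(k-1) ^ v (k-1)` -/
def tp {G : Type} [Group G] (t : ℕ → G) (v : ℕ → ℤ) : ℕ → G
  | 0 => 1
  | k + 1 => tp t v k * t k ^ v k

/-- value of a word -/
def wv {G : Type} [Group G] (g : ℕ → G) : List ℕ → G
  | [] => 1
  | y :: w => g y * wv g w

/-- codes of the vector of `y t_i y⁻¹` -/
def Dat.mc (D : Dat) (y i : ℕ) : List ℕ × List ℕ := (D.M.getD y ([], 0)).1.getD i ([], [])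

/-- the vector of `y t_i y⁻¹` -/
def Dat.mv (D : Dat) (y i : ℕ) : ℕ → ℤ := vec (D.mc y i).1 (D.mc y i).2

/-- the vector of the rule `r` -/
def Ru.vc (r : Ru) : ℕ → ℤ := vec r.P r.N

/-- a model of the presentation -/
structure Mdl (D : Dat) (G : Type) [Group G] (t g : ℕ → G) : Prop where
  comm : ∀ i j, i < 36 → j < i → t i * t j = t j * t i
  act : ∀ y i, y < 13 → i < 36 → g y * t i * (g y)⁻¹ = tp t (D.mv y i) 36
  rul : ∀ r ∈ D.R, wv g r.U = tp t r.vc 36 * wv g r.V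

/-- generators in the free group -/
def ft (i : ℕ) : FreeGroup (Fin 49) := FreeGroup.of (Fin.ofNat 49 i)

def fg (y : ℕ) : FreeGroup (Fin 49) := FreeGroup.of (Fin.ofNat 49 (36 + y))

/-- the relators -/
def rels (D : Dat) : Set (FreeGroup (Fin 49)) :=
  (fun q : ℕ × ℕ => ft q.1 * ft q.2 * (ft q.2 * ft q.1)⁻¹) '' {q | q.1 < 36 ∧ q.2 < q.1} ∪
  (fun q : ℕ × ℕ => fg q.1 * ft q.2 * (fg q.1)⁻¹ * (tp ft (D.mv q.1 q.2) 36)⁻¹) ''
    {q | q.1 < 13 ∧ q.2 < 36} ∪
  (fun r : Ru => wv fg r.U * (tp ft r.vc 36 * wv fg r.V)⁻¹) '' {r | r ∈ D.R}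

/-- the group -/
abbrev XG (D : Dat) : Type := PresentedGroup (rels D)

def xt (D : Dat) (i : ℕ) : XG D := PresentedGroup.of (Fin.ofNat 49 i)

def xg (D : Dat) (y : ℕ) : XG D := PresentedGroup.of (Fin.ofNat 49 (36 + y))

theorem rels_finite (D : Dat) : (rels D).Finite := by
  refine Set.Finite.union (Set.Finite.union (Set.Finite.image _ ?_) (Set.Finite.image _ ?_))
    (Set.Finite.image _ ?_)
  · refine Set.Finite.subset (Set.Finite.prod (Set.finite_Iio 36) (Set.finite_Iio 36)) ?_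
    rintro ⟨a, b⟩ ⟨h1, h2⟩
    exact ⟨h1, by simp only [Set.mem_Iio] at *; omega⟩
  · refine Set.Finite.subset (Set.Finite.prod (Set.finite_Iio 13) (Set.finite_Iio 36)) ?_
    rintro ⟨a, b⟩ ⟨h1, h2⟩
    exact ⟨h1, h2⟩
  · exact List.finite_toSet D.R

theorem XG_fp (D : Dat) : Group.IsFinitelyPresented (XG D) := by
  have : Finite (rels D) := (rels_finite D).to_subtype
  infer_instance

section hom

variable {G H : Type} [Group G] [Group H]

theorem map_tp (f : G →* H) (t : ℕ → G) (v : ℕ → ℤ) (k : ℕ) :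
    f (tp t v k) = tp (fun i => f (t i)) v k := by
  induction k with
  | zero => simp [tp]
  | succ k ih => simp [tp, ih]

theorem map_wv (f : G →* H) (g : ℕ → G) (w : List ℕ) : f (wv g w) = wv (fun y => f (g y)) w := by
  induction w with
  | nil => simp [wv]
  | cons y w ih => simp [wv, ih]

theorem tp_congr (t s : ℕ → G) (v : ℕ → ℤ) (k : ℕ) (h : ∀ i < k, t i = s i) :
    tp t v k = tp s v k := by
  induction k with
  | zero => rfl
  | succ k ih => rw [tp, tp, ih (fun i hi => h i (by omega)), h k (by omega)]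

theorem wv_congr (g s : ℕ → G) (w : List ℕ) (h : ∀ y ∈ w, g y = s y) : wv g w = wv s w := by
  induction w with
  | nil => rfl
  | cons y w ih =>
    rw [wv, wv, ih (fun z hz => h z (List.mem_cons_of_mem _ hz)), h y List.mem_cons_self]

end hom

theorem XG_mdl (D : Dat) : Mdl D (XG D) (xt D) (xg D) := by
  have key : ∀ r ∈ rels D, PresentedGroup.mk (rels D) r = 1 := fun r hr =>
    PresentedGroup.one_of_mem hr
  refine ⟨fun i j hi hj => ?_, fun y i hy hi => ?_, fun r hr => ?_⟩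
  · have h := key _ (Or.inl (Or.inl ⟨(i, j), ⟨hi, hj⟩, rfl⟩))
    simp only [map_mul, map_inv] at h
    rw [mul_inv_eq_one] at h
    exact h
  · have h := key _ (Or.inl (Or.inr ⟨(y, i), ⟨hy, hi⟩, rfl⟩))
    simp only [map_mul, map_inv, map_tp] at h
    rw [mul_inv_eq_one] at h
    exact h
  · have h := key _ (Or.inr ⟨r, hr, rfl⟩)
    simp only [map_mul, map_inv, map_tp, map_wv] at h
    rw [mul_inv_eq_one] at h
    exact h

/-- all letters are smaller than 13 -/
def Dat.wf (D : Dat) : Bool :=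
  D.R.all (fun r => and (r.U.all (fun y => Nat.blt y 13)) (r.V.all (fun y => Nat.blt y 13)))

theorem wf_mem {D : Dat} (h : D.wf = true) (r : Ru) (hr : r ∈ D.R) :
    (∀ y ∈ r.U, y < 13) ∧ ∀ y ∈ r.V, y < 13 := by
  have h1 := List.all_eq_true.mp h r hr
  rw [Bool.and_eq_true, List.all_eq_true, List.all_eq_true] at h1
  exact ⟨fun y hy => by simpa [Nat.blt_eq] using h1.1 y hy,
    fun y hy => by simpa [Nat.blt_eq] using h1.2 y hy⟩

/-- the images of the generators -/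
def gmap {G : Type} (t g : ℕ → G) (s : Fin 49) : G := if s.1 < 36 then t s.1 else g (s.1 - 36)

theorem gmap_t {G : Type} (t g : ℕ → G) (i : ℕ) (hi : i < 36) :
    gmap t g (Fin.ofNat 49 i) = t i := by
  have h : (Fin.ofNat 49 i).1 = i := by
    show i % 49 = i
    omega
  rw [gmap, h, if_pos hi]

theorem gmap_g {G : Type} (t g : ℕ → G) (y : ℕ) (hy : y < 13) :
    gmap t g (Fin.ofNat 49 (36 + y)) = g y := by
  have h : (Fin.ofNat 49 (36 + y)).1 = 36 + y := by
    show (36 + y) % 49 = 36 + y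
    omega
  rw [gmap, h, if_neg (by omega)]
  congr 1
  omega

section lift

variable {D : Dat} {G : Type} [Group G] {t g : ℕ → G}

theorem lift_rels (hD : D.wf = true) (h : Mdl D G t g) :
    ∀ r ∈ rels D, FreeGroup.lift (gmap t g) r = 1 := by
  have ht : ∀ i < 36, FreeGroup.lift (gmap t g) (ft i) = t i := fun i hi => by
    rw [ft, FreeGroup.lift_apply_of, gmap_t t g i hi]
  have hg : ∀ y < 13, FreeGroup.lift (gmap t g) (fg y) = g y := fun y hy => by
    rw [fg, FreeGroup.lift_apply_of, gmap_g t g y hy]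
  have htp : ∀ v : ℕ → ℤ, FreeGroup.lift (gmap t g) (tp ft v 36) = tp t v 36 := fun v => by
    rw [map_tp]
    exact tp_congr _ _ _ _ ht
  rintro r ((⟨q, hq, rfl⟩ | ⟨q, hq, rfl⟩) | ⟨r, hr, rfl⟩)
  · simp only [map_mul, map_inv]
    rw [mul_inv_eq_one, ht _ hq.1, ht _ (by have := hq.1; have := hq.2; omega)]
    exact h.comm _ _ hq.1 hq.2
  · simp only [map_mul, map_inv]
    rw [mul_inv_eq_one, htp, hg _ hq.1, ht _ hq.2]
    exact h.act _ _ hq.1 hq.2
  · simp only [map_mul, map_inv]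
    obtain ⟨h1, h2⟩ := wf_mem hD r hr
    rw [mul_inv_eq_one, htp, map_wv, map_wv, wv_congr _ g _ (fun y hy => hg y (h1 y hy)),
      wv_congr _ g _ (fun y hy => hg y (h2 y hy))]
    exact h.rul r hr

/-- the homomorphism to a model -/
noncomputable def lift (hD : D.wf = true) (h : Mdl D G t g) : XG D →* G :=
  PresentedGroup.toGroup (lift_rels hD h)

theorem lift_t (hD : D.wf = true) (h : Mdl D G t g) (i : ℕ) (hi : i < 36) :
    lift hD h (xt D i) = t i := by
  rw [lift, xt, PresentedGroup.toGroup.of, gmap_t t g i hi]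

theorem lift_g (hD : D.wf = true) (h : Mdl D G t g) (y : ℕ) (hy : y < 13) :
    lift hD h (xg D y) = g y := by
  rw [lift, xg, PresentedGroup.toGroup.of, gmap_g t g y hy]

end lift

/-- two homomorphisms which agree on the generators are equal -/
theorem hom_ext {D : Dat} {G : Type} [Group G] {f h : XG D →* G}
    (ht : ∀ i < 36, f (xt D i) = h (xt D i)) (hg : ∀ y < 13, f (xg D y) = h (xg D y)) :
    f = h := by
  apply PresentedGroup.ext
  intro s
  by_cases hs : s.1 < 36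
  · have := ht s.1 hs
    rw [xt, show Fin.ofNat 49 s.1 = s from Fin.ext (Nat.mod_eq_of_lt s.2)] at this
    exact this
  · have := hg (s.1 - 36) (by omega)
    rw [xg, show Fin.ofNat 49 (36 + (s.1 - 36)) = s from
      Fin.ext ((Nat.mod_eq_of_lt (by omega)).trans (by omega))] at this
    exact this

/-- the generators generate -/
theorem XG_gen (D : Dat) : Subgroup.closure ({x | ∃ i < 36, x = xt D i} ∪
    {x | ∃ y < 13, x = xg D y}) = ⊤ := by
  rw [eq_top_iff, ← PresentedGroup.closure_range_of (rels D), Subgroup.closure_le]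
  rintro _ ⟨s, rfl⟩
  apply Subgroup.subset_closure
  by_cases hs : s.1 < 36
  · left
    refine ⟨s.1, hs, ?_⟩
    rw [xt, show Fin.ofNat 49 s.1 = s from Fin.ext (Nat.mod_eq_of_lt s.2)]
  · right
    refine ⟨s.1 - 36, by omega, ?_⟩
    rw [xg, show Fin.ofNat 49 (36 + (s.1 - 36)) = s from
      Fin.ext ((Nat.mod_eq_of_lt (by omega)).trans (by omega))]

end VRC.Pk

end

section

/-! # Data of the affine representation in dimension 15 (generated): letters 0-12 = k_1..k_11, a, b;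
13-25 their inverses -/

set_option autoImplicit false
set_option maxRecDepth 100000

namespace VRC.Cx.D15


/-- letter 0 -/
def L0 : List (List (ℕ × ℤ) × ℤ) :=
  [([(14, Int.ofNat 1)], Int.ofNat 0),
   ([(13, Int.ofNat 1)], Int.ofNat 0),
   ([(12, Int.ofNat 1)], Int.ofNat 0),
   ([(11, Int.ofNat 1)], Int.ofNat 0),
   ([(10, Int.ofNat 1)], Int.ofNat 0),
   ([(9, Int.ofNat 1)], Int.ofNat 0),
   ([(8, Int.ofNat 1)], Int.ofNat 0),
   ([(7, Int.ofNat 1)], Int.ofNat 0),
   ([(6, Int.ofNat 1)], Int.ofNat 0),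
   ([(5, Int.ofNat 1)], Int.ofNat 0),
   ([(4, Int.ofNat 1)], Int.ofNat 0),
   ([(3, Int.ofNat 1)], Int.ofNat 0),
   ([(2, Int.ofNat 1)], Int.ofNat 0),
   ([(1, Int.ofNat 1)], Int.ofNat 0),
   ([(0, Int.ofNat 1)], Int.negSucc 83)]

/-- letter 1 -/
def L1 : List (List (ℕ × ℤ) × ℤ) :=
  [([(14, Int.ofNat 1)], Int.ofNat 0),
   ([(13, Int.ofNat 1)], Int.ofNat 0),
   ([(12, Int.ofNat 1)], Int.ofNat 0),
   ([(11, Int.ofNat 1)], Int.ofNat 0),
   ([(10, Int.ofNat 1)], Int.ofNat 0),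
   ([(9, Int.ofNat 1)], Int.ofNat 0),
   ([(8, Int.ofNat 1)], Int.ofNat 0),
   ([(7, Int.ofNat 1)], Int.ofNat 0),
   ([(6, Int.ofNat 1)], Int.ofNat 0),
   ([(5, Int.ofNat 1)], Int.ofNat 0),
   ([(4, Int.ofNat 1)], Int.ofNat 0),
   ([(3, Int.ofNat 1)], Int.ofNat 0),
   ([(2, Int.ofNat 1)], Int.ofNat 0),
   ([(1, Int.ofNat 1)], Int.negSucc 83),
   ([(0, Int.ofNat 1)], Int.ofNat 0)]

/-- letter 2 -/
def L2 : List (List (ℕ × ℤ) × ℤ) :=
  [([(14, Int.ofNat 1)], Int.ofNat 0),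
   ([(13, Int.ofNat 1)], Int.ofNat 0),
   ([(12, Int.ofNat 1)], Int.ofNat 0),
   ([(11, Int.ofNat 1)], Int.ofNat 0),
   ([(10, Int.ofNat 1)], Int.ofNat 0),
   ([(9, Int.ofNat 1)], Int.ofNat 0),
   ([(8, Int.ofNat 1)], Int.ofNat 0),
   ([(7, Int.ofNat 1)], Int.ofNat 0),
   ([(6, Int.ofNat 1)], Int.ofNat 0),
   ([(5, Int.ofNat 1)], Int.ofNat 0),
   ([(4, Int.ofNat 1)], Int.ofNat 0),
   ([(3, Int.ofNat 1)], Int.ofNat 0),
   ([(2, Int.ofNat 1)], Int.negSucc 83),
   ([(1, Int.ofNat 1)], Int.ofNat 0),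
   ([(0, Int.ofNat 1)], Int.ofNat 0)]

/-- letter 3 -/
def L3 : List (List (ℕ × ℤ) × ℤ) :=
  [([(14, Int.ofNat 1)], Int.ofNat 0),
   ([(13, Int.ofNat 1)], Int.ofNat 0),
   ([(12, Int.ofNat 1)], Int.ofNat 0),
   ([(11, Int.ofNat 1)], Int.ofNat 0),
   ([(10, Int.ofNat 1)], Int.ofNat 0),
   ([(9, Int.ofNat 1)], Int.ofNat 0),
   ([(8, Int.ofNat 1)], Int.ofNat 0),
   ([(7, Int.ofNat 1)], Int.negSucc 83),
   ([(6, Int.ofNat 1)], Int.ofNat 0),
   ([(5, Int.ofNat 1)], Int.ofNat 0),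
   ([(4, Int.ofNat 1)], Int.ofNat 0),
   ([(3, Int.ofNat 1)], Int.ofNat 0),
   ([(2, Int.ofNat 1)], Int.ofNat 0),
   ([(1, Int.ofNat 1)], Int.ofNat 0),
   ([(0, Int.ofNat 1)], Int.ofNat 0)]

/-- letter 4 -/
def L4 : List (List (ℕ × ℤ) × ℤ) :=
  [([(14, Int.ofNat 1)], Int.ofNat 0),
   ([(13, Int.ofNat 1)], Int.ofNat 0),
   ([(12, Int.ofNat 1)], Int.ofNat 0),
   ([(11, Int.ofNat 1)], Int.ofNat 0),
   ([(10, Int.ofNat 1)], Int.ofNat 0),
   ([(9, Int.ofNat 1)], Int.ofNat 0),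
   ([(8, Int.ofNat 1)], Int.negSucc 83),
   ([(7, Int.ofNat 1)], Int.ofNat 0),
   ([(6, Int.ofNat 1)], Int.ofNat 0),
   ([(5, Int.ofNat 1)], Int.ofNat 0),
   ([(4, Int.ofNat 1)], Int.ofNat 0),
   ([(3, Int.ofNat 1)], Int.ofNat 0),
   ([(2, Int.ofNat 1)], Int.ofNat 0),
   ([(1, Int.ofNat 1)], Int.ofNat 0),
   ([(0, Int.ofNat 1)], Int.ofNat 0)]

/-- letter 5 -/
def L5 : List (List (ℕ × ℤ) × ℤ) :=
  [([(14, Int.ofNat 1)], Int.ofNat 0),
   ([(13, Int.ofNat 1)], Int.ofNat 0),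
   ([(12, Int.ofNat 1)], Int.ofNat 0),
   ([(11, Int.ofNat 1)], Int.ofNat 0),
   ([(10, Int.ofNat 1)], Int.ofNat 0),
   ([(9, Int.ofNat 1)], Int.negSucc 83),
   ([(8, Int.ofNat 1)], Int.ofNat 0),
   ([(7, Int.ofNat 1)], Int.ofNat 0),
   ([(6, Int.ofNat 1)], Int.ofNat 0),
   ([(5, Int.ofNat 1)], Int.ofNat 0),
   ([(4, Int.ofNat 1)], Int.ofNat 0),
   ([(3, Int.ofNat 1)], Int.ofNat 0),
   ([(2, Int.ofNat 1)], Int.ofNat 0),
   ([(1, Int.ofNat 1)], Int.ofNat 0),
   ([(0, Int.ofNat 1)], Int.ofNat 0)]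

/-- letter 6 -/
def L6 : List (List (ℕ × ℤ) × ℤ) :=
  [([(14, Int.ofNat 1)], Int.ofNat 0),
   ([(13, Int.ofNat 1)], Int.ofNat 0),
   ([(12, Int.ofNat 1)], Int.ofNat 0),
   ([(11, Int.ofNat 1)], Int.ofNat 0),
   ([(10, Int.ofNat 1)], Int.negSucc 83),
   ([(9, Int.ofNat 1)], Int.ofNat 0),
   ([(8, Int.ofNat 1)], Int.ofNat 0),
   ([(7, Int.ofNat 1)], Int.ofNat 0),
   ([(6, Int.ofNat 1)], Int.ofNat 0),
   ([(5, Int.ofNat 1)], Int.ofNat 0),
   ([(4, Int.ofNat 1)], Int.ofNat 0),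
   ([(3, Int.ofNat 1)], Int.ofNat 0),
   ([(2, Int.ofNat 1)], Int.ofNat 0),
   ([(1, Int.ofNat 1)], Int.ofNat 0),
   ([(0, Int.ofNat 1)], Int.ofNat 0)]

/-- letter 7 -/
def L7 : List (List (ℕ × ℤ) × ℤ) :=
  [([(14, Int.ofNat 1)], Int.ofNat 0),
   ([(13, Int.ofNat 1)], Int.ofNat 0),
   ([(12, Int.ofNat 1)], Int.ofNat 0),
   ([(11, Int.ofNat 1)], Int.negSucc 83),
   ([(10, Int.ofNat 1)], Int.ofNat 0),
   ([(9, Int.ofNat 1)], Int.ofNat 0),
   ([(8, Int.ofNat 1)], Int.ofNat 0),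
   ([(7, Int.ofNat 1)], Int.ofNat 0),
   ([(6, Int.ofNat 1)], Int.ofNat 0),
   ([(5, Int.ofNat 1)], Int.ofNat 0),
   ([(4, Int.ofNat 1)], Int.ofNat 0),
   ([(3, Int.ofNat 1)], Int.ofNat 0),
   ([(2, Int.ofNat 1)], Int.ofNat 0),
   ([(1, Int.ofNat 1)], Int.ofNat 0),
   ([(0, Int.ofNat 1)], Int.ofNat 0)]

/-- letter 8 -/
def L8 : List (List (ℕ × ℤ) × ℤ) :=
  [([(14, Int.ofNat 1)], Int.ofNat 0),
   ([(13, Int.ofNat 1)], Int.ofNat 0),
   ([(12, Int.ofNat 1)], Int.negSucc 83),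
   ([(11, Int.ofNat 1)], Int.ofNat 0),
   ([(10, Int.ofNat 1)], Int.ofNat 0),
   ([(9, Int.ofNat 1)], Int.ofNat 0),
   ([(8, Int.ofNat 1)], Int.ofNat 0),
   ([(7, Int.ofNat 1)], Int.ofNat 0),
   ([(6, Int.ofNat 1)], Int.ofNat 0),
   ([(5, Int.ofNat 1)], Int.ofNat 0),
   ([(4, Int.ofNat 1)], Int.ofNat 0),
   ([(3, Int.ofNat 1)], Int.ofNat 0),
   ([(2, Int.ofNat 1)], Int.ofNat 0),
   ([(1, Int.ofNat 1)], Int.ofNat 0),
   ([(0, Int.ofNat 1)], Int.ofNat 0)]

/-- letter 9 -/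
def L9 : List (List (ℕ × ℤ) × ℤ) :=
  [([(14, Int.ofNat 1)], Int.ofNat 0),
   ([(13, Int.ofNat 1)], Int.negSucc 83),
   ([(12, Int.ofNat 1)], Int.ofNat 0),
   ([(11, Int.ofNat 1)], Int.ofNat 0),
   ([(10, Int.ofNat 1)], Int.ofNat 0),
   ([(9, Int.ofNat 1)], Int.ofNat 0),
   ([(8, Int.ofNat 1)], Int.ofNat 0),
   ([(7, Int.ofNat 1)], Int.ofNat 0),
   ([(6, Int.ofNat 1)], Int.ofNat 0),
   ([(5, Int.ofNat 1)], Int.ofNat 0),
   ([(4, Int.ofNat 1)], Int.ofNat 0),
   ([(3, Int.ofNat 1)], Int.ofNat 0),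
   ([(2, Int.ofNat 1)], Int.ofNat 0),
   ([(1, Int.ofNat 1)], Int.ofNat 0),
   ([(0, Int.ofNat 1)], Int.ofNat 0)]

/-- letter 10 -/
def L10 : List (List (ℕ × ℤ) × ℤ) :=
  [([(14, Int.ofNat 1)], Int.negSucc 83),
   ([(13, Int.ofNat 1)], Int.ofNat 0),
   ([(12, Int.ofNat 1)], Int.ofNat 0),
   ([(11, Int.ofNat 1)], Int.ofNat 0),
   ([(10, Int.ofNat 1)], Int.ofNat 0),
   ([(9, Int.ofNat 1)], Int.ofNat 0),
   ([(8, Int.ofNat 1)], Int.ofNat 0),
   ([(7, Int.ofNat 1)], Int.ofNat 0),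
   ([(6, Int.ofNat 1)], Int.ofNat 0),
   ([(5, Int.ofNat 1)], Int.ofNat 0),
   ([(4, Int.ofNat 1)], Int.ofNat 0),
   ([(3, Int.ofNat 1)], Int.ofNat 0),
   ([(2, Int.ofNat 1)], Int.ofNat 0),
   ([(1, Int.ofNat 1)], Int.ofNat 0),
   ([(0, Int.ofNat 1)], Int.ofNat 0)]

/-- letter 11 -/
def L11 : List (List (ℕ × ℤ) × ℤ) :=
  [([(12, Int.ofNat 1)], Int.negSucc 23),
   ([(13, Int.ofNat 1)], Int.ofNat 0),
   ([(14, Int.ofNat 1)], Int.ofNat 24),
   ([(10, Int.ofNat 1)], Int.negSucc 47),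
   ([(11, Int.ofNat 1)], Int.ofNat 48),
   ([(9, Int.negSucc 0), (13, Int.negSucc 0)], Int.negSucc 59),
   ([(7, Int.ofNat 1)], Int.ofNat 36),
   ([(8, Int.ofNat 1)], Int.negSucc 35),
   ([(6, Int.ofNat 1)], Int.negSucc 41),
   ([(5, Int.negSucc 0)], Int.ofNat 14),
   ([(2, Int.ofNat 1)], Int.negSucc 13),
   ([(3, Int.negSucc 0)], Int.negSucc 27),
   ([(4, Int.ofNat 1)], Int.negSucc 69),
   ([(0, Int.ofNat 1)], Int.negSucc 41),
   ([(1, Int.ofNat 1)], Int.ofNat 42)]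

/-- letter 12 -/
def L12 : List (List (ℕ × ℤ) × ℤ) :=
  [([(14, Int.negSucc 0)], Int.ofNat 0),
   ([(12, Int.negSucc 0), (13, Int.ofNat 1), (14, Int.negSucc 0)], Int.negSucc 11),
   ([(11, Int.ofNat 1), (13, Int.ofNat 1)], Int.negSucc 83),
   ([(13, Int.negSucc 0)], Int.ofNat 72),
   ([(7, Int.ofNat 1)], Int.ofNat 24),
   ([(7, Int.ofNat 1), (8, Int.ofNat 1)], Int.ofNat 48),
   ([(9, Int.negSucc 0)], Int.negSucc 23),
   ([(10, Int.ofNat 1)], Int.negSucc 23),
   ([(2, Int.negSucc 0), (6, Int.negSucc 0)], Int.ofNat 28),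
   ([(3, Int.ofNat 1), (4, Int.ofNat 1)], Int.negSucc 27),
   ([(3, Int.ofNat 1)], Int.negSucc 27),
   ([(3, Int.negSucc 0), (5, Int.negSucc 0)], Int.negSucc 41),
   ([(0, Int.negSucc 0), (6, Int.ofNat 1)], Int.negSucc 13),
   ([(1, Int.ofNat 1), (5, Int.ofNat 1)], Int.negSucc 13),
   ([(6, Int.negSucc 0)], Int.ofNat 28)]

/-- letter 13 -/
def L13 : List (List (ℕ × ℤ) × ℤ) :=
  [([(14, Int.ofNat 1)], Int.ofNat 0),
   ([(13, Int.ofNat 1)], Int.ofNat 0),
   ([(12, Int.ofNat 1)], Int.ofNat 0),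
   ([(11, Int.ofNat 1)], Int.ofNat 0),
   ([(10, Int.ofNat 1)], Int.ofNat 0),
   ([(9, Int.ofNat 1)], Int.ofNat 0),
   ([(8, Int.ofNat 1)], Int.ofNat 0),
   ([(7, Int.ofNat 1)], Int.ofNat 0),
   ([(6, Int.ofNat 1)], Int.ofNat 0),
   ([(5, Int.ofNat 1)], Int.ofNat 0),
   ([(4, Int.ofNat 1)], Int.ofNat 0),
   ([(3, Int.ofNat 1)], Int.ofNat 0),
   ([(2, Int.ofNat 1)], Int.ofNat 0),
   ([(1, Int.ofNat 1)], Int.ofNat 0),
   ([(0, Int.ofNat 1)], Int.ofNat 84)]

/-- letter 14 -/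
def L14 : List (List (ℕ × ℤ) × ℤ) :=
  [([(14, Int.ofNat 1)], Int.ofNat 0),
   ([(13, Int.ofNat 1)], Int.ofNat 0),
   ([(12, Int.ofNat 1)], Int.ofNat 0),
   ([(11, Int.ofNat 1)], Int.ofNat 0),
   ([(10, Int.ofNat 1)], Int.ofNat 0),
   ([(9, Int.ofNat 1)], Int.ofNat 0),
   ([(8, Int.ofNat 1)], Int.ofNat 0),
   ([(7, Int.ofNat 1)], Int.ofNat 0),
   ([(6, Int.ofNat 1)], Int.ofNat 0),
   ([(5, Int.ofNat 1)], Int.ofNat 0),
   ([(4, Int.ofNat 1)], Int.ofNat 0),
   ([(3, Int.ofNat 1)], Int.ofNat 0),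
   ([(2, Int.ofNat 1)], Int.ofNat 0),
   ([(1, Int.ofNat 1)], Int.ofNat 84),
   ([(0, Int.ofNat 1)], Int.ofNat 0)]

/-- letter 15 -/
def L15 : List (List (ℕ × ℤ) × ℤ) :=
  [([(14, Int.ofNat 1)], Int.ofNat 0),
   ([(13, Int.ofNat 1)], Int.ofNat 0),
   ([(12, Int.ofNat 1)], Int.ofNat 0),
   ([(11, Int.ofNat 1)], Int.ofNat 0),
   ([(10, Int.ofNat 1)], Int.ofNat 0),
   ([(9, Int.ofNat 1)], Int.ofNat 0),
   ([(8, Int.ofNat 1)], Int.ofNat 0),
   ([(7, Int.ofNat 1)], Int.ofNat 0),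
   ([(6, Int.ofNat 1)], Int.ofNat 0),
   ([(5, Int.ofNat 1)], Int.ofNat 0),
   ([(4, Int.ofNat 1)], Int.ofNat 0),
   ([(3, Int.ofNat 1)], Int.ofNat 0),
   ([(2, Int.ofNat 1)], Int.ofNat 84),
   ([(1, Int.ofNat 1)], Int.ofNat 0),
   ([(0, Int.ofNat 1)], Int.ofNat 0)]

/-- letter 16 -/
def L16 : List (List (ℕ × ℤ) × ℤ) :=
  [([(14, Int.ofNat 1)], Int.ofNat 0),
   ([(13, Int.ofNat 1)], Int.ofNat 0),
   ([(12, Int.ofNat 1)], Int.ofNat 0),
   ([(11, Int.ofNat 1)], Int.ofNat 0),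
   ([(10, Int.ofNat 1)], Int.ofNat 0),
   ([(9, Int.ofNat 1)], Int.ofNat 0),
   ([(8, Int.ofNat 1)], Int.ofNat 0),
   ([(7, Int.ofNat 1)], Int.ofNat 84),
   ([(6, Int.ofNat 1)], Int.ofNat 0),
   ([(5, Int.ofNat 1)], Int.ofNat 0),
   ([(4, Int.ofNat 1)], Int.ofNat 0),
   ([(3, Int.ofNat 1)], Int.ofNat 0),
   ([(2, Int.ofNat 1)], Int.ofNat 0),
   ([(1, Int.ofNat 1)], Int.ofNat 0),
   ([(0, Int.ofNat 1)], Int.ofNat 0)]

/-- letter 17 -/
def L17 : List (List (ℕ × ℤ) × ℤ) :=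
  [([(14, Int.ofNat 1)], Int.ofNat 0),
   ([(13, Int.ofNat 1)], Int.ofNat 0),
   ([(12, Int.ofNat 1)], Int.ofNat 0),
   ([(11, Int.ofNat 1)], Int.ofNat 0),
   ([(10, Int.ofNat 1)], Int.ofNat 0),
   ([(9, Int.ofNat 1)], Int.ofNat 0),
   ([(8, Int.ofNat 1)], Int.ofNat 84),
   ([(7, Int.ofNat 1)], Int.ofNat 0),
   ([(6, Int.ofNat 1)], Int.ofNat 0),
   ([(5, Int.ofNat 1)], Int.ofNat 0),
   ([(4, Int.ofNat 1)], Int.ofNat 0),
   ([(3, Int.ofNat 1)], Int.ofNat 0),
   ([(2, Int.ofNat 1)], Int.ofNat 0),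
   ([(1, Int.ofNat 1)], Int.ofNat 0),
   ([(0, Int.ofNat 1)], Int.ofNat 0)]

/-- letter 18 -/
def L18 : List (List (ℕ × ℤ) × ℤ) :=
  [([(14, Int.ofNat 1)], Int.ofNat 0),
   ([(13, Int.ofNat 1)], Int.ofNat 0),
   ([(12, Int.ofNat 1)], Int.ofNat 0),
   ([(11, Int.ofNat 1)], Int.ofNat 0),
   ([(10, Int.ofNat 1)], Int.ofNat 0),
   ([(9, Int.ofNat 1)], Int.ofNat 84),
   ([(8, Int.ofNat 1)], Int.ofNat 0),
   ([(7, Int.ofNat 1)], Int.ofNat 0),
   ([(6, Int.ofNat 1)], Int.ofNat 0),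
   ([(5, Int.ofNat 1)], Int.ofNat 0),
   ([(4, Int.ofNat 1)], Int.ofNat 0),
   ([(3, Int.ofNat 1)], Int.ofNat 0),
   ([(2, Int.ofNat 1)], Int.ofNat 0),
   ([(1, Int.ofNat 1)], Int.ofNat 0),
   ([(0, Int.ofNat 1)], Int.ofNat 0)]

/-- letter 19 -/
def L19 : List (List (ℕ × ℤ) × ℤ) :=
  [([(14, Int.ofNat 1)], Int.ofNat 0),
   ([(13, Int.ofNat 1)], Int.ofNat 0),
   ([(12, Int.ofNat 1)], Int.ofNat 0),
   ([(11, Int.ofNat 1)], Int.ofNat 0),
   ([(10, Int.ofNat 1)], Int.ofNat 84),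
   ([(9, Int.ofNat 1)], Int.ofNat 0),
   ([(8, Int.ofNat 1)], Int.ofNat 0),
   ([(7, Int.ofNat 1)], Int.ofNat 0),
   ([(6, Int.ofNat 1)], Int.ofNat 0),
   ([(5, Int.ofNat 1)], Int.ofNat 0),
   ([(4, Int.ofNat 1)], Int.ofNat 0),
   ([(3, Int.ofNat 1)], Int.ofNat 0),
   ([(2, Int.ofNat 1)], Int.ofNat 0),
   ([(1, Int.ofNat 1)], Int.ofNat 0),
   ([(0, Int.ofNat 1)], Int.ofNat 0)]

/-- letter 20 -/
def L20 : List (List (ℕ × ℤ) × ℤ) :=
  [([(14, Int.ofNat 1)], Int.ofNat 0),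
   ([(13, Int.ofNat 1)], Int.ofNat 0),
   ([(12, Int.ofNat 1)], Int.ofNat 0),
   ([(11, Int.ofNat 1)], Int.ofNat 84),
   ([(10, Int.ofNat 1)], Int.ofNat 0),
   ([(9, Int.ofNat 1)], Int.ofNat 0),
   ([(8, Int.ofNat 1)], Int.ofNat 0),
   ([(7, Int.ofNat 1)], Int.ofNat 0),
   ([(6, Int.ofNat 1)], Int.ofNat 0),
   ([(5, Int.ofNat 1)], Int.ofNat 0),
   ([(4, Int.ofNat 1)], Int.ofNat 0),
   ([(3, Int.ofNat 1)], Int.ofNat 0),
   ([(2, Int.ofNat 1)], Int.ofNat 0),
   ([(1, Int.ofNat 1)], Int.ofNat 0),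
   ([(0, Int.ofNat 1)], Int.ofNat 0)]

/-- letter 21 -/
def L21 : List (List (ℕ × ℤ) × ℤ) :=
  [([(14, Int.ofNat 1)], Int.ofNat 0),
   ([(13, Int.ofNat 1)], Int.ofNat 0),
   ([(12, Int.ofNat 1)], Int.ofNat 84),
   ([(11, Int.ofNat 1)], Int.ofNat 0),
   ([(10, Int.ofNat 1)], Int.ofNat 0),
   ([(9, Int.ofNat 1)], Int.ofNat 0),
   ([(8, Int.ofNat 1)], Int.ofNat 0),
   ([(7, Int.ofNat 1)], Int.ofNat 0),
   ([(6, Int.ofNat 1)], Int.ofNat 0),
   ([(5, Int.ofNat 1)], Int.ofNat 0),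
   ([(4, Int.ofNat 1)], Int.ofNat 0),
   ([(3, Int.ofNat 1)], Int.ofNat 0),
   ([(2, Int.ofNat 1)], Int.ofNat 0),
   ([(1, Int.ofNat 1)], Int.ofNat 0),
   ([(0, Int.ofNat 1)], Int.ofNat 0)]

/-- letter 22 -/
def L22 : List (List (ℕ × ℤ) × ℤ) :=
  [([(14, Int.ofNat 1)], Int.ofNat 0),
   ([(13, Int.ofNat 1)], Int.ofNat 84),
   ([(12, Int.ofNat 1)], Int.ofNat 0),
   ([(11, Int.ofNat 1)], Int.ofNat 0),
   ([(10, Int.ofNat 1)], Int.ofNat 0),
   ([(9, Int.ofNat 1)], Int.ofNat 0),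
   ([(8, Int.ofNat 1)], Int.ofNat 0),
   ([(7, Int.ofNat 1)], Int.ofNat 0),
   ([(6, Int.ofNat 1)], Int.ofNat 0),
   ([(5, Int.ofNat 1)], Int.ofNat 0),
   ([(4, Int.ofNat 1)], Int.ofNat 0),
   ([(3, Int.ofNat 1)], Int.ofNat 0),
   ([(2, Int.ofNat 1)], Int.ofNat 0),
   ([(1, Int.ofNat 1)], Int.ofNat 0),
   ([(0, Int.ofNat 1)], Int.ofNat 0)]

/-- letter 23 -/
def L23 : List (List (ℕ × ℤ) × ℤ) :=
  [([(14, Int.ofNat 1)], Int.ofNat 84),
   ([(13, Int.ofNat 1)], Int.ofNat 0),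
   ([(12, Int.ofNat 1)], Int.ofNat 0),
   ([(11, Int.ofNat 1)], Int.ofNat 0),
   ([(10, Int.ofNat 1)], Int.ofNat 0),
   ([(9, Int.ofNat 1)], Int.ofNat 0),
   ([(8, Int.ofNat 1)], Int.ofNat 0),
   ([(7, Int.ofNat 1)], Int.ofNat 0),
   ([(6, Int.ofNat 1)], Int.ofNat 0),
   ([(5, Int.ofNat 1)], Int.ofNat 0),
   ([(4, Int.ofNat 1)], Int.ofNat 0),
   ([(3, Int.ofNat 1)], Int.ofNat 0),
   ([(2, Int.ofNat 1)], Int.ofNat 0),
   ([(1, Int.ofNat 1)], Int.ofNat 0),
   ([(0, Int.ofNat 1)], Int.ofNat 0)]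

/-- letter 24 -/
def L24 : List (List (ℕ × ℤ) × ℤ) :=
  [([(12, Int.ofNat 1)], Int.negSucc 23),
   ([(13, Int.ofNat 1)], Int.ofNat 0),
   ([(14, Int.ofNat 1)], Int.ofNat 24),
   ([(10, Int.ofNat 1)], Int.negSucc 47),
   ([(11, Int.ofNat 1)], Int.ofNat 48),
   ([(9, Int.negSucc 0), (13, Int.negSucc 0)], Int.negSucc 59),
   ([(7, Int.ofNat 1)], Int.ofNat 36),
   ([(8, Int.ofNat 1)], Int.negSucc 35),
   ([(6, Int.ofNat 1)], Int.ofNat 42),
   ([(5, Int.negSucc 0)], Int.ofNat 14),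
   ([(2, Int.ofNat 1)], Int.ofNat 70),
   ([(3, Int.negSucc 0)], Int.negSucc 27),
   ([(4, Int.ofNat 1)], Int.ofNat 14),
   ([(0, Int.ofNat 1)], Int.negSucc 41),
   ([(1, Int.ofNat 1)], Int.ofNat 42)]

/-- letter 25 -/
def L25 : List (List (ℕ × ℤ) × ℤ) :=
  [([(14, Int.negSucc 0)], Int.ofNat 0),
   ([(11, Int.negSucc 0)], Int.ofNat 72),
   ([(11, Int.negSucc 0), (13, Int.negSucc 0), (14, Int.ofNat 1)], Int.ofNat 60),
   ([(11, Int.ofNat 1), (12, Int.ofNat 1)], Int.ofNat 12),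
   ([(7, Int.ofNat 1)], Int.ofNat 24),
   ([(8, Int.negSucc 0)], Int.negSucc 23),
   ([(9, Int.ofNat 1), (10, Int.negSucc 0)], Int.negSucc 23),
   ([(10, Int.ofNat 1)], Int.negSucc 23),
   ([(0, Int.negSucc 0)], Int.ofNat 28),
   ([(3, Int.negSucc 0), (4, Int.negSucc 0)], Int.negSucc 69),
   ([(4, Int.negSucc 0), (5, Int.ofNat 1)], Int.ofNat 0),
   ([(4, Int.ofNat 1)], Int.ofNat 28),
   ([(0, Int.ofNat 1), (6, Int.negSucc 0)], Int.ofNat 0),
   ([(1, Int.ofNat 1), (3, Int.ofNat 1), (4, Int.ofNat 1)], Int.ofNat 84),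
   ([(0, Int.negSucc 0), (2, Int.negSucc 0)], Int.ofNat 14)]

/-- all letters -/
def Ls : List (List (List (ℕ × ℤ) × ℤ)) :=
  [L0, L1, L2, L3, L4, L5, L6, L7, L8, L9, L10, L11, L12, L13, L14, L15, L16, L17, L18, L19, L20, L21, L22, L23, L24, L25]

/-- lattice vectors -/
def Bc : List (List ℤ) :=
  [[Int.ofNat 0, Int.ofNat 0, Int.ofNat 0, Int.ofNat 0, Int.ofNat 0, Int.ofNat 0, Int.ofNat 0, Int.ofNat 0, Int.ofNat 0, Int.ofNat 0, Int.ofNat 0, Int.ofNat 0, Int.ofNat 0, Int.ofNat 0, Int.ofNat 0],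
   [Int.ofNat 0, Int.ofNat 0, Int.ofNat 0, Int.ofNat 0, Int.ofNat 0, Int.ofNat 0, Int.ofNat 0, Int.ofNat 0, Int.ofNat 0, Int.ofNat 0, Int.ofNat 0, Int.ofNat 0, Int.ofNat 0, Int.ofNat 0, Int.ofNat 0],
   [Int.ofNat 0, Int.ofNat 0, Int.ofNat 0, Int.ofNat 0, Int.ofNat 0, Int.ofNat 0, Int.ofNat 0, Int.ofNat 0, Int.ofNat 0, Int.ofNat 0, Int.ofNat 0, Int.ofNat 0, Int.ofNat 0, Int.ofNat 0, Int.ofNat 0],
   [Int.ofNat 0, Int.ofNat 0, Int.ofNat 0, Int.ofNat 0, Int.ofNat 0, Int.ofNat 0, Int.ofNat 0, Int.ofNat 0, Int.ofNat 0, Int.ofNat 0, Int.ofNat 0, Int.ofNat 0, Int.ofNat 0, Int.ofNat 0, Int.ofNat 0],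
   [Int.ofNat 0, Int.ofNat 0, Int.ofNat 0, Int.ofNat 0, Int.ofNat 0, Int.ofNat 0, Int.ofNat 0, Int.ofNat 0, Int.ofNat 0, Int.ofNat 0, Int.ofNat 0, Int.ofNat 0, Int.ofNat 0, Int.ofNat 0, Int.ofNat 0],
   [Int.ofNat 0, Int.ofNat 0, Int.ofNat 0, Int.ofNat 0, Int.ofNat 0, Int.ofNat 0, Int.ofNat 0, Int.ofNat 0, Int.ofNat 0, Int.ofNat 0, Int.ofNat 0, Int.ofNat 0, Int.ofNat 0, Int.ofNat 0, Int.ofNat 0],
   [Int.ofNat 0, Int.ofNat 0, Int.ofNat 0, Int.ofNat 0, Int.ofNat 0, Int.ofNat 0, Int.ofNat 0, Int.ofNat 0, Int.ofNat 0, Int.ofNat 0, Int.ofNat 0, Int.ofNat 0, Int.ofNat 0, Int.ofNat 0, Int.ofNat 0],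
   [Int.ofNat 0, Int.ofNat 0, Int.ofNat 0, Int.ofNat 0, Int.ofNat 0, Int.ofNat 0, Int.ofNat 0, Int.ofNat 0, Int.ofNat 0, Int.ofNat 0, Int.ofNat 0, Int.ofNat 0, Int.ofNat 0, Int.ofNat 0, Int.ofNat 0],
   [Int.ofNat 0, Int.ofNat 0, Int.ofNat 0, Int.ofNat 0, Int.ofNat 0, Int.ofNat 0, Int.ofNat 0, Int.ofNat 0, Int.ofNat 0, Int.ofNat 0, Int.ofNat 0, Int.ofNat 0, Int.ofNat 0, Int.ofNat 0, Int.ofNat 0],
   [Int.ofNat 0, Int.ofNat 0, Int.ofNat 0, Int.ofNat 0, Int.ofNat 0, Int.ofNat 0, Int.ofNat 0, Int.ofNat 0, Int.ofNat 0, Int.ofNat 0, Int.ofNat 0, Int.ofNat 0, Int.ofNat 0, Int.ofNat 0, Int.ofNat 0],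
   [Int.ofNat 0, Int.ofNat 0, Int.ofNat 0, Int.ofNat 0, Int.ofNat 0, Int.ofNat 0, Int.ofNat 0, Int.ofNat 0, Int.ofNat 0, Int.ofNat 0, Int.ofNat 0, Int.ofNat 0, Int.ofNat 0, Int.ofNat 0, Int.ofNat 0],
   [Int.ofNat 0, Int.ofNat 0, Int.ofNat 0, Int.ofNat 0, Int.ofNat 0, Int.ofNat 0, Int.ofNat 0, Int.ofNat 0, Int.ofNat 0, Int.ofNat 0, Int.ofNat 0, Int.ofNat 0, Int.ofNat 0, Int.ofNat 0, Int.ofNat 0],
   [Int.ofNat 0, Int.ofNat 0, Int.ofNat 0, Int.ofNat 0, Int.ofNat 0, Int.ofNat 0, Int.ofNat 0, Int.ofNat 0, Int.ofNat 0, Int.ofNat 0, Int.ofNat 0, Int.ofNat 0, Int.ofNat 0, Int.ofNat 0, Int.ofNat 0],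
   [Int.ofNat 0, Int.ofNat 0, Int.ofNat 0, Int.ofNat 0, Int.ofNat 0, Int.ofNat 0, Int.ofNat 0, Int.ofNat 0, Int.ofNat 0, Int.ofNat 0, Int.ofNat 0, Int.ofNat 0, Int.ofNat 0, Int.ofNat 0, Int.ofNat 0],
   [Int.ofNat 0, Int.ofNat 0, Int.ofNat 0, Int.ofNat 0, Int.ofNat 0, Int.ofNat 0, Int.ofNat 0, Int.ofNat 0, Int.ofNat 0, Int.ofNat 0, Int.ofNat 0, Int.ofNat 0, Int.ofNat 0, Int.ofNat 0, Int.ofNat 0],
   [Int.ofNat 0, Int.ofNat 0, Int.ofNat 0, Int.ofNat 0, Int.ofNat 0, Int.ofNat 0, Int.ofNat 0, Int.ofNat 0, Int.ofNat 0, Int.ofNat 0, Int.ofNat 0, Int.ofNat 0, Int.ofNat 0, Int.ofNat 0, Int.ofNat 0],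
   [Int.ofNat 0, Int.ofNat 0, Int.ofNat 0, Int.ofNat 0, Int.ofNat 0, Int.ofNat 0, Int.ofNat 0, Int.ofNat 0, Int.ofNat 0, Int.ofNat 0, Int.ofNat 0, Int.ofNat 0, Int.ofNat 0, Int.ofNat 0, Int.ofNat 0],
   [Int.ofNat 0, Int.ofNat 0, Int.ofNat 0, Int.ofNat 0, Int.ofNat 0, Int.ofNat 0, Int.ofNat 0, Int.ofNat 0, Int.ofNat 0, Int.ofNat 0, Int.ofNat 0, Int.ofNat 0, Int.ofNat 0, Int.ofNat 0, Int.ofNat 0],
   [Int.ofNat 0, Int.ofNat 0, Int.ofNat 0, Int.ofNat 0, Int.ofNat 0, Int.ofNat 0, Int.ofNat 0, Int.ofNat 0, Int.ofNat 0, Int.ofNat 0, Int.ofNat 0, Int.ofNat 0, Int.ofNat 0, Int.ofNat 0, Int.ofNat 0],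
   [Int.ofNat 0, Int.ofNat 0, Int.ofNat 0, Int.ofNat 0, Int.ofNat 0, Int.ofNat 0, Int.ofNat 0, Int.ofNat 0, Int.ofNat 0, Int.ofNat 0, Int.ofNat 0, Int.ofNat 0, Int.ofNat 0, Int.ofNat 0, Int.ofNat 0],
   [Int.ofNat 0, Int.ofNat 0, Int.ofNat 0, Int.ofNat 0, Int.ofNat 0, Int.ofNat 0, Int.ofNat 0, Int.ofNat 0, Int.ofNat 0, Int.ofNat 0, Int.ofNat 0, Int.ofNat 0, Int.ofNat 0, Int.ofNat 0, Int.ofNat 0],
   [Int.ofNat 0, Int.ofNat 0, Int.ofNat 84, Int.ofNat 84, Int.ofNat 0, Int.ofNat 0, Int.ofNat 0, Int.ofNat 0, Int.ofNat 0, Int.ofNat 0, Int.ofNat 0, Int.ofNat 0, Int.ofNat 0, Int.ofNat 0, Int.ofNat 0],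
   [Int.ofNat 0, Int.ofNat 0, Int.ofNat 84, Int.ofNat 0, Int.ofNat 84, Int.ofNat 0, Int.ofNat 0, Int.ofNat 0, Int.ofNat 0, Int.ofNat 0, Int.ofNat 0, Int.ofNat 0, Int.ofNat 0, Int.ofNat 0, Int.ofNat 0],
   [Int.ofNat 84, Int.ofNat 84, Int.ofNat 0, Int.ofNat 0, Int.ofNat 0, Int.ofNat 84, Int.ofNat 0, Int.ofNat 0, Int.ofNat 0, Int.ofNat 0, Int.ofNat 0, Int.ofNat 0, Int.ofNat 0, Int.ofNat 0, Int.ofNat 0],
   [Int.ofNat 84, Int.ofNat 84, Int.ofNat 0, Int.ofNat 0, Int.ofNat 0, Int.ofNat 0, Int.ofNat 84, Int.ofNat 0, Int.ofNat 0, Int.ofNat 0, Int.ofNat 0, Int.ofNat 0, Int.ofNat 0, Int.ofNat 0, Int.ofNat 0],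
   [Int.ofNat 168, Int.ofNat 0, Int.ofNat 0, Int.ofNat 0, Int.ofNat 0, Int.ofNat 0, Int.ofNat 0, Int.ofNat 0, Int.ofNat 0, Int.ofNat 0, Int.ofNat 0, Int.ofNat 0, Int.ofNat 0, Int.ofNat 0, Int.ofNat 0],
   [Int.ofNat 0, Int.ofNat 168, Int.ofNat 0, Int.ofNat 0, Int.ofNat 0, Int.ofNat 0, Int.ofNat 0, Int.ofNat 0, Int.ofNat 0, Int.ofNat 0, Int.ofNat 0, Int.ofNat 0, Int.ofNat 0, Int.ofNat 0, Int.ofNat 0],
   [Int.ofNat 0, Int.ofNat 0, Int.ofNat 168, Int.ofNat 0, Int.ofNat 0, Int.ofNat 0, Int.ofNat 0, Int.ofNat 0, Int.ofNat 0, Int.ofNat 0, Int.ofNat 0, Int.ofNat 0, Int.ofNat 0, Int.ofNat 0, Int.ofNat 0],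
   [Int.ofNat 0, Int.ofNat 0, Int.ofNat 0, Int.ofNat 0, Int.ofNat 0, Int.ofNat 0, Int.ofNat 0, Int.ofNat 168, Int.ofNat 0, Int.ofNat 0, Int.ofNat 0, Int.ofNat 0, Int.ofNat 0, Int.ofNat 0, Int.ofNat 0],
   [Int.ofNat 0, Int.ofNat 0, Int.ofNat 0, Int.ofNat 0, Int.ofNat 0, Int.ofNat 0, Int.ofNat 0, Int.ofNat 0, Int.ofNat 168, Int.ofNat 0, Int.ofNat 0, Int.ofNat 0, Int.ofNat 0, Int.ofNat 0, Int.ofNat 0],
   [Int.ofNat 0, Int.ofNat 0, Int.ofNat 0, Int.ofNat 0, Int.ofNat 0, Int.ofNat 0, Int.ofNat 0, Int.ofNat 0, Int.ofNat 0, Int.ofNat 168, Int.ofNat 0, Int.ofNat 0, Int.ofNat 0, Int.ofNat 0, Int.ofNat 0],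
   [Int.ofNat 0, Int.ofNat 0, Int.ofNat 0, Int.ofNat 0, Int.ofNat 0, Int.ofNat 0, Int.ofNat 0, Int.ofNat 0, Int.ofNat 0, Int.ofNat 0, Int.ofNat 168, Int.ofNat 0, Int.ofNat 0, Int.ofNat 0, Int.ofNat 0],
   [Int.ofNat 0, Int.ofNat 0, Int.ofNat 0, Int.ofNat 0, Int.ofNat 0, Int.ofNat 0, Int.ofNat 0, Int.ofNat 0, Int.ofNat 0, Int.ofNat 0, Int.ofNat 0, Int.ofNat 168, Int.ofNat 0, Int.ofNat 0, Int.ofNat 0],
   [Int.ofNat 0, Int.ofNat 0, Int.ofNat 0, Int.ofNat 0, Int.ofNat 0, Int.ofNat 0, Int.ofNat 0, Int.ofNat 0, Int.ofNat 0, Int.ofNat 0, Int.ofNat 0, Int.ofNat 0, Int.ofNat 168, Int.ofNat 0, Int.ofNat 0],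
   [Int.ofNat 0, Int.ofNat 0, Int.ofNat 0, Int.ofNat 0, Int.ofNat 0, Int.ofNat 0, Int.ofNat 0, Int.ofNat 0, Int.ofNat 0, Int.ofNat 0, Int.ofNat 0, Int.ofNat 0, Int.ofNat 0, Int.ofNat 168, Int.ofNat 0],
   [Int.ofNat 0, Int.ofNat 0, Int.ofNat 0, Int.ofNat 0, Int.ofNat 0, Int.ofNat 0, Int.ofNat 0, Int.ofNat 0, Int.ofNat 0, Int.ofNat 0, Int.ofNat 0, Int.ofNat 0, Int.ofNat 0, Int.ofNat 0, Int.ofNat 168]]

/-- zero -/
def Z0 : List ℤ := [Int.ofNat 0, Int.ofNat 0, Int.ofNat 0, Int.ofNat 0, Int.ofNat 0, Int.ofNat 0, Int.ofNat 0, Int.ofNat 0, Int.ofNat 0, Int.ofNat 0, Int.ofNat 0, Int.ofNat 0, Int.ofNat 0, Int.ofNat 0, Int.ofNat 0]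

end VRC.Cx.D15

end

section

/-! # Kernel program: an affine model of the presentation -/

set_option autoImplicit false

namespace VRC.Cx

/-- entry of a list of lists -/
noncomputable def gl (L : List (List ℤ)) : ℕ → List ℤ :=
  List.rec (motive := fun _ => ℕ → List ℤ) (fun _ => [])
    (fun x _ ih k => cond (Nat.beq k 0) x (ih (Nat.pred k))) L

/-- `acc + c b`, with continuation -/
noncomputable def addM {α : Type} (c : ℤ) (b : List ℤ) : List ℤ → (List ℤ → α) → α :=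
  List.rec (motive := fun _ => List ℤ → (List ℤ → α) → α) (fun acc k => k acc)
    (fun x _ ih acc k => List.rec (motive := fun _ => α) (k [])
      (fun a as _ => fi (Int.add a (Int.mul c x)) fun z => ih as fun l => k (z :: l)) acc) b

/-- `acc ± ∑ c b_j` over the codes `64 c + j`, with continuation -/
noncomputable def foldC {α : Type} (s : ℤ) (Bc : List (List ℤ)) (codes : List ℕ) :
    List ℤ → (List ℤ → α) → α :=
  List.rec (motive := fun _ => List ℤ → (List ℤ → α) → α) (fun acc k => k acc)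
    (fun a _ ih acc k => fc (Nat.mod a 64) fun j => fc (Nat.div a 64) fun c =>
      addM (Int.mul s (Int.ofNat c)) (gl Bc j) acc fun acc' => ih acc' k) codes

/-- the combination of the lattice vectors -/
noncomputable def comb {α : Type} (Z0 : List ℤ) (Bc : List (List ℤ)) (P N : List ℕ)
    (k : List ℤ → α) : α :=
  foldC (Int.ofNat 1) Bc P Z0 fun acc => foldC (Int.negSucc 0) Bc N acc k

/-- check of a rule -/
noncomputable def chkR (L : List (List (List (ℕ × ℤ) × ℤ))) (Z0 : List ℤ) (Bc : List (List ℤ))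
    (x : List ℤ) (r : VRC.Pk.Ru) : Bool :=
  evN L x r.U fun a => evN L x r.V fun b => comb Z0 Bc r.P r.N fun c => eqK a b c

/-- check of a list of rules -/
noncomputable def chkRs (L : List (List (List (ℕ × ℤ) × ℤ))) (Z0 : List ℤ) (Bc : List (List ℤ))
    (x : List ℤ) (rs : List VRC.Pk.Ru) : Bool :=
  List.rec (motive := fun _ => Bool) true (fun r _ ih => cond (chkR L Z0 Bc x r) ih false) rs

/-- action of one letter on the lattice -/
noncomputable def chkCols (Z0 : List ℤ) (Bc : List (List ℤ)) (l : List (List (ℕ × ℤ) × ℤ))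
    (τ : List ℤ) (cols : List (List ℕ × List ℕ)) : List (List ℤ) → Bool :=
  List.rec (motive := fun _ => List (List ℤ) → Bool) (fun _ => true)
    (fun pn _ ih bs => List.rec (motive := fun _ => Bool) false
      (fun b bs' _ => cond (actK b (fun a => comb Z0 Bc pn.1 pn.2 fun c => eqK a c τ) l [])
        (ih bs') false) bs) cols

/-- action of all letters on the lattice -/
noncomputable def chkActs (Z0 : List ℤ) (Bc : List (List ℤ))
    (M : List (List (List ℕ × List ℕ) × ℕ)) : List (List (List (ℕ × ℤ) × ℤ)) → Bool :=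
  List.rec (motive := fun _ => List (List (List (ℕ × ℤ) × ℤ)) → Bool) (fun _ => true)
    (fun m _ ih L => List.rec (motive := fun _ => Bool) false
      (fun l L' _ => cond (actK Z0 (fun τ => chkCols Z0 Bc l τ m.1 Bc) l [])
        (ih L') false) L) M

/-- inverses: `l_y l_(y+13) = 1` and `l_(y+13) l_y = 1` for `y < k` -/
noncomputable def chkInv (L : List (List (List (ℕ × ℤ) × ℤ))) (Z0 x : List ℤ) (k : ℕ) : Bool :=
  Nat.rec (motive := fun _ => Bool) true
    (fun y ih => cond (evN L x [y, Nat.add y 13] fun a => eqK a x Z0)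
      (cond (evN L x [Nat.add y 13, y] fun a => eqK a x Z0) ih false) false) k

/-- scalar product with accumulator -/
noncomputable def dtR (a : List ℤ) : List ℤ → ℤ → ℤ :=
  List.rec (motive := fun _ => List ℤ → ℤ → ℤ) (fun _ s => s)
    (fun x _ ih b s => List.rec (motive := fun _ => ℤ) s
      (fun y b' _ => fi (Int.add s (Int.mul x y)) (ih b')) b) a

/-- `c · b_i = D δ_ij` for the vectors of a list, the index starts with `i` -/
noncomputable def chkD1 (c : List ℤ) (D j : ℕ) (bs : List (List ℤ)) : ℕ → Bool :=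
  List.rec (motive := fun _ => ℕ → Bool) (fun _ => true)
    (fun b _ ih i => cond (ibeq (dtR c b (Int.ofNat 0)) (cond (Nat.beq i j) (Int.ofNat D) (Int.ofNat 0)))
      (fc (Nat.succ i) ih) false) bs

/-- dual basis check, the index starts with `j` -/
noncomputable def chkD (D : ℕ) (bs : List (List ℤ)) (cs : List (List ℤ)) : ℕ → Bool :=
  List.rec (motive := fun _ => ℕ → Bool) (fun _ => true)
    (fun c _ ih j => cond (chkD1 c D j bs 0) (fc (Nat.succ j) ih) false) cs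

end VRC.Cx

end

section

set_option autoImplicit false

/-! The data of the crystallographic group of dimension 36 (generated from h50_x36.json).
Vectors are coded by the lists of `64 c + i` (coefficient `c` at `i`) of the positive and of the
negative part. -/

namespace VRC.Pk

/-- letter 0 -/
def m0 : List (List ℕ × List ℕ) × ℕ := (
[([75], [64]), ([78], [65]), ([77], [66]), ([67], [83, 84]), ([68], []), ([135, 74, 75, 76, 77,
  78, 79], [128, 129, 130, 69, 82, 83]), ([137], [70, 74, 76, 79, 82, 84]), ([71, 74, 75, 76, 77,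
  78, 79], [128, 129, 130, 83]), ([132, 75], [72, 80, 82]), ([73], [74, 76, 79, 84]), ([], [74]),
  ([75], []), ([], [76]), ([77], []), ([78], []), ([], [79]), ([80], []), ([], [81]), ([82], []),
  ([], [83]), ([], [84]), ([85], []), ([86], []), ([87], []), ([88], []), ([89], []), ([90], []),
  ([91], []), ([129, 132, 75, 84, 92], [136, 76, 78, 80, 82]), ([129, 132, 75, 81, 84, 93], [136,
  74, 76, 78, 80, 82]), ([94], [76, 83]), ([76, 78, 95], [129, 83]), ([77, 79, 96], [130, 83]),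
  ([129, 132, 75, 81, 97], [136, 76, 78, 80, 82]), ([98], []), ([132, 135, 74, 139, 77, 79, 145,
  84, 99], [128, 130, 133, 136, 80, 146, 83])], 2)

/-- letter 1 -/
def m1 : List (List ℕ × List ℕ) × ℕ := (
[([74], [64]), ([76], [65]), ([79], [66]), ([84], [67]), ([82], [68]), ([69], []), ([137], [70,
  74, 76, 79, 82, 84]), ([71, 74, 75, 76, 77, 78, 79], [128, 129, 130, 83]), ([81, 84], [72]),
  ([73], []), ([74], []), ([], [75]), ([76], []), ([], [77]), ([], [78]), ([79], []), ([], [80]),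
  ([81], []), ([82], []), ([], [83]), ([84], []), ([85], []), ([86], []), ([87], []), ([88], []),
  ([89], []), ([90], []), ([91], []), ([129, 132, 81, 84, 92], [136, 76, 78, 80, 82]), ([129, 132,
  75, 81, 84, 93], [136, 76, 78, 144, 82]), ([94], [77, 83]), ([76, 78, 95], [129, 83]), ([77, 79,
  96], [130, 83]), ([129, 75, 81, 84, 97], [136, 76, 78]), ([83, 84, 98], [131, 77]), ([129, 132,
  75, 81, 83, 148, 99], [131, 136, 76, 78, 80, 82])], 2)

/-- letter 2 -/
def m2 : List (List ℕ × List ℕ) × ℕ := (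
[([64], [74, 75]), ([78], [65]), ([79], [66]), ([67], []), ([80], [68]), ([81], [69]), ([129, 132,
  70, 74, 75, 79, 81, 148], [136, 137, 78, 80]), ([128, 83], [71, 74, 75]), ([81, 84], [72]),
  ([79, 84], [73]), ([], [74]), ([], [75]), ([], [76]), ([], [77]), ([78], []), ([79], []), ([80],
  []), ([81], []), ([], [82]), ([83], []), ([84], []), ([85], []), ([86], []), ([87], []), ([88],
  []), ([89], []), ([90], []), ([91], []), ([129, 132, 81, 84, 92], [136, 76, 78, 80, 82]), ([129,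
  132, 75, 81, 84, 93], [136, 74, 76, 78, 80, 82]), ([94], [76, 77]), ([128, 130, 82, 83, 95],
  [135, 74, 75, 77, 79]), ([77, 79, 96], [130, 82]), ([129, 75, 81, 84, 97], [136, 76, 78]), ([74,
  76, 79, 82, 84, 98], [137, 77]), ([132, 135, 74, 139, 77, 79, 145, 84, 99], [128, 130, 133, 136,
  80, 146, 83])], 2)

/-- letter 3 -/
def m3 : List (List ℕ × List ℕ) × ℕ := (
[([75], [64]), ([65], []), ([66], []), ([67], []), ([68], []), ([81], [69]), ([136, 76, 78, 80,
  82], [129, 132, 70, 75, 81, 84]), ([129, 130, 82, 83], [71, 76, 77, 78, 79]), ([72], []), ([76,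
  79, 82, 84], [73]), ([], [74]), ([75], []), ([76], []), ([77], []), ([78], []), ([79], []),
  ([80], []), ([81], []), ([82], []), ([83], []), ([84], []), ([85], []), ([86], []), ([87], []),
  ([88], []), ([89], []), ([90], []), ([91], []), ([92], []), ([93], [74]), ([94], []), ([128,
  129, 130, 82, 83, 95], [135, 74, 75, 76, 77, 78, 79]), ([96], []), ([97], []), ([74, 76, 79, 82,
  84, 98], [137]), ([135, 74, 75, 76, 77, 78, 79, 81, 99], [128, 129, 130, 133, 82, 83])], 2)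

/-- letter 4 -/
def m4 : List (List ℕ × List ℕ) × ℕ := (
[([74], [64]), ([65], []), ([66], []), ([67], []), ([80], [68]), ([69], []), ([136, 76, 78, 80,
  82], [129, 132, 70, 75, 81, 84]), ([71, 74, 75], [128, 82]), ([72, 80, 82], [132, 75]), ([74,
  76, 79, 84], [73]), ([74], []), ([], [75]), ([76], []), ([77], []), ([78], []), ([79], []),
  ([80], []), ([81], []), ([], [82]), ([83], []), ([84], []), ([85], []), ([86], []), ([87], []),
  ([88], []), ([89], []), ([90], []), ([91], []), ([92], [75]), ([93], []), ([94], []), ([95],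
  []), ([96], [82]), ([80, 82, 97], [132]), ([74, 76, 79, 82, 84, 98], [137]), ([99], [])], 2)

/-- letter 5 -/
def m5 : List (List ℕ × List ℕ) × ℕ := (
[([64], []), ([76], [65]), ([77], [66]), ([83], [67]), ([68], []), ([69], []), ([70], []), ([71,
  76, 77, 78, 79], [129, 130]), ([72, 76, 78], [129, 84]), ([73], [79, 84]), ([74], []), ([75],
  []), ([76], []), ([77], []), ([], [78]), ([], [79]), ([80], []), ([81], []), ([82], []), ([83],
  []), ([], [84]), ([85], []), ([86], []), ([87], []), ([88], []), ([89], []), ([90], []), ([91],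
  []), ([92], []), ([93], []), ([94], []), ([76, 78, 95], [129]), ([77, 79, 96], [130]), ([97],
  [84]), ([83, 84, 98], [131]), ([83, 84, 99], [131])], 2)

/-- letter 6 -/
def m6 : List (List ℕ × List ℕ) × ℕ := (
[([64], []), ([65], [76, 78]), ([66], []), ([83], [67]), ([68], []), ([135, 74, 75, 76, 77, 78,
  79], [128, 129, 130, 69, 82, 83]), ([70], []), ([71], []), ([72], [81, 84]), ([73], [76, 84]),
  ([74], []), ([75], []), ([], [76]), ([77], []), ([], [78]), ([79], []), ([80], []), ([], [81]),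
  ([82], []), ([83], []), ([], [84]), ([85], []), ([86], []), ([87], []), ([88], []), ([89], []),
  ([90], []), ([91], []), ([92], [81]), ([93], []), ([94], [76]), ([95], []), ([96], []), ([97],
  [84]), ([83, 84, 98], [131]), ([135, 74, 75, 76, 77, 78, 79, 81, 84, 99], [128, 129, 130, 131,
  133, 82])], 2)

/-- letter 7 -/
def m7 : List (List ℕ × List ℕ) × ℕ := (
[([64], []), ([65], []), ([66], [77, 79]), ([83], [67]), ([82], [68]), ([69], []), ([70], []),
  ([71], []), ([72, 80, 82], [132, 84]), ([73], [79, 84]), ([74], []), ([75], []), ([76], []),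
  ([], [77]), ([78], []), ([], [79]), ([], [80]), ([81], []), ([82], []), ([83], []), ([], [84]),
  ([85], []), ([86], []), ([87], []), ([88], []), ([89], []), ([90], []), ([91], []), ([92], []),
  ([93], [80]), ([94], [77]), ([95], []), ([96], []), ([80, 82, 97], [132, 84]), ([83, 84, 98],
  [131, 77]), ([83, 84, 99], [131])], 2)

/-- letter 8 -/
def m8 : List (List ℕ × List ℕ) × ℕ := (
[([64], []), ([65], []), ([66], []), ([84], [67]), ([68], [80, 82]), ([69], []), ([136, 76, 78,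
  80, 82], [129, 132, 70, 75, 81, 84]), ([71], [82, 83]), ([72], []), ([74, 76, 79, 84], [73]),
  ([74], []), ([75], []), ([76], []), ([77], []), ([78], []), ([79], []), ([], [80]), ([81], []),
  ([], [82]), ([], [83]), ([84], []), ([85], []), ([86], []), ([87], []), ([88], []), ([89], []),
  ([90], []), ([91], []), ([92], []), ([93], [80]), ([94], [83]), ([95], [83]), ([96], [82, 83]),
  ([97], []), ([74, 76, 79, 82, 83, 148, 98], [131, 137]), ([83, 84, 99], [131])], 2)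

/-- letter 9 -/
def m9 : List (List ℕ × List ℕ) × ℕ := (
[([64], []), ([65], []), ([77], [66]), ([67], [83, 84]), ([68], []), ([69], []), ([137], [70, 74,
  76, 79, 82, 84]), ([71, 77, 79], [130, 83]), ([129, 132, 75, 81], [72, 76, 78, 80, 82]), ([73],
  [79, 84]), ([74], []), ([75], []), ([76], []), ([77], []), ([78], []), ([], [79]), ([80], []),
  ([81], []), ([82], []), ([], [83]), ([], [84]), ([85], []), ([86], []), ([87], []), ([88], []),
  ([89], []), ([90], []), ([91], []), ([129, 132, 75, 81, 84, 92], [136, 76, 78, 80, 82]), ([129,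
  132, 75, 81, 84, 93], [136, 76, 78, 80, 82]), ([94], [83]), ([95], [83]), ([77, 79, 96], [130,
  83]), ([129, 132, 75, 81, 97], [136, 76, 78, 80, 82]), ([98], []), ([129, 132, 75, 81, 84, 99],
  [136, 76, 78, 80, 82])], 2)

/-- letter 10 -/
def m10 : List (List ℕ × List ℕ) × ℕ := (
[([64], []), ([65], []), ([66], []), ([67], [83, 84]), ([68], []), ([128, 129, 130, 69, 82, 83],
  [135, 74, 75, 76, 77, 78, 79, 81]), ([136, 76, 78, 80, 82], [129, 132, 70, 75, 81, 84]), ([128,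
  129, 130, 82], [71, 74, 75, 76, 77, 78, 79]), ([72], [81, 84]), ([74, 76, 79, 82], [73]), ([74],
  []), ([75], []), ([76], []), ([77], []), ([78], []), ([79], []), ([80], []), ([], [81]), ([82],
  []), ([], [83]), ([], [84]), ([85], []), ([86], []), ([87], []), ([88], []), ([89], []), ([90],
  []), ([91], []), ([92], [81]), ([93], []), ([94], [83]), ([128, 129, 130, 82, 95], [135, 74, 75,
  76, 77, 78, 79]), ([96], [83]), ([97], [84]), ([74, 76, 79, 82, 84, 98], [137]), ([99], [])], 2)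

/-- letter 11 -/
def m11 : List (List ℕ × List ℕ) × ℕ := (
[([64], [74]), ([66], []), ([65], [76, 78]), ([67], [84]), ([69], []), ([82], [68]), ([129, 132,
  70, 74, 75, 79, 81, 148], [136, 137, 78, 80]), ([71], []), ([64, 129, 130, 67, 68, 69], [71, 72,
  74, 76, 77, 78, 79, 80]), ([67, 71, 74, 75, 76, 77, 79], [64, 65, 66, 73, 83]), ([75], []), ([],
  [74]), ([77], []), ([], [76]), ([79], []), ([], [78]), ([81], []), ([], [80]), ([135, 74, 75,
  76, 77, 78, 79], [128, 129, 130, 82, 83]), ([83], []), ([131], [83, 84]), ([86], [85]), ([86],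
  []), ([89, 90], [87]), ([88], []), ([90], []), ([89], []), ([150], [91]), ([129, 132, 75, 81,
  84, 93], [136, 74, 76, 78, 144, 82]), ([129, 132, 75, 81, 84, 92], [136, 76, 78, 80, 82]), ([77,
  83], [94]), ([96], []), ([95], []), ([129, 132, 75, 81, 84, 99], [136, 76, 78, 80, 82]), ([74,
  76, 79, 82, 83, 84, 98], [67, 137, 94]), ([129, 75, 81, 97], [136, 76, 78])], 2)

/-- letter 12 -/
def m12 : List (List ℕ × List ℕ) × ℕ := (
[([65], []), ([64], [75]), ([68], []), ([70], []), ([67], []), ([69], [81]), ([79], [66]), ([72],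
  [75, 81]), ([67, 71, 73, 78], [64, 65, 66, 82, 83, 84]), ([73], []), ([76], []), ([78], []),
  ([74], []), ([80], []), ([128], [74, 75]), ([82], []), ([83], []), ([135, 74, 75, 76, 77, 78,
  79], [128, 129, 130, 82, 83]), ([84], []), ([136, 76, 78, 80, 82], [129, 132, 75, 81, 84]),
  ([137], [74, 76, 79, 82, 84]), ([86, 87], [85, 88]), ([87], [88]), ([90], [85]), ([90], [88]),
  ([], [91]), ([90], []), ([89, 90], [152]), ([78, 94, 95], [65, 77, 83]), ([94], [77]), ([136,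
  74, 76, 78, 144, 82], [129, 132, 75, 81, 84, 93]), ([92], [75, 81]), ([97], []), ([131, 137],
  [74, 76, 79, 82, 83, 148, 98]), ([129, 66, 68, 70, 74, 75, 79, 81, 82, 83, 148, 97, 98], [67,
  136, 137, 77, 78, 96]), ([128, 129, 130, 131, 133, 70, 82], [135, 74, 75, 76, 77, 78, 79, 81,
  84, 98, 99])], 2)

/-- the rules `U = t^n V` -/
def rules : List Ru :=
[⟨[0, 0], [], [64, 65, 66, 80, 146, 83, 84], [67, 132, 71, 73, 139, 77, 78, 89], 2⟩, ⟨[1, 1], [],
  [82], [73, 74, 90], 1⟩, ⟨[2, 2], [], [72, 73, 78, 80], [64, 65, 68, 70, 83, 148, 91], 2⟩, ⟨[3,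
  3], [], [], [76, 78, 79, 80, 81, 82, 83, 92], 1⟩, ⟨[4, 4], [], [], [74, 79, 81, 84, 93], 1⟩,
  ⟨[5, 5], [], [], [75, 76, 77, 82, 83, 94], 1⟩, ⟨[6, 6], [], [82, 83], [135, 75, 77, 80, 95], 2⟩,
  ⟨[7, 7], [], [], [75, 78, 81, 96], 1⟩, ⟨[8, 8], [], [], [74, 75, 76, 77, 78, 81, 97], 1⟩, ⟨[9,
  9], [], [74, 79, 80, 82, 84], [129, 132, 137, 98], 2⟩, ⟨[10, 10], [], [74, 76, 78, 79], [128,
  129, 130, 80, 99], 2⟩, ⟨[1, 0], [0, 1], [65, 66, 67, 132, 139], [64, 74, 76, 79, 80, 82, 84],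
  2⟩, ⟨[2, 0], [0, 2], [66, 69, 136, 137, 75], [64, 70, 138, 79, 81, 82, 83, 212], 3⟩, ⟨[2, 1],
  [1, 2], [136, 137, 74, 78, 80], [64, 65, 68, 70, 79, 81, 82, 83, 148], 2⟩, ⟨[3, 0], [0, 3],
  [129, 132, 69, 70, 75, 84], [136, 140, 78, 79, 80, 81, 82, 83], 2⟩, ⟨[3, 1], [1, 3], [64, 129,
  132, 70, 74, 81, 84], [136, 76, 142, 144, 82, 83], 2⟩, ⟨[3, 2], [2, 3], [64, 129, 132, 70, 74,
  81, 84], [136, 140, 78, 80, 146], 2⟩, ⟨[4, 0], [0, 4], [129, 260, 70, 203], [64, 136, 74, 76,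
  78, 79, 144, 146], 4⟩, ⟨[4, 1], [1, 4], [129, 196, 70, 139, 81, 84], [136, 76, 78, 144, 146],
  3⟩, ⟨[4, 2], [2, 4], [64, 129, 132, 70, 75, 81, 84], [136, 138, 76, 78, 80, 146], 2⟩, ⟨[4, 3],
  [3, 4], [75, 82], [64, 74], 1⟩, ⟨[5, 0], [0, 5], [65, 67, 79], [140, 147], 2⟩, ⟨[5, 1], [1, 5],
  [67, 79], [66, 75, 77, 142, 147], 2⟩, ⟨[5, 2], [2, 5], [84], [65, 66, 75, 76, 77, 82], 1⟩, ⟨[5,
  3], [3, 5], [78, 79], [], 1⟩, ⟨[5, 4], [4, 5], [79, 84], [75, 82], 1⟩, ⟨[6, 0], [0, 6], [67, 74,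
  75, 76, 77, 142, 79, 145], [128, 193, 130, 83], 3⟩, ⟨[6, 1], [1, 6], [67, 74, 140, 78, 79],
  [128, 193, 130, 80, 83], 3⟩, ⟨[6, 2], [2, 6], [128, 82, 83, 84], [65, 69, 135, 74, 139, 76, 77],
  2⟩, ⟨[6, 3], [3, 6], [129, 130, 145, 82, 83], [69, 135, 77, 79], 2⟩, ⟨[6, 4], [4, 6], [74, 81,
  84], [128], 2⟩, ⟨[6, 5], [5, 6], [204, 77, 206, 79], [193, 130], 3⟩, ⟨[7, 0], [0, 7], [67, 132,
  77, 79], [66, 80, 81, 82, 83], 2⟩, ⟨[7, 1], [1, 7], [67, 77, 79], [66, 75, 78, 80, 83], 1⟩, ⟨[7,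
  2], [2, 7], [77, 84], [66, 68, 75], 1⟩, ⟨[7, 3], [3, 7], [79, 80], [], 1⟩, ⟨[7, 4], [4, 7], [79,
  80, 84], [68, 75], 1⟩, ⟨[7, 5], [5, 7], [141], [66, 78], 2⟩, ⟨[7, 6], [6, 7], [77, 80], [78,
  81], 1⟩, ⟨[8, 0], [0, 8], [129, 67, 132, 70, 75], [136, 74, 140, 78, 80, 82], 2⟩, ⟨[8, 1], [1,
  8], [129, 68, 70, 81, 84], [136, 76, 77, 142, 80, 82], 2⟩, ⟨[8, 2], [2, 8], [129, 68, 70, 81,
  83, 84], [136, 74, 140, 77, 78, 80], 2⟩, ⟨[8, 3], [3, 8], [80, 82, 83], [74], 1⟩, ⟨[8, 4], [4,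
  8], [80, 146], [68, 75], 2⟩, ⟨[8, 5], [5, 8], [82, 147], [67, 78], 2⟩, ⟨[8, 6], [6, 8], [80,
  83], [67, 76, 78, 81], 1⟩, ⟨[8, 7], [7, 8], [80, 82, 83], [67, 68, 77], 1⟩, ⟨[9, 0], [0, 9],
  [78, 79], [129, 76, 84], 2⟩, ⟨[9, 1], [1, 9], [76, 79, 80, 82, 84], [129, 66, 67, 132], 2⟩, ⟨[9,
  2], [2, 9], [70, 138, 75, 143, 81, 82, 83, 276], [66, 136, 265], 4⟩, ⟨[9, 3], [3, 9], [136, 74,
  140, 78, 143, 80, 146, 83], [129, 132, 70, 137, 75, 81], 2⟩, ⟨[9, 4], [4, 9], [136, 74, 140, 78,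
  143, 144, 146, 84], [129, 260, 70, 137, 75, 81], 4⟩, ⟨[9, 5], [5, 9], [76, 147], [129, 67, 84],
  2⟩, ⟨[9, 6], [6, 9], [130, 83], [67, 140, 77, 78, 79, 84], 2⟩, ⟨[9, 7], [7, 9], [66, 80, 82,
  83], [67, 132, 77, 84], 2⟩, ⟨[9, 8], [8, 9], [136, 74, 140, 78, 79, 80, 82, 84], [129, 67, 132,
  70, 137, 75, 81], 2⟩, ⟨[10, 0], [0, 10], [132, 70, 135, 138, 203, 76, 141, 78, 143, 209, 84],
  [256, 129, 258, 69, 136, 80, 146, 147], 4⟩, ⟨[10, 1], [1, 10], [132, 70, 74, 75, 79, 81, 148],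
  [128, 130, 67, 136, 144, 82, 83], 2⟩, ⟨[10, 2], [2, 10], [132, 70, 79, 81, 83, 148], [130, 69,
  136, 80, 82], 2⟩, ⟨[10, 3], [3, 10], [74, 75, 145, 83], [128, 69], 2⟩, ⟨[10, 4], [4, 10], [74,
  81, 84], [128], 2⟩, ⟨[10, 5], [5, 10], [76, 77, 78, 79, 147], [129, 130, 67], 2⟩, ⟨[10, 6], [6,
  10], [263, 138, 139, 140, 141, 142, 143], [256, 257, 258, 67, 69, 146, 83], 4⟩, ⟨[10, 7], [7,
  10], [81, 83], [67, 77, 80], 1⟩, ⟨[10, 8], [8, 10], [81, 84], [67, 80, 83], 1⟩, ⟨[10, 9], [9,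
  10], [129, 132, 70, 137, 75, 77, 81, 84], [130, 136, 74, 140, 78, 80, 146, 83], 2⟩, ⟨[11, 0],
  [1, 11], [71, 72, 137, 74, 76, 142, 144], [64, 193, 130, 69, 70, 75, 146, 83, 84], 3⟩, ⟨[11, 1],
  [0, 11], [135, 72, 137, 74, 75, 77, 142, 79], [192, 193, 130, 69, 70, 81, 146, 83, 84], 3⟩,
  ⟨[11, 2], [2, 11], [68, 71, 138, 79, 81, 148, 91], [64, 65, 66, 67, 69, 72, 73, 75, 80, 86], 2⟩,
  ⟨[11, 3], [4, 11], [64, 66, 136, 74, 76, 78, 144, 210], [65, 132, 70, 71, 73, 203, 77, 81], 3⟩,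
  ⟨[11, 4], [3, 11], [136, 74, 140, 142, 79, 144, 146, 83], [64, 129, 67, 132, 69, 70, 73, 75],
  2⟩, ⟨[11, 5], [5, 11], [64, 66, 76, 78, 82, 94], [71, 77, 79], 1⟩, ⟨[11, 6], [7, 11], [68, 74,
  75, 76, 78, 79, 80], [64, 65, 66, 77, 82], 1⟩, ⟨[11, 7], [6, 11], [135, 74, 75, 77, 78, 80],
  [64, 65, 66, 69, 145, 82, 83], 2⟩, ⟨[11, 8], [10, 11], [71, 136, 74, 140, 78, 144, 82], [129,
  132, 70, 73, 75, 209], 3⟩, ⟨[11, 9], [5, 9, 11], [72, 265, 76, 142, 83, 94], [193, 66, 131, 69,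
  70, 138, 143, 82, 148], 4⟩, ⟨[11, 10], [8, 11], [136, 138, 204, 77, 142, 79, 144, 82], [64, 193,
  66, 68, 70, 73, 81, 83], 3⟩, ⟨[12, 0], [2, 12], [128, 257, 194, 68, 139, 81, 147, 212, 91], [67,
  135, 136, 137, 76, 77, 206, 79, 80], 4⟩, ⟨[12, 1], [1, 12], [66, 73, 139], [70, 76, 142, 79, 80,
  82], 2⟩, ⟨[12, 2], [0, 1, 12], [65, 66, 67, 132, 69, 203, 145, 88], [72, 74, 76, 142, 79, 144,
  82], 3⟩, ⟨[12, 3], [5, 6, 12], [64, 65, 66, 68, 69, 75, 76, 77, 81, 83], [71, 72, 74, 79], 1⟩,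
  ⟨[12, 4], [5, 12], [64, 65, 130, 82, 83], [71, 73, 78, 79], 2⟩, ⟨[12, 5], [4, 12], [65, 74, 203,
  79, 81, 84, 93], [128, 70, 72, 73, 78, 80], 3⟩, ⟨[12, 6], [3, 12], [72, 75, 140, 78, 79, 80, 81,
  146], [64, 129, 132, 70, 73], 2⟩, ⟨[12, 7], [8, 12], [66, 72, 74, 76], [68, 70, 71, 73], 1⟩,
  ⟨[12, 8], [9, 12], [129, 130, 68, 73, 83, 84, 98], [67, 70, 71, 74, 76, 77, 78, 143, 80], 2⟩,
  ⟨[12, 9], [7, 8, 9, 12], [65, 66, 138, 139, 204, 78, 79, 80, 81, 82, 84, 96], [64, 67, 132, 70,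
  265, 77], 4⟩, ⟨[12, 10], [9, 10, 12], [257, 260, 71, 74, 203, 77, 79, 273, 276, 98, 99], [66,
  67, 69, 264, 137, 142, 144, 82, 83], 4⟩, ⟨[11, 11], [0, 1], [67, 68, 71, 72, 137, 75, 78, 80,
  89, 90], [128, 129, 66, 70, 146, 83, 148, 86, 88], 2⟩, ⟨[12, 12, 12, 12], [1], [64, 129, 130,
  67, 132, 69, 74, 139], [71, 72, 137, 78, 79, 80, 82, 90], 2⟩, ⟨[12, 12, 11, 12, 12], [11, 12,
  12, 11], [68, 327, 73, 138, 331, 141, 78, 209, 213, 153, 218, 91, 222], [320, 257, 194, 338,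
  275, 84, 150, 279, 88], 5⟩, ⟨[12, 12, 11, 12, 11, 12, 12, 11], [11, 12, 12, 11, 12, 11, 12, 12],
  [129, 388, 327, 394, 331, 269, 335, 465, 148, 277, 153, 282, 219, 220, 222], [320, 386, 133,
  328, 329, 142, 80, 338, 275, 278, 343, 88, 221], 7⟩, ⟨[12, 11, 12, 11, 12, 11, 12, 11, 12], [0,
  3, 4, 6, 7, 9, 11, 12, 11, 12, 12, 11, 12, 11], [704, 961, 962, 67, 644, 69, 70, 73, 657, 278,
  217, 154, 91, 157, 222, 159, 160], [647, 520, 394, 139, 588, 653, 654, 719, 400, 338, 85, 151,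
  344, 92, 98], 15⟩, ⟨[12, 11, 12, 12, 11, 12, 11, 12, 12, 12], [1, 2, 3, 4, 5, 6, 7, 9, 11, 12,
  11, 12, 11, 12, 11, 12, 11], [259, 197, 71, 138, 76, 146, 84, 87, 408, 157, 158, 162], [64, 257,
  70, 72, 73, 205, 142, 80, 81, 339, 277, 86, 153, 154, 92, 95, 96], 6⟩, ⟨[12, 11, 12, 12, 11, 12,
  11, 12, 11, 12, 12], [0, 1, 3, 4, 5, 6, 7, 9, 11, 12, 11, 12, 11, 12, 11, 12, 12, 12, 11], [640,
  386, 515, 712, 649, 142, 144, 216, 91, 157, 158, 160], [705, 388, 518, 519, 906, 459, 76, 269,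
  399, 81, 210, 147, 788, 85, 87, 92, 95, 225, 98], 14⟩, ⟨[12, 12, 11, 12, 11, 12, 11, 12, 12, 11,
  12], [0, 1, 2, 4, 6, 7, 9, 11, 12, 12, 12, 11, 12, 11, 12, 11, 12, 11], [193, 258, 67, 452, 199,
  522, 331, 79, 465, 212, 216, 89, 218, 283, 220, 222], [576, 456, 457, 140, 141, 270, 592, 338,
  211, 149, 278, 343, 93, 95, 96, 98], 9⟩, ⟨[11, 12, 11, 12, 11, 12, 12, 11, 12, 11, 12, 11], [1,
  2, 4, 5, 7, 9, 10, 12, 11, 12, 11, 12, 12, 12, 11, 12, 11, 12], [711, 200, 330, 75, 268, 461,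
  462, 335, 80, 273, 84, 405, 86, 153, 157, 160, 225, 162], [640, 385, 898, 195, 196, 709, 274,
  403, 216, 90, 155, 286, 99], 14⟩, ⟨[11, 12, 11, 12, 11, 12, 12, 12, 11, 12, 11, 12], [1, 2, 3,
  6, 8, 9, 12, 11, 12, 11, 12, 12, 11, 12, 11, 12, 11], [385, 642, 195, 836, 69, 71, 202, 203,
  405, 152, 153, 161], [64, 70, 136, 76, 77, 527, 464, 466, 211, 84, 214, 90, 155, 92, 222, 95,
  98, 227], 13⟩, ⟨[12, 11, 12, 11, 12, 12, 12, 11, 12, 11, 12, 11], [2, 4, 5, 7, 9, 10, 11, 12,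
  11, 12, 11, 12, 12, 11, 12, 11, 12], [67, 452, 454, 903, 906, 1035, 140, 269, 78, 335, 657, 468,
  152, 218, 219, 350, 163], [1344, 449, 642, 901, 392, 329, 336, 466, 595, 341, 151, 153, 93, 96,
  225, 98], 21⟩, ⟨[12, 11, 12, 12, 12, 11, 12, 11, 12, 11, 12, 12], [3, 4, 8, 10, 11, 12, 11, 12,
  12, 12, 11, 12, 11, 12, 11], [323, 647, 138, 203, 332, 461, 334, 719, 337, 276, 152, 219, 156,
  224, 163], [576, 449, 642, 196, 389, 200, 73, 210, 403, 341, 89, 90, 93, 222, 223, 97], 11⟩,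
  ⟨[12, 11, 12, 12, 12, 11, 12, 11, 12, 12, 12, 11], [0, 1, 3, 4, 8, 10, 11, 12, 11, 12, 12, 12,
  11, 12, 11, 12, 12, 12], [384, 641, 706, 325, 70, 395, 273, 530, 211, 532, 152, 89, 218, 155,
  157, 161], [391, 392, 457, 138, 140, 589, 590, 143, 144, 149, 86, 343, 92, 99], 11⟩, ⟨[12, 12,
  11, 12, 11, 12, 11, 12, 12, 12, 11, 12], [1, 7, 8, 11, 12, 11, 12, 11, 12, 12, 12, 11, 12, 11],
  [69, 711, 778, 715, 268, 333, 207, 208, 465, 84, 150, 151, 222, 161], [1088, 321, 386, 67, 388,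
  264, 329, 210, 403, 85, 88, 89, 154, 96], 17⟩, ⟨[12, 12, 12, 11, 12, 11, 12, 12, 12, 11, 12,
  11], [5, 6, 7, 8, 10, 11, 12, 12, 12, 11, 12, 11, 12, 12, 12, 11, 12], [259, 132, 775, 842, 843,
  716, 589, 462, 847, 465, 146, 404, 277, 88, 153, 218, 91, 158, 159, 161], [640, 1025, 1154, 517,
  328, 777, 80, 595, 150, 407, 96, 99], 18⟩, ⟨[12, 11, 12, 11, 12, 12, 12, 11, 12, 11, 12, 12,
  12], [1, 2, 6, 10, 11, 12, 12, 11, 12, 11, 12, 11, 12, 12, 12, 11], [449, 642, 515, 134, 458,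
  267, 79, 209, 530, 152, 154, 155, 222, 159], [256, 132, 133, 327, 457, 397, 526, 272, 339, 84,
  277, 87, 99], 10⟩, ⟨[12, 12, 11, 12, 11, 12, 12, 12, 11, 12, 11, 12, 12], [0, 1, 4, 6, 7, 9, 11,
  12, 12, 12, 11, 12, 11, 12, 11, 12, 12, 12, 11], [580, 70, 1159, 842, 1099, 588, 781, 206, 783,
  529, 148, 213, 152, 153, 218, 155, 220, 160, 162, 227], [1920, 769, 1602, 515, 645, 136, 73,
  656, 722, 403, 278, 279, 93, 95, 225], 30⟩, ⟨[11, 12, 11, 12, 11, 12, 11, 12, 12, 11, 12, 11,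
  12, 12], [1, 2, 3, 6, 8, 9, 12, 11, 12, 11, 12, 12, 11, 12, 11, 12, 11, 12, 11], [256, 258, 388,
  135, 136, 329, 204, 141, 334, 275, 469, 152, 89, 90, 156, 353, 162], [193, 515, 710, 138, 203,
  335, 336, 273, 402, 84, 214, 215, 155, 414, 95], 11⟩]

/-- the data -/
def D36 : Dat := ⟨[m0, m1, m2, m3, m4, m5, m6, m7, m8, m9, m10, m11, m12], rules⟩

theorem D36_wf : D36.wf = true := by decide +kernel

end VRC.Pk

end

section

set_option autoImplicit false

/-! Soundness, part 1: packed digits, central values, the bilinear form of the lattice. -/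

namespace VRC.Pk

open Finset

/-- number of digits of a row -/
def NN : ℕ := 1870

theorem B_eq : B = 2 ^ 40 := by norm_num [B]

theorem B_pos : 0 < B := by norm_num [B]

theorem one_lt_B : 1 < B := by norm_num [B]

attribute [local irreducible] B NN

/-- packed digits with stride `s` -/
def pk (s n : ℕ) (d : ℕ → ℕ) : ℕ := ∑ i ∈ range n, d i * B ^ (s * i)

theorem pk_succ (s n : ℕ) (d : ℕ → ℕ) : pk s (n + 1) d = pk s n d + d n * B ^ (s * n) := by
  rw [pk, sum_range_succ, pk]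

theorem pk_zero (s : ℕ) (d : ℕ → ℕ) : pk s 0 d = 0 := by simp [pk]

theorem pk_add (s n : ℕ) (d e : ℕ → ℕ) : pk s n d + pk s n e = pk s n (fun i => d i + e i) := by
  simp only [pk, ← sum_add_distrib, add_mul]

theorem pk_mul (s n m : ℕ) (d : ℕ → ℕ) : m * pk s n d = pk s n (fun i => m * d i) := by
  simp only [pk, mul_sum, mul_assoc]

/-- shifting -/
theorem pk_front (n : ℕ) (d : ℕ → ℕ) : pk 1 (n + 1) d = d 0 + B * pk 1 n (fun i => d (i + 1)) := by
  simp only [pk, sum_range_succ', mul_sum, one_mul, pow_zero, mul_one]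
  rw [add_comm]
  congr 1
  apply sum_congr rfl
  intro i _
  ring

theorem pk_lt (n : ℕ) (d : ℕ → ℕ) (h : ∀ i < n, d i < B) : pk 1 n d < B ^ n := by
  induction n with
  | zero => simp [pk]
  | succ n ih =>
    rw [pk_succ, pow_succ, one_mul]
    have h1 := ih (fun i hi => h i (by omega))
    have h2 : d n + 1 ≤ B := h n (by omega)
    calc pk 1 n d + d n * B ^ n < B ^ n + d n * B ^ n := by omega
      _ = (d n + 1) * B ^ n := by ring
      _ ≤ B * B ^ n := Nat.mul_le_mul_right _ h2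
      _ = B ^ n * B := by ring

theorem pk_inj (n : ℕ) (d e : ℕ → ℕ) (hd : ∀ i < n, d i < B) (he : ∀ i < n, e i < B)
    (h : pk 1 n d = pk 1 n e) : ∀ i < n, d i = e i := by
  induction n generalizing d e with
  | zero => intro i hi; omega
  | succ n ih =>
    rw [pk_front, pk_front] at h
    have h0 : d 0 = e 0 := by
      have h1 := congrArg (· % B) h
      simp only [Nat.add_mul_mod_self_left] at h1
      rwa [Nat.mod_eq_of_lt (hd 0 (by omega)), Nat.mod_eq_of_lt (he 0 (by omega))] at h1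
    have h1 : pk 1 n (fun i => d (i + 1)) = pk 1 n (fun i => e (i + 1)) := by
      rw [h0] at h
      exact Nat.eq_of_mul_eq_mul_left B_pos (Nat.add_left_cancel h)
    have h2 := ih _ _ (fun i hi => hd (i + 1) (by omega)) (fun i hi => he (i + 1) (by omega)) h1
    intro i hi
    cases i with
    | zero => exact h0
    | succ i => exact h2 i (by omega)

/-- the product of a vector with stride `m` and a vector -/
theorem pk_prod (m n : ℕ) (hm : 0 < m) (P Q : ℕ → ℕ) :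
    pk m n P * pk 1 m Q = pk 1 (m * n) (fun k => P (k / m) * Q (k % m)) := by
  induction n with
  | zero => rw [pk_zero, mul_zero, pk_zero, zero_mul]
  | succ n ih =>
    have h : pk 1 (m * (n + 1)) (fun k => P (k / m) * Q (k % m)) =
        pk 1 (m * n) (fun k => P (k / m) * Q (k % m)) +
        ∑ j ∈ range m, P n * Q j * B ^ (m * n + j) := by
      have h0 : m * (n + 1) = m * n + m := by ring
      rw [pk, pk, h0, sum_range_add]
      refine congrArg₂ _ rfl (sum_congr rfl ?_)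
      intro j hj
      have hj : j < m := mem_range.mp hj
      have h1 : (m * n + j) / m = n := by
        rw [Nat.mul_add_div hm, Nat.div_eq_of_lt hj, add_zero]
      have h2 : (m * n + j) % m = j := by
        rw [Nat.mul_add_mod, Nat.mod_eq_of_lt hj]
      rw [h1, h2, one_mul]
    rw [pk_succ, add_mul, ih, h]
    refine congrArg₂ _ rfl ?_
    rw [pk, mul_sum]
    refine sum_congr rfl ?_
    intro j _
    rw [pow_add, one_mul]
    ring

/-- extension by zeros -/
theorem pk_ext (n m : ℕ) (d : ℕ → ℕ) (h : n ≤ m) :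
    pk 1 n d = pk 1 m (fun k => if k < n then d k else 0) := by
  obtain ⟨k, rfl⟩ := Nat.exists_eq_add_of_le h
  rw [pk, pk, sum_range_add]
  have h1 : ∑ x ∈ range k, (if n + x < n then d (n + x) else 0) * B ^ (1 * (n + x)) = 0 := by
    apply sum_eq_zero
    intro x _
    rw [if_neg (by omega), zero_mul]
  rw [h1, add_zero]
  apply sum_congr rfl
  intro i hi
  rw [if_pos (mem_range.mp hi)]

/-- shift by an offset -/
theorem pk_shift (o n m : ℕ) (d : ℕ → ℕ) (h : o + n ≤ m) :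
    pk 1 n d * B ^ o = pk 1 m (fun k => if o ≤ k ∧ k < o + n then d (k - o) else 0) := by
  obtain ⟨k, rfl⟩ := Nat.exists_eq_add_of_le h
  rw [pk, pk, sum_range_add, sum_range_add]
  have h1 : ∑ x ∈ range o, (if o ≤ x ∧ x < o + n then d (x - o) else 0) * B ^ (1 * x) = 0 := by
    apply sum_eq_zero
    intro x hx
    have := mem_range.mp hx
    rw [if_neg (by omega), zero_mul]
  have h2 : ∑ x ∈ range k, (if o ≤ o + n + x ∧ o + n + x < o + n then d (o + n + x - o) else 0) *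
      B ^ (1 * (o + n + x)) = 0 := by
    apply sum_eq_zero
    intro x _
    rw [if_neg (by omega), zero_mul]
  rw [h1, h2, add_zero, zero_add, sum_mul]
  apply sum_congr rfl
  intro i hi
  have := mem_range.mp hi
  rw [if_pos (by omega), Nat.add_sub_cancel_left, one_mul, one_mul, pow_add]
  ring

theorem pk_single (k m : ℕ) (h : k < m) :
    B ^ k = pk 1 m (fun i => if i = k then 1 else 0) := by
  rw [pk, sum_eq_single k]
  · rw [if_pos rfl, one_mul, one_mul]
  · intro b _ hb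
    rw [if_neg hb, zero_mul]
  · intro hk
    exact absurd (mem_range.mpr h) hk

section central

variable {C : Type} [CommGroup C] (c : ℕ → C)

/-- the central element with the given exponents -/
def cv (n : ℕ) (d : ℕ → ℤ) : C := ∏ i ∈ range n, c i ^ d i

theorem cv_add (n : ℕ) (d e : ℕ → ℤ) : cv c n (fun i => d i + e i) = cv c n d * cv c n e := by
  simp only [cv, zpow_add, prod_mul_distrib]

theorem cv_neg (n : ℕ) (d : ℕ → ℤ) : cv c n (fun i => - d i) = (cv c n d)⁻¹ := by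
  simp only [cv, zpow_neg, prod_inv_distrib]

theorem cv_zero (n : ℕ) : cv c n (fun _ => 0) = 1 := by simp [cv]

theorem cv_nsmul (n m : ℕ) (d : ℕ → ℤ) : cv c n (fun i => (m : ℤ) * d i) = cv c n d ^ m := by
  simp only [cv, ← prod_pow]
  apply prod_congr rfl
  intro i _
  rw [mul_comm, zpow_mul, zpow_natCast]

theorem cv_congr (n : ℕ) (d e : ℕ → ℤ) (h : ∀ i < n, d i = e i) : cv c n d = cv c n e := by
  apply prod_congr rfl
  intro i hi
  rw [h i (mem_range.mp hi)]

/-- value of a packed central element -/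
def RV (rp rn rb : ℕ) (x : C) : Prop :=
  ∃ P N : ℕ → ℕ, (∀ i, P i + N i ≤ rb) ∧ rp = pk 1 NN P ∧ rn = pk 1 NN N ∧
    x = cv c NN (fun i => (P i : ℤ) - (N i : ℤ))

variable {c}

theorem RV.one : RV c 0 0 0 1 :=
  ⟨fun _ => 0, fun _ => 0, fun _ => le_refl _, by simp [pk], by simp [pk], by
    simp only [Nat.cast_zero, sub_zero, cv_zero]⟩

theorem RV.mono {rp rn rb rb' : ℕ} {x : C} (h : RV c rp rn rb x)
    (hb : rb ≤ rb') : RV c rp rn rb' x := by
  obtain ⟨P, N, h1, h2⟩ := h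
  exact ⟨P, N, fun i => (h1 i).trans hb, h2⟩

theorem RV.mul {rp rn rb rp' rn' rb' : ℕ} {x y : C} (h : RV c rp rn rb x)
    (h' : RV c rp' rn' rb' y) : RV c (rp + rp') (rn + rn') (rb + rb') (x * y) := by
  obtain ⟨P, N, h1, h2, h3, h4⟩ := h
  obtain ⟨P', N', h1', h2', h3', h4'⟩ := h'
  refine ⟨fun i => P i + P' i, fun i => N i + N' i, fun i => ?_, ?_, ?_, ?_⟩
  · have := h1 i
    have := h1' i
    show P i + P' i + (N i + N' i) ≤ _
    omega
  · rw [h2, h2', pk_add]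
  · rw [h3, h3', pk_add]
  · rw [h4, h4', ← cv_add]
    apply cv_congr
    intro i _
    push_cast
    ring

theorem RV.inv {rp rn rb : ℕ} {x : C} (h : RV c rp rn rb x) :
    RV c rn rp rb x⁻¹ := by
  obtain ⟨P, N, h1, h2, h3, h4⟩ := h
  refine ⟨N, P, fun i => by rw [add_comm]; exact h1 i, h3, h2, ?_⟩
  rw [h4, ← cv_neg]
  apply cv_congr
  intro i _
  ring

theorem RV.pow {rp rn rb : ℕ} {x : C} (h : RV c rp rn rb x) (m : ℕ) :
    RV c (m * rp) (m * rn) (m * rb) (x ^ m) := by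
  obtain ⟨P, N, h1, h2, h3, h4⟩ := h
  refine ⟨fun i => m * P i, fun i => m * N i, fun i => ?_, ?_, ?_, ?_⟩
  · show m * P i + m * N i ≤ m * rb
    rw [← mul_add]
    exact Nat.mul_le_mul_left _ (h1 i)
  · rw [h2, pk_mul]
  · rw [h3, pk_mul]
  · rw [h4, ← cv_nsmul]
    apply cv_congr
    intro i _
    push_cast
    ring

theorem RV.single (k : ℕ) (hk : k < NN) : RV c (B ^ k) 0 1 (c k) := by
  refine ⟨fun i => if i = k then 1 else 0, fun _ => 0, fun i => ?_, pk_single k NN hk,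
    by simp [pk], ?_⟩
  · show (if i = k then 1 else 0) + 0 ≤ 1
    split <;> simp
  · rw [cv, prod_eq_single k]
    · simp
    · intro b _ hb
      simp [hb]
    · intro h
      exact absurd (mem_range.mpr hk) h

theorem RV.uniq {rp rn rb rp' rn' rb' : ℕ} {x y : C} (h : RV c rp rn rb x)
    (h' : RV c rp' rn' rb' y) (he : rp + rn' = rp' + rn) (hb : rb + rb' < B) : x = y := by
  obtain ⟨P, N, h1, h2, h3, h4⟩ := h
  obtain ⟨P', N', h1', h2', h3', h4'⟩ := h'
  rw [h2, h3, h2', h3', pk_add, pk_add] at he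
  have h5 := pk_inj NN _ _ (fun i _ => ?_) (fun i _ => ?_) he
  · rw [h4, h4']
    apply cv_congr
    intro i hi
    have := h5 i hi
    have h6 : P i + N' i = P' i + N i := this
    have h7 : (P i : ℤ) + N' i = P' i + N i := by exact_mod_cast h6
    linarith
  · have := h1 i
    have := h1' i
    show P i + N' i < B
    omega
  · have := h1 i
    have := h1' i
    show P' i + N i < B
    omega

end central

end VRC.Pk

end

section

set_option autoImplicit false

/-! Check of the evaluated rows against literals. -/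

namespace VRC.Pk

/-- the tables of the data -/
def L36 : List Le := mkL D36.R D36.M 0

/-- all digits one -/
def ons (n : ℕ) : ℕ := Nat.div (Nat.sub (Nat.pow B n) 1) (Nat.sub B 1)

/-- bias `2^20` in all digits -/
def bias (n : ℕ) : ℕ := Nat.mul (ons n) 1048576

/-- the bits `21..39` of all digits -/
def hmask (n : ℕ) : ℕ := Nat.mul (ons n) (Nat.sub B 2097152)

/-- indices are in the range -/
def Eqn.ok (D : Dat) : Eqn → Bool
  | Eqn.A y _ _ => Nat.blt y 13
  | Eqn.C l i => and (Nat.blt l D.R.length) (Nat.blt i 36)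
  | Eqn.D l _ m => and (Nat.blt l D.R.length) (Nat.blt m D.R.length)

/-- the row of the equation is the literal `V` (digits from 1296 on, biased) -/
def ck2 (L : List Le) (D : Dat) (fuel Hb Mk : ℕ) (q : Eqn × ℕ) : Bool :=
  and (q.1.ok D) ((fun r : Rw × Bool => and r.2 (and (Nat.blt r.1.b 549755813888)
    (and (Nat.beq (Nat.add q.2 (Nat.shiftRight r.1.n 51840))
      (Nat.add (Nat.shiftRight r.1.p 51840) Hb)) (Nat.beq (Nat.land q.2 Mk) 0))))
    (evl L D.R fuel q.1))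

/-- check of a chunk -/
def ckl (L : List Le) (D : Dat) (fuel Hb Mk : ℕ) : List (Eqn × ℕ) → Bool
  | [] => true
  | q :: l => and (ck2 L D fuel Hb Mk q) (ckl L D fuel Hb Mk l)

end VRC.Pk

end
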