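import Mathlib
import Pool.Agent.Work.MP_332575_al.Bd.B01

/-! Bundle of small proof modules (one section per former module). -/

section

set_option autoImplicit false

/-! The group `XG D36` is perfect: a certificate for its abelianization. -/

namespace VRC.Pk

/-- number of occurrences of `j` in the word `w` -/
def cnt : List ℕ → ℕ → ℕ
  | [], _ => 0
  | y :: w, j => (if y = j then 1 else 0) + cnt w j

/-- the exponent sum at the generator `j` of the relation number `c` -/
def rowv (D : Dat) (c j : ℕ) : ℤ :=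
  if c < 468 then (if j < 36 then D.mv (c / 36) (c % 36) j else 0) - (if j = c % 36 then 1 else 0)
  else (if j < 36 then - (nthR D.R (c - 468)).vc j else
    (cnt (nthR D.R (c - 468)).U (j - 36) : ℤ) - (cnt (nthR D.R (c - 468)).V (j - 36) : ℤ))

/-- the exponent sum of a combination of relations -/
def comb (D : Dat) : List (ℤ × ℕ) → ℕ → ℤ
  | [], _ => 0
  | a :: C, j => a.1 * rowv D a.2 j + comb D C j

/-- check of a straight line certificate: `Z` is the list of the generators known to be zero -/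
def chkS (D : Dat) : List (ℕ × List (ℤ × ℕ)) → List ℕ → Bool
  | [], _ => true
  | s :: L, Z => (decide (s.1 < 49) && decide (comb D s.2 s.1 = 1) &&
      (s.2.all fun a => decide (a.2 < 468 + D.R.length)) &&
      ((List.range 49).all fun j => decide (j = s.1) || Z.contains j || decide (comb D s.2 j = 0)))
      && chkS D L (s.1 :: Z)

def certS : List (ℕ × List (ℤ × ℕ)) :=
  [(10, [(-1, 137)]), (11, [(-1, 172)]), (18, [(-1, 176)]), (20, [(-1, 213)]), (17, [(-1, 224)]),
  (12, [(-1, 225)]), (15, [(-1, 261)]), (16, [(-1, 281)]), (13, [(-1, 282)]), (19, [(-1, 295)]),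
  (14, [(-1, 410)]), (0, [(1, 488)]), (4, [(1, 504)]), (2, [(1, 505)]), (3, [(1, 512)]), (5, [(1,
  527)]), (1, [(-1, 397)]), (6, [(1, 435)]), (9, [(-1, 546)]), (7, [(1, 405)]), (30, [(-1, 430)]),
  (8, [(1, 439)]), (29, [(-1, 461)]), (41, [(-1, 543)]), (40, [(1, 549)]), (28, [(-1, 424)]), (31,
  [(1, 460)]), (39, [(1, 537)]), (42, [(-1, 548)]), (32, [(1, 427)]), (33, [(1, 464)]), (34, [(-1,
  465)]), (43, [(-1, 540)]), (44, [(-1, 552)]), (45, [(-1, 553)]), (35, [(-1, 555)]), (46, [(-1,
  542)]), (22, [(-1, 417), (1, 453), (-1, 454)]), (25, [(1, 417), (-1, 453), (1, 454), (-1, 457),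
  (1, 536)]), (26, [(1, 417), (1, 421), (-1, 453), (1, 454), (-1, 457), (1, 536)]), (27, [(-1, 417),
  (1, 453), (-1, 454), (-1, 536)]), (24, [(1, 419), (-1, 454), (-1, 459), (1, 536), (1, 562), (1,
  570), (-1, 572)]), (23, [(1, 423), (-1, 456), (-1, 559), (1, 570)]), (21, [(-1, 417), (-1, 421),
  (1, 423), (1, 455), (-1, 459), (1, 536), (-1, 559), (1, 570)]), (36, [(1, 417), (-1, 421), (1,
  423), (-1, 453), (1, 457), (-1, 535), (-1, 545), (-1, 547), (-1, 559), (1, 570)]), (37, [(1, 417),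
  (-1, 423), (-1, 453), (1, 454), (-1, 455), (1, 457), (1, 459), (-1, 545), (-1, 562), (1, 563),
  (-1, 568)]), (38, [(1, 422), (1, 423), (-1, 455), (1, 459), (1, 536), (-1, 545), (-1, 547), (-1,
  563), (-1, 566), (1, 568), (1, 571)]), (48, [(-1, 422), (1, 453), (1, 455), (-1, 456), (1, 459),
  (-1, 536), (-1, 545), (-1, 562), (1, 571)]), (47, [(1, 422), (1, 453), (1, 468), (-1, 470), (1,
  535), (-1, 536), (1, 556), (1, 559), (1, 561), (-1, 563), (-1, 566), (1, 568), (-1, 573)])]

theorem chk_certS : chkS D36 certS [] = true := by decide +kernel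

theorem certS_all : ∀ j < 49, j ∈ certS.map Prod.fst := by decide +kernel

section

variable {D : Dat} {A : Type} [AddCommGroup A] (f : XG D →* Multiplicative A)

/-- the images of the generators -/
def gx (j : ℕ) : A :=
  if j < 36 then Multiplicative.toAdd (f (xt D j)) else Multiplicative.toAdd (f (xg D (j - 36)))

theorem gx_t (j : ℕ) (h : j < 36) : Multiplicative.toAdd (f (xt D j)) = gx f j := by
  rw [gx, if_pos h]

theorem gx_g (y : ℕ) : Multiplicative.toAdd (f (xg D y)) = gx f (36 + y) := by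
  rw [gx, if_neg (by omega), show 36 + y - 36 = y by omega]

theorem f_tp (v : ℕ → ℤ) (k : ℕ) (hk : k ≤ 36) :
    Multiplicative.toAdd (f (tp (xt D) v k)) = ∑ j ∈ Finset.range k, v j • gx f j := by
  induction k with
  | zero => simp [tp]
  | succ k ih =>
    rw [tp, map_mul, toAdd_mul, map_zpow, toAdd_zpow, ih (by omega), gx_t f k (by omega),
      Finset.sum_range_succ]

theorem f_wv (w : List ℕ) (hw : ∀ y ∈ w, y < 13) :
    Multiplicative.toAdd (f (wv (xg D) w)) =
      ∑ y ∈ Finset.range 13, (cnt w y : ℤ) • gx f (36 + y) := by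
  induction w with
  | nil => simp [wv, cnt]
  | cons y w ih =>
    rw [wv, map_mul, toAdd_mul, gx_g, ih (fun z hz => hw z (List.mem_cons_of_mem _ hz))]
    have hy : y < 13 := hw y List.mem_cons_self
    have h1 : ∀ z : ℕ, ((cnt (y :: w) z : ℕ) : ℤ) • gx f (36 + z) =
        (if y = z then gx f (36 + z) else 0) + (cnt w z : ℤ) • gx f (36 + z) := by
      intro z
      rw [cnt]
      split_ifs with h
      · push_cast
        rw [add_smul, one_smul]
      · push_cast
        rw [zero_add, zero_add]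
    rw [Finset.sum_congr rfl (fun z _ => h1 z), Finset.sum_add_distrib, Finset.sum_ite_eq,
      if_pos (Finset.mem_range.mpr hy)]

theorem row_zero (hD : D.wf = true) (c : ℕ) (hc : c < 468 + D.R.length) :
    ∑ j ∈ Finset.range 49, rowv D c j • gx f j = 0 := by
  have M := XG_mdl D
  have hsplit : ∀ F : ℕ → A, ∑ j ∈ Finset.range 49, F j =
      ∑ j ∈ Finset.range 36, F j + ∑ y ∈ Finset.range 13, F (36 + y) := fun F => by
    rw [show (49 : ℕ) = 36 + 13 from rfl, Finset.sum_range_add]
  by_cases h : c < 468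
  · have hy : c / 36 < 13 := by omega
    have hi : c % 36 < 36 := by omega
    have h1 := congrArg (fun x => Multiplicative.toAdd (f x)) (M.act (c / 36) (c % 36) hy hi)
    simp only [map_mul, map_inv, toAdd_mul, toAdd_inv] at h1
    rw [f_tp f _ 36 le_rfl, gx_t f _ hi] at h1
    have h2 : ∀ j : ℕ, rowv D c j • gx f j =
        (if j < 36 then D.mv (c / 36) (c % 36) j else 0) • gx f j -
          (if j = c % 36 then gx f j else 0) := by
      intro j
      rw [rowv, if_pos h, sub_smul]
      congr 1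
      split_ifs
      · rw [one_smul]
      · rw [zero_smul]
    rw [Finset.sum_congr rfl (fun j _ => h2 j), Finset.sum_sub_distrib, Finset.sum_ite_eq',
      if_pos (Finset.mem_range.mpr (by omega)), hsplit]
    have h3 : ∑ j ∈ Finset.range 36,
        (if j < 36 then D.mv (c / 36) (c % 36) j else 0) • gx f j =
        ∑ j ∈ Finset.range 36, D.mv (c / 36) (c % 36) j • gx f j :=
      Finset.sum_congr rfl (fun j hj => by rw [if_pos (Finset.mem_range.mp hj)])
    have h4 : ∑ y ∈ Finset.range 13,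
        (if 36 + y < 36 then D.mv (c / 36) (c % 36) (36 + y) else 0) • gx f (36 + y) = 0 :=
      Finset.sum_eq_zero (fun y _ => by rw [if_neg (by omega), zero_smul])
    rw [h3, h4, ← h1]
    abel
  · have hr : nthR D.R (c - 468) ∈ D.R := by
      have hlt : c - 468 < D.R.length := by omega
      rw [nthR, List.getD_eq_getElem _ _ hlt]
      exact List.getElem_mem hlt
    obtain ⟨hU, hV⟩ := wf_mem hD _ hr
    have h1 := congrArg (fun x => Multiplicative.toAdd (f x)) (M.rul _ hr)
    simp only [map_mul, toAdd_mul] at h1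
    rw [f_tp f _ 36 le_rfl, f_wv f _ hU, f_wv f _ hV] at h1
    rw [hsplit]
    have h3 : ∑ j ∈ Finset.range 36, rowv D c j • gx f j =
        - ∑ j ∈ Finset.range 36, (nthR D.R (c - 468)).vc j • gx f j := by
      rw [← Finset.sum_neg_distrib]
      refine Finset.sum_congr rfl (fun j hj => ?_)
      rw [rowv, if_neg h, if_pos (Finset.mem_range.mp hj), neg_smul]
    have h4 : ∑ y ∈ Finset.range 13, rowv D c (36 + y) • gx f (36 + y) =
        ∑ y ∈ Finset.range 13, (cnt (nthR D.R (c - 468)).U y : ℤ) • gx f (36 + y) -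
        ∑ y ∈ Finset.range 13, (cnt (nthR D.R (c - 468)).V y : ℤ) • gx f (36 + y) := by
      rw [← Finset.sum_sub_distrib]
      refine Finset.sum_congr rfl (fun y hy => ?_)
      rw [rowv, if_neg h, if_neg (by omega), show 36 + y - 36 = y by omega, sub_smul]
    rw [h3, h4, h1]
    abel

theorem comb_zero (hD : D.wf = true) (C : List (ℤ × ℕ))
    (hC : ∀ a ∈ C, a.2 < 468 + D.R.length) :
    ∑ j ∈ Finset.range 49, comb D C j • gx f j = 0 := by
  induction C with
  | nil => simp [comb]
  | cons a C ih =>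
    have h1 : ∀ j : ℕ, comb D (a :: C) j • gx f j =
        a.1 • (rowv D a.2 j • gx f j) + comb D C j • gx f j := fun j => by
      rw [comb, add_smul, mul_smul]
    rw [Finset.sum_congr rfl (fun j _ => h1 j), Finset.sum_add_distrib, ← Finset.smul_sum,
      row_zero f hD _ (hC a List.mem_cons_self), ih (fun b hb => hC b (List.mem_cons_of_mem _ hb)),
      smul_zero, zero_add]

theorem chkS_sound (hD : D.wf = true) : ∀ (L : List (ℕ × List (ℤ × ℕ))) (Z : List ℕ),
    chkS D L Z = true → (∀ j ∈ Z, gx f j = 0) → ∀ s ∈ L, gx f s.1 = 0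
  | [], _, _, _, s, hs => by simp at hs
  | s :: L, Z, h, hZ, r, hr => by
    rw [chkS, Bool.and_eq_true, Bool.and_eq_true, Bool.and_eq_true, Bool.and_eq_true,
      decide_eq_true_eq, decide_eq_true_eq, List.all_eq_true, List.all_eq_true] at h
    obtain ⟨⟨⟨⟨h0, h1⟩, h2⟩, h3⟩, h4⟩ := h
    have hs : gx f s.1 = 0 := by
      have h5 := comb_zero f hD s.2 (fun a ha => by simpa using h2 a ha)
      rw [Finset.sum_eq_single_of_mem s.1 (Finset.mem_range.mpr h0), h1, one_smul] at h5
      · exact h5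
      · intro j hj hjs
        have h6 := h3 j (List.mem_range.mpr (Finset.mem_range.mp hj))
        rw [Bool.or_eq_true, Bool.or_eq_true, decide_eq_true_eq, decide_eq_true_eq,
          List.contains_iff_mem] at h6
        rcases h6 with (h6 | h6) | h6
        · exact absurd h6 hjs
        · rw [hZ j h6, smul_zero]
        · rw [h6, zero_smul]
    rcases List.mem_cons.mp hr with rfl | hr
    · exact hs
    · refine chkS_sound hD L (s.1 :: Z) h4 ?_ r hr
      intro j hj
      rcases List.mem_cons.mp hj with rfl | hj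
      · exact hs
      · exact hZ j hj

end

/-- every homomorphism to an abelian group is trivial -/
theorem hom_trivial {A : Type} [AddCommGroup A] (f : XG D36 →* Multiplicative A) : f = 1 := by
  have h : ∀ j < 49, gx f j = 0 := by
    intro j hj
    obtain ⟨s, hs, rfl⟩ := List.mem_map.mp (certS_all j hj)
    exact chkS_sound f D36_wf certS [] chk_certS (by simp) s hs
  apply hom_ext
  · intro i hi
    have h1 := h i (by omega)
    rw [← gx_t f i hi] at h1
    exact h1
  · intro y hy
    have h1 := h (36 + y) (by omega)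
    rw [← gx_g f y] at h1
    exact h1

/-- `XG D36` is perfect -/
theorem XG_perfect : commutator (XG D36) = ⊤ := by
  have h := hom_trivial (A := Additive (Abelianization (XG D36)))
    (MonoidHom.comp (MulEquiv.refl _).toMonoidHom (Abelianization.of : XG D36 →* _))
  rw [eq_top_iff]
  intro x _
  rw [← Abelianization.ker_of (XG D36), MonoidHom.mem_ker]
  exact congrArg (fun g => g x) h

end VRC.Pk

end

section

set_option autoImplicit false

/-! # Torsion freeness of the crystallographic group of dimension 36 -/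

namespace VRC.Pk

open Matrix VRC.Tor

/-- `m e_i` as a list of length `15` -/
def e15 (m : ℤ) (i : ℕ) : List ℤ := (List.range 15).map fun j => if j = i then m else 0

/-- the first fifteen coordinates of the lattice basis -/
def B15 (i : ℕ) : List ℤ :=
  if i < 21 then e15 0 0
  else [[0, 0, 84, 84, 0, 0, 0, 0, 0, 0, 0, 0, 0, 0, 0],
    [0, 0, 84, 0, 84, 0, 0, 0, 0, 0, 0, 0, 0, 0, 0],
    [84, 84, 0, 0, 0, 84, 0, 0, 0, 0, 0, 0, 0, 0, 0],
    [84, 84, 0, 0, 0, 0, 84, 0, 0, 0, 0, 0, 0, 0, 0],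
    e15 168 0, e15 168 1, e15 168 2, e15 168 7, e15 168 8, e15 168 9, e15 168 10, e15 168 11,
    e15 168 12, e15 168 13, e15 168 14].getD (i - 21) []

/-- the first fifteen coordinates of the translation parts of the letters `0, ..., 10` -/
def K15 (y : ℕ) : List ℤ := if y < 3 then e15 (-84) y else e15 (-84) (y + 4)

/-- the parity functionals -/
def f15 (y : ℕ) : List ℤ :=
  if y = 0 then [1, 0, 0, 0, 0, 1, 1, 0, 0, 0, 0, 0, 0, 0, 0]
  else if y = 1 then [0, 1, 0, 0, 0, 1, 1, 0, 0, 0, 0, 0, 0, 0, 0]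
  else if y = 2 then [0, 0, 1, 1, 1, 0, 0, 0, 0, 0, 0, 0, 0, 0, 0]
  else e15 1 (y + 4)

theorem B15_len : ∀ i < 36, (B15 i).length ≤ 15 := by decide +kernel
theorem K15_len : ∀ y < 11, (K15 y).length ≤ 15 := by decide +kernel
theorem B15_dvd : ∀ i < 36, ∀ j : Fin 15, (84 : ℤ) ∣ VRC.Tor.vec 15 (B15 i) j := by decide +kernel
theorem K15_dvd : ∀ y < 11, ∀ j : Fin 15, (84 : ℤ) ∣ VRC.Tor.vec 15 (K15 y) j := by decide +kernel
theorem f15_B : ∀ y < 11, ∀ i < 36, (168 : ℤ) ∣ dot (f15 y) (B15 i) := by decide +kernel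
theorem f15_K : ∀ y < 11, ∀ z < 11, dot (f15 y) (K15 z) = if z = y then -84 else 0 := by
  decide +kernel
theorem LA15_len : ∀ s, (LA15 s).length ≤ 15 := by decide +kernel
theorem Lt15_len : ∀ s, (Lt15 s).length ≤ 15 := by decide +kernel

/-- the 168 irreducible words in the letters `11`, `12` -/
def irr : List (List ℕ) := [] :: tab15.map fun p => p.1.map fun s => 11 + s.1

/-- the affine representation of dimension `15` -/
structure Lin15 {X : Type} [Group X] (t g : ℕ → X) (lin : X →* Matrix (Fin 15) (Fin 15) ℤ)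
    (tr : X → Fin 15 → ℤ) : Prop where
  htr : ∀ x y, tr (x * y) = tr x + lin x *ᵥ tr y
  lt : ∀ i < 36, lin (t i) = 1
  tt : ∀ i < 36, tr (t i) = VRC.Tor.vec 15 (B15 i)
  lk : ∀ y < 11, lin (g y) = 1
  tk : ∀ y < 11, tr (g y) = VRC.Tor.vec 15 (K15 y)
  la : lin (g 11) = mat 15 (LA15 0)
  lb : lin (g 12) = mat 15 (LA15 1)
  ta : tr (g 11) = VRC.Tor.vec 15 (Lt15 0)
  tb : tr (g 12) = VRC.Tor.vec 15 (Lt15 1)

section lat

variable {G : Type} [Group G] {t : ℕ → G} {n : ℕ}

theorem torx_tp_comm (h : ∀ i < n, ∀ j < n, t i * t j = t j * t i) (v : ℕ → ℤ) (k : ℕ) (hk : k ≤ n)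
    (j : ℕ) (hj : j < n) (c : ℤ) : tp t v k * t j ^ c = t j ^ c * tp t v k := by
  induction k with
  | zero => simp [tp]
  | succ k ih =>
    have h1 : Commute (t k ^ v k) (t j ^ c) :=
      ((show Commute (t k) (t j) from h k (by omega) j hj).zpow_zpow _ _)
    rw [tp, mul_assoc, h1.eq, ← mul_assoc, ih (by omega), mul_assoc]

theorem torx_tp_add (h : ∀ i < n, ∀ j < n, t i * t j = t j * t i) (v u : ℕ → ℤ) (k : ℕ) (hk : k ≤ n) :
    tp t (fun i => v i + u i) k = tp t v k * tp t u k := by
  induction k with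
  | zero => simp [tp]
  | succ k ih =>
    rw [tp, tp, tp, ih (by omega), _root_.zpow_add]
    have h1 := torx_tp_comm h u k (by omega) k (by omega) (v k)
    calc tp t v k * tp t u k * (t k ^ v k * t k ^ u k)
        = tp t v k * (tp t u k * t k ^ v k) * t k ^ u k := by simp only [mul_assoc]
      _ = tp t v k * (t k ^ v k * tp t u k) * t k ^ u k := by rw [h1]
      _ = _ := by simp only [mul_assoc]

theorem torx_tp_zero' (v : ℕ → ℤ) (k : ℕ) (h : ∀ i < k, v i = 0) : tp t v k = 1 := by
  induction k with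
  | zero => rfl
  | succ k ih => rw [tp, ih (fun i hi => h i (by omega)), h k (by omega), zpow_zero, one_mul]

theorem torx_tp_pow (h : ∀ i < n, ∀ j < n, t i * t j = t j * t i) (v : ℕ → ℤ) (k : ℕ) (hk : k ≤ n)
    (m : ℕ) : (tp t v k) ^ m = tp t (fun i => m * v i) k := by
  induction m with
  | zero => rw [pow_zero, torx_tp_zero']; intro i _; simp
  | succ m ih =>
    rw [pow_succ, ih, ← torx_tp_add h _ _ _ hk]
    congr 1
    funext i
    push_cast
    ring

end lat

section main

variable {X : Type} [Group X] {t g : ℕ → X} {lin : X →* Matrix (Fin 15) (Fin 15) ℤ}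
  {tr : X → Fin 15 → ℤ} (H : Lin15 t g lin tr)

include H

theorem Lin15.t_mem (i : ℕ) (hi : i < 36) : t i ∈ Lat lin tr H.htr 84 := by
  refine ⟨H.lt i hi, fun j => ?_⟩
  rw [H.tt i hi]
  exact B15_dvd i hi j

theorem Lin15.g_mem (y : ℕ) (hy : y < 11) : g y ∈ Lat lin tr H.htr 84 := by
  refine ⟨H.lk y hy, fun j => ?_⟩
  rw [H.tk y hy]
  exact K15_dvd y hy j

theorem Lin15.tp_mem (v : ℕ → ℤ) (k : ℕ) (hk : k ≤ 36) : tp t v k ∈ Lat lin tr H.htr 84 := by
  induction k with
  | zero => exact Subgroup.one_mem _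
  | succ k ih =>
    exact Subgroup.mul_mem _ (ih (by omega)) (Subgroup.zpow_mem _ (H.t_mem k (by omega)) _)

theorem Lin15.wv_mem (S : List ℕ) (hS : ∀ y ∈ S, y < 11) : wv g S ∈ Lat lin tr H.htr 84 := by
  induction S with
  | nil => exact Subgroup.one_mem _
  | cons y S ih =>
    exact Subgroup.mul_mem _ (H.g_mem y (hS y List.mem_cons_self))
      (ih fun z hz => hS z (List.mem_cons_of_mem _ hz))

theorem Lin15.dot_mul (φ : Fin 15 → ℤ) (x y : X) (hx : lin x = 1) :
    φ ⬝ᵥ tr (x * y) = φ ⬝ᵥ tr x + φ ⬝ᵥ tr y := by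
  rw [H.htr, hx, one_mulVec, dotProduct_add]

theorem Lin15.dot_zpow (φ : Fin 15 → ℤ) (x : X) (hx : lin x = 1) (m : ℤ)
    (h : m ∣ φ ⬝ᵥ tr x) (c : ℤ) : m ∣ φ ⬝ᵥ tr (x ^ c) := by
  -- the subgroup
  let K : Subgroup X :=
    { carrier := {x | lin x = 1 ∧ m ∣ φ ⬝ᵥ tr x}
      one_mem' := ⟨map_one _, by rw [tr_one lin tr H.htr]; simp⟩
      mul_mem' := by
        intro x y hx hy
        refine ⟨by rw [map_mul, hx.1, hy.1, one_mul], ?_⟩
        rw [H.dot_mul φ x y hx.1]
        exact dvd_add hx.2 hy.2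
      inv_mem' := by
        intro x hx
        have h1 : lin x⁻¹ = 1 := by
          have h := map_mul lin x⁻¹ x
          rw [inv_mul_cancel, map_one, hx.1, mul_one] at h
          exact h.symm
        refine ⟨h1, ?_⟩
        rw [tr_inv lin tr H.htr, h1, one_mulVec, dotProduct_neg]
        exact (dvd_neg).mpr hx.2 }
  have hK : x ∈ K := ⟨hx, h⟩
  exact (K.zpow_mem hK c).2

theorem Lin15.dot_tp (y : ℕ) (hy : y < 11) (v : ℕ → ℤ) (k : ℕ) (hk : k ≤ 36) :
    (168 : ℤ) ∣ VRC.Tor.vec 15 (f15 y) ⬝ᵥ tr (tp t v k) := by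
  induction k with
  | zero => rw [tp, tr_one lin tr H.htr]; simp
  | succ k ih =>
    rw [tp, H.dot_mul _ _ _ (H.tp_mem v k (by omega)).1]
    refine dvd_add (ih (by omega)) ?_
    refine H.dot_zpow _ _ (H.lt k (by omega)) _ ?_ _
    rw [H.tt k (by omega), ← vec_dot 15 _ _ (B15_len k (by omega))]
    exact f15_B y hy k (by omega)

theorem Lin15.dot_wv (y : ℕ) (hy : y < 11) (S : List ℕ) (hS : ∀ z ∈ S, z < 11) :
    VRC.Tor.vec 15 (f15 y) ⬝ᵥ tr (wv g S) = -84 * (S.count y : ℤ) := by
  induction S with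
  | nil => rw [wv, tr_one lin tr H.htr]; simp
  | cons z S ih =>
    have hz := hS z List.mem_cons_self
    rw [wv, H.dot_mul _ _ _ (H.lk z hz), ih (fun u hu => hS u (List.mem_cons_of_mem _ hu)),
      H.tk z hz, ← vec_dot 15 _ _ (K15_len z hz), f15_K y hy z hz, List.count_cons]
    by_cases h : z = y
    · subst h; simp; ring
    · simp [h]

omit H in
/-- the letters of the table -/
theorem Lin15.prod_eq (w : List (Fin 2)) :
    wv g (w.map fun s => 11 + s.1) = (w.map (![g 11, g 12] : Fin 2 → X)).prod := by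
  induction w with
  | nil => rfl
  | cons s w ih =>
    rw [List.map_cons, wv, ih, List.map_cons, List.prod_cons]
    congr 1
    fin_cases s <;> rfl

theorem Lin15.l1 (s : Fin 2) : lin ((![g 11, g 12] : Fin 2 → X) s) = mat 15 (LA15 s) := by
  fin_cases s
  · exact H.la
  · exact H.lb

theorem Lin15.l2 (s : Fin 2) : tr ((![g 11, g 12] : Fin 2 → X) s) = VRC.Tor.vec 15 (Lt15 s) := by
  fin_cases s
  · exact H.ta
  · exact H.tb

/-- torsion freeness -/
theorem torX (hc : ∀ i < 36, ∀ j < 36, t i * t j = t j * t i)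
    (R1 : ∀ v : ℕ → ℤ, tp t v 36 = 1 → ∀ i < 36, v i = 0)
    (N1 : ∀ x : X, ∃ (v : ℕ → ℤ) (S w : List ℕ), x = tp t v 36 * wv g S * wv g w ∧
      S.Pairwise (· < ·) ∧ (∀ y ∈ S, y < 11) ∧ w ∈ irr) :
    ∀ x : X, x ≠ 1 → ¬ IsOfFinOrder x := by
  -- the normal form with the words of the table
  have N2 : ∀ x : X, ∃ (v : ℕ → ℤ) (S : List ℕ), S.Pairwise (· < ·) ∧ (∀ y ∈ S, y < 11) ∧
      (x = tp t v 36 * wv g S ∨ ∃ p ∈ tab15,
        x = tp t v 36 * wv g S * (p.1.map (![g 11, g 12] : Fin 2 → X)).prod) := by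
    intro x
    obtain ⟨v, S, w, hx, hS, hS', hw⟩ := N1 x
    refine ⟨v, S, hS, hS', ?_⟩
    rcases List.mem_cons.mp hw with rfl | hw
    · left; rw [hx]; simp [wv]
    · right
      obtain ⟨p, hp, rfl⟩ := List.mem_map.mp hw
      exact ⟨p, hp, by rw [hx, Lin15.prod_eq]⟩
  refine torsion_free_tab lin tr H.htr LA15 Lt15 (![g 11, g 12] : Fin 2 → X) LA15_len Lt15_len
    H.l1 H.l2 84 tab15 tab15_chk ?_ ?_
  · intro x hx1 hx2 hx
    obtain ⟨v, S, hS, hS', h⟩ := N2 x
    rcases h with h | ⟨p, hp, h⟩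
    · -- the letters disappear by parity
      have hS0 : S = [] := by
        cases S with
        | nil => rfl
        | cons y S =>
          exfalso
          have hy := hS' y List.mem_cons_self
          have h1 := H.dot_tp y hy v 36 le_rfl
          have h2 := H.dot_wv y hy (y :: S) hS'
          have h3 : (y :: S).count y = 1 :=
            List.count_eq_one_of_mem hS.nodup List.mem_cons_self
          have h4 := H.dot_mul (VRC.Tor.vec 15 (f15 y)) (tp t v 36) (wv g (y :: S))
            (H.tp_mem v 36 le_rfl).1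
          rw [← h, hx2, dotProduct_zero, h2, h3] at h4
          obtain ⟨c, hc⟩ := h1
          rw [hc] at h4
          push_cast at h4
          omega
      subst hS0
      rw [wv, mul_one] at h
      intro hfin
      obtain ⟨m, hm, hxm⟩ := isOfFinOrder_iff_pow_eq_one.mp hfin
      rw [h, torx_tp_pow hc v 36 le_rfl] at hxm
      apply hx
      rw [h]
      apply torx_tp_zero'
      intro i hi
      have h1 := R1 _ hxm i hi
      rcases mul_eq_zero.mp h1 with h2 | h2
      · exact absurd (by exact_mod_cast h2) hm.ne'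
      · exact h2
    · exfalso
      have hn : tp t v 36 * wv g S ∈ Lat lin tr H.htr 84 :=
        Subgroup.mul_mem _ (H.tp_mem v 36 le_rfl) (H.wv_mem S hS')
      obtain ⟨φ, hφ, hd⟩ := chk_spec lin tr H.htr LA15 Lt15 (![g 11, g 12] : Fin 2 → X) LA15_len
        Lt15_len H.l1 H.l2 84 p (List.all_eq_true.mp tab15_chk p hp)
      apply hd
      have h1 := H.dot_mul φ _ (p.1.map (![g 11, g 12] : Fin 2 → X)).prod hn.1
      rw [← h, hx2, dotProduct_zero] at h1
      have h3 : (84 : ℤ) ∣ φ ⬝ᵥ tr (tp t v 36 * wv g S) := by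
        unfold dotProduct
        exact Finset.dvd_sum fun i _ => Dvd.dvd.mul_left (hn.2 i) _
      have h4 : φ ⬝ᵥ tr (p.1.map (![g 11, g 12] : Fin 2 → X)).prod =
          - (φ ⬝ᵥ tr (tp t v 36 * wv g S)) := by linarith
      rw [h4]
      exact (dvd_neg).mpr h3
  · intro x
    obtain ⟨v, S, hS, hS', h⟩ := N2 x
    refine ⟨tp t v 36 * wv g S, Subgroup.mul_mem _ (H.tp_mem v 36 le_rfl) (H.wv_mem S hS'), ?_⟩
    rcases h with h | ⟨p, hp, h⟩
    · exact Or.inl h
    · exact Or.inr ⟨p, hp, h⟩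

end main

end VRC.Pk

end
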