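import Mathlib
import Pool.Agent.Work.MP_332575_al.Bd.B03
import Pool.Agent.Work.MP_332575_al.Bd.B01

/-! Bundle of small proof modules (one section per former module). -/

section

set_option autoImplicit false

/-! A group with a normal free abelian subgroup of finite index: VAN, RF, VI. -/

namespace VRC

theorem cryst_comm {X : Type} [Group X] {d : ℕ} (tau : Multiplicative (Fin d → ℤ) →* X) :
    ∀ a ∈ tau.range, ∀ b ∈ tau.range, a * b = b * a := by
  rintro _ ⟨u, rfl⟩ _ ⟨v, rfl⟩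
  rw [← map_mul, ← map_mul, mul_comm]

/-- the subgroup of vectors divisible by `m` -/
def divKer (d m : ℕ) : Subgroup (Multiplicative (Fin d → ℤ)) :=
  (AddMonoidHom.toMultiplicative
    ((Int.castAddHom (ZMod m)).compLeft (Fin d)) :
      Multiplicative (Fin d → ℤ) →* Multiplicative (Fin d → ZMod m)).ker

theorem mem_divKer {d m : ℕ} (v : Multiplicative (Fin d → ℤ)) :
    v ∈ divKer d m ↔ ∀ i, ((Multiplicative.toAdd v i : ℤ) : ZMod m) = 0 := by
  unfold divKer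
  rw [MonoidHom.mem_ker]
  constructor
  · intro h i
    have := congrArg (fun w : Multiplicative (Fin d → ZMod m) => (Multiplicative.toAdd w) i) h
    simpa using this
  · intro h
    apply Multiplicative.toAdd.injective
    funext i
    simpa using h i

theorem index_divKer (d m : ℕ) (hm : m ≠ 0) : (divKer d m).index ≠ 0 := by
  have : NeZero m := ⟨hm⟩
  have : Finite (Multiplicative (Fin d → ZMod m)) := inferInstanceAs (Finite (Fin d → ZMod m))
  unfold divKer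
  rw [Subgroup.index_ker]
  exact Nat.card_pos.ne'

theorem cryst_RF {X : Type} [Group X] {d : ℕ} (tau : Multiplicative (Fin d → ℤ) →* X)
    (hi : Function.Injective tau) (hf : tau.range.index ≠ 0) : RF X := by
  intro g hg
  by_cases hN : g ∈ tau.range
  · obtain ⟨v, rfl⟩ := hN
    have hv : v ≠ 1 := by
      rintro rfl
      exact hg (map_one tau)
    have : ∃ i, Multiplicative.toAdd v i ≠ 0 := by
      by_contra hcon
      push Not at hcon
      apply hv
      apply Multiplicative.toAdd.injective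
      funext i
      simpa using hcon i
    obtain ⟨i, hvi⟩ := this
    set m : ℕ := (Multiplicative.toAdd v i).natAbs + 1 with hm
    refine ⟨(divKer d m).map tau, ?_, ?_⟩
    · rw [Subgroup.index_map]
      refine mul_ne_zero ?_ hf
      exact ne_zero_of_dvd_ne_zero (index_divKer d m (Nat.succ_ne_zero _))
        (Subgroup.index_dvd_of_le le_sup_left)
    · rintro ⟨w, hw, hwv⟩
      have hwv' : w = v := hi hwv
      subst hwv'
      have h1 := (mem_divKer w).1 hw i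
      rw [ZMod.intCast_zmod_eq_zero_iff_dvd] at h1
      have h2 : m ∣ (Multiplicative.toAdd w i).natAbs := Int.natCast_dvd.1 h1
      have h3 := Nat.le_of_dvd (Int.natAbs_pos.2 hvi) h2
      omega
  · exact ⟨tau.range, hf, hN⟩

theorem cryst_VI {X : Type} [Group X] {d : ℕ} (tau : Multiplicative (Fin d → ℤ) →* X)
    (hi : Function.Injective tau) (hn : tau.range.Normal) (hf : tau.range.index ≠ 0) : VI X := by
  intro g hg
  set N := tau.range with hN
  have hcomm := cryst_comm tau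
  set H : Subgroup X := N ⊔ Subgroup.zpowers g with hH
  have hNH : N ≤ H := le_sup_left
  have hgH : g ∈ H := (le_sup_right : Subgroup.zpowers g ≤ H) (Subgroup.mem_zpowers g)
  refine ⟨H, hgH, ?_, ?_⟩
  · exact ne_zero_of_dvd_ne_zero hf (Subgroup.index_dvd_of_le hNH)
  · set N' : Subgroup H := N.subgroupOf H with hN'
    have hfi : N'.FiniteIndex := by
      refine ⟨?_⟩
      have : N'.index = N.relIndex H := rfl
      rw [this]
      intro h0
      have := Subgroup.relIndex_mul_index hNH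
      rw [h0, zero_mul] at this
      exact hf this.symm
    let e : Multiplicative (Fin d → ℤ) ≃* N := MonoidHom.ofInjective hi
    let ϕ : N' →* Multiplicative (Fin d → ℤ) :=
      e.symm.toMonoidHom.comp ((H.subtype.comp N'.subtype).codRestrict N (fun x => by
        exact Subgroup.mem_subgroupOf.1 x.2))
    have hϕ : ∀ x : N', tau (ϕ x) = ((x : H) : X) := by
      intro x
      have h1 : e (ϕ x) = ⟨((x : H) : X), Subgroup.mem_subgroupOf.1 x.2⟩ := by
        simp only [ϕ, MonoidHom.comp_apply, MulEquiv.coe_toMonoidHom]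
        rw [MulEquiv.apply_symm_apply]
        rfl
      have h2 : ((e (ϕ x) : N) : X) = tau (ϕ x) := rfl
      rw [← h2, h1]
    set g' : H := ⟨g, hgH⟩ with hg'
    have key : ∀ (k : ℕ) (g₀ : H), g₀⁻¹ * g' ^ k * g₀ ∈ N' → g₀⁻¹ * g' ^ k * g₀ = g' ^ k := by
      intro k g₀ h
      have h1 : (g₀ : X)⁻¹ * g ^ k * (g₀ : X) ∈ N := by
        have := Subgroup.mem_subgroupOf.1 h
        simpa [hg'] using this
      have h2 : g ^ k ∈ N := by
        have := hn.conj_mem _ h1 (g₀ : X)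
        simpa [mul_assoc] using this
      have h3 : H ≤ Subgroup.centralizer {g ^ k} := by
        rw [hH, sup_le_iff]
        constructor
        · intro a ha
          rw [Subgroup.mem_centralizer_iff]
          intro b hb
          rw [Set.mem_singleton_iff] at hb
          subst hb
          exact hcomm _ h2 _ ha
        · rw [Subgroup.zpowers_le, Subgroup.mem_centralizer_iff]
          intro b hb
          rw [Set.mem_singleton_iff] at hb
          subst hb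
          rw [← pow_succ, ← pow_succ']
      have h4 := Subgroup.mem_centralizer_iff.1 (h3 g₀.2) (g ^ k) rfl
      apply Subtype.ext
      show (g₀ : X)⁻¹ * g ^ k * (g₀ : X) = g ^ k
      rw [mul_assoc, h4, inv_mul_cancel_left]
    set T := MonoidHom.transfer ϕ with hT
    have hTg : T g' = ϕ ⟨g' ^ N'.index, MonoidHom.transfer_eq_pow_aux g' key⟩ :=
      MonoidHom.transfer_eq_pow ϕ g' key
    have hw : T g' ≠ 1 := by
      intro h1
      rw [hTg] at h1
      have h2 := hϕ ⟨g' ^ N'.index, MonoidHom.transfer_eq_pow_aux g' key⟩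
      rw [h1, map_one] at h2
      apply hg
      rw [isOfFinOrder_iff_pow_eq_one]
      refine ⟨N'.index, Nat.pos_of_ne_zero hfi.index_ne_zero, ?_⟩
      have h3 : (((g' ^ N'.index : H)) : X) = g ^ N'.index := by simp [hg']
      rw [← h3]
      exact h2.symm
    have : ∃ i, Multiplicative.toAdd (T g') i ≠ 0 := by
      by_contra hcon
      push Not at hcon
      apply hw
      apply Multiplicative.toAdd.injective
      funext i
      simpa using hcon i
    obtain ⟨i, hvi⟩ := this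
    let ev : Multiplicative (Fin d → ℤ) →* Multiplicative ℤ :=
      AddMonoidHom.toMultiplicative (Pi.evalAddMonoidHom (fun _ : Fin d => ℤ) i)
    refine ⟨ev.comp T, ?_⟩
    intro h1
    apply hvi
    have := congrArg Multiplicative.toAdd h1
    simpa [ev] using this

theorem prf_Cryst : ∀ (X : Type) [Group X] (d : ℕ) (tau : Multiplicative (Fin d → ℤ) →* X),
    Function.Injective tau → tau.range.Normal → tau.range.index ≠ 0 →
    VAN X ∧ RF X ∧ VI X := by
  intro X _ d tau hi hn hf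
  exact ⟨⟨tau.range, hn, hf, cryst_comm tau⟩, cryst_RF tau hi hf, cryst_VI tau hi hn hf⟩

end VRC

end

section

set_option autoImplicit false

/-! Split central extensions, and torsion in extensions. -/

namespace VRC

/-- If all perfect central extensions of `X` split, then they are trivial. -/
theorem prf_Split : ∀ (X : Type) [Group X],
    (∀ (E : Type) [Group E] (p : E →* X), Function.Surjective p →
      p.ker ≤ Subgroup.center E → commutator E = ⊤ → ∃ s : X →* E, ∀ x, p (s x) = x) →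
    SP X := by
  intro X _ h E _ p hp hc hE
  obtain ⟨s, hs⟩ := h E p hp hc hE
  have hz : ∀ e, (s (p e))⁻¹ * e ∈ Subgroup.center E := by
    intro e
    apply hc
    rw [MonoidHom.mem_ker, map_mul, map_inv, hs, inv_mul_cancel]
  let r : E →* Subgroup.center E :=
    { toFun := fun e => ⟨(s (p e))⁻¹ * e, hz e⟩
      map_one' := by
        apply Subtype.ext
        simp
      map_mul' := by
        intro e e'
        apply Subtype.ext
        have h1 := Subgroup.mem_center_iff.1 (hz e) (s (p e'))⁻¹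
        show (s (p (e * e')))⁻¹ * (e * e') = (s (p e))⁻¹ * e * ((s (p e'))⁻¹ * e')
        calc (s (p (e * e')))⁻¹ * (e * e') = (s (p e'))⁻¹ * ((s (p e))⁻¹ * e) * e' := by
              rw [map_mul, map_mul]; group
          _ = ((s (p e))⁻¹ * e) * (s (p e'))⁻¹ * e' := by rw [h1]
          _ = (s (p e))⁻¹ * e * ((s (p e'))⁻¹ * e') := by group }
  have hr : ∀ e, r e = 1 := by
    intro e
    have h1 : commutator E ≤ r.ker := by
      rw [commutator_eq_closure, Subgroup.closure_le]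
      rintro _ ⟨a, b, rfl⟩
      show r (a * b * a⁻¹ * b⁻¹) = 1
      have h2 : r a * r b = r b * r a :=
        Subtype.ext (Subgroup.mem_center_iff.1 (r b).2 (r a : E))
      rw [map_mul, map_mul, map_mul, map_inv, map_inv, h2, mul_inv_cancel_right, mul_inv_cancel]
    have h2 : e ∈ commutator E := by rw [hE]; trivial
    exact h1 h2
  have he : ∀ e, e = s (p e) := by
    intro e
    have h1 : (s (p e))⁻¹ * e = 1 := congrArg Subtype.val (hr e)
    rw [inv_mul_eq_one] at h1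
    exact h1.symm
  intro a b hab
  rw [he a, he b, hab]

/-- An extension of a torsion free group by a torsion free group is torsion free. -/
theorem prf_TF : ∀ (X Y : Type) [Group X] [Group Y] (ρ : X →* Y),
    (∀ g ∈ ρ.ker, g ≠ 1 → ¬ IsOfFinOrder g) → (∀ y : Y, y ≠ 1 → ¬ IsOfFinOrder y) →
    ∀ g : X, g ≠ 1 → ¬ IsOfFinOrder g := by
  intro X Y _ _ ρ h1 h2 g hg hf
  by_cases h : ρ g = 1
  · exact h1 g h hg hf
  · exact h2 (ρ g) h (ρ.isOfFinOrder hf)

end VRC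

end

section

/-! # Dual basis (times 336) of the lattice, and the translation parts of the letters -/

set_option autoImplicit false
set_option maxRecDepth 100000

namespace VRC.Cx


/-- dual basis -/
def Cl : List (List ℤ) :=
  [[Int.ofNat 0, Int.ofNat 0, Int.ofNat 0, Int.ofNat 0, Int.ofNat 0, Int.ofNat 0, Int.ofNat 0, Int.ofNat 0, Int.ofNat 0, Int.ofNat 0, Int.ofNat 2, Int.ofNat 0, Int.ofNat 0, Int.ofNat 0, Int.negSucc 1, Int.ofNat 0, Int.ofNat 0, Int.ofNat 0, Int.ofNat 0, Int.ofNat 0, Int.ofNat 0, Int.ofNat 0, Int.ofNat 4, Int.ofNat 0, Int.ofNat 0, Int.ofNat 0, Int.ofNat 0, Int.negSucc 3, Int.ofNat 0, Int.ofNat 0, Int.ofNat 0, Int.ofNat 0, Int.ofNat 0, Int.ofNat 0, Int.ofNat 4, Int.ofNat 0],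
   [Int.ofNat 0, Int.ofNat 0, Int.ofNat 0, Int.ofNat 0, Int.ofNat 0, Int.ofNat 0, Int.ofNat 0, Int.ofNat 2, Int.ofNat 2, Int.ofNat 0, Int.ofNat 0, Int.ofNat 0, Int.ofNat 2, Int.ofNat 0, Int.ofNat 0, Int.ofNat 0, Int.ofNat 0, Int.ofNat 0, Int.ofNat 0, Int.ofNat 0, Int.ofNat 0, Int.ofNat 0, Int.ofNat 0, Int.ofNat 0, Int.ofNat 0, Int.ofNat 0, Int.ofNat 4, Int.negSucc 3, Int.ofNat 0, Int.ofNat 0, Int.negSucc 3, Int.ofNat 0, Int.ofNat 0, Int.ofNat 0, Int.ofNat 4, Int.ofNat 4],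
   [Int.ofNat 0, Int.ofNat 0, Int.ofNat 0, Int.ofNat 0, Int.ofNat 0, Int.ofNat 0, Int.ofNat 0, Int.ofNat 0, Int.ofNat 0, Int.ofNat 0, Int.ofNat 2, Int.negSucc 1, Int.ofNat 0, Int.ofNat 0, Int.negSucc 1, Int.ofNat 0, Int.ofNat 0, Int.ofNat 0, Int.ofNat 0, Int.ofNat 0, Int.ofNat 0, Int.ofNat 0, Int.ofNat 0, Int.ofNat 0, Int.ofNat 0, Int.ofNat 0, Int.ofNat 0, Int.negSucc 3, Int.ofNat 4, Int.ofNat 0, Int.ofNat 0, Int.ofNat 0, Int.ofNat 0, Int.ofNat 0, Int.ofNat 4, Int.ofNat 0],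
   [Int.ofNat 0, Int.ofNat 0, Int.ofNat 0, Int.ofNat 0, Int.ofNat 0, Int.ofNat 0, Int.ofNat 0, Int.ofNat 0, Int.ofNat 0, Int.ofNat 0, Int.ofNat 0, Int.ofNat 0, Int.ofNat 0, Int.negSucc 1, Int.negSucc 1, Int.ofNat 0, Int.ofNat 0, Int.ofNat 0, Int.ofNat 0, Int.ofNat 0, Int.ofNat 0, Int.ofNat 0, Int.ofNat 0, Int.ofNat 0, Int.ofNat 0, Int.ofNat 0, Int.ofNat 0, Int.ofNat 0, Int.ofNat 0, Int.ofNat 0, Int.ofNat 0, Int.ofNat 4, Int.ofNat 0, Int.ofNat 0, Int.ofNat 0, Int.ofNat 0],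
   [Int.ofNat 0, Int.ofNat 0, Int.ofNat 0, Int.ofNat 0, Int.ofNat 0, Int.ofNat 0, Int.ofNat 0, Int.ofNat 2, Int.ofNat 2, Int.ofNat 0, Int.ofNat 0, Int.ofNat 0, Int.ofNat 0, Int.ofNat 0, Int.ofNat 2, Int.ofNat 0, Int.ofNat 0, Int.ofNat 0, Int.ofNat 0, Int.ofNat 0, Int.ofNat 0, Int.ofNat 0, Int.ofNat 0, Int.ofNat 0, Int.ofNat 0, Int.ofNat 0, Int.ofNat 0, Int.ofNat 0, Int.ofNat 0, Int.ofNat 0, Int.negSucc 3, Int.ofNat 0, Int.ofNat 4, Int.ofNat 0, Int.ofNat 0, Int.ofNat 4],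
   [Int.ofNat 0, Int.ofNat 0, Int.ofNat 0, Int.ofNat 0, Int.ofNat 0, Int.ofNat 0, Int.ofNat 0, Int.ofNat 0, Int.ofNat 0, Int.ofNat 0, Int.ofNat 0, Int.ofNat 0, Int.ofNat 0, Int.ofNat 0, Int.negSucc 1, Int.ofNat 0, Int.ofNat 0, Int.ofNat 0, Int.ofNat 0, Int.ofNat 0, Int.ofNat 0, Int.ofNat 0, Int.ofNat 0, Int.ofNat 0, Int.ofNat 0, Int.ofNat 0, Int.ofNat 0, Int.ofNat 0, Int.ofNat 0, Int.ofNat 0, Int.ofNat 0, Int.ofNat 0, Int.ofNat 0, Int.ofNat 0, Int.ofNat 4, Int.ofNat 0],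
   [Int.ofNat 0, Int.ofNat 0, Int.ofNat 0, Int.ofNat 0, Int.ofNat 0, Int.ofNat 0, Int.ofNat 0, Int.ofNat 0, Int.ofNat 0, Int.ofNat 0, Int.ofNat 0, Int.ofNat 0, Int.ofNat 0, Int.ofNat 0, Int.ofNat 0, Int.ofNat 0, Int.ofNat 0, Int.ofNat 0, Int.ofNat 0, Int.ofNat 0, Int.ofNat 0, Int.ofNat 0, Int.ofNat 0, Int.ofNat 0, Int.ofNat 0, Int.ofNat 0, Int.ofNat 0, Int.ofNat 0, Int.ofNat 0, Int.ofNat 0, Int.ofNat 0, Int.ofNat 0, Int.ofNat 0, Int.ofNat 0, Int.ofNat 0, Int.ofNat 4],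
   [Int.ofNat 0, Int.ofNat 0, Int.ofNat 0, Int.ofNat 0, Int.ofNat 0, Int.ofNat 0, Int.ofNat 0, Int.ofNat 0, Int.ofNat 0, Int.ofNat 0, Int.negSucc 1, Int.ofNat 0, Int.ofNat 0, Int.ofNat 0, Int.ofNat 2, Int.ofNat 0, Int.ofNat 0, Int.ofNat 0, Int.ofNat 0, Int.ofNat 0, Int.ofNat 0, Int.ofNat 0, Int.ofNat 0, Int.ofNat 0, Int.ofNat 0, Int.ofNat 0, Int.ofNat 0, Int.ofNat 4, Int.ofNat 0, Int.ofNat 0, Int.ofNat 0, Int.ofNat 0, Int.ofNat 0, Int.ofNat 0, Int.negSucc 3, Int.ofNat 0],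
   [Int.ofNat 0, Int.ofNat 0, Int.ofNat 0, Int.ofNat 0, Int.ofNat 0, Int.ofNat 0, Int.ofNat 0, Int.negSucc 1, Int.negSucc 1, Int.ofNat 0, Int.ofNat 0, Int.ofNat 0, Int.negSucc 1, Int.ofNat 0, Int.negSucc 1, Int.ofNat 0, Int.ofNat 0, Int.ofNat 0, Int.ofNat 0, Int.ofNat 0, Int.ofNat 0, Int.ofNat 0, Int.ofNat 0, Int.ofNat 0, Int.ofNat 0, Int.ofNat 0, Int.ofNat 0, Int.ofNat 0, Int.ofNat 0, Int.ofNat 0, Int.ofNat 4, Int.ofNat 0, Int.ofNat 0, Int.ofNat 0, Int.ofNat 0, Int.negSucc 3],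
   [Int.ofNat 0, Int.ofNat 0, Int.ofNat 0, Int.ofNat 0, Int.ofNat 0, Int.ofNat 0, Int.ofNat 0, Int.ofNat 0, Int.ofNat 0, Int.ofNat 0, Int.ofNat 0, Int.ofNat 0, Int.ofNat 0, Int.negSucc 1, Int.ofNat 0, Int.ofNat 0, Int.ofNat 0, Int.ofNat 0, Int.ofNat 0, Int.ofNat 0, Int.ofNat 0, Int.ofNat 0, Int.ofNat 0, Int.ofNat 0, Int.ofNat 0, Int.ofNat 0, Int.ofNat 0, Int.ofNat 0, Int.ofNat 0, Int.ofNat 0, Int.ofNat 0, Int.ofNat 0, Int.ofNat 0, Int.ofNat 4, Int.ofNat 0, Int.negSucc 3],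
   [Int.ofNat 0, Int.ofNat 0, Int.ofNat 0, Int.ofNat 0, Int.ofNat 0, Int.ofNat 0, Int.ofNat 0, Int.ofNat 0, Int.negSucc 0, Int.ofNat 0, Int.negSucc 0, Int.ofNat 0, Int.ofNat 0, Int.ofNat 1, Int.ofNat 1, Int.ofNat 2, Int.ofNat 0, Int.ofNat 0, Int.ofNat 0, Int.ofNat 0, Int.ofNat 0, Int.ofNat 0, Int.negSucc 1, Int.ofNat 0, Int.ofNat 0, Int.ofNat 0, Int.ofNat 0, Int.ofNat 2, Int.ofNat 0, Int.ofNat 0, Int.ofNat 0, Int.ofNat 0, Int.ofNat 0, Int.negSucc 1, Int.negSucc 1, Int.ofNat 2],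
   [Int.ofNat 0, Int.ofNat 0, Int.ofNat 0, Int.ofNat 0, Int.ofNat 0, Int.ofNat 0, Int.ofNat 0, Int.ofNat 0, Int.ofNat 1, Int.ofNat 0, Int.negSucc 0, Int.ofNat 0, Int.ofNat 1, Int.ofNat 0, Int.ofNat 2, Int.ofNat 0, Int.ofNat 2, Int.ofNat 0, Int.ofNat 0, Int.ofNat 0, Int.ofNat 0, Int.ofNat 0, Int.negSucc 1, Int.ofNat 0, Int.ofNat 0, Int.ofNat 0, Int.ofNat 0, Int.ofNat 2, Int.ofNat 0, Int.ofNat 0, Int.negSucc 1, Int.ofNat 0, Int.ofNat 0, Int.ofNat 0, Int.negSucc 1, Int.ofNat 2],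
   [Int.ofNat 0, Int.ofNat 0, Int.ofNat 0, Int.ofNat 0, Int.ofNat 0, Int.ofNat 0, Int.ofNat 0, Int.negSucc 0, Int.negSucc 0, Int.negSucc 0, Int.ofNat 0, Int.ofNat 0, Int.negSucc 0, Int.ofNat 1, Int.ofNat 0, Int.ofNat 0, Int.ofNat 0, Int.ofNat 2, Int.ofNat 0, Int.ofNat 0, Int.ofNat 0, Int.ofNat 0, Int.ofNat 0, Int.ofNat 0, Int.ofNat 0, Int.ofNat 0, Int.negSucc 1, Int.ofNat 2, Int.ofNat 0, Int.ofNat 0, Int.ofNat 2, Int.ofNat 0, Int.ofNat 0, Int.negSucc 1, Int.negSucc 1, Int.ofNat 0],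
   [Int.ofNat 0, Int.ofNat 0, Int.ofNat 0, Int.ofNat 0, Int.ofNat 0, Int.ofNat 0, Int.ofNat 0, Int.ofNat 0, Int.ofNat 0, Int.negSucc 0, Int.negSucc 0, Int.ofNat 1, Int.ofNat 0, Int.negSucc 0, Int.ofNat 1, Int.ofNat 0, Int.ofNat 0, Int.ofNat 0, Int.ofNat 2, Int.ofNat 0, Int.ofNat 0, Int.ofNat 0, Int.ofNat 0, Int.ofNat 0, Int.ofNat 0, Int.ofNat 0, Int.ofNat 0, Int.ofNat 2, Int.negSucc 1, Int.ofNat 0, Int.ofNat 0, Int.ofNat 0, Int.ofNat 0, Int.ofNat 0, Int.negSucc 1, Int.ofNat 0],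
   [Int.ofNat 0, Int.ofNat 0, Int.ofNat 0, Int.ofNat 0, Int.ofNat 0, Int.ofNat 0, Int.ofNat 0, Int.negSucc 0, Int.negSucc 0, Int.ofNat 0, Int.ofNat 0, Int.ofNat 0, Int.negSucc 0, Int.ofNat 0, Int.ofNat 0, Int.ofNat 0, Int.ofNat 0, Int.ofNat 0, Int.ofNat 0, Int.ofNat 2, Int.ofNat 0, Int.ofNat 0, Int.ofNat 0, Int.ofNat 0, Int.ofNat 0, Int.ofNat 0, Int.negSucc 1, Int.ofNat 2, Int.ofNat 0, Int.ofNat 0, Int.ofNat 2, Int.ofNat 0, Int.ofNat 0, Int.ofNat 0, Int.negSucc 1, Int.negSucc 1],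
   [Int.ofNat 0, Int.ofNat 0, Int.ofNat 0, Int.ofNat 0, Int.ofNat 0, Int.ofNat 0, Int.ofNat 0, Int.ofNat 0, Int.ofNat 0, Int.ofNat 0, Int.negSucc 0, Int.ofNat 1, Int.ofNat 0, Int.ofNat 1, Int.ofNat 1, Int.ofNat 0, Int.ofNat 0, Int.ofNat 0, Int.ofNat 0, Int.ofNat 0, Int.ofNat 2, Int.ofNat 0, Int.ofNat 0, Int.ofNat 0, Int.ofNat 0, Int.ofNat 0, Int.ofNat 0, Int.ofNat 2, Int.negSucc 1, Int.ofNat 0, Int.ofNat 0, Int.ofNat 0, Int.ofNat 0, Int.negSucc 1, Int.negSucc 1, Int.ofNat 2],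
   [Int.ofNat 0, Int.ofNat 0, Int.ofNat 0, Int.ofNat 0, Int.ofNat 0, Int.ofNat 0, Int.ofNat 0, Int.negSucc 0, Int.negSucc 1, Int.ofNat 0, Int.ofNat 0, Int.ofNat 0, Int.ofNat 0, Int.ofNat 0, Int.negSucc 0, Int.ofNat 0, Int.ofNat 0, Int.ofNat 0, Int.ofNat 0, Int.ofNat 0, Int.ofNat 0, Int.ofNat 2, Int.ofNat 0, Int.ofNat 0, Int.ofNat 0, Int.ofNat 0, Int.ofNat 0, Int.ofNat 0, Int.ofNat 0, Int.ofNat 0, Int.ofNat 2, Int.ofNat 0, Int.negSucc 1, Int.ofNat 0, Int.ofNat 0, Int.negSucc 1],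
   [Int.ofNat 0, Int.ofNat 0, Int.ofNat 0, Int.ofNat 0, Int.ofNat 0, Int.ofNat 0, Int.ofNat 0, Int.ofNat 0, Int.ofNat 1, Int.ofNat 0, Int.ofNat 0, Int.ofNat 0, Int.ofNat 1, Int.ofNat 0, Int.ofNat 2, Int.ofNat 0, Int.ofNat 0, Int.ofNat 0, Int.ofNat 0, Int.ofNat 0, Int.ofNat 0, Int.ofNat 0, Int.ofNat 0, Int.ofNat 2, Int.ofNat 0, Int.ofNat 0, Int.ofNat 0, Int.ofNat 0, Int.ofNat 0, Int.ofNat 0, Int.negSucc 1, Int.ofNat 0, Int.ofNat 0, Int.ofNat 0, Int.negSucc 1, Int.ofNat 2],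
   [Int.ofNat 0, Int.ofNat 0, Int.ofNat 0, Int.ofNat 0, Int.ofNat 0, Int.ofNat 0, Int.ofNat 0, Int.negSucc 0, Int.negSucc 0, Int.ofNat 0, Int.ofNat 1, Int.negSucc 0, Int.ofNat 0, Int.ofNat 1, Int.negSucc 1, Int.ofNat 0, Int.ofNat 0, Int.ofNat 0, Int.ofNat 0, Int.ofNat 0, Int.ofNat 0, Int.ofNat 0, Int.ofNat 0, Int.ofNat 0, Int.ofNat 2, Int.ofNat 0, Int.ofNat 0, Int.negSucc 1, Int.ofNat 0, Int.ofNat 0, Int.ofNat 2, Int.ofNat 0, Int.negSucc 1, Int.negSucc 1, Int.ofNat 2, Int.ofNat 0],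
   [Int.ofNat 0, Int.ofNat 0, Int.ofNat 0, Int.ofNat 0, Int.ofNat 0, Int.ofNat 0, Int.ofNat 0, Int.ofNat 0, Int.ofNat 0, Int.negSucc 0, Int.ofNat 0, Int.negSucc 0, Int.ofNat 0, Int.ofNat 1, Int.ofNat 0, Int.ofNat 0, Int.ofNat 0, Int.ofNat 0, Int.ofNat 0, Int.ofNat 0, Int.ofNat 0, Int.ofNat 0, Int.ofNat 0, Int.ofNat 0, Int.ofNat 0, Int.ofNat 2, Int.ofNat 0, Int.negSucc 1, Int.ofNat 0, Int.ofNat 0, Int.ofNat 0, Int.negSucc 1, Int.ofNat 0, Int.ofNat 0, Int.ofNat 2, Int.ofNat 0],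
   [Int.ofNat 0, Int.ofNat 0, Int.ofNat 0, Int.ofNat 0, Int.ofNat 0, Int.ofNat 0, Int.ofNat 0, Int.ofNat 1, Int.ofNat 1, Int.ofNat 0, Int.ofNat 0, Int.ofNat 0, Int.ofNat 0, Int.ofNat 2, Int.ofNat 2, Int.ofNat 0, Int.ofNat 0, Int.ofNat 0, Int.ofNat 0, Int.ofNat 0, Int.ofNat 0, Int.ofNat 0, Int.ofNat 0, Int.ofNat 0, Int.ofNat 0, Int.ofNat 0, Int.ofNat 0, Int.ofNat 0, Int.ofNat 0, Int.ofNat 2, Int.negSucc 1, Int.negSucc 1, Int.ofNat 0, Int.negSucc 1, Int.ofNat 0, Int.ofNat 4],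
   [Int.ofNat 0, Int.ofNat 0, Int.ofNat 0, Int.ofNat 4, Int.ofNat 0, Int.ofNat 0, Int.ofNat 0, Int.ofNat 0, Int.ofNat 0, Int.ofNat 0, Int.ofNat 0, Int.ofNat 0, Int.ofNat 0, Int.ofNat 0, Int.ofNat 0, Int.ofNat 0, Int.ofNat 0, Int.ofNat 0, Int.ofNat 0, Int.ofNat 0, Int.ofNat 0, Int.ofNat 0, Int.ofNat 0, Int.ofNat 0, Int.ofNat 0, Int.ofNat 0, Int.ofNat 0, Int.ofNat 0, Int.ofNat 0, Int.ofNat 0, Int.ofNat 0, Int.ofNat 0, Int.ofNat 0, Int.ofNat 0, Int.ofNat 0, Int.ofNat 0],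
   [Int.ofNat 0, Int.ofNat 0, Int.ofNat 0, Int.ofNat 0, Int.ofNat 4, Int.ofNat 0, Int.ofNat 0, Int.ofNat 0, Int.ofNat 0, Int.ofNat 0, Int.ofNat 0, Int.ofNat 0, Int.ofNat 0, Int.ofNat 0, Int.ofNat 0, Int.ofNat 0, Int.ofNat 0, Int.ofNat 0, Int.ofNat 0, Int.ofNat 0, Int.ofNat 0, Int.ofNat 0, Int.ofNat 0, Int.ofNat 0, Int.ofNat 0, Int.ofNat 0, Int.ofNat 0, Int.ofNat 0, Int.ofNat 0, Int.ofNat 0, Int.ofNat 0, Int.ofNat 0, Int.ofNat 0, Int.ofNat 0, Int.ofNat 0, Int.ofNat 0],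
   [Int.ofNat 0, Int.ofNat 0, Int.ofNat 0, Int.ofNat 0, Int.ofNat 0, Int.ofNat 4, Int.ofNat 0, Int.ofNat 0, Int.ofNat 0, Int.ofNat 0, Int.ofNat 0, Int.ofNat 0, Int.ofNat 0, Int.ofNat 0, Int.ofNat 0, Int.ofNat 0, Int.ofNat 0, Int.ofNat 0, Int.ofNat 0, Int.ofNat 0, Int.ofNat 0, Int.ofNat 0, Int.ofNat 0, Int.ofNat 0, Int.ofNat 0, Int.ofNat 0, Int.ofNat 0, Int.ofNat 0, Int.ofNat 0, Int.ofNat 0, Int.ofNat 0, Int.ofNat 0, Int.ofNat 0, Int.ofNat 0, Int.ofNat 0, Int.ofNat 0],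
   [Int.ofNat 0, Int.ofNat 0, Int.ofNat 0, Int.ofNat 0, Int.ofNat 0, Int.ofNat 0, Int.ofNat 4, Int.ofNat 0, Int.ofNat 0, Int.ofNat 0, Int.ofNat 0, Int.ofNat 0, Int.ofNat 0, Int.ofNat 0, Int.ofNat 0, Int.ofNat 0, Int.ofNat 0, Int.ofNat 0, Int.ofNat 0, Int.ofNat 0, Int.ofNat 0, Int.ofNat 0, Int.ofNat 0, Int.ofNat 0, Int.ofNat 0, Int.ofNat 0, Int.ofNat 0, Int.ofNat 0, Int.ofNat 0, Int.ofNat 0, Int.ofNat 0, Int.ofNat 0, Int.ofNat 0, Int.ofNat 0, Int.ofNat 0, Int.ofNat 0],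
   [Int.ofNat 2, Int.ofNat 0, Int.ofNat 0, Int.ofNat 0, Int.ofNat 0, Int.negSucc 1, Int.negSucc 1, Int.ofNat 0, Int.ofNat 0, Int.ofNat 0, Int.ofNat 0, Int.ofNat 0, Int.ofNat 0, Int.ofNat 0, Int.ofNat 0, Int.ofNat 0, Int.ofNat 0, Int.ofNat 0, Int.ofNat 0, Int.ofNat 0, Int.ofNat 0, Int.ofNat 0, Int.ofNat 0, Int.ofNat 0, Int.ofNat 0, Int.ofNat 0, Int.ofNat 0, Int.ofNat 0, Int.ofNat 0, Int.ofNat 0, Int.ofNat 0, Int.ofNat 0, Int.ofNat 0, Int.ofNat 0, Int.ofNat 0, Int.ofNat 0],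
   [Int.ofNat 0, Int.ofNat 2, Int.ofNat 0, Int.ofNat 0, Int.ofNat 0, Int.negSucc 1, Int.negSucc 1, Int.ofNat 0, Int.ofNat 0, Int.ofNat 0, Int.ofNat 0, Int.ofNat 0, Int.ofNat 0, Int.ofNat 0, Int.ofNat 0, Int.ofNat 0, Int.ofNat 0, Int.ofNat 0, Int.ofNat 0, Int.ofNat 0, Int.ofNat 0, Int.ofNat 0, Int.ofNat 0, Int.ofNat 0, Int.ofNat 0, Int.ofNat 0, Int.ofNat 0, Int.ofNat 0, Int.ofNat 0, Int.ofNat 0, Int.ofNat 0, Int.ofNat 0, Int.ofNat 0, Int.ofNat 0, Int.ofNat 0, Int.ofNat 0],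
   [Int.ofNat 0, Int.ofNat 0, Int.ofNat 2, Int.negSucc 1, Int.negSucc 1, Int.ofNat 0, Int.ofNat 0, Int.ofNat 0, Int.ofNat 0, Int.ofNat 0, Int.ofNat 0, Int.ofNat 0, Int.ofNat 0, Int.ofNat 0, Int.ofNat 0, Int.ofNat 0, Int.ofNat 0, Int.ofNat 0, Int.ofNat 0, Int.ofNat 0, Int.ofNat 0, Int.ofNat 0, Int.ofNat 0, Int.ofNat 0, Int.ofNat 0, Int.ofNat 0, Int.ofNat 0, Int.ofNat 0, Int.ofNat 0, Int.ofNat 0, Int.ofNat 0, Int.ofNat 0, Int.ofNat 0, Int.ofNat 0, Int.ofNat 0, Int.ofNat 0],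
   [Int.ofNat 0, Int.ofNat 0, Int.ofNat 0, Int.ofNat 0, Int.ofNat 0, Int.ofNat 0, Int.ofNat 0, Int.ofNat 2, Int.ofNat 0, Int.ofNat 0, Int.ofNat 0, Int.ofNat 0, Int.ofNat 0, Int.ofNat 0, Int.ofNat 0, Int.ofNat 0, Int.ofNat 0, Int.ofNat 0, Int.ofNat 0, Int.ofNat 0, Int.ofNat 0, Int.ofNat 0, Int.ofNat 0, Int.ofNat 0, Int.ofNat 0, Int.ofNat 0, Int.ofNat 0, Int.ofNat 0, Int.ofNat 0, Int.ofNat 0, Int.ofNat 0, Int.ofNat 0, Int.ofNat 0, Int.ofNat 0, Int.ofNat 0, Int.ofNat 0],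
   [Int.ofNat 0, Int.ofNat 0, Int.ofNat 0, Int.ofNat 0, Int.ofNat 0, Int.ofNat 0, Int.ofNat 0, Int.ofNat 0, Int.ofNat 2, Int.ofNat 0, Int.ofNat 0, Int.ofNat 0, Int.ofNat 0, Int.ofNat 0, Int.ofNat 0, Int.ofNat 0, Int.ofNat 0, Int.ofNat 0, Int.ofNat 0, Int.ofNat 0, Int.ofNat 0, Int.ofNat 0, Int.ofNat 0, Int.ofNat 0, Int.ofNat 0, Int.ofNat 0, Int.ofNat 0, Int.ofNat 0, Int.ofNat 0, Int.ofNat 0, Int.ofNat 0, Int.ofNat 0, Int.ofNat 0, Int.ofNat 0, Int.ofNat 0, Int.ofNat 0],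
   [Int.ofNat 0, Int.ofNat 0, Int.ofNat 0, Int.ofNat 0, Int.ofNat 0, Int.ofNat 0, Int.ofNat 0, Int.ofNat 0, Int.ofNat 0, Int.ofNat 2, Int.ofNat 0, Int.ofNat 0, Int.ofNat 0, Int.ofNat 0, Int.ofNat 0, Int.ofNat 0, Int.ofNat 0, Int.ofNat 0, Int.ofNat 0, Int.ofNat 0, Int.ofNat 0, Int.ofNat 0, Int.ofNat 0, Int.ofNat 0, Int.ofNat 0, Int.ofNat 0, Int.ofNat 0, Int.ofNat 0, Int.ofNat 0, Int.ofNat 0, Int.ofNat 0, Int.ofNat 0, Int.ofNat 0, Int.ofNat 0, Int.ofNat 0, Int.ofNat 0],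
   [Int.ofNat 0, Int.ofNat 0, Int.ofNat 0, Int.ofNat 0, Int.ofNat 0, Int.ofNat 0, Int.ofNat 0, Int.ofNat 0, Int.ofNat 0, Int.ofNat 0, Int.ofNat 2, Int.ofNat 0, Int.ofNat 0, Int.ofNat 0, Int.ofNat 0, Int.ofNat 0, Int.ofNat 0, Int.ofNat 0, Int.ofNat 0, Int.ofNat 0, Int.ofNat 0, Int.ofNat 0, Int.ofNat 0, Int.ofNat 0, Int.ofNat 0, Int.ofNat 0, Int.ofNat 0, Int.ofNat 0, Int.ofNat 0, Int.ofNat 0, Int.ofNat 0, Int.ofNat 0, Int.ofNat 0, Int.ofNat 0, Int.ofNat 0, Int.ofNat 0],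
   [Int.ofNat 0, Int.ofNat 0, Int.ofNat 0, Int.ofNat 0, Int.ofNat 0, Int.ofNat 0, Int.ofNat 0, Int.ofNat 0, Int.ofNat 0, Int.ofNat 0, Int.ofNat 0, Int.ofNat 2, Int.ofNat 0, Int.ofNat 0, Int.ofNat 0, Int.ofNat 0, Int.ofNat 0, Int.ofNat 0, Int.ofNat 0, Int.ofNat 0, Int.ofNat 0, Int.ofNat 0, Int.ofNat 0, Int.ofNat 0, Int.ofNat 0, Int.ofNat 0, Int.ofNat 0, Int.ofNat 0, Int.ofNat 0, Int.ofNat 0, Int.ofNat 0, Int.ofNat 0, Int.ofNat 0, Int.ofNat 0, Int.ofNat 0, Int.ofNat 0],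
   [Int.ofNat 0, Int.ofNat 0, Int.ofNat 0, Int.ofNat 0, Int.ofNat 0, Int.ofNat 0, Int.ofNat 0, Int.ofNat 0, Int.ofNat 0, Int.ofNat 0, Int.ofNat 0, Int.ofNat 0, Int.ofNat 2, Int.ofNat 0, Int.ofNat 0, Int.ofNat 0, Int.ofNat 0, Int.ofNat 0, Int.ofNat 0, Int.ofNat 0, Int.ofNat 0, Int.ofNat 0, Int.ofNat 0, Int.ofNat 0, Int.ofNat 0, Int.ofNat 0, Int.ofNat 0, Int.ofNat 0, Int.ofNat 0, Int.ofNat 0, Int.ofNat 0, Int.ofNat 0, Int.ofNat 0, Int.ofNat 0, Int.ofNat 0, Int.ofNat 0],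
   [Int.ofNat 0, Int.ofNat 0, Int.ofNat 0, Int.ofNat 0, Int.ofNat 0, Int.ofNat 0, Int.ofNat 0, Int.ofNat 0, Int.ofNat 0, Int.ofNat 0, Int.ofNat 0, Int.ofNat 0, Int.ofNat 0, Int.ofNat 2, Int.ofNat 0, Int.ofNat 0, Int.ofNat 0, Int.ofNat 0, Int.ofNat 0, Int.ofNat 0, Int.ofNat 0, Int.ofNat 0, Int.ofNat 0, Int.ofNat 0, Int.ofNat 0, Int.ofNat 0, Int.ofNat 0, Int.ofNat 0, Int.ofNat 0, Int.ofNat 0, Int.ofNat 0, Int.ofNat 0, Int.ofNat 0, Int.ofNat 0, Int.ofNat 0, Int.ofNat 0],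
   [Int.ofNat 0, Int.ofNat 0, Int.ofNat 0, Int.ofNat 0, Int.ofNat 0, Int.ofNat 0, Int.ofNat 0, Int.ofNat 0, Int.ofNat 0, Int.ofNat 0, Int.ofNat 0, Int.ofNat 0, Int.ofNat 0, Int.ofNat 0, Int.ofNat 2, Int.ofNat 0, Int.ofNat 0, Int.ofNat 0, Int.ofNat 0, Int.ofNat 0, Int.ofNat 0, Int.ofNat 0, Int.ofNat 0, Int.ofNat 0, Int.ofNat 0, Int.ofNat 0, Int.ofNat 0, Int.ofNat 0, Int.ofNat 0, Int.ofNat 0, Int.ofNat 0, Int.ofNat 0, Int.ofNat 0, Int.ofNat 0, Int.ofNat 0, Int.ofNat 0]]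

/-- translation parts (dimension 15) of the letters -/
def T15 : List (List ℤ) :=
  [[Int.negSucc 83, Int.ofNat 0, Int.ofNat 0, Int.ofNat 0, Int.ofNat 0, Int.ofNat 0, Int.ofNat 0, Int.ofNat 0, Int.ofNat 0, Int.ofNat 0, Int.ofNat 0, Int.ofNat 0, Int.ofNat 0, Int.ofNat 0, Int.ofNat 0],
   [Int.ofNat 0, Int.negSucc 83, Int.ofNat 0, Int.ofNat 0, Int.ofNat 0, Int.ofNat 0, Int.ofNat 0, Int.ofNat 0, Int.ofNat 0, Int.ofNat 0, Int.ofNat 0, Int.ofNat 0, Int.ofNat 0, Int.ofNat 0, Int.ofNat 0],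
   [Int.ofNat 0, Int.ofNat 0, Int.negSucc 83, Int.ofNat 0, Int.ofNat 0, Int.ofNat 0, Int.ofNat 0, Int.ofNat 0, Int.ofNat 0, Int.ofNat 0, Int.ofNat 0, Int.ofNat 0, Int.ofNat 0, Int.ofNat 0, Int.ofNat 0],
   [Int.ofNat 0, Int.ofNat 0, Int.ofNat 0, Int.ofNat 0, Int.ofNat 0, Int.ofNat 0, Int.ofNat 0, Int.negSucc 83, Int.ofNat 0, Int.ofNat 0, Int.ofNat 0, Int.ofNat 0, Int.ofNat 0, Int.ofNat 0, Int.ofNat 0],
   [Int.ofNat 0, Int.ofNat 0, Int.ofNat 0, Int.ofNat 0, Int.ofNat 0, Int.ofNat 0, Int.ofNat 0, Int.ofNat 0, Int.negSucc 83, Int.ofNat 0, Int.ofNat 0, Int.ofNat 0, Int.ofNat 0, Int.ofNat 0, Int.ofNat 0],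
   [Int.ofNat 0, Int.ofNat 0, Int.ofNat 0, Int.ofNat 0, Int.ofNat 0, Int.ofNat 0, Int.ofNat 0, Int.ofNat 0, Int.ofNat 0, Int.negSucc 83, Int.ofNat 0, Int.ofNat 0, Int.ofNat 0, Int.ofNat 0, Int.ofNat 0],
   [Int.ofNat 0, Int.ofNat 0, Int.ofNat 0, Int.ofNat 0, Int.ofNat 0, Int.ofNat 0, Int.ofNat 0, Int.ofNat 0, Int.ofNat 0, Int.ofNat 0, Int.negSucc 83, Int.ofNat 0, Int.ofNat 0, Int.ofNat 0, Int.ofNat 0],
   [Int.ofNat 0, Int.ofNat 0, Int.ofNat 0, Int.ofNat 0, Int.ofNat 0, Int.ofNat 0, Int.ofNat 0, Int.ofNat 0, Int.ofNat 0, Int.ofNat 0, Int.ofNat 0, Int.negSucc 83, Int.ofNat 0, Int.ofNat 0, Int.ofNat 0],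
   [Int.ofNat 0, Int.ofNat 0, Int.ofNat 0, Int.ofNat 0, Int.ofNat 0, Int.ofNat 0, Int.ofNat 0, Int.ofNat 0, Int.ofNat 0, Int.ofNat 0, Int.ofNat 0, Int.ofNat 0, Int.negSucc 83, Int.ofNat 0, Int.ofNat 0],
   [Int.ofNat 0, Int.ofNat 0, Int.ofNat 0, Int.ofNat 0, Int.ofNat 0, Int.ofNat 0, Int.ofNat 0, Int.ofNat 0, Int.ofNat 0, Int.ofNat 0, Int.ofNat 0, Int.ofNat 0, Int.ofNat 0, Int.negSucc 83, Int.ofNat 0],
   [Int.ofNat 0, Int.ofNat 0, Int.ofNat 0, Int.ofNat 0, Int.ofNat 0, Int.ofNat 0, Int.ofNat 0, Int.ofNat 0, Int.ofNat 0, Int.ofNat 0, Int.ofNat 0, Int.ofNat 0, Int.ofNat 0, Int.ofNat 0, Int.negSucc 83],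
   [Int.ofNat 42, Int.negSucc 41, Int.negSucc 69, Int.negSucc 27, Int.negSucc 13, Int.ofNat 14, Int.negSucc 41, Int.negSucc 35, Int.ofNat 36, Int.negSucc 59, Int.ofNat 48, Int.negSucc 47, Int.ofNat 24, Int.ofNat 0, Int.negSucc 23],
   [Int.ofNat 28, Int.negSucc 13, Int.negSucc 13, Int.negSucc 41, Int.negSucc 27, Int.negSucc 27, Int.ofNat 28, Int.negSucc 23, Int.negSucc 23, Int.ofNat 48, Int.ofNat 24, Int.ofNat 72, Int.negSucc 83, Int.negSucc 11, Int.ofNat 0]]

/-- linear part (dimension 15) of the letter 11 = a -/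
def A11 : List (List ℤ) :=
  [[Int.ofNat 0, Int.ofNat 1, Int.ofNat 0, Int.ofNat 0, Int.ofNat 0, Int.ofNat 0, Int.ofNat 0, Int.ofNat 0, Int.ofNat 0, Int.ofNat 0, Int.ofNat 0, Int.ofNat 0, Int.ofNat 0, Int.ofNat 0, Int.ofNat 0],
   [Int.ofNat 1, Int.ofNat 0, Int.ofNat 0, Int.ofNat 0, Int.ofNat 0, Int.ofNat 0, Int.ofNat 0, Int.ofNat 0, Int.ofNat 0, Int.ofNat 0, Int.ofNat 0, Int.ofNat 0, Int.ofNat 0, Int.ofNat 0, Int.ofNat 0],
   [Int.ofNat 0, Int.ofNat 0, Int.ofNat 0, Int.ofNat 0, Int.ofNat 1, Int.ofNat 0, Int.ofNat 0, Int.ofNat 0, Int.ofNat 0, Int.ofNat 0, Int.ofNat 0, Int.ofNat 0, Int.ofNat 0, Int.ofNat 0, Int.ofNat 0],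
   [Int.ofNat 0, Int.ofNat 0, Int.ofNat 0, Int.negSucc 0, Int.ofNat 0, Int.ofNat 0, Int.ofNat 0, Int.ofNat 0, Int.ofNat 0, Int.ofNat 0, Int.ofNat 0, Int.ofNat 0, Int.ofNat 0, Int.ofNat 0, Int.ofNat 0],
   [Int.ofNat 0, Int.ofNat 0, Int.ofNat 1, Int.ofNat 0, Int.ofNat 0, Int.ofNat 0, Int.ofNat 0, Int.ofNat 0, Int.ofNat 0, Int.ofNat 0, Int.ofNat 0, Int.ofNat 0, Int.ofNat 0, Int.ofNat 0, Int.ofNat 0],
   [Int.ofNat 0, Int.ofNat 0, Int.ofNat 0, Int.ofNat 0, Int.ofNat 0, Int.negSucc 0, Int.ofNat 0, Int.ofNat 0, Int.ofNat 0, Int.ofNat 0, Int.ofNat 0, Int.ofNat 0, Int.ofNat 0, Int.ofNat 0, Int.ofNat 0],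
   [Int.ofNat 0, Int.ofNat 0, Int.ofNat 0, Int.ofNat 0, Int.ofNat 0, Int.ofNat 0, Int.ofNat 1, Int.ofNat 0, Int.ofNat 0, Int.ofNat 0, Int.ofNat 0, Int.ofNat 0, Int.ofNat 0, Int.ofNat 0, Int.ofNat 0],
   [Int.ofNat 0, Int.ofNat 0, Int.ofNat 0, Int.ofNat 0, Int.ofNat 0, Int.ofNat 0, Int.ofNat 0, Int.ofNat 0, Int.ofNat 1, Int.ofNat 0, Int.ofNat 0, Int.ofNat 0, Int.ofNat 0, Int.ofNat 0, Int.ofNat 0],
   [Int.ofNat 0, Int.ofNat 0, Int.ofNat 0, Int.ofNat 0, Int.ofNat 0, Int.ofNat 0, Int.ofNat 0, Int.ofNat 1, Int.ofNat 0, Int.ofNat 0, Int.ofNat 0, Int.ofNat 0, Int.ofNat 0, Int.ofNat 0, Int.ofNat 0],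
   [Int.ofNat 0, Int.ofNat 0, Int.ofNat 0, Int.ofNat 0, Int.ofNat 0, Int.ofNat 0, Int.ofNat 0, Int.ofNat 0, Int.ofNat 0, Int.negSucc 0, Int.ofNat 0, Int.ofNat 0, Int.ofNat 0, Int.negSucc 0, Int.ofNat 0],
   [Int.ofNat 0, Int.ofNat 0, Int.ofNat 0, Int.ofNat 0, Int.ofNat 0, Int.ofNat 0, Int.ofNat 0, Int.ofNat 0, Int.ofNat 0, Int.ofNat 0, Int.ofNat 0, Int.ofNat 1, Int.ofNat 0, Int.ofNat 0, Int.ofNat 0],
   [Int.ofNat 0, Int.ofNat 0, Int.ofNat 0, Int.ofNat 0, Int.ofNat 0, Int.ofNat 0, Int.ofNat 0, Int.ofNat 0, Int.ofNat 0, Int.ofNat 0, Int.ofNat 1, Int.ofNat 0, Int.ofNat 0, Int.ofNat 0, Int.ofNat 0],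
   [Int.ofNat 0, Int.ofNat 0, Int.ofNat 0, Int.ofNat 0, Int.ofNat 0, Int.ofNat 0, Int.ofNat 0, Int.ofNat 0, Int.ofNat 0, Int.ofNat 0, Int.ofNat 0, Int.ofNat 0, Int.ofNat 0, Int.ofNat 0, Int.ofNat 1],
   [Int.ofNat 0, Int.ofNat 0, Int.ofNat 0, Int.ofNat 0, Int.ofNat 0, Int.ofNat 0, Int.ofNat 0, Int.ofNat 0, Int.ofNat 0, Int.ofNat 0, Int.ofNat 0, Int.ofNat 0, Int.ofNat 0, Int.ofNat 1, Int.ofNat 0],
   [Int.ofNat 0, Int.ofNat 0, Int.ofNat 0, Int.ofNat 0, Int.ofNat 0, Int.ofNat 0, Int.ofNat 0, Int.ofNat 0, Int.ofNat 0, Int.ofNat 0, Int.ofNat 0, Int.ofNat 0, Int.ofNat 1, Int.ofNat 0, Int.ofNat 0]]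

/-- linear part (dimension 15) of the letter 12 = b -/
def A12 : List (List ℤ) :=
  [[Int.ofNat 0, Int.ofNat 0, Int.ofNat 0, Int.ofNat 0, Int.ofNat 0, Int.ofNat 0, Int.negSucc 0, Int.ofNat 0, Int.ofNat 0, Int.ofNat 0, Int.ofNat 0, Int.ofNat 0, Int.ofNat 0, Int.ofNat 0, Int.ofNat 0],
   [Int.ofNat 0, Int.ofNat 1, Int.ofNat 0, Int.ofNat 0, Int.ofNat 0, Int.ofNat 1, Int.ofNat 0, Int.ofNat 0, Int.ofNat 0, Int.ofNat 0, Int.ofNat 0, Int.ofNat 0, Int.ofNat 0, Int.ofNat 0, Int.ofNat 0],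
   [Int.negSucc 0, Int.ofNat 0, Int.ofNat 0, Int.ofNat 0, Int.ofNat 0, Int.ofNat 0, Int.ofNat 1, Int.ofNat 0, Int.ofNat 0, Int.ofNat 0, Int.ofNat 0, Int.ofNat 0, Int.ofNat 0, Int.ofNat 0, Int.ofNat 0],
   [Int.ofNat 0, Int.ofNat 0, Int.ofNat 0, Int.negSucc 0, Int.ofNat 0, Int.negSucc 0, Int.ofNat 0, Int.ofNat 0, Int.ofNat 0, Int.ofNat 0, Int.ofNat 0, Int.ofNat 0, Int.ofNat 0, Int.ofNat 0, Int.ofNat 0],
   [Int.ofNat 0, Int.ofNat 0, Int.ofNat 0, Int.ofNat 1, Int.ofNat 0, Int.ofNat 0, Int.ofNat 0, Int.ofNat 0, Int.ofNat 0, Int.ofNat 0, Int.ofNat 0, Int.ofNat 0, Int.ofNat 0, Int.ofNat 0, Int.ofNat 0],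
   [Int.ofNat 0, Int.ofNat 0, Int.ofNat 0, Int.ofNat 1, Int.ofNat 1, Int.ofNat 0, Int.ofNat 0, Int.ofNat 0, Int.ofNat 0, Int.ofNat 0, Int.ofNat 0, Int.ofNat 0, Int.ofNat 0, Int.ofNat 0, Int.ofNat 0],
   [Int.ofNat 0, Int.ofNat 0, Int.negSucc 0, Int.ofNat 0, Int.ofNat 0, Int.ofNat 0, Int.negSucc 0, Int.ofNat 0, Int.ofNat 0, Int.ofNat 0, Int.ofNat 0, Int.ofNat 0, Int.ofNat 0, Int.ofNat 0, Int.ofNat 0],
   [Int.ofNat 0, Int.ofNat 0, Int.ofNat 0, Int.ofNat 0, Int.ofNat 0, Int.ofNat 0, Int.ofNat 0, Int.ofNat 0, Int.ofNat 0, Int.ofNat 0, Int.ofNat 1, Int.ofNat 0, Int.ofNat 0, Int.ofNat 0, Int.ofNat 0],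
   [Int.ofNat 0, Int.ofNat 0, Int.ofNat 0, Int.ofNat 0, Int.ofNat 0, Int.ofNat 0, Int.ofNat 0, Int.ofNat 0, Int.ofNat 0, Int.negSucc 0, Int.ofNat 0, Int.ofNat 0, Int.ofNat 0, Int.ofNat 0, Int.ofNat 0],
   [Int.ofNat 0, Int.ofNat 0, Int.ofNat 0, Int.ofNat 0, Int.ofNat 0, Int.ofNat 0, Int.ofNat 0, Int.ofNat 1, Int.ofNat 1, Int.ofNat 0, Int.ofNat 0, Int.ofNat 0, Int.ofNat 0, Int.ofNat 0, Int.ofNat 0],
   [Int.ofNat 0, Int.ofNat 0, Int.ofNat 0, Int.ofNat 0, Int.ofNat 0, Int.ofNat 0, Int.ofNat 0, Int.ofNat 1, Int.ofNat 0, Int.ofNat 0, Int.ofNat 0, Int.ofNat 0, Int.ofNat 0, Int.ofNat 0, Int.ofNat 0],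
   [Int.ofNat 0, Int.ofNat 0, Int.ofNat 0, Int.ofNat 0, Int.ofNat 0, Int.ofNat 0, Int.ofNat 0, Int.ofNat 0, Int.ofNat 0, Int.ofNat 0, Int.ofNat 0, Int.ofNat 0, Int.ofNat 0, Int.negSucc 0, Int.ofNat 0],
   [Int.ofNat 0, Int.ofNat 0, Int.ofNat 0, Int.ofNat 0, Int.ofNat 0, Int.ofNat 0, Int.ofNat 0, Int.ofNat 0, Int.ofNat 0, Int.ofNat 0, Int.ofNat 0, Int.ofNat 1, Int.ofNat 0, Int.ofNat 1, Int.ofNat 0],
   [Int.ofNat 0, Int.ofNat 0, Int.ofNat 0, Int.ofNat 0, Int.ofNat 0, Int.ofNat 0, Int.ofNat 0, Int.ofNat 0, Int.ofNat 0, Int.ofNat 0, Int.ofNat 0, Int.ofNat 0, Int.negSucc 0, Int.ofNat 1, Int.negSucc 0],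
   [Int.ofNat 0, Int.ofNat 0, Int.ofNat 0, Int.ofNat 0, Int.ofNat 0, Int.ofNat 0, Int.ofNat 0, Int.ofNat 0, Int.ofNat 0, Int.ofNat 0, Int.ofNat 0, Int.ofNat 0, Int.ofNat 0, Int.ofNat 0, Int.negSucc 0]]

end VRC.Cx

end

section

/-! # Soundness of the affine model of the presentation -/

set_option autoImplicit false
set_option linter.unusedVariables false
set_option linter.unusedSectionVars false

namespace VRC.Cx

open Matrix VRC.Pk

abbrev Lt' := List (List (ℕ × ℤ) × ℤ)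

lemma gl_eq (L : List (List ℤ)) (k : ℕ) : gl L k = L.getD k [] := by
  induction L generalizing k with
  | nil => rfl
  | cons x L ih =>
    cases k with
    | zero => rfl
    | succ k => exact ih k

/-- the list `acc + c b` -/
def addL (c : ℤ) : List ℤ → List ℤ → List ℤ
  | [], acc => acc
  | _ :: _, [] => []
  | x :: b, a :: as => (a + c * x) :: addL c b as

lemma addM_eq {α : Type} (c : ℤ) (b acc : List ℤ) (k : List ℤ → α) :
    addM c b acc k = k (addL c b acc) := by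
  induction b generalizing acc k with
  | nil => rfl
  | cons x b ih =>
    cases acc with
    | nil => rfl
    | cons a as =>
      show fi (Int.add a (Int.mul c x)) (fun z => addM c b as fun l => k (z :: l)) = _
      rw [fi_eq, ih]
      rfl

lemma addL_length (c : ℤ) (b acc : List ℤ) (h : b.length = acc.length) :
    (addL c b acc).length = acc.length := by
  induction b generalizing acc with
  | nil => rfl
  | cons x b ih =>
    cases acc with
    | nil => rfl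
    | cons a as => simp only [addL, List.length_cons]; rw [ih as (by simpa using h)]

lemma addL_getD (c : ℤ) (b acc : List ℤ) (h : b.length = acc.length) (i : ℕ) :
    (addL c b acc).getD i 0 = acc.getD i 0 + c * b.getD i 0 := by
  induction b generalizing acc i with
  | nil => simp [addL]
  | cons x b ih =>
    cases acc with
    | nil => simp at h
    | cons a as =>
      cases i with
      | zero => simp [addL]
      | succ i => simpa [addL] using ih as (by simpa using h) i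

/-- the list `acc + s ∑ c b_j` -/
def foldL (s : ℤ) (Bc : List (List ℤ)) (codes : List ℕ) (acc : List ℤ) : List ℤ :=
  codes.foldl (fun acc a => addL (s * ((a / 64 : ℕ) : ℤ)) (Bc.getD (a % 64) []) acc) acc

lemma foldC_eq {α : Type} (s : ℤ) (Bc : List (List ℤ)) (codes : List ℕ) (acc : List ℤ)
    (k : List ℤ → α) : foldC s Bc codes acc k = k (foldL s Bc codes acc) := by
  induction codes generalizing acc k with
  | nil => rfl
  | cons a codes ih =>
    show fc (Nat.mod a 64) (fun j => fc (Nat.div a 64) fun c =>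
      addM (Int.mul s (Int.ofNat c)) (gl Bc j) acc fun acc' => foldC s Bc codes acc' k) = _
    rw [fc_eq, fc_eq, addM_eq, ih, gl_eq]
    rfl

/-- the list of the combination -/
def combL (Z0 : List ℤ) (Bc : List (List ℤ)) (P N : List ℕ) : List ℤ :=
  foldL (-1) Bc N (foldL 1 Bc P Z0)

lemma comb_eq {α : Type} (Z0 : List ℤ) (Bc : List (List ℤ)) (P N : List ℕ) (k : List ℤ → α) :
    comb Z0 Bc P N k = k (combL Z0 Bc P N) := by
  unfold comb
  rw [foldC_eq, foldC_eq]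
  rfl

section fold

variable (d : ℕ) (Bc : List (List ℤ)) (hB : ∀ b ∈ Bc, b.length = d)

include hB

lemma foldL_spec (s : ℤ) (codes : List ℕ) (hc : ∀ a ∈ codes, a % 64 < Bc.length) (acc : List ℤ)
    (ha : acc.length = d) : (foldL s Bc codes acc).length = d ∧
      vc d (foldL s Bc codes acc) = vc d acc +
        s • (codes.map fun a => ((a / 64 : ℕ) : ℤ) • vc d (Bc.getD (a % 64) [])).sum := by
  induction codes generalizing acc with
  | nil => exact ⟨ha, by simp [foldL]⟩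
  | cons a codes ih =>
    have hl : (Bc.getD (a % 64) []).length = acc.length := by
      rw [List.getD_eq_getElem _ _ (hc a (by simp)), ha]
      exact hB _ (List.getElem_mem _)
    have h1 : (addL (s * ((a / 64 : ℕ) : ℤ)) (Bc.getD (a % 64) []) acc).length = d := by
      rw [addL_length _ _ _ hl, ha]
    obtain ⟨h2, h3⟩ := ih (fun b hb => hc b (by simp [hb])) _ h1
    refine ⟨h2, ?_⟩
    show vc d (foldL s Bc codes _) = _
    rw [h3, List.map_cons, List.sum_cons]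
    have e : vc d (addL (s * ((a / 64 : ℕ) : ℤ)) (Bc.getD (a % 64) []) acc) =
        vc d acc + (s * ((a / 64 : ℕ) : ℤ)) • vc d (Bc.getD (a % 64) []) := by
      funext i
      show (addL _ _ _).getD i.1 0 = _
      rw [addL_getD _ _ _ hl]
      rfl
    rw [e, smul_add, smul_smul, add_assoc]

end fold

lemma sum_codes {d : ℕ} (b : ℕ → Fin d → ℤ) (codes : List ℕ) (n : ℕ)
    (hc : ∀ a ∈ codes, a % 64 < n) :
    ∑ j ∈ Finset.range n, (cf codes j : ℤ) • b j =
      (codes.map fun a => ((a / 64 : ℕ) : ℤ) • b (a % 64)).sum := by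
  induction codes with
  | nil => simp [cf]
  | cons a codes ih =>
    rw [List.map_cons, List.sum_cons, ← ih fun x hx => hc x (by simp [hx])]
    have e : ∀ j, (cf (a :: codes) j : ℤ) • b j =
        (if a % 64 = j then ((a / 64 : ℕ) : ℤ) • b (a % 64) else 0) + (cf codes j : ℤ) • b j := by
      intro j
      have : cf (a :: codes) j = (if a % 64 = j then a / 64 else 0) + cf codes j := by
        simp [cf]
      rw [this]
      by_cases h : a % 64 = j
      · subst h; simp [add_smul]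
      · simp [h]
    simp only [e, Finset.sum_add_distrib]
    congr 1
    rw [Finset.sum_eq_single (a % 64)]
    · simp
    · intro j _ hj; rw [if_neg (Ne.symm hj)]
    · intro h
      exact absurd (Finset.mem_range.mpr (hc a (by simp))) h

lemma tp_trU {d : ℕ} (b : ℕ → Fin d → ℤ) (v : ℕ → ℤ) (k : ℕ) :
    tp (fun i => Am.trU (b i)) v k = Am.trU (∑ i ∈ Finset.range k, v i • b i) := by
  induction k with
  | zero => simp [tp, Am.trU_zero]
  | succ k ih => rw [tp, ih, Finset.sum_range_succ, Am.trU_add, Am.trU_zsmul]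

/-- all codes are below `36` -/
def okC (P : List ℕ) : Prop := ∀ a ∈ P, a % 64 < 36

lemma combL_spec (d : ℕ) (Z0 : List ℤ) (Bc : List (List ℤ)) (hB : ∀ b ∈ Bc, b.length = d)
    (hB' : Bc.length = 36) (hZ : Z0.length = d) (hZ' : vc d Z0 = 0) (P N : List ℕ)
    (hP : okC P) (hN : okC N) :
    vc d (combL Z0 Bc P N) =
      ∑ j ∈ Finset.range 36, vec P N j • vc d (Bc.getD j []) := by
  unfold combL
  obtain ⟨h1, h2⟩ := foldL_spec d Bc hB 1 P (by rw [hB']; exact hP) Z0 hZ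
  obtain ⟨h3, h4⟩ := foldL_spec d Bc hB (-1) N (by rw [hB']; exact hN) _ h1
  rw [h4, h2, hZ', zero_add, one_smul,
    ← sum_codes (fun j => vc d (Bc.getD j [])) P 36 hP,
    ← sum_codes (fun j => vc d (Bc.getD j [])) N 36 hN]
  simp only [VRC.Pk.vec, sub_smul, Finset.sum_sub_distrib]
  rw [neg_smul, one_smul, sub_eq_add_neg]

/-- the data are good -/
structure Ok (d C : ℕ) (L : List Lt') (Bc : List (List ℤ)) (Z0 : List ℤ) (D : Dat) : Prop where
  len : L.length = 26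
  row : ∀ l ∈ L, okR d l ∧ okB C l
  bl : ∀ b ∈ Bc, b.length = d
  bn : Bc.length = 36
  zl : Z0.length = d
  zz : ∀ z ∈ Z0, z = 0
  ml : D.M.length = 13
  mr : ∀ m ∈ D.M, m.1.length = 36 ∧ ∀ c ∈ m.1, okC c.1 ∧ okC c.2
  rc : ∀ r ∈ D.R, okC r.P ∧ okC r.N
  rl : ∀ r ∈ D.R, r.U.length ≤ 26 ∧ r.V.length ≤ 26
  ry : ∀ r ∈ D.R, (∀ y ∈ r.U, y < 13) ∧ ∀ y ∈ r.V, y < 13
  rb : ∀ r ∈ D.R, ∀ z ∈ combL Z0 Bc r.P r.N, z.natAbs ≤ C ^ 2

section

variable {d C s : ℕ} {L : List Lt'} {Bc : List (List ℤ)} {Z0 : List ℤ} {D : Dat}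
  (ok : Ok d C L Bc Z0 D) (hC : 1 ≤ C) (hs : 2 * ((C : ℤ) ^ 26 + C ^ 2) < 2 ^ s)

/-- the lattice vectors -/
def bv (d : ℕ) (Bc : List (List ℤ)) (i : ℕ) : Fin d → ℤ := vc d (Bc.getD i [])

include ok

lemma lkp_mem {y : ℕ} (hy : y < 26) : lkp L y ∈ L := by
  rw [lkp_eq, List.getD_eq_getElem _ _ (by rw [ok.len]; exact hy)]
  exact List.getElem_mem _

lemma vcZ : vc d Z0 = 0 := by
  funext i
  show Z0.getD i.1 0 = 0
  by_cases h : i.1 < Z0.length
  · rw [List.getD_eq_getElem _ _ h]; exact ok.zz _ (List.getElem_mem _)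
  · rw [List.getD_eq_default _ _ (by omega)]

lemma okcomb (P N : List ℕ) (hP : okC P) (hN : okC N) :
    vc d (combL Z0 Bc P N) = ∑ j ∈ Finset.range 36, vec P N j • bv d Bc j :=
  combL_spec d Z0 Bc ok.bl ok.bn ok.zl (vcZ ok) P N hP hN

include hC hs

/-- soundness of an equality of words with an arbitrary bounded constant -/
lemma chk_words (c : List ℤ) (u v : List ℕ) (hu : u.length ≤ 26) (hv : v.length ≤ 26)
    (hu' : ∀ y ∈ u, y < 26) (hv' : ∀ y ∈ v, y < 26) (hc : ∀ i, |vc d c i| ≤ (C : ℤ) ^ 2)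
    (h : evN L (xL s d) u (fun a => evN L (xL s d) v fun b => eqK a b c) = true) :
    (u.map fun y => toAm d (lkp L y)).prod =
      Am.tr (vc d c) * (v.map fun y => toAm d (lkp L y)).prod := by
  have hC' : (1 : ℤ) ≤ C := by exact_mod_cast hC
  rw [evN_eq, evK_eq, evN_eq, evK_eq] at h
  have h1 := eqK_eq _ _ _ h
  have hb : ∀ w : List ℕ, w.length ≤ 26 → (∀ y ∈ w, y < 26) →
      ((w.map fun y => toAm d (lkp L y)).prod).Bd ((C : ℤ) ^ 26) := by
    intro w hw hl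
    have h2 := Am.Bd.prod hC' (w.map fun y => toAm d (lkp L y)) (by
      intro f hf
      obtain ⟨y, hy, rfl⟩ := List.mem_map.mp hf
      have := ok.row _ (lkp_mem ok (hl y hy))
      exact toAm_Bd d C _ this.1 this.2)
    intro i
    refine (h2 i).trans ?_
    rw [List.length_map]
    exact pow_le_pow_right₀ hC' hw
  have hfold : ∀ w : List ℕ, (∀ y ∈ w, y < 26) →
      vc d ((w.map (lkp L)).foldr (fun l y => act y l) (xL s d)) =
        ((w.map fun y => toAm d (lkp L y)).prod).ap (tv d ((2 : ℤ) ^ s)) := by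
    intro w hw
    rw [vc_foldr d _ _ (by
      intro l hl
      obtain ⟨y, hy, rfl⟩ := List.mem_map.mp hl
      exact (ok.row _ (lkp_mem ok (hw y hy))).1), vc_xL, List.map_map]
    rfl
  apply Am.sep ((2 : ℤ) ^ s) ((C : ℤ) ^ 26 + C ^ 2) (by positivity) hs
  · intro i
    have := hb u hu hu' i
    have : (0 : ℤ) ≤ (C : ℤ) ^ 2 := by positivity
    linarith
  · intro i
    rw [Am.tr_mul]
    have h3 := hb v hv hv' i
    have h4 := hc i
    have h5 := abs_add_le (vc d c i) ((v.map fun y => toAm d (lkp L y)).prod.t i)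
    show |vc d c i + (v.map fun y => toAm d (lkp L y)).prod.t i| + _ ≤ _
    show _ + ∑ j, |(v.map fun y => toAm d (lkp L y)).prod.L i j| ≤ _
    linarith
  · rw [← hfold u hu', Am.ap_mul, ← hfold v hv']
    funext i
    show _ = (Am.tr (vc d c)).ap _ i
    unfold Am.ap Am.tr
    simp only [one_mulVec, Pi.add_apply]
    rw [add_comm] 
    exact (h1 i.1).trans (add_comm _ _)

lemma inv_of (hi : xK s (fun x => chkInv L Z0 x 13) d [] = true) (y : ℕ) (hy : y < 13) :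
    toAm d (lkp L y) * toAm d (lkp L (y + 13)) = 1 ∧
      toAm d (lkp L (y + 13)) * toAm d (lkp L y) = 1 := by
  rw [xK_eq, List.append_nil] at hi
  have key : ∀ k, k ≤ 13 → chkInv L Z0 (xL s d) k = true → ∀ y < k,
      (evN L (xL s d) [y, Nat.add y 13] fun a => eqK a (xL s d) Z0) = true ∧
      (evN L (xL s d) [Nat.add y 13, y] fun a => eqK a (xL s d) Z0) = true := by
    intro k
    induction k with
    | zero => intro _ _ y hy; omega
    | succ k ih =>
      intro hk h y hy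
      have h' : cond (evN L (xL s d) [k, Nat.add k 13] fun a => eqK a (xL s d) Z0)
        (cond (evN L (xL s d) [Nat.add k 13, k] fun a => eqK a (xL s d) Z0)
          (chkInv L Z0 (xL s d) k) false) false = true := h
      cases h1 : (evN L (xL s d) [k, Nat.add k 13] fun a => eqK a (xL s d) Z0) with
      | false => rw [h1] at h'; exact absurd h' (by simp)
      | true =>
        rw [h1] at h'
        cases h2 : (evN L (xL s d) [Nat.add k 13, k] fun a => eqK a (xL s d) Z0) with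
        | false => rw [h2] at h'; exact absurd h' (by simp)
        | true =>
          rw [h2] at h'
          by_cases hyk : y = k
          · subst hyk; exact ⟨h1, h2⟩
          · exact ih (by omega) h' y (by omega)
  obtain ⟨h1, h2⟩ := key 13 le_rfl hi y hy
  have hz : ∀ i, |vc d Z0 i| ≤ (C : ℤ) ^ 2 := by
    intro i
    rw [vcZ ok]
    simp only [Pi.zero_apply, abs_zero]
    positivity
  have e1 := chk_words ok hC hs Z0 [y, y + 13] [] (by simp) (by simp)
    (by intro z hz; simp at hz; omega) (by simp) hz h1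
  have e2 := chk_words ok hC hs Z0 [y + 13, y] [] (by simp) (by simp)
    (by intro z hz; simp at hz; omega) (by simp) hz h2
  rw [vcZ ok, Am.tr_zero] at e1 e2
  simpa using And.intro e1 e2

omit hC hs in
lemma acts_of (h : chkActs Z0 Bc D.M L = true) (y i : ℕ) (hy : y < 13) (hi : i < 36) :
    (toAm d (lkp L y)).L *ᵥ bv d Bc i = ∑ j ∈ Finset.range 36, D.mv y i j • bv d Bc j := by
  have key : ∀ (M : List (List (List ℕ × List ℕ) × ℕ)) (L' : List Lt'),
      chkActs Z0 Bc M L' = true → ∀ y < M.length,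
        chkCols Z0 Bc (L'.getD y []) (act Z0 (L'.getD y [])) (M.getD y ([], 0)).1 Bc = true := by
    intro M
    induction M with
    | nil => intro L' _ y hy; simp at hy
    | cons m M ih =>
      intro L' h y hy
      cases L' with
      | nil => exact absurd h (by simp [chkActs])
      | cons l L' =>
        have h' : cond (actK Z0 (fun τ => chkCols Z0 Bc l τ m.1 Bc) l [])
          (chkActs Z0 Bc M L') false = true := h
        rw [actK_eq, List.append_nil] at h'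
        cases h1 : chkCols Z0 Bc l (l.reverse.map fun p => rv Z0 p.1 p.2) m.1 Bc with
        | false => rw [h1] at h'; exact absurd h' (by simp)
        | true =>
          rw [h1] at h'
          cases y with
          | zero => exact h1
          | succ y => exact ih L' h' y (by simpa using hy)
  have h1 := key D.M L h y (by rw [ok.ml]; exact hy)
  have key2 : ∀ (l : Lt') (τ : List ℤ) (cols : List (List ℕ × List ℕ)) (bs : List (List ℤ)),
      chkCols Z0 Bc l τ cols bs = true → ∀ i < cols.length,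
        eqK (act (bs.getD i []) l) (combL Z0 Bc (cols.getD i ([], [])).1
          (cols.getD i ([], [])).2) τ = true := by
    intro l τ cols
    induction cols with
    | nil => intro bs _ i hi; simp at hi
    | cons pn cols ih =>
      intro bs h i hi
      cases bs with
      | nil => exact absurd h (by simp [chkCols])
      | cons b bs =>
        have h' : cond (actK b (fun a => comb Z0 Bc pn.1 pn.2 fun c => eqK a c τ) l [])
          (chkCols Z0 Bc l τ cols bs) false = true := h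
        rw [actK_eq, List.append_nil, comb_eq] at h'
        cases h1 : eqK (l.reverse.map fun p => rv b p.1 p.2) (combL Z0 Bc pn.1 pn.2) τ with
        | false => rw [h1] at h'; exact absurd h' (by simp)
        | true =>
          rw [h1] at h'
          cases i with
          | zero => exact h1
          | succ i => exact ih bs h' i (by simpa using hi)
  have hm := ok.mr ((D.M.getD y ([], 0))) (by
    rw [List.getD_eq_getElem _ _ (by rw [ok.ml]; exact hy)]
    exact List.getElem_mem _)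
  have h2 := key2 _ _ _ _ h1 i (by rw [hm.1]; exact hi)
  have h3 := eqK_eq _ _ _ h2
  have hl := (ok.row _ (lkp_mem ok (show y < 26 by omega))).1
  rw [← lkp_eq] at h3
  have e1 := vc_act d (Bc.getD i []) (lkp L y) hl
  have e2 := vc_act d Z0 (lkp L y) hl
  have hc : (D.M.getD y ([], 0)).1.getD i ([], []) = D.mc y i := rfl
  have hlt : i < (D.M.getD y ([], 0)).1.length := by rw [hm.1]; exact hi
  have hcm := hm.2 (D.mc y i) (by
    rw [← hc, List.getD_eq_getElem (D.M.getD y ([], 0)).1 _ hlt]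
    exact List.getElem_mem _)
  have e3 := okcomb ok _ _ hcm.1 hcm.2
  show _ = ∑ j ∈ Finset.range 36, vec (D.mc y i).1 (D.mc y i).2 j • bv d Bc j
  rw [← e3]
  have e4 : vc d (act (Bc.getD i []) (lkp L y)) =
      vc d (combL Z0 Bc (D.mc y i).1 (D.mc y i).2) + vc d (act Z0 (lkp L y)) := by
    funext j
    exact h3 j.1
  rw [e1, e2, vcZ ok] at e4
  unfold Am.ap at e4
  rw [mulVec_zero, zero_add] at e4
  exact add_right_cancel e4

omit hC hs in
lemma rules_mem (x : List ℤ) (h : chkRs L Z0 Bc x D.R = true) :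
    ∀ r ∈ D.R, chkR L Z0 Bc x r = true := by
  have key : ∀ rs : List Ru, chkRs L Z0 Bc x rs = true → ∀ r ∈ rs, chkR L Z0 Bc x r = true := by
    intro rs
    induction rs with
    | nil => intro _ r hr; simp at hr
    | cons r rs ih =>
      intro h q hq
      have h' : cond (chkR L Z0 Bc x r) (chkRs L Z0 Bc x rs) false = true := h
      cases hr : chkR L Z0 Bc x r with
      | false => rw [hr] at h'; exact absurd h' (by simp)
      | true =>
        rw [hr] at h'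
        rcases List.mem_cons.mp hq with rfl | hq
        · exact hr
        · exact ih h' q hq
  exact key D.R h

lemma rules_of (h : xK s (fun x => chkRs L Z0 Bc x D.R) d [] = true) (r : Ru) (hr : r ∈ D.R) :
    (r.U.map fun y => toAm d (lkp L y)).prod =
      Am.tr (∑ j ∈ Finset.range 36, r.vc j • bv d Bc j) *
        (r.V.map fun y => toAm d (lkp L y)).prod := by
  rw [xK_eq, List.append_nil] at h
  have h1 := rules_mem ok _ h r hr
  unfold chkR at h1
  simp only [comb_eq] at h1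
  have hcc := ok.rc r hr
  have e3 := okcomb ok _ _ hcc.1 hcc.2
  have hyy := ok.ry r hr
  have := chk_words ok hC hs (combL Z0 Bc r.P r.N) r.U r.V (ok.rl r hr).1 (ok.rl r hr).2
    (fun y hy => by have := hyy.1 y hy; omega) (fun y hy => by have := hyy.2 y hy; omega)
    (by
      intro i
      show |(combL Z0 Bc r.P r.N).getD i.1 0| ≤ _
      by_cases hi : i.1 < (combL Z0 Bc r.P r.N).length
      · rw [List.getD_eq_getElem _ _ hi, Int.abs_eq_natAbs]
        exact_mod_cast ok.rb r hr _ (List.getElem_mem hi)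
      · rw [List.getD_eq_default _ _ (by omega)]; simp) h1
  rw [e3] at this
  exact this

end

/-! ### The model -/

section model

variable {d C s : ℕ} {L : List Lt'} {Bc : List (List ℤ)} {Z0 : List ℤ} {D : Dat}
  (ok : Ok d C L Bc Z0 D) (hC : 1 ≤ C) (hs : 2 * ((C : ℤ) ^ 26 + C ^ 2) < 2 ^ s)
  (hi : xK s (fun x => chkInv L Z0 x 13) d [] = true)
  (ha : chkActs Z0 Bc D.M L = true)
  (hr : xK s (fun x => chkRs L Z0 Bc x D.R) d [] = true)

/-- the letters as units -/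
noncomputable def gU (y : ℕ) : (Am d)ˣ :=
  if hy : y < 13 then
    ⟨toAm d (lkp L y), toAm d (lkp L (y + 13)), (inv_of ok hC hs hi y hy).1,
      (inv_of ok hC hs hi y hy).2⟩
  else 1

lemma gU_val (y : ℕ) (hy : y < 13) : (gU ok hC hs hi y).val = toAm d (lkp L y) := by
  unfold gU
  rw [dif_pos hy]

lemma wv_gU (w : List ℕ) (hw : ∀ y ∈ w, y < 13) :
    (wv (gU ok hC hs hi) w).val = (w.map fun y => toAm d (lkp L y)).prod := by
  induction w with
  | nil => rfl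
  | cons y w ih =>
    rw [wv, Units.val_mul, ih fun z hz => hw z (by simp [hz]), gU_val ok hC hs hi y (hw y (by simp))]
    rfl

include ha hr

theorem mdl_of : Mdl D (Am d)ˣ (fun i => Am.trU (bv d Bc i)) (gU ok hC hs hi) := by
  refine ⟨fun i j _ _ => ?_, fun y i hy hi' => ?_, fun r hr' => ?_⟩
  · rw [← Am.trU_add, ← Am.trU_add, add_comm]
  · rw [tp_trU, mul_inv_eq_iff_eq_mul]
    apply Units.ext
    rw [Units.val_mul, Units.val_mul, gU_val ok hC hs hi y hy]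
    show toAm d (lkp L y) * Am.tr (bv d Bc i) = Am.tr _ * _
    rw [Am.mul_tr, acts_of ok ha y i hy hi']
  · rw [tp_trU]
    apply Units.ext
    have hyy := ok.ry r hr'
    rw [Units.val_mul, wv_gU ok hC hs hi _ hyy.1, wv_gU ok hC hs hi _ hyy.2]
    exact rules_of ok hC hs hr r hr'

end model

end VRC.Cx

end

section

set_option autoImplicit false

/-! Normal form for the elements of `XG D36` and the translation lattice. -/

namespace VRC.Pk

section general

variable {G : Type} [Group G] {t g : ℕ → G}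

theorem nf_tp_zero (t : ℕ → G) (k : ℕ) : tp t (fun _ => 0) k = 1 := by
  induction k with
  | zero => rfl
  | succ k ih => rw [tp, ih]; simp

theorem tp_comm1 (h : ∀ i j, i < 36 → j < i → t i * t j = t j * t i) (i j : ℕ) (hi : i < 36)
    (hj : j < 36) : Commute (t i) (t j) := by
  rcases lt_trichotomy i j with hij | hij | hij
  · exact (h j i hj hij).symm
  · subst hij; exact Commute.refl _
  · exact h i j hi hij

theorem tp_commute (h : ∀ i j, i < 36 → j < i → t i * t j = t j * t i) (v : ℕ → ℤ) (k i : ℕ)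
    (hk : k ≤ 36) (hi : i < 36) : Commute (tp t v k) (t i) := by
  induction k with
  | zero => exact Commute.one_left _
  | succ k ih =>
    rw [tp]
    exact (ih (by omega)).mul_left ((tp_comm1 h k i (by omega) hi).zpow_left _)

theorem tp_add (h : ∀ i j, i < 36 → j < i → t i * t j = t j * t i) (v w : ℕ → ℤ) (k : ℕ)
    (hk : k ≤ 36) : tp t (fun i => v i + w i) k = tp t v k * tp t w k := by
  induction k with
  | zero => simp [tp]
  | succ k ih =>
    rw [tp, tp, tp, ih (by omega), zpow_add]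
    have h1 : Commute (tp t w k) (t k ^ v k) :=
      (tp_commute h w k k (by omega) (by omega)).zpow_right _
    calc tp t v k * tp t w k * (t k ^ v k * t k ^ w k)
        = tp t v k * (tp t w k * t k ^ v k) * t k ^ w k := by group
      _ = tp t v k * (t k ^ v k * tp t w k) * t k ^ w k := by rw [h1.eq]
      _ = _ := by group

theorem tp_neg (h : ∀ i j, i < 36 → j < i → t i * t j = t j * t i) (v : ℕ → ℤ) (k : ℕ)
    (hk : k ≤ 36) : tp t (fun i => - v i) k = (tp t v k)⁻¹ := by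
  rw [eq_inv_iff_mul_eq_one, ← tp_add h _ _ k hk]
  simp only [neg_add_cancel]
  exact nf_tp_zero t k

theorem tp_congr_v (t : ℕ → G) (v w : ℕ → ℤ) (k : ℕ) (h : ∀ i < k, v i = w i) :
    tp t v k = tp t w k := by
  induction k with
  | zero => rfl
  | succ k ih => rw [tp, tp, ih (fun i hi => h i (by omega)), h k (by omega)]

theorem tp_single (t : ℕ → G) (i k : ℕ) (hi : i < k) :
    tp t (fun j => if j = i then 1 else 0) k = t i := by
  induction k with
  | zero => omega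
  | succ k ih =>
    rw [tp]
    by_cases h : i = k
    · subst h
      rw [tp_congr_v t (fun j => if j = i then 1 else 0) (fun _ => 0) i
        (fun j hj => if_neg (by omega)), nf_tp_zero]
      simp
    · rw [ih (by omega), if_neg (by omega)]
      simp

theorem wv_append (g : ℕ → G) (u w : List ℕ) : wv g (u ++ w) = wv g u * wv g w := by
  induction u with
  | nil => simp [wv]
  | cons y u ih => simp [wv, ih, mul_assoc]

/-- the lattice -/
def TS (h : ∀ i j, i < 36 → j < i → t i * t j = t j * t i) : Subgroup G where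
  carrier := {x | ∃ v : ℕ → ℤ, x = tp t v 36}
  mul_mem' := by
    rintro _ _ ⟨v, rfl⟩ ⟨w, rfl⟩
    exact ⟨_, (tp_add h v w 36 le_rfl).symm⟩
  one_mem' := ⟨_, (nf_tp_zero t 36).symm⟩
  inv_mem' := by
    rintro _ ⟨v, rfl⟩
    exact ⟨_, (tp_neg h v 36 le_rfl).symm⟩

theorem mem_TS (h : ∀ i j, i < 36 → j < i → t i * t j = t j * t i) (x : G) :
    x ∈ TS h ↔ ∃ v : ℕ → ℤ, x = tp t v 36 := Iff.rfl

theorem t_mem (h : ∀ i j, i < 36 → j < i → t i * t j = t j * t i) (i : ℕ) (hi : i < 36) :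
    t i ∈ TS h := ⟨_, (tp_single t i 36 hi).symm⟩

theorem tp_mem {S : Subgroup G} (v : ℕ → ℤ) (k : ℕ) (hS : ∀ i < k, t i ∈ S) : tp t v k ∈ S := by
  induction k with
  | zero => exact S.one_mem
  | succ k ih =>
    exact S.mul_mem (ih fun i hi => hS i (by omega)) (S.zpow_mem (hS k (by omega)) _)

theorem conj_TS {D : Dat} (M : Mdl D G t g) (y : ℕ) (hy : y < 13) (x : G) (hx : x ∈ TS M.comm) :
    g y * x * (g y)⁻¹ ∈ TS M.comm := by
  obtain ⟨v, rfl⟩ := hx
  have h1 : tp t v 36 ∈ (TS M.comm).comap (MulAut.conj (g y)).toMonoidHom := by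
    apply tp_mem
    intro i hi
    rw [Subgroup.mem_comap]
    show g y * t i * (g y)⁻¹ ∈ _
    rw [M.act y i hy hi]
    exact ⟨_, rfl⟩
  exact h1

/-- right side of the rule with left side `U` -/
def rhs (U : List ℕ) : List Ru → Option (List ℕ)
  | [] => none
  | r :: R => if r.U = U then some r.V else rhs U R

theorem rhs_mem (U V : List ℕ) (R : List Ru) (h : rhs U R = some V) :
    ∃ r ∈ R, r.U = U ∧ r.V = V := by
  induction R with
  | nil => simp [rhs] at h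
  | cons r R ih =>
    rw [rhs] at h
    by_cases hr : r.U = U
    · rw [if_pos hr] at h
      exact ⟨r, List.mem_cons_self, hr, Option.some.inj h⟩
    · rw [if_neg hr] at h
      obtain ⟨r', h1, h2⟩ := ih h
      exact ⟨r', List.mem_cons_of_mem _ h1, h2⟩

theorem rule_eq {D : Dat} (M : Mdl D G t g) (U V : List ℕ) (h : rhs U D.R = some V) :
    ∃ s ∈ TS M.comm, wv g U = s * wv g V := by
  obtain ⟨r, hr, rfl, rfl⟩ := rhs_mem U V D.R h
  exact ⟨_, ⟨_, rfl⟩, M.rul r hr⟩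

end general

/-- strictly increasing words in the letters `0, ..., 10` -/
def IsK (K : List ℕ) : Prop := K.Pairwise (· < ·) ∧ ∀ y ∈ K, y < 11

theorem chk_sq : ∀ y < 11, rhs [y, y] D36.R = some [] := by decide +kernel

theorem chk_k : ∀ y < 11, ∀ z < y, rhs [y, z] D36.R = some [z, y] := by decide +kernel

/-- the right side of `y z` -/
def nf_cv (y z : ℕ) : List ℕ := ((rhs [y, z] D36.R).getD []).dropLast

theorem chk_ab : ∀ y < 13, 11 ≤ y → ∀ z < 11, rhs [y, z] D36.R = some (nf_cv y z ++ [y]) ∧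
    ∀ x ∈ nf_cv y z, x < 11 := by decide +kernel

section d36

variable {G : Type} [Group G] {t g : ℕ → G}

theorem conj_wv {D : Dat} (M : Mdl D G t g) (u : List ℕ) (hu : ∀ y ∈ u, y < 13) (x : G)
    (hx : x ∈ TS M.comm) : wv g u * x * (wv g u)⁻¹ ∈ TS M.comm := by
  induction u with
  | nil => simpa [wv] using hx
  | cons y u ih =>
    have h1 := conj_TS M y (hu y List.mem_cons_self) _
      (ih fun z hz => hu z (List.mem_cons_of_mem _ hz))
    have h2 : wv g (y :: u) * x * (wv g (y :: u))⁻¹ = g y * (wv g u * x * (wv g u)⁻¹) * (g y)⁻¹ := by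
      rw [wv]; group
    rw [h2]; exact h1

theorem insK (M : Mdl D36 G t g) (y : ℕ) (hy : y < 11) : ∀ K, IsK K →
    ∃ s ∈ TS M.comm, ∃ K', IsK K' ∧ (∀ z ∈ K', z = y ∨ z ∈ K) ∧ g y * wv g K = s * wv g K' := by
  intro K
  induction K with
  | nil =>
    intro _
    exact ⟨1, (TS M.comm).one_mem, [y], ⟨List.pairwise_singleton _ _, by simpa using hy⟩,
      by simp, by simp [wv]⟩
  | cons z K ih =>
    intro hK
    have hz : z < 11 := hK.2 z List.mem_cons_self
    have hK1 : IsK K := ⟨hK.1.of_cons, fun x hx => hK.2 x (List.mem_cons_of_mem _ hx)⟩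
    rcases lt_trichotomy y z with h | h | h
    · refine ⟨1, (TS M.comm).one_mem, y :: z :: K, ⟨?_, ?_⟩, ?_, by simp [wv]⟩
      · refine List.Pairwise.cons ?_ hK.1
        intro x hx
        rcases List.mem_cons.mp hx with rfl | hx
        · exact h
        · exact h.trans (List.rel_of_pairwise_cons hK.1 hx)
      · intro x hx
        rcases List.mem_cons.mp hx with rfl | hx
        · exact hy
        · exact hK.2 x hx
      · intro x hx
        rcases List.mem_cons.mp hx with rfl | hx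
        · exact Or.inl rfl
        · exact Or.inr hx
    · subst h
      obtain ⟨s, hs, h1⟩ := rule_eq M _ _ (chk_sq y hy)
      refine ⟨s, hs, K, hK1, fun x hx => Or.inr (List.mem_cons_of_mem _ hx), ?_⟩
      simp only [wv, mul_one] at h1
      rw [wv, ← mul_assoc, h1]
    · obtain ⟨s, hs, h1⟩ := rule_eq M _ _ (chk_k y hy z h)
      simp only [wv, mul_one] at h1
      obtain ⟨s', hs', K', hK', hm, h2⟩ := ih hK1
      refine ⟨s * (g z * s' * (g z)⁻¹), (TS M.comm).mul_mem hs (conj_TS M z (by omega) s' hs'),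
        z :: K', ⟨List.Pairwise.cons ?_ hK'.1, ?_⟩, ?_, ?_⟩
      · intro x hx
        rcases hm x hx with rfl | hx
        · exact h
        · exact List.rel_of_pairwise_cons hK.1 hx
      · intro x hx
        rcases List.mem_cons.mp hx with rfl | hx
        · exact hz
        · exact hK'.2 x hx
      · intro x hx
        rcases List.mem_cons.mp hx with rfl | hx
        · exact Or.inr List.mem_cons_self
        · rcases hm x hx with hx | hx
          · exact Or.inl hx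
          · exact Or.inr (List.mem_cons_of_mem _ hx)
      · rw [wv, wv, ← mul_assoc, h1]
        calc s * (g z * g y) * wv g K = s * g z * (g y * wv g K) := by group
          _ = s * g z * (s' * wv g K') := by rw [h2]
          _ = _ := by group

/-- the normal subgroup of the `t` and the `k` (as a set) -/
def NS (M : Mdl D36 G t g) : Set G := {x | ∃ s ∈ TS M.comm, ∃ K, IsK K ∧ x = s * wv g K}

theorem NS_T (M : Mdl D36 G t g) (s : G) (hs : s ∈ TS M.comm) : s ∈ NS M :=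
  ⟨s, hs, [], ⟨List.Pairwise.nil, by simp⟩, by simp [wv]⟩

theorem NS_Tmul (M : Mdl D36 G t g) (s x : G) (hs : s ∈ TS M.comm) (hx : x ∈ NS M) :
    s * x ∈ NS M := by
  obtain ⟨s', hs', K, hK, rfl⟩ := hx
  exact ⟨s * s', (TS M.comm).mul_mem hs hs', K, hK, by group⟩

theorem NS_g (M : Mdl D36 G t g) (y : ℕ) (hy : y < 11) (x : G) (hx : x ∈ NS M) :
    g y * x ∈ NS M := by
  obtain ⟨s, hs, K, hK, rfl⟩ := hx
  obtain ⟨s', hs', K', hK', -, h⟩ := insK M y hy K hK
  refine ⟨g y * s * (g y)⁻¹ * s', (TS M.comm).mul_mem (conj_TS M y (by omega) s hs) hs', K', hK',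
    ?_⟩
  calc g y * (s * wv g K) = g y * s * (g y)⁻¹ * (g y * wv g K) := by group
    _ = g y * s * (g y)⁻¹ * (s' * wv g K') := by rw [h]
    _ = _ := by group

theorem NS_wv (M : Mdl D36 G t g) (u : List ℕ) (hu : ∀ y ∈ u, y < 11) (x : G) (hx : x ∈ NS M) :
    wv g u * x ∈ NS M := by
  induction u with
  | nil => simpa [wv] using hx
  | cons y u ih =>
    rw [wv, mul_assoc]
    exact NS_g M y (hu y List.mem_cons_self) _ (ih fun z hz => hu z (List.mem_cons_of_mem _ hz))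

theorem NS_mul (M : Mdl D36 G t g) (x y : G) (hx : x ∈ NS M) (hy : y ∈ NS M) : x * y ∈ NS M := by
  obtain ⟨s, hs, K, hK, rfl⟩ := hx
  rw [mul_assoc]
  exact NS_Tmul M _ _ hs (NS_wv M K hK.2 _ hy)

theorem NS_wv1 (M : Mdl D36 G t g) (u : List ℕ) (hu : ∀ y ∈ u, y < 11) : wv g u ∈ NS M := by
  have := NS_wv M u hu 1 (NS_T M 1 (TS M.comm).one_mem)
  rwa [mul_one] at this

theorem NS_conj (M : Mdl D36 G t g) (y : ℕ) (hy : y < 13) (hy' : 11 ≤ y) (x : G)
    (hx : x ∈ NS M) : ∃ x' ∈ NS M, g y * x = x' * g y := by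
  obtain ⟨s, hs, K, hK, rfl⟩ := hx
  have key : ∀ K : List ℕ, (∀ z ∈ K, z < 11) → ∃ x' ∈ NS M, g y * wv g K = x' * g y := by
    intro K
    induction K with
    | nil =>
      intro _
      exact ⟨1, NS_T M 1 (TS M.comm).one_mem, by simp [wv]⟩
    | cons z K ih =>
      intro h
      obtain ⟨x', hx', h1⟩ := ih fun z hz => h z (List.mem_cons_of_mem _ hz)
      obtain ⟨h2, h3⟩ := chk_ab y hy hy' z (h z List.mem_cons_self)
      obtain ⟨s, hs, h4⟩ := rule_eq M _ _ h2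
      rw [wv_append] at h4
      simp only [wv, mul_one] at h4
      refine ⟨s * (wv g (nf_cv y z) * x'), NS_Tmul M _ _ hs (NS_wv M _ h3 _ hx'), ?_⟩
      rw [wv, ← mul_assoc, h4]
      calc s * (wv g (nf_cv y z) * g y) * wv g K = s * wv g (nf_cv y z) * (g y * wv g K) := by group
        _ = s * wv g (nf_cv y z) * (x' * g y) := by rw [h1]
        _ = _ := by group
  obtain ⟨x', hx', h1⟩ := key K hK.2
  refine ⟨g y * s * (g y)⁻¹ * x', NS_Tmul M _ _ (conj_TS M y hy s hs) hx', ?_⟩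
  calc g y * (s * wv g K) = g y * s * (g y)⁻¹ * (g y * wv g K) := by group
    _ = g y * s * (g y)⁻¹ * (x' * g y) := by rw [h1]
    _ = _ := by group

end d36

/-- the first rule whose left side is a prefix of `w`, and the rest of `w` -/
def fnd (w : List ℕ) : List Ru → Option (Ru × List ℕ)
  | [] => none
  | r :: R =>
    match strip r.U w with
    | some rest => some (r, rest)
    | none => fnd w R

/-- left multiplication by a letter in the quotient -/
def crl (f : ℕ → List ℕ → List ℕ) : List ℕ → List ℕ → List ℕ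
  | [], w => w
  | x :: v, w => f x (crl f v w)

def cr : ℕ → ℕ → List ℕ → List ℕ
  | 0, x, w => x :: w
  | k + 1, x, w =>
    match fnd (x :: w) D36.R with
    | none => x :: w
    | some (r, rest) => crl (cr k) (r.V.filter (fun y => Nat.ble 11 y)) rest

theorem strip_eq : ∀ u w rest : List ℕ, strip u w = some rest → w = u ++ rest
  | [], w, rest, h => by
    rw [strip] at h
    exact Option.some.inj h
  | _ :: _, [], rest, h => by
    rw [strip] at h
    exact absurd h (by simp)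
  | a :: u, b :: w, rest, h => by
    rw [strip] at h
    cases hab : Nat.beq a b with
    | true =>
      rw [hab] at h
      rw [Nat.eq_of_beq_eq_true hab, strip_eq u w rest h, List.cons_append]
    | false =>
      rw [hab] at h
      exact absurd h (by simp)

theorem fnd_eq (w : List ℕ) : ∀ (R : List Ru) (r : Ru) (rest : List ℕ),
    fnd w R = some (r, rest) → r ∈ R ∧ w = r.U ++ rest
  | [], r, rest, h => by
    rw [fnd] at h
    exact absurd h (by simp)
  | r' :: R, r, rest, h => by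
    rw [fnd] at h
    cases hs : strip r'.U w with
    | some z =>
      rw [hs] at h
      have h1 := Option.some.inj h
      rw [Prod.mk.injEq] at h1
      obtain ⟨rfl, rfl⟩ := h1
      exact ⟨List.mem_cons_self, strip_eq _ _ _ hs⟩
    | none =>
      rw [hs] at h
      obtain ⟨h1, h2⟩ := fnd_eq w R r rest h
      exact ⟨List.mem_cons_of_mem _ h1, h2⟩

theorem chk_split : ∀ r ∈ D36.R, r.V = r.V.filter (fun y => Nat.blt y 11) ++
    r.V.filter (fun y => Nat.ble 11 y) := by decide +kernel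

section d36b

variable {G : Type} [Group G] {t g : ℕ → G}

theorem crl_sound (M : Mdl D36 G t g) (f : ℕ → List ℕ → List ℕ)
    (hf : ∀ x < 13, 11 ≤ x → ∀ w, ∃ n ∈ NS M, g x * wv g w = n * wv g (f x w))
    (v : List ℕ) (hv : ∀ y ∈ v, y < 13 ∧ 11 ≤ y) (w : List ℕ) :
    ∃ n ∈ NS M, wv g v * wv g w = n * wv g (crl f v w) := by
  induction v with
  | nil => exact ⟨1, NS_T M 1 (TS M.comm).one_mem, by simp [wv, crl]⟩
  | cons x v ih =>
    obtain ⟨n, hn, h1⟩ := ih fun z hz => hv z (List.mem_cons_of_mem _ hz)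
    obtain ⟨hx1, hx2⟩ := hv x List.mem_cons_self
    obtain ⟨n', hn', h2⟩ := NS_conj M x hx1 hx2 n hn
    obtain ⟨n3, hn3, h3⟩ := hf x hx1 hx2 (crl f v w)
    refine ⟨n' * n3, NS_mul M _ _ hn' hn3, ?_⟩
    rw [crl, wv]
    calc g x * wv g v * wv g w = g x * (wv g v * wv g w) := by group
      _ = (g x * n) * wv g (crl f v w) := by rw [h1]; group
      _ = n' * (g x * wv g (crl f v w)) := by rw [h2]; group
      _ = _ := by rw [h3]; group

theorem cr_sound (M : Mdl D36 G t g) : ∀ k : ℕ, ∀ x < 13, 11 ≤ x → ∀ w,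
    ∃ n ∈ NS M, g x * wv g w = n * wv g (cr k x w) := by
  intro k
  induction k with
  | zero =>
    intro x _ _ w
    exact ⟨1, NS_T M 1 (TS M.comm).one_mem, by simp [cr, wv]⟩
  | succ k ih =>
    intro x hx hx' w
    rw [cr]
    cases hf : fnd (x :: w) D36.R with
    | none => exact ⟨1, NS_T M 1 (TS M.comm).one_mem, by simp [wv]⟩
    | some q =>
      obtain ⟨r, rest⟩ := q
      obtain ⟨hr, hw⟩ := fnd_eq _ _ _ _ hf
      have hV := (wf_mem D36_wf r hr).2
      obtain ⟨n, hn, h1⟩ := crl_sound M (cr k) ih (r.V.filter (fun y => Nat.ble 11 y))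
        (fun y hy => by
          rw [List.mem_filter] at hy
          exact ⟨hV y hy.1, Nat.le_of_ble_eq_true hy.2⟩) rest
      refine ⟨tp t r.vc 36 * (wv g (r.V.filter (fun y => Nat.blt y 11)) * n),
        NS_Tmul M _ _ ⟨_, rfl⟩ (NS_wv M _ (fun y hy => by
          rw [List.mem_filter] at hy
          exact by simpa [Nat.blt_eq] using hy.2) _ hn), ?_⟩
      show g x * wv g w = _ * wv g (crl (cr k) (r.V.filter (fun y => Nat.ble 11 y)) rest)
      have h2 : g x * wv g w = wv g (x :: w) := rfl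
      rw [h2, hw, wv_append, M.rul r hr]
      conv_lhs => rw [chk_split r hr, wv_append]
      calc tp t r.vc 36 * (wv g (r.V.filter (fun y => Nat.blt y 11)) *
            wv g (r.V.filter (fun y => Nat.ble 11 y))) * wv g rest
          = tp t r.vc 36 * (wv g (r.V.filter (fun y => Nat.blt y 11)) *
            (wv g (r.V.filter (fun y => Nat.ble 11 y)) * wv g rest)) := by group
        _ = _ := by rw [h1]; group

end d36b

/-- the irreducible words in the letters 11, 12 -/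
def W168 : List (List ℕ) := [[], [11], [12], [12, 11], [11, 12], [12, 12], [11, 12, 11], [12, 12,
  11], [12, 11, 12], [11, 12, 12], [12, 12, 12], [12, 11, 12, 11], [11, 12, 12, 11], [12, 12, 12,
  11], [11, 12, 11, 12], [12, 12, 11, 12], [12, 11, 12, 12], [11, 12, 12, 12], [11, 12, 11, 12,
  11], [12, 12, 11, 12, 11], [12, 11, 12, 12, 11], [11, 12, 12, 12, 11], [12, 11, 12, 11, 12],
  [11, 12, 12, 11, 12], [12, 12, 12, 11, 12], [11, 12, 11, 12, 12], [12, 11, 12, 12, 12], [12, 11,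
  12, 11, 12, 11], [11, 12, 12, 11, 12, 11], [12, 12, 12, 11, 12, 11], [11, 12, 11, 12, 12, 11],
  [12, 11, 12, 12, 12, 11], [11, 12, 11, 12, 11, 12], [12, 12, 11, 12, 11, 12], [12, 11, 12, 12,
  11, 12], [11, 12, 12, 12, 11, 12], [12, 11, 12, 11, 12, 12], [11, 12, 11, 12, 12, 12], [11, 12,
  11, 12, 11, 12, 11], [12, 12, 11, 12, 11, 12, 11], [12, 11, 12, 12, 11, 12, 11], [11, 12, 12,
  12, 11, 12, 11], [12, 11, 12, 11, 12, 12, 11], [11, 12, 11, 12, 12, 12, 11], [12, 11, 12, 11,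
  12, 11, 12], [11, 12, 12, 11, 12, 11, 12], [12, 12, 12, 11, 12, 11, 12], [11, 12, 11, 12, 12,
  11, 12], [12, 11, 12, 12, 12, 11, 12], [11, 12, 11, 12, 11, 12, 12], [12, 12, 11, 12, 11, 12,
  12], [12, 11, 12, 11, 12, 12, 12], [12, 11, 12, 11, 12, 11, 12, 11], [11, 12, 12, 11, 12, 11,
  12, 11], [12, 12, 12, 11, 12, 11, 12, 11], [11, 12, 11, 12, 12, 11, 12, 11], [12, 11, 12, 12,
  12, 11, 12, 11], [11, 12, 11, 12, 11, 12, 12, 11], [12, 11, 12, 11, 12, 12, 12, 11], [11, 12,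
  11, 12, 11, 12, 11, 12], [12, 12, 11, 12, 11, 12, 11, 12], [12, 11, 12, 12, 11, 12, 11, 12],
  [11, 12, 12, 12, 11, 12, 11, 12], [12, 11, 12, 11, 12, 12, 11, 12], [11, 12, 11, 12, 12, 12, 11,
  12], [12, 11, 12, 11, 12, 11, 12, 12], [11, 12, 12, 11, 12, 11, 12, 12], [12, 12, 12, 11, 12,
  11, 12, 12], [11, 12, 11, 12, 11, 12, 12, 12], [12, 12, 11, 12, 11, 12, 12, 12], [11, 12, 11,
  12, 11, 12, 11, 12, 11], [12, 12, 11, 12, 11, 12, 11, 12, 11], [12, 11, 12, 12, 11, 12, 11, 12,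
  11], [11, 12, 12, 12, 11, 12, 11, 12, 11], [12, 11, 12, 11, 12, 12, 11, 12, 11], [11, 12, 11,
  12, 12, 12, 11, 12, 11], [12, 11, 12, 11, 12, 11, 12, 12, 11], [11, 12, 11, 12, 11, 12, 12, 12,
  11], [12, 12, 11, 12, 11, 12, 12, 12, 11], [11, 12, 12, 11, 12, 11, 12, 11, 12], [12, 12, 12,
  11, 12, 11, 12, 11, 12], [11, 12, 11, 12, 12, 11, 12, 11, 12], [12, 11, 12, 12, 12, 11, 12, 11,
  12], [11, 12, 11, 12, 11, 12, 12, 11, 12], [12, 11, 12, 11, 12, 12, 12, 11, 12], [11, 12, 11,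
  12, 11, 12, 11, 12, 12], [12, 12, 11, 12, 11, 12, 11, 12, 12], [12, 11, 12, 12, 11, 12, 11, 12,
  12], [11, 12, 12, 12, 11, 12, 11, 12, 12], [12, 11, 12, 11, 12, 11, 12, 12, 12], [11, 12, 12,
  11, 12, 11, 12, 12, 12], [12, 12, 12, 11, 12, 11, 12, 12, 12], [11, 12, 12, 11, 12, 11, 12, 11,
  12, 11], [12, 12, 12, 11, 12, 11, 12, 11, 12, 11], [11, 12, 11, 12, 12, 11, 12, 11, 12, 11],
  [12, 11, 12, 12, 12, 11, 12, 11, 12, 11], [11, 12, 11, 12, 11, 12, 12, 11, 12, 11], [12, 11, 12,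
  11, 12, 12, 12, 11, 12, 11], [11, 12, 11, 12, 11, 12, 11, 12, 12, 11], [12, 12, 11, 12, 11, 12,
  11, 12, 12, 11], [12, 11, 12, 11, 12, 11, 12, 12, 12, 11], [11, 12, 12, 11, 12, 11, 12, 12, 12,
  11], [12, 12, 12, 11, 12, 11, 12, 12, 12, 11], [12, 11, 12, 12, 11, 12, 11, 12, 11, 12], [11,
  12, 12, 12, 11, 12, 11, 12, 11, 12], [12, 11, 12, 11, 12, 12, 11, 12, 11, 12], [11, 12, 11, 12,
  12, 12, 11, 12, 11, 12], [12, 11, 12, 11, 12, 11, 12, 12, 11, 12], [11, 12, 11, 12, 11, 12, 12,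
  12, 11, 12], [12, 12, 11, 12, 11, 12, 12, 12, 11, 12], [11, 12, 12, 11, 12, 11, 12, 11, 12, 12],
  [12, 12, 12, 11, 12, 11, 12, 11, 12, 12], [11, 12, 11, 12, 12, 11, 12, 11, 12, 12], [12, 11, 12,
  12, 12, 11, 12, 11, 12, 12], [11, 12, 11, 12, 11, 12, 11, 12, 12, 12], [12, 12, 11, 12, 11, 12,
  11, 12, 12, 12], [11, 12, 12, 12, 11, 12, 11, 12, 12, 12], [12, 11, 12, 12, 11, 12, 11, 12, 11,
  12, 11], [11, 12, 12, 12, 11, 12, 11, 12, 11, 12, 11], [12, 11, 12, 11, 12, 12, 11, 12, 11, 12,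
  11], [11, 12, 11, 12, 12, 12, 11, 12, 11, 12, 11], [12, 11, 12, 11, 12, 11, 12, 12, 11, 12, 11],
  [11, 12, 11, 12, 11, 12, 12, 12, 11, 12, 11], [12, 12, 11, 12, 11, 12, 12, 12, 11, 12, 11], [11,
  12, 12, 11, 12, 11, 12, 11, 12, 12, 11], [12, 12, 12, 11, 12, 11, 12, 11, 12, 12, 11], [11, 12,
  11, 12, 11, 12, 11, 12, 12, 12, 11], [12, 12, 11, 12, 11, 12, 11, 12, 12, 12, 11], [11, 12, 12,
  12, 11, 12, 11, 12, 12, 12, 11], [11, 12, 11, 12, 12, 11, 12, 11, 12, 11, 12], [12, 11, 12, 12,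
  12, 11, 12, 11, 12, 11, 12], [11, 12, 11, 12, 11, 12, 12, 11, 12, 11, 12], [12, 11, 12, 11, 12,
  12, 12, 11, 12, 11, 12], [11, 12, 11, 12, 11, 12, 11, 12, 12, 11, 12], [12, 11, 12, 11, 12, 11,
  12, 12, 12, 11, 12], [11, 12, 12, 11, 12, 11, 12, 12, 12, 11, 12], [12, 12, 12, 11, 12, 11, 12,
  12, 12, 11, 12], [11, 12, 12, 12, 11, 12, 11, 12, 11, 12, 12], [12, 11, 12, 11, 12, 12, 11, 12,
  11, 12, 12], [11, 12, 11, 12, 12, 12, 11, 12, 11, 12, 12], [11, 12, 12, 11, 12, 11, 12, 11, 12,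
  12, 12], [12, 12, 12, 11, 12, 11, 12, 11, 12, 12, 12], [12, 11, 12, 12, 12, 11, 12, 11, 12, 12,
  12], [11, 12, 11, 12, 12, 11, 12, 11, 12, 11, 12, 11], [12, 11, 12, 12, 12, 11, 12, 11, 12, 11,
  12, 11], [11, 12, 11, 12, 11, 12, 11, 12, 12, 11, 12, 11], [12, 11, 12, 11, 12, 11, 12, 12, 12,
  11, 12, 11], [11, 12, 12, 11, 12, 11, 12, 12, 12, 11, 12, 11], [11, 12, 12, 12, 11, 12, 11, 12,
  11, 12, 12, 11], [11, 12, 12, 11, 12, 11, 12, 11, 12, 12, 12, 11], [12, 12, 12, 11, 12, 11, 12,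
  11, 12, 12, 12, 11], [12, 11, 12, 11, 12, 12, 11, 12, 11, 12, 11, 12], [11, 12, 11, 12, 12, 12,
  11, 12, 11, 12, 11, 12], [12, 11, 12, 11, 12, 11, 12, 12, 11, 12, 11, 12], [12, 12, 11, 12, 11,
  12, 12, 12, 11, 12, 11, 12], [11, 12, 11, 12, 11, 12, 11, 12, 12, 12, 11, 12], [11, 12, 12, 12,
  11, 12, 11, 12, 12, 12, 11, 12], [11, 12, 11, 12, 11, 12, 12, 11, 12, 11, 12, 12], [12, 11, 12,
  11, 12, 12, 12, 11, 12, 11, 12, 12], [11, 12, 12, 12, 11, 12, 11, 12, 11, 12, 12, 12], [11, 12,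
  11, 12, 12, 12, 11, 12, 11, 12, 12, 12], [12, 11, 12, 11, 12, 12, 11, 12, 11, 12, 11, 12, 11],
  [11, 12, 11, 12, 12, 12, 11, 12, 11, 12, 11, 12, 11], [11, 12, 11, 12, 11, 12, 11, 12, 12, 12,
  11, 12, 11], [11, 12, 12, 12, 11, 12, 11, 12, 11, 12, 12, 12, 11], [11, 12, 11, 12, 11, 12, 11,
  12, 12, 11, 12, 11, 12], [11, 12, 12, 11, 12, 11, 12, 12, 12, 11, 12, 11, 12], [12, 11, 12, 11,
  12, 11, 12, 12, 11, 12, 11, 12, 12]]

theorem chk_W : ∀ w ∈ W168, cr 5 11 w ∈ W168 ∧ cr 5 12 w ∈ W168 := by decide +kernel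

section d36c

variable {G : Type} [Group G] {t g : ℕ → G}

/-- normal form -/
def NF (M : Mdl D36 G t g) (x : G) : Prop := ∃ n ∈ NS M, ∃ w ∈ W168, x = n * wv g w

theorem NF_mul (M : Mdl D36 G t g) (y : ℕ) (hy : y < 13) (x : G) (hx : NF M x) :
    NF M (g y * x) := by
  obtain ⟨n, hn, w, hw, rfl⟩ := hx
  by_cases h : y < 11
  · exact ⟨g y * n, NS_g M y h n hn, w, hw, by group⟩
  · obtain ⟨n', hn', h1⟩ := NS_conj M y hy (by omega) n hn
    obtain ⟨n2, hn2, h2⟩ := cr_sound M 5 y hy (by omega) w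
    refine ⟨n' * n2, NS_mul M _ _ hn' hn2, cr 5 y w, ?_, ?_⟩
    · have h3 : y = 11 ∨ y = 12 := by omega
      rcases h3 with rfl | rfl
      · exact (chk_W w hw).1
      · exact (chk_W w hw).2
    · calc g y * (n * wv g w) = (g y * n) * wv g w := by group
        _ = n' * (g y * wv g w) := by rw [h1]; group
        _ = _ := by rw [h2]; group

theorem NF_T (M : Mdl D36 G t g) (s : G) (hs : s ∈ TS M.comm) (x : G) (hx : NF M x) :
    NF M (s * x) := by
  obtain ⟨n, hn, w, hw, rfl⟩ := hx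
  exact ⟨s * n, NS_Tmul M s n hs hn, w, hw, by group⟩

theorem NF_wv (M : Mdl D36 G t g) (u : List ℕ) (hu : ∀ y ∈ u, y < 13) (x : G) (hx : NF M x) :
    NF M (wv g u * x) := by
  induction u with
  | nil => simpa [wv] using hx
  | cons y u ih =>
    rw [wv, mul_assoc]
    exact NF_mul M y (hu y List.mem_cons_self) _ (ih fun z hz => hu z (List.mem_cons_of_mem _ hz))

/-- a word for the inverse of a letter modulo the lattice -/
def iw (y : ℕ) : List ℕ := if y < 11 then [y] else if y = 11 then [11, 1, 0] else [12, 12, 12, 1]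

theorem iw_lt (y : ℕ) (hy : y < 13) : ∀ z ∈ iw y, z < 13 := by
  intro z hz
  rw [iw] at hz
  split_ifs at hz with h1 h2 <;> simp at hz <;> omega

theorem iw_mem (M : Mdl D36 G t g) (y : ℕ) (hy : y < 13) : g y * wv g (iw y) ∈ TS M.comm := by
  have hsq : ∀ y < 11, g y * g y ∈ TS M.comm := by
    intro y hy
    obtain ⟨s, hs, h1⟩ := rule_eq M _ _ (chk_sq y hy)
    simp only [wv, mul_one] at h1
    rw [h1]; exact hs
  rw [iw]
  split_ifs with h1 h2
  · simpa [wv] using hsq y h1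
  · subst h2
    obtain ⟨s, hs, h3⟩ := rule_eq M [11, 11] [0, 1] (by decide +kernel)
    simp only [wv, mul_one] at h3 ⊢
    have h4 : g 11 * (g 11 * (g 1 * g 0)) = s * ((g 0 * (g 1 * g 1) * (g 0)⁻¹) * (g 0 * g 0)) := by
      calc g 11 * (g 11 * (g 1 * g 0)) = (g 11 * g 11) * (g 1 * g 0) := by group
        _ = _ := by rw [h3]; group
    rw [h4]
    exact (TS M.comm).mul_mem hs ((TS M.comm).mul_mem
      (conj_TS M 0 (by omega) _ (hsq 1 (by omega))) (hsq 0 (by omega)))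
  · have h4 : y = 12 := by omega
    subst h4
    obtain ⟨s, hs, h3⟩ := rule_eq M [12, 12, 12, 12] [1] (by decide +kernel)
    simp only [wv, mul_one] at h3 ⊢
    have h4 : g 12 * (g 12 * (g 12 * (g 12 * g 1))) = s * (g 1 * g 1) := by
      calc g 12 * (g 12 * (g 12 * (g 12 * g 1))) = (g 12 * (g 12 * (g 12 * g 12))) * g 1 := by group
        _ = _ := by rw [h3]; group
    rw [h4]
    exact (TS M.comm).mul_mem hs (hsq 1 (by omega))

theorem inv_eq (M : Mdl D36 G t g) (y : ℕ) (hy : y < 13) :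
    ∃ s ∈ TS M.comm, (g y)⁻¹ = wv g (iw y) * s := by
  refine ⟨(g y * wv g (iw y))⁻¹, (TS M.comm).inv_mem (iw_mem M y hy), ?_⟩
  group

theorem NF_inv (M : Mdl D36 G t g) (y : ℕ) (hy : y < 13) (x : G) (hx : NF M x) :
    NF M ((g y)⁻¹ * x) := by
  obtain ⟨s, hs, h⟩ := inv_eq M y hy
  rw [h, mul_assoc]
  exact NF_wv M _ (iw_lt y hy) _ (NF_T M s hs x hx)

theorem conj_inv (M : Mdl D36 G t g) (y : ℕ) (hy : y < 13) (x : G) (hx : x ∈ TS M.comm) :
    (g y)⁻¹ * x * g y ∈ TS M.comm := by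
  obtain ⟨s, hs, h⟩ := inv_eq M y hy
  have h1 : (g y)⁻¹ * x * g y = wv g (iw y) * (s * x * s⁻¹) * (wv g (iw y))⁻¹ := by
    have h2 : g y = s⁻¹ * (wv g (iw y))⁻¹ := by
      rw [← mul_inv_rev, ← h, inv_inv]
    rw [h]
    conv_lhs => rw [h2]
    group
  rw [h1]
  exact conj_wv M _ (iw_lt y hy) _ ((TS M.comm).mul_mem ((TS M.comm).mul_mem hs hx)
    ((TS M.comm).inv_mem hs))

end d36c

/-- the lattice of the group -/
abbrev TX : Subgroup (XG D36) := TS (XG_mdl D36).comm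

theorem NF_all (x : XG D36) : NF (XG_mdl D36) x := by
  have hx : x ∈ Subgroup.closure ({x | ∃ i < 36, x = xt D36 i} ∪
    {x | ∃ y < 13, x = xg D36 y}) := by rw [XG_gen]; trivial
  refine Subgroup.closure_induction_left (p := fun x _ => NF (XG_mdl D36) x) ?_ ?_ ?_ hx
  · exact ⟨1, NS_T _ 1 (Subgroup.one_mem _), [], by decide +kernel, by simp [wv]⟩
  · rintro x (⟨i, hi, rfl⟩ | ⟨y, hy, rfl⟩) z _ hz
    · exact NF_T _ _ (t_mem _ i hi) _ hz
    · exact NF_mul _ y hy _ hz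
  · rintro x (⟨i, hi, rfl⟩ | ⟨y, hy, rfl⟩) z _ hz
    · exact NF_T _ _ (Subgroup.inv_mem _ (t_mem _ i hi)) _ hz
    · exact NF_inv _ y hy _ hz

/-- (N1) the normal form -/
theorem normal_form (x : XG D36) : ∃ (v : ℕ → ℤ) (K w : List ℕ), K.Pairwise (· < ·) ∧
    (∀ y ∈ K, y < 11) ∧ w ∈ W168 ∧ x = tp (xt D36) v 36 * wv (xg D36) K * wv (xg D36) w := by
  obtain ⟨_, ⟨_, ⟨v, rfl⟩, K, hK, rfl⟩, w, hw, rfl⟩ := NF_all x
  exact ⟨v, K, w, hK.1, hK.2, hw, rfl⟩

theorem TX_normal : TX.Normal := by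
  constructor
  intro n hn x
  have hx : x ∈ Subgroup.closure ({x | ∃ i < 36, x = xt D36 i} ∪
    {x | ∃ y < 13, x = xg D36 y}) := by rw [XG_gen]; trivial
  revert n
  refine Subgroup.closure_induction_left
    (p := fun x _ => ∀ n ∈ TX, x * n * x⁻¹ ∈ TX) ?_ ?_ ?_ hx
  · intro n hn; simpa using hn
  · rintro x (⟨i, hi, rfl⟩ | ⟨y, hy, rfl⟩) z _ hz n hn
    · have h1 : xt D36 i * z * n * (xt D36 i * z)⁻¹ = xt D36 i * (z * n * z⁻¹) * (xt D36 i)⁻¹ := by
        group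
      rw [h1]
      exact Subgroup.mul_mem _ (Subgroup.mul_mem _ (t_mem _ i hi) (hz n hn))
        (Subgroup.inv_mem _ (t_mem _ i hi))
    · have h1 : xg D36 y * z * n * (xg D36 y * z)⁻¹ = xg D36 y * (z * n * z⁻¹) * (xg D36 y)⁻¹ := by
        group
      rw [h1]
      exact conj_TS (XG_mdl D36) y hy _ (hz n hn)
  · rintro x (⟨i, hi, rfl⟩ | ⟨y, hy, rfl⟩) z _ hz n hn
    · have h1 : (xt D36 i)⁻¹ * z * n * ((xt D36 i)⁻¹ * z)⁻¹
          = (xt D36 i)⁻¹ * (z * n * z⁻¹) * xt D36 i := by group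
      rw [h1]
      exact Subgroup.mul_mem _ (Subgroup.mul_mem _ (Subgroup.inv_mem _ (t_mem _ i hi)) (hz n hn))
        (t_mem _ i hi)
    · have h1 : (xg D36 y)⁻¹ * z * n * ((xg D36 y)⁻¹ * z)⁻¹
          = (xg D36 y)⁻¹ * (z * n * z⁻¹) * xg D36 y := by group
      rw [h1]
      exact conj_inv (XG_mdl D36) y hy _ (hz n hn)

/-- the strictly increasing words -/
theorem IsK_finite : {K : List ℕ | IsK K}.Finite := by
  refine Set.Finite.subset (List.finite_toSet (List.range 11).sublists) ?_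
  intro K hK
  show K ∈ (List.range 11).sublists
  rw [List.mem_sublists]
  refine List.sublist_of_subperm_of_pairwise (r := (· < ·)) ?_ hK.1 List.pairwise_lt_range
  refine List.subperm_of_subset (hK.1.imp (fun h => Nat.ne_of_lt h)) ?_
  intro y hy
  exact List.mem_range.mpr (hK.2 y hy)

theorem TX_index : TX.index ≠ 0 := by
  have := TX_normal
  have hfin : Finite (XG D36 ⧸ TX) := by
    have hK : Finite {K : List ℕ // IsK K} := IsK_finite.to_subtype
    have hW : Finite {w : List ℕ // w ∈ W168} := (List.finite_toSet W168).to_subtype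
    let f : {K : List ℕ // IsK K} × {w : List ℕ // w ∈ W168} → XG D36 ⧸ TX := fun q =>
      ((wv (xg D36) q.1.1 * wv (xg D36) q.2.1 : XG D36) : XG D36 ⧸ TX)
    refine Finite.of_surjective f ?_
    intro q
    induction q using QuotientGroup.induction_on with
    | H x =>
      obtain ⟨_, ⟨s, hs, K, hK, rfl⟩, w, hw, rfl⟩ := NF_all x
      refine ⟨⟨⟨K, hK⟩, ⟨w, hw⟩⟩, ?_⟩
      show ((wv (xg D36) K * wv (xg D36) w : XG D36) : XG D36 ⧸ TX) = _
      rw [QuotientGroup.eq]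
      have h1 := TX_normal.conj_mem _ hs (wv (xg D36) K * wv (xg D36) w)⁻¹
      convert h1 using 1
      group
  exact Subgroup.index_ne_zero_of_finite

/-- the translations -/
noncomputable def tau : Multiplicative (Fin 36 → ℤ) →* XG D36 where
  toFun v := tp (xt D36) (fun i => if h : i < 36 then (Multiplicative.toAdd v) ⟨i, h⟩ else 0) 36
  map_one' := by
    rw [← nf_tp_zero (xt D36) 36]
    apply tp_congr_v
    intro i hi
    rw [dif_pos hi]
    rfl
  map_mul' v w := by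
    rw [← tp_add (XG_mdl D36).comm _ _ 36 le_rfl]
    apply tp_congr_v
    intro i hi
    rw [dif_pos hi, dif_pos hi, dif_pos hi]
    rfl

theorem tau_range : tau.range = TX := by
  ext x
  constructor
  · rintro ⟨v, rfl⟩
    exact ⟨_, rfl⟩
  · rintro ⟨v, rfl⟩
    refine ⟨Multiplicative.ofAdd (fun i => v i.1), ?_⟩
    show tp (xt D36) _ 36 = _
    apply tp_congr_v
    intro i hi
    rw [dif_pos hi]
    rfl

theorem tau_inj (h : ∀ v : ℕ → ℤ, tp (xt D36) v 36 = 1 → ∀ i < 36, v i = 0) :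
    Function.Injective tau := by
  rw [injective_iff_map_eq_one]
  intro v hv
  have h1 := h _ hv
  have h2 : Multiplicative.toAdd v = 0 := by
    ext i
    have := h1 i.1 i.2
    rwa [dif_pos i.2] at this
  exact h2

/-- (N2) `XG D36` is virtually abelian, residually finite, ... -/
theorem XG_cryst (h : ∀ v : ℕ → ℤ, tp (xt D36) v 36 = 1 → ∀ i < 36, v i = 0) :
    VRC.VAN (XG D36) ∧ VRC.RF (XG D36) ∧ VRC.VI (XG D36) :=
  VRC.prf_Cryst (XG D36) 36 tau (tau_inj h) (by rw [tau_range]; exact TX_normal)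
    (by rw [tau_range]; exact TX_index)

end VRC.Pk

end

section

/-! # Kernel checks of the affine representation in dimension 15 -/

set_option autoImplicit false
set_option maxRecDepth 100000

namespace VRC.Cx.D15

theorem c_rules : xK 280 (fun x => chkRs Ls Z0 Bc x VRC.Pk.D36.R) 15 [] = true := by
  decide +kernel

theorem c_acts : chkActs Z0 Bc VRC.Pk.D36.M Ls = true := by decide +kernel

theorem c_inv : xK 280 (fun x => chkInv Ls Z0 x 13) 15 [] = true := by decide +kernel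

end VRC.Cx.D15

end

section

set_option autoImplicit false

/-! Soundness, part 2: the lattice and its bilinear form. -/

namespace VRC.Pk

open Finset

attribute [local irreducible] B NN

/-- the lattice generators commute up to central elements -/
structure Lat {E C : Type} [Group E] [CommGroup C] (ι : C →* E) (t : ℕ → E) (c : ℕ → C) :
    Prop where
  cen : ∀ (z : C) (x : E), ι z * x = x * ι z
  inj : Function.Injective ι
  com : ∀ i j, i < 36 → j < i → t i * t j = t j * t i * ι (c (36 * i + j))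
  tri : ∀ i j, i < 36 → j < 36 → i ≤ j → c (36 * i + j) = 1

/-- the bilinear form -/
def Q {C : Type} [CommGroup C] (c : ℕ → C) (u w : ℕ → ℤ) : C :=
  ∏ i ∈ range 36, ∏ j ∈ range 36, c (36 * i + j) ^ (u i * w j)

section Q

variable {C : Type} [CommGroup C] (c : ℕ → C)

theorem Q_add_left (u v w : ℕ → ℤ) : Q c (fun i => u i + v i) w = Q c u w * Q c v w := by
  simp only [Q, add_mul, zpow_add, prod_mul_distrib]

theorem Q_add_right (u v w : ℕ → ℤ) : Q c u (fun i => v i + w i) = Q c u v * Q c u w := by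
  simp only [Q, mul_add, zpow_add, prod_mul_distrib]

theorem Q_neg_left (u w : ℕ → ℤ) : Q c (fun i => - u i) w = (Q c u w)⁻¹ := by
  simp only [Q, neg_mul, zpow_neg, prod_inv_distrib]

theorem Q_neg_right (u w : ℕ → ℤ) : Q c u (fun i => - w i) = (Q c u w)⁻¹ := by
  simp only [Q, mul_neg, zpow_neg, prod_inv_distrib]

theorem Q_mul_left (m : ℤ) (u w : ℕ → ℤ) : Q c (fun i => m * u i) w = Q c u w ^ m := by
  simp only [Q, ← prod_zpow, ← zpow_mul]
  apply prod_congr rfl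
  intro i _
  apply prod_congr rfl
  intro j _
  congr 1
  ring

theorem Q_mul_right (m : ℤ) (u w : ℕ → ℤ) : Q c u (fun i => m * w i) = Q c u w ^ m := by
  simp only [Q, ← prod_zpow, ← zpow_mul]
  apply prod_congr rfl
  intro i _
  apply prod_congr rfl
  intro j _
  congr 1
  ring

theorem Q_congr {u u' w w' : ℕ → ℤ} (h : ∀ i < 36, u i = u' i) (h' : ∀ i < 36, w i = w' i) :
    Q c u w = Q c u' w' := by
  apply prod_congr rfl
  intro i hi
  apply prod_congr rfl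
  intro j hj
  rw [h i (mem_range.mp hi), h' j (mem_range.mp hj)]

theorem prod_range_prod (m n : ℕ) (f : ℕ → C) :
    ∏ k ∈ range (m * n), f k = ∏ i ∈ range n, ∏ j ∈ range m, f (m * i + j) := by
  induction n with
  | zero => simp
  | succ n ih => rw [mul_add, mul_one, prod_range_add, ih, prod_range_succ]

theorem RV.quad {P N P' N' : ℕ → ℕ} {b b' : ℕ} (h : ∀ i, P i + N i ≤ b)
    (h' : ∀ i, P' i + N' i ≤ b') :
    RV c (pk 36 36 P * pk 1 36 P' + pk 36 36 N * pk 1 36 N')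
      (pk 36 36 P * pk 1 36 N' + pk 36 36 N * pk 1 36 P') (b * b')
      (Q c (fun i => (P i : ℤ) - (N i : ℤ)) (fun i => (P' i : ℤ) - (N' i : ℤ))) := by
  have hNN : 36 * 36 ≤ NN := by unfold NN; norm_num
  refine ⟨fun k => if k < 36 * 36 then P (k / 36) * P' (k % 36) + N (k / 36) * N' (k % 36) else 0,
    fun k => if k < 36 * 36 then P (k / 36) * N' (k % 36) + N (k / 36) * P' (k % 36) else 0,
    fun k => ?_, ?_, ?_, ?_⟩
  · show (if k < 36 * 36 then P (k / 36) * P' (k % 36) + N (k / 36) * N' (k % 36) else 0) +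
      (if k < 36 * 36 then P (k / 36) * N' (k % 36) + N (k / 36) * P' (k % 36) else 0) ≤ b * b'
    split
    · calc _ = (P (k / 36) + N (k / 36)) * (P' (k % 36) + N' (k % 36)) := by ring
        _ ≤ b * b' := Nat.mul_le_mul (h _) (h' _)
    · exact Nat.zero_le _
  · rw [pk_prod 36 36 (by norm_num), pk_prod 36 36 (by norm_num), pk_add, pk_ext _ NN _ hNN]
  · rw [pk_prod 36 36 (by norm_num), pk_prod 36 36 (by norm_num), pk_add, pk_ext _ NN _ hNN]
  · obtain ⟨r, hr⟩ := Nat.exists_eq_add_of_le hNN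
    rw [cv, hr, prod_range_add]
    have h1 : ∏ x ∈ range r, c (36 * 36 + x) ^
        (((if 36 * 36 + x < 36 * 36 then P ((36 * 36 + x) / 36) * P' ((36 * 36 + x) % 36) +
          N ((36 * 36 + x) / 36) * N' ((36 * 36 + x) % 36) else 0 : ℕ) : ℤ) -
        ((if 36 * 36 + x < 36 * 36 then P ((36 * 36 + x) / 36) * N' ((36 * 36 + x) % 36) +
          N ((36 * 36 + x) / 36) * P' ((36 * 36 + x) % 36) else 0 : ℕ) : ℤ)) = 1 := by
      apply prod_eq_one
      intro x _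
      rw [if_neg (by omega), if_neg (by omega)]
      simp
    rw [h1, mul_one, prod_range_prod, Q]
    apply prod_congr rfl
    intro i hi
    apply prod_congr rfl
    intro j hj
    have hi := mem_range.mp hi
    have hj := mem_range.mp hj
    have e1 : (36 * i + j) / 36 = i := by omega
    have e2 : (36 * i + j) % 36 = j := by omega
    have h3 : 36 * i + j < 36 * 36 := by omega
    simp only [if_pos h3, e1, e2]
    congr 1
    push_cast
    ring

theorem RV.lin {P N : ℕ → ℕ} {b : ℕ} (h : ∀ i, P i + N i ≤ b) (o : ℕ) (ho : o + 36 ≤ NN) :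
    RV c (pk 1 36 P * B ^ o) (pk 1 36 N * B ^ o) b
      (∏ i ∈ range 36, c (o + i) ^ ((P i : ℤ) - (N i : ℤ))) := by
  refine ⟨fun k => if o ≤ k ∧ k < o + 36 then P (k - o) else 0,
    fun k => if o ≤ k ∧ k < o + 36 then N (k - o) else 0, fun k => ?_, ?_, ?_, ?_⟩
  · show (if o ≤ k ∧ k < o + 36 then P (k - o) else 0) +
      (if o ≤ k ∧ k < o + 36 then N (k - o) else 0) ≤ b
    split
    · exact h _
    · exact Nat.zero_le _
  · exact pk_shift o 36 NN P ho
  · exact pk_shift o 36 NN N ho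
  · obtain ⟨r, hr⟩ := Nat.exists_eq_add_of_le ho
    rw [cv, hr, prod_range_add, prod_range_add]
    have h1 : ∏ x ∈ range o, c x ^ (((if o ≤ x ∧ x < o + 36 then P (x - o) else 0 : ℕ) : ℤ) -
        ((if o ≤ x ∧ x < o + 36 then N (x - o) else 0 : ℕ) : ℤ)) = 1 := by
      apply prod_eq_one
      intro x hx
      have := mem_range.mp hx
      rw [if_neg (by omega), if_neg (by omega)]
      simp
    have h2 : ∏ x ∈ range r, c (o + 36 + x) ^
        (((if o ≤ o + 36 + x ∧ o + 36 + x < o + 36 then P (o + 36 + x - o) else 0 : ℕ) : ℤ) -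
        ((if o ≤ o + 36 + x ∧ o + 36 + x < o + 36 then N (o + 36 + x - o) else 0 : ℕ) : ℤ)) =
        1 := by
      apply prod_eq_one
      intro x _
      rw [if_neg (by omega), if_neg (by omega)]
      simp
    rw [h1, h2, one_mul, mul_one]
    apply prod_congr rfl
    intro i hi
    have := mem_range.mp hi
    have h3 : o ≤ o + i ∧ o + i < o + 36 := by omega
    simp only [if_pos h3, Nat.add_sub_cancel_left]

end Q

section lat

variable {E C : Type} [Group E] [CommGroup C] {ι : C →* E} {t : ℕ → E} {c : ℕ → C}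

/-- powers of two elements which commute up to a central element -/
theorem comm_pow (hc : ∀ (z : C) (x : E), ι z * x = x * ι z) {x y : E} {z : C}
    (h : x * y = y * x * ι z) (a b : ℤ) : x ^ a * y ^ b = y ^ b * x ^ a * ι (z ^ (a * b)) := by
  have h1 : ∀ a : ℤ, x ^ a * y = y * x ^ a * ι (z ^ a) := by
    intro a
    induction a using Int.induction_on with
    | zero => simp
    | succ a ih =>
      calc x ^ ((a : ℤ) + 1) * y = x ^ (a : ℤ) * (x * y) := by rw [zpow_add_one]; group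
        _ = x ^ (a : ℤ) * y * x * ι z := by rw [h]; group
        _ = y * x ^ (a : ℤ) * (ι (z ^ (a : ℤ)) * x) * ι z := by rw [ih]; group
        _ = y * x ^ (a : ℤ) * (x * ι (z ^ (a : ℤ))) * ι z := by rw [hc]
        _ = y * x ^ ((a : ℤ) + 1) * ι (z ^ ((a : ℤ) + 1)) := by
          rw [zpow_add_one, zpow_add_one, map_mul]; group
    | pred a ih =>
      have h2 : x⁻¹ * y = y * x⁻¹ * ι z⁻¹ := by
        have h3 : y * x = x * y * ι z⁻¹ := by rw [h, map_inv]; group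
        calc x⁻¹ * y = x⁻¹ * (y * x) * x⁻¹ := by group
          _ = y * (ι z⁻¹ * x⁻¹) := by rw [h3]; group
          _ = y * x⁻¹ * ι z⁻¹ := by rw [hc]; group
      calc x ^ (-(a : ℤ) - 1) * y = x ^ (-(a : ℤ)) * (x⁻¹ * y) := by rw [zpow_sub_one]; group
        _ = x ^ (-(a : ℤ)) * y * x⁻¹ * ι z⁻¹ := by rw [h2]; group
        _ = y * x ^ (-(a : ℤ)) * (ι (z ^ (-(a : ℤ))) * x⁻¹) * ι z⁻¹ := by rw [ih]; group
        _ = y * x ^ (-(a : ℤ)) * (x⁻¹ * ι (z ^ (-(a : ℤ)))) * ι z⁻¹ := by rw [hc]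
        _ = y * x ^ (-(a : ℤ) - 1) * ι (z ^ (-(a : ℤ) - 1)) := by
          rw [zpow_sub_one, zpow_sub_one, map_mul]; group
  have h4 : x ^ a * y * (x ^ a)⁻¹ = y * ι (z ^ a) := by
    rw [h1 a, mul_assoc, hc]
    group
  have h5 : Commute y (ι (z ^ a)) := (hc _ _).symm
  calc x ^ a * y ^ b = (x ^ a * y * (x ^ a)⁻¹) ^ b * x ^ a := by rw [conj_zpow]; group
    _ = y ^ b * (ι (z ^ a) ^ b * x ^ a) := by rw [h4, h5.mul_zpow]; group
    _ = y ^ b * x ^ a * ι (z ^ (a * b)) := by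
      rw [← map_zpow, hc, ← mul_assoc, zpow_mul]

/-- the triangular form -/
def Qk (c : ℕ → C) (u w : ℕ → ℤ) (k : ℕ) : C :=
  ∏ i ∈ range k, ∏ j ∈ range i, c (36 * i + j) ^ (u i * w j)

theorem Qk_succ (c : ℕ → C) (u w : ℕ → ℤ) (k : ℕ) : Qk c u w (k + 1) =
    Qk c u w k * ∏ j ∈ range k, c (36 * k + j) ^ (u k * w j) := by
  rw [Qk, Qk, prod_range_succ]

theorem pow_tp (hL : Lat ι t c) (u w : ℕ → ℤ) (k : ℕ) (hk : k < 36) (m : ℕ) (hm : m ≤ k) :
    t k ^ u k * tp t w m =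
      tp t w m * t k ^ u k * ι (∏ j ∈ range m, c (36 * k + j) ^ (u k * w j)) := by
  induction m with
  | zero => simp [tp]
  | succ m ih =>
    have h1 := comm_pow hL.cen (hL.com k m hk (by omega)) (u k) (w m)
    have h2 := ih (by omega)
    have h3 := hL.cen (∏ j ∈ range m, c (36 * k + j) ^ (u k * w j))
    calc t k ^ u k * tp t w (m + 1) = (t k ^ u k * tp t w m) * t m ^ w m := by rw [tp]; group
      _ = tp t w m * t k ^ u k *
          (ι (∏ j ∈ range m, c (36 * k + j) ^ (u k * w j)) * t m ^ w m) := by rw [h2]; group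
      _ = tp t w m * (t k ^ u k * t m ^ w m) *
          ι (∏ j ∈ range m, c (36 * k + j) ^ (u k * w j)) := by rw [h3]; group
      _ = tp t w m * t m ^ w m * t k ^ u k * (ι (c (36 * k + m) ^ (u k * w m)) *
          ι (∏ j ∈ range m, c (36 * k + j) ^ (u k * w j))) := by rw [h1]; group
      _ = tp t w (m + 1) * t k ^ u k *
          ι (∏ j ∈ range (m + 1), c (36 * k + j) ^ (u k * w j)) := by
        rw [← map_mul, prod_range_succ, mul_comm (c (36 * k + m) ^ (u k * w m)), tp]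

theorem tp_mul_k (hL : Lat ι t c) (u w : ℕ → ℤ) (k : ℕ) (hk : k ≤ 36) :
    tp t u k * tp t w k = tp t (fun i => u i + w i) k * ι (Qk c u w k) := by
  induction k with
  | zero => simp [tp, Qk]
  | succ k ih =>
    have h1 := pow_tp hL u w k (by omega) k le_rfl
    calc tp t u (k + 1) * tp t w (k + 1)
        = tp t u k * (t k ^ u k * tp t w k) * t k ^ w k := by rw [tp, tp]; group
      _ = tp t u k * tp t w k * t k ^ u k *
          (ι (∏ j ∈ range k, c (36 * k + j) ^ (u k * w j)) * t k ^ w k) := by rw [h1]; group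
      _ = tp t u k * tp t w k * (t k ^ u k * t k ^ w k) *
          ι (∏ j ∈ range k, c (36 * k + j) ^ (u k * w j)) := by rw [hL.cen]; group
      _ = tp t (fun i => u i + w i) k * (ι (Qk c u w k) * t k ^ (u k + w k)) *
          ι (∏ j ∈ range k, c (36 * k + j) ^ (u k * w j)) := by
        rw [ih (by omega), zpow_add]; group
      _ = tp t (fun i => u i + w i) (k + 1) * ι (Qk c u w (k + 1)) := by
        rw [hL.cen, tp, Qk_succ, map_mul]; group

theorem Qk_eq (hL : Lat ι t c) (u w : ℕ → ℤ) : Qk c u w 36 = Q c u w := by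
  apply prod_congr rfl
  intro i hi
  have hi := mem_range.mp hi
  apply prod_subset (range_subset_range.mpr (le_of_lt hi))
  intro x hx hx'
  have hx := mem_range.mp hx
  have hx' : ¬ x < i := fun h => hx' (mem_range.mpr h)
  rw [hL.tri i x hi hx (by omega), one_zpow]

theorem tp_mul (hL : Lat ι t c) (u w : ℕ → ℤ) :
    tp t u 36 * tp t w 36 = tp t (fun i => u i + w i) 36 * ι (Q c u w) := by
  rw [tp_mul_k hL u w 36 le_rfl, Qk_eq hL]

theorem tp_zero (k : ℕ) : tp t (fun _ => 0) k = 1 := by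
  induction k with
  | zero => rfl
  | succ k ih => rw [tp, ih, zpow_zero, mul_one]

theorem tp_ext {u w : ℕ → ℤ} (k : ℕ) (h : ∀ i < k, u i = w i) : tp t u k = tp t w k := by
  induction k with
  | zero => rfl
  | succ k ih => rw [tp, tp, ih (fun i hi => h i (by omega)), h k (by omega)]

/-- powers -/
theorem tp_pow (hL : Lat ι t c) (u : ℕ → ℤ) (m : ℤ) :
    tp t u 36 ^ m = tp t (fun i => m * u i) 36 * ι (Q c u u ^ (m * (m - 1) / 2)) := by
  have key : ∀ m : ℤ, (m + 1) * (m + 1 - 1) / 2 = m * (m - 1) / 2 + m := by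
    intro m
    have : (m + 1) * (m + 1 - 1) = m * (m - 1) + m * 2 := by ring
    rw [this, Int.add_mul_ediv_right _ _ (by norm_num)]
  have step : ∀ m : ℤ, tp t (fun i => m * u i) 36 * ι (Q c u u ^ (m * (m - 1) / 2)) * tp t u 36 =
      tp t (fun i => (m + 1) * u i) 36 * ι (Q c u u ^ ((m + 1) * (m + 1 - 1) / 2)) := by
    intro m
    rw [mul_assoc, hL.cen, ← mul_assoc, tp_mul hL, Q_mul_left, key, zpow_add, map_mul, mul_assoc,
      ← map_mul, ← map_mul, mul_comm (Q c u u ^ m)]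
    congr 1
    apply tp_ext
    intro i _
    ring
  induction m using Int.induction_on with
  | zero => simp [tp_zero]
  | succ m ih => rw [zpow_add_one, ih, step]
  | pred m ih =>
    have h1 := step (-(m : ℤ) - 1)
    rw [sub_add_cancel] at h1
    rw [zpow_sub_one, ih, ← h1, mul_inv_cancel_right]

end lat

end VRC.Pk

end

section

set_option autoImplicit false

/-! Central tails of the presentation, gauge matrix, certificate: the common interface. -/

namespace VRC.Pk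

open Finset

/-- the relations of the data hold up to central elements: `c (36 i + j)` for the commutators,
`c (1296 + 36 y + i)` for the conjugation of `t_i` by `g_y`, `c (1764 + l)` for the rule `l` -/
structure Cen (D : Dat) {E C : Type} [Group E] [CommGroup C] (ι : C →* E) (t g : ℕ → E)
    (c : ℕ → C) : Prop where
  lat : Lat ι t c
  act : ∀ y i, y < 13 → i < 36 → g y * t i * (g y)⁻¹ =
    tp t (D.mv y i) 36 * ι (c (1296 + (36 * y + i)))
  rul : ∀ l, l < D.R.length → wv g (nthR D.R l).U =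
    tp t (nthR D.R l).vc 36 * ι (c (1764 + l)) * wv g (nthR D.R l).V

/-- the gauge matrix: the change of the tail `1296 + k` when the generator `s` (`s < 36`: `t_s`,
`s = 36 + y`: `g_y`) is multiplied by a central element -/
def eps (D : Dat) (k s : ℕ) : ℤ :=
  if k < 468 then
    (if s = k % 36 then 1 else 0) - (if s < 36 then D.mv (k / 36) (k % 36) s else 0)
  else
    if s < 36 then - (nthR D.R (k - 468)).vc s
    else ((nthR D.R (k - 468)).U.count (s - 36) : ℤ) - ((nthR D.R (k - 468)).V.count (s - 36) : ℤ)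

/-- the certificate: the commutator tails are trivial, and the other ones are removed by the
change of generators given by `W` -/
def Cert (D : Dat) (W : ℕ → ℕ → ℤ) : Prop :=
  ∀ (E C : Type) [Group E] [CommGroup C] (ι : C →* E) (t g : ℕ → E) (c : ℕ → C),
    Cen D ι t g c → (∀ k < 1296, c k = 1) ∧
      ∀ k < 574, c (1296 + k) *
        ∏ s ∈ range 49, (∏ m ∈ range 574, c (1296 + m) ^ W s m) ^ eps D k s = 1

/-- a packed row of `n` digits (digits `d m`, meaning `d m - h`) whose central value is trivial -/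
def ZR {C : Type} [CommGroup C] (c : ℕ → C) (n h V : ℕ) : Prop :=
  ∃ d : ℕ → ℕ, (∀ m, d m < 2 * h) ∧ V = pk 1 n d ∧
    ∏ m ∈ range n, c m ^ ((d m : ℤ) - (h : ℤ)) = 1

end VRC.Pk

end

section

set_option autoImplicit false

/-! Soundness, part 3: elements of the extended lattice and conjugation by a letter. -/

namespace VRC.Pk

open Finset

attribute [local irreducible] B NN

section EV

variable {E C : Type} [Group E] [CommGroup C] (ι : C →* E) (t : ℕ → E) (c : ℕ → C)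

/-- value of a packed element -/
def EV (e : El) (x : E) : Prop :=
  ∃ (P N : ℕ → ℕ) (z : C), (∀ i, P i + N i ≤ e.b) ∧ e.p = pk 1 36 P ∧ e.n = pk 1 36 N ∧
    e.p6 = pk 36 36 P ∧ e.n6 = pk 36 36 N ∧ RV c e.rp e.rn e.rb z ∧
    x = tp t (fun i => (P i : ℤ) - (N i : ℤ)) 36 * ι z

/-- conditional value: valid if the bound is small -/
def Sd (e : El) (x : E) : Prop := e.rb < B → EV ι t c e x

/-- value of the vector of a table -/
def WV (w : Wt) (bw : ℕ) (W : ℕ → ℤ) : Prop :=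
  ∃ P N : ℕ → ℕ, (∀ i, P i + N i ≤ bw) ∧ w.p = pk 1 36 P ∧ w.n = pk 1 36 N ∧
    w.p6 = pk 36 36 P ∧ w.n6 = pk 36 36 N ∧ w.qp = w.p6 * w.p + w.n6 * w.n ∧
    w.qn = w.p6 * w.n + w.n6 * w.p ∧ ∀ i, W i = (P i : ℤ) - (N i : ℤ)

/-- value of an accumulator -/
def AV (a : Ac) (bw : ℕ) (x : E) : Prop :=
  ∃ (P N : ℕ → ℕ) (z : C), (∀ i, P i + N i ≤ a.s * bw) ∧ a.p = pk 1 36 P ∧ a.n = pk 1 36 N ∧
    a.p6 = pk 36 36 P ∧ a.n6 = pk 36 36 N ∧ RV c a.qp a.qn (a.s * bw * (a.s * bw)) z ∧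
    x = tp t (fun i => (P i : ℤ) - (N i : ℤ)) 36 * ι z

/-- the table of the letter `g` -/
def LV (L : Lt) (g : E) : Prop :=
  L.bad < B → ∃ (W : ℕ → ℕ → ℤ) (o : ℕ), L.T.length = 36 ∧
    (∀ i (h : i < L.T.length), WV (L.T[i]) L.bw (W i)) ∧ L.off = 40 * o ∧ o + 36 ≤ NN ∧
    ∀ i < 36, g * t i * g⁻¹ = tp t (W i) 36 * ι (c (o + i))

variable {ι t c}

theorem EV.one : EV ι t c El.one 1 := by
  refine ⟨fun _ => 0, fun _ => 0, 1, fun _ => le_refl _, ?_, ?_, ?_, ?_, RV.one, ?_⟩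
  · simp [El.one, pk]
  · simp [El.one, pk]
  · simp [El.one, pk]
  · simp [El.one, pk]
  · simp only [Nat.cast_zero, sub_zero, tp_zero, map_one, mul_one]

theorem EV.mul (hL : Lat ι t c) {e f : El} {x y : E} (h : EV ι t c e x) (h' : EV ι t c f y) :
    EV ι t c (e.mul f) (x * y) := by
  obtain ⟨P, N, z, h0, h1, h2, h3, h4, h5, h6⟩ := h
  obtain ⟨P', N', z', h0', h1', h2', h3', h4', h5', h6'⟩ := h'
  refine ⟨fun i => P i + P' i, fun i => N i + N' i,
    z * z' * Q c (fun i => (P i : ℤ) - (N i : ℤ)) (fun i => (P' i : ℤ) - (N' i : ℤ)),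
    fun i => ?_, ?_, ?_, ?_, ?_, ?_, ?_⟩
  · have := h0 i
    have := h0' i
    show P i + P' i + (N i + N' i) ≤ e.b + f.b
    omega
  · show e.p + f.p = _
    rw [h1, h1', pk_add]
  · show e.n + f.n = _
    rw [h2, h2', pk_add]
  · show e.p6 + f.p6 = _
    rw [h3, h3', pk_add]
  · show e.n6 + f.n6 = _
    rw [h4, h4', pk_add]
  · show RV c (e.rp + f.rp + (e.p6 * f.p + e.n6 * f.n)) (e.rn + f.rn + (e.p6 * f.n + e.n6 * f.p))
      (e.rb + f.rb + e.b * f.b) _
    rw [h3, h4, h1', h2']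
    exact (h5.mul h5').mul (RV.quad c h0 h0')
  · rw [h6, h6']
    calc tp t (fun i => (P i : ℤ) - (N i : ℤ)) 36 * ι z *
        (tp t (fun i => (P' i : ℤ) - (N' i : ℤ)) 36 * ι z') =
        tp t (fun i => (P i : ℤ) - (N i : ℤ)) 36 *
        (ι z * tp t (fun i => (P' i : ℤ) - (N' i : ℤ)) 36) * ι z' := by group
      _ = tp t (fun i => (P i : ℤ) - (N i : ℤ)) 36 * tp t (fun i => (P' i : ℤ) - (N' i : ℤ)) 36 *
        ι (z * z') := by rw [hL.cen, map_mul]; group
      _ = _ := by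
        rw [tp_mul hL, mul_assoc, ← map_mul, mul_comm (Q c _ _)]
        congr 1
        apply tp_ext
        intro i _
        push_cast
        ring

theorem Sd.mul (hL : Lat ι t c) {e f : El} {x y : E} (h : Sd ι t c e x) (h' : Sd ι t c f y) :
    Sd ι t c (e.mul f) (x * y) := by
  intro hb
  have hb : e.rb + f.rb + e.b * f.b < B := hb
  exact (h (by omega)).mul hL (h' (by omega))

/-- conjugation by an element of the extended lattice -/
theorem EV.ct (hL : Lat ι t c) {e f : El} {x y : E} (h : EV ι t c e x) (h' : EV ι t c f y) :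
    EV ι t c (El.ct e f) (x * y * x⁻¹) := by
  obtain ⟨P, N, z, h0, h1, h2, h3, h4, h5, h6⟩ := h
  obtain ⟨P', N', z', h0', h1', h2', h3', h4', h5', h6'⟩ := h'
  refine ⟨P', N', z' *
    (Q c (fun i => (P i : ℤ) - (N i : ℤ)) (fun i => (P' i : ℤ) - (N' i : ℤ)) *
    (Q c (fun i => (P' i : ℤ) - (N' i : ℤ)) (fun i => (P i : ℤ) - (N i : ℤ)))⁻¹),
    h0', h1', h2', h3', h4', ?_, ?_⟩
  · show RV c (f.rp + (e.p6 * f.p + e.n6 * f.n + (f.p6 * e.n + f.n6 * e.p)))
      (f.rn + (e.p6 * f.n + e.n6 * f.p + (f.p6 * e.p + f.n6 * e.n)))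
      (f.rb + 2 * (e.b * f.b)) _
    rw [h3, h4, h1', h2', h3', h4', h1, h2]
    have := h5'.mul ((RV.quad c h0 h0').mul (RV.quad c h0' h0).inv)
    refine this.mono ?_
    rw [mul_comm f.b e.b]
    omega
  · rw [h6, h6']
    set u : ℕ → ℤ := fun i => (P i : ℤ) - (N i : ℤ)
    set v : ℕ → ℤ := fun i => (P' i : ℤ) - (N' i : ℤ)
    have e1 : tp t u 36 * tp t v 36 = tp t v 36 * tp t u 36 * ι (Q c u v * (Q c v u)⁻¹) := by
      rw [tp_mul hL u v, tp_mul hL v u, mul_assoc, ← map_mul]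
      congr 1
      · apply tp_ext
        intro i _
        ring
      · congr 1
        rw [mul_comm (Q c u v), mul_inv_cancel_left]
    calc tp t u 36 * ι z * (tp t v 36 * ι z') * (tp t u 36 * ι z)⁻¹ =
        tp t u 36 * (ι z * (tp t v 36 * ι z' * (ι z)⁻¹)) * (tp t u 36)⁻¹ := by group
      _ = tp t u 36 * (tp t v 36 * ι z') * (tp t u 36)⁻¹ := by rw [hL.cen]; group
      _ = (tp t u 36 * tp t v 36) * (ι z' * (tp t u 36)⁻¹) := by group
      _ = tp t v 36 * tp t u 36 * (ι (Q c u v * (Q c v u)⁻¹) * (tp t u 36)⁻¹) * ι z' := by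
        rw [hL.cen, e1]; group
      _ = tp t v 36 * (ι (Q c u v * (Q c v u)⁻¹) * ι z') := by rw [hL.cen]; group
      _ = tp t v 36 * ι (z' * (Q c u v * (Q c v u)⁻¹)) := by
        rw [← map_mul, mul_comm z']

theorem AV.pos (hL : Lat ι t c) {a : Ac} {bw : ℕ} {x : E} {w : Wt} {W : ℕ → ℤ}
    (h : AV ι t c a bw x) (hw : WV w bw W) (k : ℕ) :
    AV ι t c (a.pos k w) bw (x * tp t W 36 ^ (k : ℤ)) := by
  obtain ⟨P, N, z, h0, h1, h2, h3, h4, h5, h6⟩ := h
  obtain ⟨P', N', h0', h1', h2', h3', h4', h5', h6', h7'⟩ := hw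
  have hk : (k : ℤ) * ((k : ℤ) - 1) / 2 = ((k * (k - 1) / 2 : ℕ) : ℤ) := by
    cases k with
    | zero => simp
    | succ k => push_cast; simp
  refine ⟨fun i => P i + k * P' i, fun i => N i + k * N' i,
    z * Q c W W ^ (k * (k - 1) / 2) *
      Q c (fun i => (P i : ℤ) - (N i : ℤ)) (fun i => ((k * P' i : ℕ) : ℤ) - ((k * N' i : ℕ) : ℤ)),
    fun i => ?_, ?_, ?_, ?_, ?_, ?_, ?_⟩
  · show P i + k * P' i + (N i + k * N' i) ≤ (a.s + k) * bw
    have := h0 i
    have h8 : k * (P' i + N' i) ≤ k * bw := Nat.mul_le_mul_left _ (h0' i)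
    rw [mul_add] at h8
    rw [add_mul]
    omega
  · show a.p + k * w.p = _
    rw [h1, h1', pk_mul, pk_add]
  · show a.n + k * w.n = _
    rw [h2, h2', pk_mul, pk_add]
  · show a.p6 + k * w.p6 = _
    rw [h3, h3', pk_mul, pk_add]
  · show a.n6 + k * w.n6 = _
    rw [h4, h4', pk_mul, pk_add]
  · show RV c (a.qp + (k * (k - 1) / 2) * w.qp + (a.p6 * (k * w.p) + a.n6 * (k * w.n)))
      (a.qn + (k * (k - 1) / 2) * w.qn + (a.p6 * (k * w.n) + a.n6 * (k * w.p)))
      ((a.s + k) * bw * ((a.s + k) * bw)) _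
    have q1 : RV c w.qp w.qn (bw * bw) (Q c W W) := by
      rw [h5', h6', h1', h2', h3', h4']
      have : Q c W W = Q c (fun i => (P' i : ℤ) - (N' i : ℤ)) (fun i => (P' i : ℤ) - (N' i : ℤ)) :=
        Q_congr c (fun i _ => h7' i) (fun i _ => h7' i)
      rw [this]
      exact RV.quad c h0' h0'
    have q2 := RV.quad c (P := P) (N := N) (P' := fun i => k * P' i) (N' := fun i => k * N' i) h0
      (b' := k * bw) (fun i => by
        show k * P' i + k * N' i ≤ k * bw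
        rw [← mul_add]
        exact Nat.mul_le_mul_left _ (h0' i))
    rw [← pk_mul, ← pk_mul, ← h1', ← h2', ← h3, ← h4] at q2
    refine ((h5.mul (q1.pow (k * (k - 1) / 2))).mul q2).mono ?_
    have h8 : k * (k - 1) / 2 ≤ k * k := (Nat.div_le_self _ _).trans
      (Nat.mul_le_mul_left _ (Nat.sub_le _ _))
    calc a.s * bw * (a.s * bw) + (k * (k - 1) / 2) * (bw * bw) + a.s * bw * (k * bw)
        ≤ a.s * bw * (a.s * bw) + (k * k) * (bw * bw) + a.s * bw * (k * bw) := by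
          have := Nat.mul_le_mul_right (bw * bw) h8
          omega
      _ ≤ (a.s + k) * bw * ((a.s + k) * bw) := by
          have : (a.s + k) * bw * ((a.s + k) * bw) = a.s * bw * (a.s * bw) + (k * k) * (bw * bw) +
            a.s * bw * (k * bw) + a.s * bw * (k * bw) := by ring
          omega
  · have e0 : tp t W 36 = tp t (fun i => (P' i : ℤ) - (N' i : ℤ)) 36 :=
      tp_ext 36 (fun i _ => h7' i)
    rw [h6, tp_pow hL, hk, zpow_natCast]
    set u : ℕ → ℤ := fun i => (P i : ℤ) - (N i : ℤ)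
    set v : ℕ → ℤ := fun i => ((k * P' i : ℕ) : ℤ) - ((k * N' i : ℕ) : ℤ)
    have e1 : tp t (fun i => (k : ℤ) * W i) 36 = tp t v 36 := by
      apply tp_ext
      intro i _
      show (k : ℤ) * W i = ((k * P' i : ℕ) : ℤ) - ((k * N' i : ℕ) : ℤ)
      rw [h7']
      push_cast
      ring
    rw [e1]
    calc tp t u 36 * ι z * (tp t v 36 * ι (Q c W W ^ (k * (k - 1) / 2))) =
        tp t u 36 * (ι z * tp t v 36) * ι (Q c W W ^ (k * (k - 1) / 2)) := by group
      _ = tp t u 36 * tp t v 36 * (ι z * ι (Q c W W ^ (k * (k - 1) / 2))) := by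
        rw [hL.cen]; group
      _ = tp t (fun i => ((P i + k * P' i : ℕ) : ℤ) - ((N i + k * N' i : ℕ) : ℤ)) 36 *
          ι (z * Q c W W ^ (k * (k - 1) / 2) * Q c u v) := by
        rw [tp_mul hL u v, ← map_mul, mul_assoc, ← map_mul, mul_comm (Q c u v)]
        congr 1
        apply tp_ext
        intro i _
        show (P i : ℤ) - (N i : ℤ) + (((k * P' i : ℕ) : ℤ) - ((k * N' i : ℕ) : ℤ)) = _
        push_cast
        ring

theorem AV.neg (hL : Lat ι t c) {a : Ac} {bw : ℕ} {x : E} {w : Wt} {W : ℕ → ℤ}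
    (h : AV ι t c a bw x) (hw : WV w bw W) (k : ℕ) :
    AV ι t c (a.neg k w) bw (x * tp t W 36 ^ (-(k : ℤ))) := by
  obtain ⟨P, N, z, h0, h1, h2, h3, h4, h5, h6⟩ := h
  obtain ⟨P', N', h0', h1', h2', h3', h4', h5', h6', h7'⟩ := hw
  have hk : -(k : ℤ) * (-(k : ℤ) - 1) / 2 = ((k * (k + 1) / 2 : ℕ) : ℤ) := by
    push_cast
    congr 1
    ring
  refine ⟨fun i => P i + k * N' i, fun i => N i + k * P' i,
    z * Q c W W ^ (k * (k + 1) / 2) *
      Q c (fun i => (P i : ℤ) - (N i : ℤ)) (fun i => ((k * N' i : ℕ) : ℤ) - ((k * P' i : ℕ) : ℤ)),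
    fun i => ?_, ?_, ?_, ?_, ?_, ?_, ?_⟩
  · show P i + k * N' i + (N i + k * P' i) ≤ (a.s + k) * bw
    have := h0 i
    have h8 : k * (P' i + N' i) ≤ k * bw := Nat.mul_le_mul_left _ (h0' i)
    rw [mul_add] at h8
    rw [add_mul]
    omega
  · show a.p + k * w.n = _
    rw [h1, h2', pk_mul, pk_add]
  · show a.n + k * w.p = _
    rw [h2, h1', pk_mul, pk_add]
  · show a.p6 + k * w.n6 = _
    rw [h3, h4', pk_mul, pk_add]
  · show a.n6 + k * w.p6 = _
    rw [h4, h3', pk_mul, pk_add]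
  · show RV c (a.qp + (k * (k + 1) / 2) * w.qp + (a.p6 * (k * w.n) + a.n6 * (k * w.p)))
      (a.qn + (k * (k + 1) / 2) * w.qn + (a.p6 * (k * w.p) + a.n6 * (k * w.n)))
      ((a.s + k) * bw * ((a.s + k) * bw)) _
    have q1 : RV c w.qp w.qn (bw * bw) (Q c W W) := by
      rw [h5', h6', h1', h2', h3', h4']
      have : Q c W W = Q c (fun i => (P' i : ℤ) - (N' i : ℤ)) (fun i => (P' i : ℤ) - (N' i : ℤ)) :=
        Q_congr c (fun i _ => h7' i) (fun i _ => h7' i)
      rw [this]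
      exact RV.quad c h0' h0'
    have q2 := RV.quad c (P := P) (N := N) (P' := fun i => k * N' i) (N' := fun i => k * P' i) h0
      (b' := k * bw) (fun i => by
        show k * N' i + k * P' i ≤ k * bw
        rw [← mul_add, add_comm]
        exact Nat.mul_le_mul_left _ (h0' i))
    rw [← pk_mul, ← pk_mul, ← h1', ← h2', ← h3, ← h4] at q2
    refine ((h5.mul (q1.pow (k * (k + 1) / 2))).mul q2).mono ?_
    have h8 : k * (k + 1) / 2 ≤ k * k := by
      apply Nat.div_le_of_le_mul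
      cases k with
      | zero => simp
      | succ k => nlinarith
    calc a.s * bw * (a.s * bw) + (k * (k + 1) / 2) * (bw * bw) + a.s * bw * (k * bw)
        ≤ a.s * bw * (a.s * bw) + (k * k) * (bw * bw) + a.s * bw * (k * bw) := by
          have := Nat.mul_le_mul_right (bw * bw) h8
          omega
      _ ≤ (a.s + k) * bw * ((a.s + k) * bw) := by
          have : (a.s + k) * bw * ((a.s + k) * bw) = a.s * bw * (a.s * bw) + (k * k) * (bw * bw) +
            a.s * bw * (k * bw) + a.s * bw * (k * bw) := by ring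
          omega
  · rw [h6, tp_pow hL, hk, zpow_natCast]
    set u : ℕ → ℤ := fun i => (P i : ℤ) - (N i : ℤ)
    set v : ℕ → ℤ := fun i => ((k * N' i : ℕ) : ℤ) - ((k * P' i : ℕ) : ℤ)
    have e1 : tp t (fun i => -(k : ℤ) * W i) 36 = tp t v 36 := by
      apply tp_ext
      intro i _
      show -(k : ℤ) * W i = ((k * N' i : ℕ) : ℤ) - ((k * P' i : ℕ) : ℤ)
      rw [h7']
      push_cast
      ring
    rw [e1]
    calc tp t u 36 * ι z * (tp t v 36 * ι (Q c W W ^ (k * (k + 1) / 2))) =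
        tp t u 36 * (ι z * tp t v 36) * ι (Q c W W ^ (k * (k + 1) / 2)) := by group
      _ = tp t u 36 * tp t v 36 * (ι z * ι (Q c W W ^ (k * (k + 1) / 2))) := by
        rw [hL.cen]; group
      _ = tp t (fun i => ((P i + k * N' i : ℕ) : ℤ) - ((N i + k * P' i : ℕ) : ℤ)) 36 *
          ι (z * Q c W W ^ (k * (k + 1) / 2) * Q c u v) := by
        rw [tp_mul hL u v, ← map_mul, mul_assoc, ← map_mul, mul_comm (Q c u v)]
        congr 1
        apply tp_ext
        intro i _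
        show (P i : ℤ) - (N i : ℤ) + (((k * N' i : ℕ) : ℤ) - ((k * P' i : ℕ) : ℤ)) = _
        push_cast
        ring

theorem AV.step (hL : Lat ι t c) {a : Ac} {bw : ℕ} {x : E} {w : Wt} {W : ℕ → ℤ}
    (h : AV ι t c a bw x) (hw : WV w bw W) (dp dn : ℕ) :
    AV ι t c (a.step dp dn w) bw (x * tp t W 36 ^ ((dp : ℤ) - (dn : ℤ))) := by
  unfold Ac.step
  cases h1 : Nat.blt dp dn with
  | true =>
    have h2 : dp < dn := by simpa [Nat.blt_eq] using h1
    have h3 : (dp : ℤ) - (dn : ℤ) = -((dn - dp : ℕ) : ℤ) := by omega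
    rw [h3]
    exact h.neg hL hw _
  | false =>
    have h2 : ¬ dp < dn := by
      intro h
      rw [show Nat.blt dp dn = true by simpa [Nat.blt_eq] using h] at h1
      exact Bool.noConfusion h1
    cases h4 : Nat.ble dp dn with
    | true =>
      have h5 : dp = dn := by
        have := Nat.le_of_ble_eq_true h4
        omega
      rw [h5, sub_self, zpow_zero, mul_one]
      exact h
    | false =>
      have h3 : (dp : ℤ) - (dn : ℤ) = ((dp - dn : ℕ) : ℤ) := by omega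
      rw [h3]
      exact h.pos hL hw _

theorem cjLoop_AV (hL : Lat ι t c) {bw : ℕ} (W : ℕ → ℕ → ℤ) (P N : ℕ → ℕ) (hP : ∀ i, P i < B)
    (hN : ∀ i, N i < B) (T : List Wt) : ∀ (k p n : ℕ) (a : Ac),
    AV ι t c a bw (tp (fun i => tp t (W i) 36) (fun i => (P i : ℤ) - (N i : ℤ)) k) →
    (∀ i (h : i < T.length), WV (T[i]) bw (W (k + i))) →
    p = pk 1 T.length (fun i => P (k + i)) → n = pk 1 T.length (fun i => N (k + i)) →
    AV ι t c (cjLoop T p n a) bw
      (tp (fun i => tp t (W i) 36) (fun i => (P i : ℤ) - (N i : ℤ)) (k + T.length)) := by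
  induction T with
  | nil =>
    intro k p n a h _ _ _
    exact h
  | cons w T ih =>
    intro k p n a h hw hp hn
    rw [cjLoop]
    have h1 : (w :: T).length = T.length + 1 := rfl
    rw [h1, pk_front] at hp hn
    have hp1 : Nat.mod p B = P k := by
      show p % B = _
      rw [hp, Nat.add_mul_mod_self_left, Nat.mod_eq_of_lt (hP _)]
      rfl
    have hn1 : Nat.mod n B = N k := by
      show n % B = _
      rw [hn, Nat.add_mul_mod_self_left, Nat.mod_eq_of_lt (hN _)]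
      rfl
    have hp2 : Nat.div p B = pk 1 T.length (fun i => P (k + 1 + i)) := by
      show p / B = _
      rw [hp, Nat.add_mul_div_left _ _ B_pos, Nat.div_eq_of_lt (hP _), zero_add]
      congr 1
      funext i
      congr 1
      omega
    have hn2 : Nat.div n B = pk 1 T.length (fun i => N (k + 1 + i)) := by
      show n / B = _
      rw [hn, Nat.add_mul_div_left _ _ B_pos, Nat.div_eq_of_lt (hN _), zero_add]
      congr 1
      funext i
      congr 1
      omega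
    rw [hp1, hn1, hp2, hn2]
    have h2 := ih (k + 1) _ _ (a.step (P k) (N k) w) (h.step hL (hw 0 (by simp)) (P k) (N k))
      (fun i hi => by
        have := hw (i + 1) (by simp only [List.length_cons]; omega)
        have e1 : k + (i + 1) = k + 1 + i := by omega
        rw [e1] at this
        exact this) rfl rfl
    have e2 : k + (T.length + 1) = k + 1 + T.length := by omega
    rw [h1, e2]
    exact h2

theorem tp_central (hc : ∀ (z : C) (x : E), ι z * x = x * ι z) (s : ℕ → E) (d : ℕ → C)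
    (v : ℕ → ℤ) (k : ℕ) :
    tp (fun i => s i * ι (d i)) v k = tp s v k * ι (∏ i ∈ range k, d i ^ v i) := by
  induction k with
  | zero => simp [tp]
  | succ k ih =>
    have h1 : Commute (s k) (ι (d k)) := (hc _ _).symm
    rw [tp, ih, tp, h1.mul_zpow, prod_range_succ, map_mul, map_zpow]
    calc tp s v k * ι (∏ i ∈ range k, d i ^ v i) * (s k ^ v k * ι (d k) ^ v k) =
        tp s v k * (ι (∏ i ∈ range k, d i ^ v i) * s k ^ v k) * ι (d k) ^ v k := by group
      _ = _ := by rw [hc]; group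

theorem pk_eq_zero {s n : ℕ} {d : ℕ → ℕ} (h : pk s n d = 0) : ∀ i < n, d i = 0 := by
  intro i hi
  rw [pk, sum_eq_zero_iff] at h
  have h1 := h i (mem_range.mpr hi)
  rcases Nat.mul_eq_zero.mp h1 with h2 | h2
  · exact h2
  · exact absurd h2 (pow_ne_zero _ (ne_of_gt B_pos))

theorem conj_tp (g : E) (t : ℕ → E) (v : ℕ → ℤ) (k : ℕ) :
    g * tp t v k * g⁻¹ = tp (fun i => g * t i * g⁻¹) v k := by
  have := map_tp (MulAut.conj g).toMonoidHom t v k
  simpa [MulAut.conj_apply] using this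

/-- conjugation by a letter -/
theorem Sd.cj (hL : Lat ι t c) {L : Lt} {g : E} (hg : LV ι t c L g) {e : El} {x : E}
    (h : Sd ι t c e x) : Sd ι t c (e.cj L) (g * x * g⁻¹) := by
  intro hb
  unfold El.cj at hb ⊢
  cases h0 : (Nat.beq e.p 0 && Nat.beq e.n 0) with
  | true =>
    rw [h0] at hb
    rw [Bool.and_eq_true] at h0
    have h1 : e.p = 0 := Nat.eq_of_beq_eq_true h0.1
    have h2 : e.n = 0 := Nat.eq_of_beq_eq_true h0.2
    obtain ⟨P, N, z, q0, q1, q2, q3, q4, q5, q6⟩ := h hb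
    refine ⟨P, N, z, q0, q1, q2, q3, q4, q5, ?_⟩
    have e1 := pk_eq_zero (q1.symm.trans h1)
    have e2 := pk_eq_zero (q2.symm.trans h2)
    have e3 : tp t (fun i => (P i : ℤ) - (N i : ℤ)) 36 = 1 := by
      rw [← tp_zero (t := t) 36]
      apply tp_ext
      intro i hi
      rw [e1 i hi, e2 i hi]
      simp
    rw [e3, one_mul] at q6
    rw [e3, one_mul, q6, mul_assoc, hL.cen]
    group
  | false =>
    rw [h0] at hb
    set a := cjLoop L.T e.p e.n ⟨0, 0, 0, 0, 0, 0, 0⟩ with ha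
    have hb' : e.rb + e.b + a.s * L.bw * (a.s * L.bw) + (B * (e.b / B) + L.bad) < B := hb
    have hb1 : e.b < B := by
      by_contra hcon
      have : 1 ≤ e.b / B := (Nat.one_le_div_iff B_pos).mpr (by omega)
      have : B * 1 ≤ B * (e.b / B) := Nat.mul_le_mul_left _ this
      omega
    obtain ⟨P, N, z, q0, q1, q2, q3, q4, q5, q6⟩ := h (by omega)
    obtain ⟨W, o, l1, l2, l3, l4, l5⟩ := hg (by omega)
    have hP : ∀ i, P i < B := fun i => by have := q0 i; omega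
    have hN : ∀ i, N i < B := fun i => by have := q0 i; omega
    have h1 := cjLoop_AV hL W P N hP hN L.T 0 e.p e.n ⟨0, 0, 0, 0, 0, 0, 0⟩ (bw := L.bw) (by
      refine ⟨fun _ => 0, fun _ => 0, 1, fun i => Nat.zero_le _, ?_, ?_, ?_, ?_, ?_, ?_⟩
      · simp [pk]
      · simp [pk]
      · simp [pk]
      · simp [pk]
      · exact RV.one.mono (Nat.zero_le _)
      · simp only [Nat.cast_zero, sub_zero, tp_zero, map_one, mul_one]
        rfl) (fun i hi => by rw [zero_add]; exact l2 i hi)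
      (by rw [l1, q1]; congr 1; funext i; rw [zero_add])
      (by rw [l1, q2]; congr 1; funext i; rw [zero_add])
    rw [← ha, l1, zero_add] at h1
    obtain ⟨P', N', z', r0, r1, r2, r3, r4, r5, r6⟩ := h1
    refine ⟨P', N', z * z' * ∏ i ∈ range 36, c (o + i) ^ ((P i : ℤ) - (N i : ℤ)), r0, r1, r2, r3,
      r4, ?_, ?_⟩
    · show RV c (e.rp + a.qp + Nat.shiftLeft e.p L.off) (e.rn + a.qn + Nat.shiftLeft e.n L.off)
        (e.rb + e.b + a.s * L.bw * (a.s * L.bw) + (B * (e.b / B) + L.bad)) _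
      have s1 : Nat.shiftLeft e.p L.off = pk 1 36 P * B ^ o := by
        show e.p <<< L.off = _
        rw [Nat.shiftLeft_eq, l3, q1, B_eq, ← pow_mul]
      have s2 : Nat.shiftLeft e.n L.off = pk 1 36 N * B ^ o := by
        show e.n <<< L.off = _
        rw [Nat.shiftLeft_eq, l3, q2, B_eq, ← pow_mul]
      rw [s1, s2]
      refine ((q5.mul r5).mul (RV.lin c q0 o l4)).mono ?_
      omega
    · rw [q6]
      have e1 : g * tp t (fun i => (P i : ℤ) - (N i : ℤ)) 36 * g⁻¹ =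
          tp t (fun i => (P' i : ℤ) - (N' i : ℤ)) 36 * ι z' *
          ι (∏ i ∈ range 36, c (o + i) ^ ((P i : ℤ) - (N i : ℤ))) := by
        rw [conj_tp, tp_congr _ (fun i => tp t (W i) 36 * ι (c (o + i))) _ _ l5,
          tp_central hL.cen, r6]
      calc g * (tp t (fun i => (P i : ℤ) - (N i : ℤ)) 36 * ι z) * g⁻¹ =
          g * tp t (fun i => (P i : ℤ) - (N i : ℤ)) 36 * (ι z * g⁻¹) := by group
        _ = g * tp t (fun i => (P i : ℤ) - (N i : ℤ)) 36 * g⁻¹ * ι z := by rw [hL.cen]; group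
        _ = _ := by
          rw [e1, mul_assoc, mul_assoc, ← map_mul, ← map_mul]
          congr 2
          rw [mul_comm z z', mul_assoc, mul_comm z]

end EV

end VRC.Pk

end
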