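import Mathlib
import Pool.Agent.Work.MP_332575_al.Bd.B01
import Pool.Agent.Work.MP_332575_al.Pk.RepD36
import Pool.Agent.Work.MP_332575_al.Bd.B04

/-! Bundle of small proof modules (one section per former module). -/

section

/-! # Kernel checks of the affine representation in dimension 36 -/

set_option autoImplicit false
set_option maxRecDepth 100000

namespace VRC.Cx.D36

theorem c_rules : xK 280 (fun x => chkRs Ls Z0 Bc x VRC.Pk.D36.R) 36 [] = true := by
  decide +kernel

theorem c_acts : chkActs Z0 Bc VRC.Pk.D36.M Ls = true := by decide +kernel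

theorem c_inv : xK 280 (fun x => chkInv Ls Z0 x 13) 36 [] = true := by decide +kernel

end VRC.Cx.D36

end

section

set_option autoImplicit false

/-! From evaluated rows to the packed rows of the elimination. -/

namespace VRC.Pk

open Finset

attribute [local irreducible] B NN pk

/-- auxiliary mask: the digits `36 i + j` with `j < i`, `i < n` -/
def mskA : ℕ → ℕ
  | 0 => 0
  | i + 1 => Nat.add (mskA i)
      (Nat.shiftLeft (Nat.sub (Nat.shiftLeft 1 (Nat.mul 40 i)) 1) (Nat.mul 1440 i))

/-- mask of the digits `36 i + j` with `j < i < 36` and of the digits from 1296 on -/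
def msk : ℕ := Nat.add (mskA 36) (Nat.shiftLeft (Nat.sub (Nat.shiftLeft 1 22960) 1) 51840)

namespace Rows

theorem B_pow (m : ℕ) : B ^ m = 2 ^ (40 * m) := by rw [B_eq, ← pow_mul]

theorem pk_split (m n : ℕ) (d : ℕ → ℕ) :
    pk 1 (m + n) d = pk 1 m d + B ^ m * pk 1 n (fun i => d (m + i)) := by
  rw [pk, sum_range_add, pk, pk, mul_sum]
  congr 1
  apply sum_congr rfl
  intro i _
  rw [one_mul, one_mul, pow_add]
  ring

theorem pk_congr (n : ℕ) (d e : ℕ → ℕ) (h : ∀ i < n, d i = e i) : pk 1 n d = pk 1 n e := by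
  rw [pk, pk]
  apply sum_congr rfl
  intro i hi
  rw [h i (mem_range.mp hi)]

theorem pk_const_zero (n : ℕ) : pk 1 n (fun _ => 0) = 0 := by simp [pk]

theorem geom (n : ℕ) : pk 1 n (fun _ => B - 1) = B ^ n - 1 := by
  induction n with
  | zero => simp [pk]
  | succ n ih =>
    rw [pk_succ, ih, one_mul, pow_succ]
    have h1 : 1 ≤ B ^ n := Nat.one_le_pow _ _ B_pos
    have h2 : (B - 1) * B ^ n = B ^ n * B - B ^ n := by
      rw [Nat.sub_mul, one_mul, mul_comm]
    have h3 : B ^ n ≤ B ^ n * B := Nat.le_mul_of_pos_right _ B_pos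
    rw [h2]
    omega

theorem ons_eq (n : ℕ) : ons n = pk 1 n (fun _ => 1) := by
  have h1 : (B - 1) * pk 1 n (fun _ => 1) = B ^ n - 1 := by
    rw [← geom, pk_mul]
    simp
  have h2 : ons n = (B ^ n - 1) / (B - 1) := rfl
  rw [h2, ← h1, Nat.mul_div_cancel_left]
  have := one_lt_B
  omega

theorem bias_eq (n : ℕ) : bias n = pk 1 n (fun _ => 1048576) := by
  have h : bias n = 1048576 * ons n := Nat.mul_comm _ _
  rw [h, ons_eq, pk_mul]

theorem hmask_eq (n : ℕ) : hmask n = pk 1 n (fun _ => B - 2097152) := by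
  have h : hmask n = (B - 2097152) * ons n := Nat.mul_comm _ _
  rw [h, ons_eq, pk_mul]
  simp

theorem pk_mod (n : ℕ) (d : ℕ → ℕ) (h : d 0 < B) : pk 1 (n + 1) d % 2 ^ 40 = d 0 := by
  rw [pk_front, ← B_eq, Nat.add_mul_mod_self_left, Nat.mod_eq_of_lt h]

theorem pk_div (n : ℕ) (d : ℕ → ℕ) (h : d 0 < B) :
    pk 1 (n + 1) d / 2 ^ 40 = pk 1 n (fun i => d (i + 1)) := by
  rw [pk_front, ← B_eq, Nat.add_mul_div_left _ _ B_pos, Nat.div_eq_of_lt h, zero_add]

theorem and_lt (a b : ℕ) (h : a < B) : a &&& b < B := lt_of_le_of_lt Nat.and_le_left h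

theorem pk_and (n : ℕ) (d e : ℕ → ℕ) (hd : ∀ i < n, d i < B) (he : ∀ i < n, e i < B) :
    pk 1 n d &&& pk 1 n e = pk 1 n (fun i => d i &&& e i) := by
  induction n generalizing d e with
  | zero => simp [pk]
  | succ n ih =>
    have h1 := ih (fun i => d (i + 1)) (fun i => e (i + 1)) (fun i hi => hd (i + 1) (by omega))
      (fun i hi => he (i + 1) (by omega))
    have d0 := hd 0 (by omega)
    have e0 := he 0 (by omega)
    have h2 : (pk 1 (n + 1) d &&& pk 1 (n + 1) e) % 2 ^ 40 = d 0 &&& e 0 := by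
      rw [Nat.and_mod_two_pow, pk_mod n d d0, pk_mod n e e0]
    have h3 : (pk 1 (n + 1) d &&& pk 1 (n + 1) e) / 2 ^ 40 =
        pk 1 n (fun i => d (i + 1) &&& e (i + 1)) := by
      rw [Nat.and_div_two_pow, pk_div n d d0, pk_div n e e0, h1]
    rw [← Nat.mod_add_div (pk 1 (n + 1) d &&& pk 1 (n + 1) e) (2 ^ 40), h2, h3, pk_front, B_eq]

/-- the digits of a number -/
theorem exists_digits (n V : ℕ) (h : V < B ^ n) :
    ∃ d : ℕ → ℕ, (∀ m, d m < B) ∧ (∀ m, n ≤ m → d m = 0) ∧ V = pk 1 n d := by
  induction n generalizing V with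
  | zero =>
    refine ⟨fun _ => 0, fun _ => B_pos, fun _ _ => rfl, ?_⟩
    rw [pow_zero] at h
    simp [pk]
    omega
  | succ n ih =>
    have h1 : V / B < B ^ n := by
      rw [Nat.div_lt_iff_lt_mul B_pos, ← pow_succ]
      exact h
    obtain ⟨d, hd, hd0, hV⟩ := ih _ h1
    refine ⟨fun m => if m = 0 then V % B else d (m - 1), fun m => ?_, fun m hm => ?_, ?_⟩
    · show (if m = 0 then V % B else d (m - 1)) < B
      split
      · exact Nat.mod_lt _ B_pos
      · exact hd _
    · show (if m = 0 then V % B else d (m - 1)) = 0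
      rw [if_neg (by omega)]
      exact hd0 _ (by omega)
    · rw [pk_front]
      simp only [if_pos, Nat.add_sub_cancel, if_neg (Nat.succ_ne_zero _)]
      rw [← hV, Nat.mod_add_div]

theorem small (a : ℕ) (h : a < B) (h1 : a &&& (B - 2097152) = 0) : a < 2 * 1048576 := by
  rw [B_eq] at h h1
  have h2 : (a / 2 ^ 21) &&& (2 ^ 19 - 1) = 0 := by
    have h3 : (a &&& (2 ^ 40 - 2097152)) / 2 ^ 21 = 0 := by rw [h1]; norm_num
    rw [Nat.and_div_two_pow] at h3
    have h4 : (2 ^ 40 - 2097152) / 2 ^ 21 = 2 ^ 19 - 1 := by norm_num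
    rwa [h4] at h3
  rw [Nat.and_two_pow_sub_one_eq_mod] at h2
  have h5 : a / 2 ^ 21 < 2 ^ 19 := by
    rw [Nat.div_lt_iff_lt_mul (by norm_num)]
    calc a < 2 ^ 40 := h
      _ = 2 ^ 19 * 2 ^ 21 := by norm_num
  rw [Nat.mod_eq_of_lt h5] at h2
  have h6 : a < 2 ^ 21 := by
    rcases Nat.div_eq_zero_iff.mp h2 with h7 | h7
    · norm_num at h7
    · exact h7
  calc a < 2 ^ 21 := h6
    _ = 2 * 1048576 := by norm_num

/-- a number without high bits has small digits -/
theorem digits_of_land (n V : ℕ) (h : V < B ^ n) (hz : Nat.land V (hmask n) = 0) :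
    ∃ d : ℕ → ℕ, (∀ m, d m < 2 * 1048576) ∧ V = pk 1 n d := by
  obtain ⟨d, hd, hd0, rfl⟩ := exists_digits n V h
  refine ⟨d, fun m => ?_, rfl⟩
  have h1 : pk 1 n d &&& pk 1 n (fun _ => B - 2097152) = 0 := by
    rw [← hmask_eq]
    exact hz
  have h0 : B - 2097152 < B := by
    rw [B_eq]; norm_num
  rw [pk_and n _ _ (fun i _ => hd i) (fun _ _ => h0)] at h1
  by_cases hm : m < n
  · rw [pk] at h1
    have h2 := (sum_eq_zero_iff.mp h1) m (mem_range.mpr hm)
    have h3 : d m &&& (B - 2097152) = 0 := by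
      rcases Nat.mul_eq_zero.mp h2 with h4 | h4
      · exact h4
      · exact absurd h4 (pow_pos B_pos _).ne'
    exact small _ (hd m) h3
  · rw [hd0 m (by omega)]
    norm_num

/-- the central step -/
theorem zr_of {C : Type} [CommGroup C] {c : ℕ → C} {n V b : ℕ} {P N : ℕ → ℕ}
    (hPN : ∀ i, P i + N i ≤ b) (hb : b < 549755813888)
    (hV : V + pk 1 n N = pk 1 n P + bias n) (hz : Nat.land V (hmask n) = 0)
    (h1 : ∏ m ∈ range n, c m ^ ((P m : ℤ) - (N m : ℤ)) = 1) : ZR c n 1048576 V := by
  have hB : B = 1099511627776 := by rw [B_eq]; norm_num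
  rw [bias_eq, pk_add] at hV
  have h2 : pk 1 n (fun i => P i + 1048576) < B ^ n := by
    apply pk_lt
    intro i _
    have := hPN i
    omega
  obtain ⟨d, hd, hVd⟩ := digits_of_land n V (by omega) hz
  refine ⟨d, hd, hVd, ?_⟩
  rw [hVd, pk_add] at hV
  have h3 := pk_inj n _ _ (fun i _ => ?_) (fun i _ => ?_) hV
  · rw [← h1]
    apply prod_congr rfl
    intro m hm
    have h4 := h3 m (mem_range.mp hm)
    have h5 : d m + N m = P m + 1048576 := h4
    congr 1
    have h6 : (d m : ℤ) + N m = P m + 1048576 := by exact_mod_cast h5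
    push_cast
    linarith
  · have := hPN i
    have := hd i
    show d i + N i < B
    omega
  · have := hPN i
    show P i + 1048576 < B
    omega

theorem shl (a k : ℕ) : a <<< (40 * k) = a * B ^ k := by rw [Nat.shiftLeft_eq, B_pow]

theorem shr (a k : ℕ) : a >>> (40 * k) = a / B ^ k := by rw [Nat.shiftRight_eq_div_pow, B_pow]

theorem row36 (i : ℕ) (hi : i ≤ 36) :
    pk 1 36 (fun j => if (36 * i + j) / 36 ≤ (36 * i + j) % 36 then 0 else B - 1) =
      B ^ i - 1 := by
  rw [← geom, pk_ext i 36 _ hi]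
  apply pk_congr
  intro j hj
  have e1 : (36 * i + j) / 36 = i := by omega
  have e2 : (36 * i + j) % 36 = j := by omega
  rw [e1, e2]
  by_cases h : i ≤ j
  · rw [if_pos h, if_neg (by omega)]
  · rw [if_neg h, if_pos (by omega)]

theorem mskA_succ (i : ℕ) :
    mskA (i + 1) = mskA i + ((1 <<< (40 * i)) - 1) <<< (40 * (36 * i)) := by
  rw [← mul_assoc]
  rfl

theorem mskA_eq (i : ℕ) (hi : i ≤ 36) :
    mskA i = pk 1 (36 * i) (fun k => if k / 36 ≤ k % 36 then 0 else B - 1) := by
  induction i with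
  | zero => rw [mul_zero, pk_zero]; rfl
  | succ i ih =>
    rw [mskA_succ, ih (by omega), mul_add, mul_one, pk_split, row36 i (by omega), shl, shl,
      one_mul, mul_comm (B ^ (36 * i))]

theorem msk_def : msk = mskA 36 + ((1 <<< (40 * 574)) - 1) <<< (40 * (36 * 36)) := rfl

theorem msk_eq : msk =
    pk 1 (36 * 36 + 574) (fun k => if k < 1296 ∧ k / 36 ≤ k % 36 then 0 else B - 1) := by
  have h1 : pk 1 (36 * 36) (fun k => if k < 1296 ∧ k / 36 ≤ k % 36 then 0 else B - 1) =
      pk 1 (36 * 36) (fun k => if k / 36 ≤ k % 36 then 0 else B - 1) := by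
    apply pk_congr
    intro i hi
    have h3 : i < 1296 := by omega
    simp only [h3, true_and]
  have h2 : pk 1 574 (fun k => if 36 * 36 + k < 1296 ∧ (36 * 36 + k) / 36 ≤ (36 * 36 + k) % 36
      then 0 else B - 1) = B ^ 574 - 1 := by
    rw [← geom]
    apply pk_congr
    intro i _
    rw [if_neg (by omega)]
  rw [msk_def, mskA_eq 36 le_rfl, pk_split, h1, h2, shl, shl, one_mul, mul_comm (B ^ (36 * 36))]

end Rows

open Rows

/-- phase 1: all digits, the digits `36 i + j` with `i ≤ j` are deleted -/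
theorem row1 {C : Type} [CommGroup C] {c : ℕ → C} {p n b V : ℕ} (h : RV c p n b 1)
    (hb : b < 549755813888) (h0 : ∀ i j, i < 36 → j < 36 → i ≤ j → c (36 * i + j) = 1)
    (h1 : V + Nat.land n msk = Nat.land p msk + bias 1870)
    (h2 : Nat.land V (hmask 1870) = 0) : ZR c 1870 1048576 V := by
  obtain ⟨P, N, hPN, hp, hn, hx⟩ := h
  have hNN : NN = 1870 := by unfold NN; rfl
  rw [hNN] at hp hn hx
  have hB : B = 1099511627776 := by rw [B_eq]; norm_num
  have h1870 : (36 * 36 + 574 : ℕ) = 1870 := rfl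
  have hM : ∀ i < 1870, (if i < 1296 ∧ i / 36 ≤ i % 36 then 0 else B - 1) < B := by
    intro i _
    split_ifs
    · exact B_pos
    · have := B_pos
      omega
  have key : ∀ (R : ℕ → ℕ), (∀ i, R i ≤ b) → Nat.land (pk 1 1870 R) msk =
      pk 1 1870 (fun i => if i < 1296 ∧ i / 36 ≤ i % 36 then 0 else R i) := by
    intro R hR
    have e : Nat.land (pk 1 1870 R) msk = pk 1 1870 R &&& msk := rfl
    rw [e, msk_eq, h1870, pk_and 1870 _ _ (fun i _ => by have := hR i; omega) hM]
    apply pk_congr
    intro i _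
    split_ifs
    · exact Nat.and_zero _
    · rw [B_eq, Nat.and_two_pow_sub_one_eq_mod, Nat.mod_eq_of_lt]
      have := hR i
      rw [← B_eq]
      omega
  rw [hp, hn, key P (fun i => by have := hPN i; omega), key N (fun i => by have := hPN i; omega)]
    at h1
  refine zr_of (b := b) (fun i => ?_) hb h1 h2 ?_
  · have := hPN i
    show (if i < 1296 ∧ i / 36 ≤ i % 36 then 0 else P i) +
      (if i < 1296 ∧ i / 36 ≤ i % 36 then 0 else N i) ≤ b
    split_ifs <;> omega
  · rw [hx]
    apply prod_congr rfl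
    intro i hi
    split_ifs with h3
    · have h4 := h0 (i / 36) (i % 36) (by omega) (by omega) h3.2
      rw [show 36 * (i / 36) + i % 36 = i by omega] at h4
      rw [h4, one_zpow, one_zpow]
    · rfl

/-- phase 2: the digits from 1296 on -/
theorem row2 {C : Type} [CommGroup C] {c : ℕ → C} {p n b V : ℕ} (h : RV c p n b 1)
    (hb : b < 549755813888) (h0 : ∀ k < 1296, c k = 1)
    (h1 : V + (n >>> 51840) = (p >>> 51840) + bias 574)
    (h2 : Nat.land V (hmask 574) = 0) : ZR (fun m => c (1296 + m)) 574 1048576 V := by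
  obtain ⟨P, N, hPN, hp, hn, hx⟩ := h
  have hNN : NN = 1296 + 574 := by unfold NN; rfl
  rw [hNN] at hp hn hx
  have hB : B = 1099511627776 := by rw [B_eq]; norm_num
  have key : ∀ (R : ℕ → ℕ), (∀ i, R i ≤ b) → (pk 1 (1296 + 574) R) >>> 51840 =
      pk 1 574 (fun i => R (1296 + i)) := by
    intro R hR
    rw [show (51840 : ℕ) = 40 * 1296 from rfl, shr, pk_split,
      Nat.add_mul_div_left _ _ (pow_pos B_pos _), Nat.div_eq_of_lt, zero_add]
    apply pk_lt
    intro i _
    have := hR i
    omega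
  rw [hp, hn, key P (fun i => by have := hPN i; omega), key N (fun i => by have := hPN i; omega)]
    at h1
  refine zr_of (b := b) (fun i => hPN (1296 + i)) hb h1 h2 ?_
  rw [cv, prod_range_add] at hx
  have h3 : ∏ x ∈ range 1296, c x ^ ((P x : ℤ) - (N x : ℤ)) = 1 := by
    apply prod_eq_one
    intro x hx
    rw [h0 x (mem_range.mp hx), one_zpow]
  rw [h3, one_mul] at hx
  exact hx.symm

/-- a row with a single digit `1` -/
theorem ZR.single {C : Type} [CommGroup C] {c : ℕ → C} {n V k : ℕ} (h : ZR c n 1048576 V)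
    (hk : k < n) (hV : V = bias n + B ^ k) : c k = 1 := by
  obtain ⟨d, hd, hVd, h1⟩ := h
  have hB : B = 1099511627776 := by rw [B_eq]; norm_num
  rw [hVd, bias_eq, pk_single k n hk, pk_add] at hV
  have h2 := pk_inj n _ _ (fun i _ => ?_) (fun i _ => ?_) hV
  · rw [prod_eq_single k] at h1
    · have h3 := h2 k hk
      simp only [if_pos] at h3
      rw [h3] at h1
      simpa using h1
    · intro i hi hik
      have h3 := h2 i (mem_range.mp hi)
      simp only [if_neg hik] at h3
      rw [h3]
      simp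
    · intro h3
      exact absurd (mem_range.mpr hk) h3
  · have := hd i
    show d i < B
    omega
  · show 1048576 + (if i = k then 1 else 0) < B
    split_ifs <;> omega

theorem ZR.single' {C : Type} [CommGroup C] {c : ℕ → C} {n V k : ℕ} (h : ZR c n 1048576 V)
    (hk : k < n) (hV : V = Nat.add (bias n) (Nat.shiftLeft 1 (Nat.mul 40 k))) : c k = 1 := by
  refine h.single hk ?_
  rw [hV, B_pow]
  have e : Nat.shiftLeft 1 (Nat.mul 40 k) = 1 <<< (40 * k) := rfl
  rw [e, Nat.shiftLeft_eq, one_mul]
  rfl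

/-- the rows of phase 1 give all commutators of the lattice -/
theorem beta_all {C : Type} [CommGroup C] {c : ℕ → C}
    (h0 : ∀ i j, i < 36 → j < 36 → i ≤ j → c (36 * i + j) = 1)
    (h1 : ∀ i j, i < 36 → j < i → c (36 * i + j) = 1) : ∀ k < 1296, c k = 1 := by
  intro k hk
  rw [show k = 36 * (k / 36) + k % 36 by omega]
  by_cases h : k / 36 ≤ k % 36
  · exact h0 _ _ (by omega) (by omega) h
  · exact h1 _ _ (by omega) (by omega)

/-- phase 1, computed form of the row -/
theorem row1' {C : Type} [CommGroup C] {c : ℕ → C} {p n b : ℕ} (h : RV c p n b 1)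
    (hb : Nat.blt b 549755813888 = true)
    (h0 : ∀ i j, i < 36 → j < 36 → i ≤ j → c (36 * i + j) = 1)
    (h1 : Nat.ble (Nat.land n msk) (Nat.add (Nat.land p msk) (bias 1870)) = true)
    (h2 : Nat.beq (Nat.land (Nat.sub (Nat.add (Nat.land p msk) (bias 1870)) (Nat.land n msk))
      (hmask 1870)) 0 = true) :
    ZR c 1870 1048576 (Nat.sub (Nat.add (Nat.land p msk) (bias 1870)) (Nat.land n msk)) := by
  rw [Nat.blt_eq] at hb
  refine row1 h hb h0 ?_ (Nat.eq_of_beq_eq_true h2)
  exact Nat.sub_add_cancel (Nat.le_of_ble_eq_true h1)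

end VRC.Pk

end

section

set_option autoImplicit false

/-! Soundness, part 4: the evaluation of words and of the equations. -/

namespace VRC.Pk

open Finset

attribute [local irreducible] B NN

theorem strip_sound : ∀ (u w r : List ℕ), strip u w = some r → w = u ++ r
  | [], w, r, h => by
    simp only [strip, Option.some.injEq] at h
    rw [h]; rfl
  | _ :: _, [], r, h => by simp [strip] at h
  | a :: u, b :: w, r, h => by
    rw [strip] at h
    cases h1 : Nat.beq a b with
    | true =>
      rw [h1] at h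
      rw [Nat.eq_of_beq_eq_true h1, strip_sound u w r h]
      rfl
    | false =>
      rw [h1] at h
      exact absurd h (by simp)

theorem find_sound (w : List ℕ) : ∀ (rs : List Rl) (r : Rl) (rest : List ℕ),
    find w rs = some (r, rest) → r ∈ rs ∧ w = r.u ++ rest
  | [], r, rest, h => by simp [find] at h
  | q :: rs, r, rest, h => by
    rw [find] at h
    cases h1 : strip q.u w with
    | some z =>
      rw [h1] at h
      simp only [Option.some.injEq, Prod.mk.injEq] at h
      rw [← h.1, ← h.2]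
      exact ⟨List.mem_cons_self, strip_sound _ _ _ h1⟩
    | none =>
      rw [h1] at h
      obtain ⟨h2, h3⟩ := find_sound w rs r rest h
      exact ⟨List.mem_cons_of_mem _ h2, h3⟩

theorem leq_sound : ∀ (u w : List ℕ), leq u w = true → u = w
  | [], [], _ => rfl
  | [], _ :: _, h => by simp [leq] at h
  | _ :: _, [], h => by simp [leq] at h
  | a :: u, b :: w, h => by
    rw [leq] at h
    cases h1 : Nat.beq a b with
    | true =>
      rw [h1] at h
      rw [Nat.eq_of_beq_eq_true h1, leq_sound u w h]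
    | false =>
      rw [h1] at h
      exact absurd h (by simp)

theorem wv_app {G : Type} [Group G] (g : ℕ → G) (u w : List ℕ) :
    wv g (u ++ w) = wv g u * wv g w := by
  induction u with
  | nil => simp [wv]
  | cons y u ih => rw [List.cons_append, wv, wv, ih, mul_assoc]

section ev

variable {E C : Type} [Group E] [CommGroup C] (ι : C →* E) (t g : ℕ → E) (c : ℕ → C)

/-- the tables are valid -/
structure Tb (L : List Le) : Prop where
  lv : ∀ y, LV ι t c (nth L y).lt (g y)
  rl : ∀ y, ∀ r ∈ (nth L y).rs, ∃ x, EV ι t c r.e x ∧ g y * wv g r.u = x * wv g r.v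

variable {ι t g c}

theorem EV.sd {e : El} {x : E} (h : EV ι t c e x) : Sd ι t c e x := fun _ => h

/-- the reduction functions are sound -/
def Gd (ι : C →* E) (t g : ℕ → E) (c : ℕ → C) (f : ℕ → List ℕ → El × List ℕ) : Prop :=
  ∀ x w, Sd ι t c (f x w).1 (g x * wv g w * (wv g (f x w).2)⁻¹)

theorem consl_sound (hL : Lat ι t c) {L : List Le} (hT : Tb ι t g c L)
    {f : ℕ → List ℕ → El × List ℕ} (hf : Gd ι t g c f) : ∀ (V w : List ℕ),
    Sd ι t c (consl L f V w).1 (wv g V * wv g w * (wv g (consl L f V w).2)⁻¹)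
  | [], w => by
    show Sd ι t c El.one (wv g [] * wv g w * (wv g w)⁻¹)
    rw [wv, one_mul, mul_inv_cancel]
    exact EV.one.sd
  | x :: V, w => by
    show Sd ι t c (El.mul (El.cj (nth L x).lt (consl L f V w).1) (f x (consl L f V w).2).1)
      (wv g (x :: V) * wv g w * (wv g (f x (consl L f V w).2).2)⁻¹)
    have h1 := (consl_sound hL hT hf V w).cj hL (hT.lv x)
    have h2 := Sd.mul hL h1 (hf x (consl L f V w).2)
    have h3 : wv g (x :: V) * wv g w * (wv g (f x (consl L f V w).2).2)⁻¹ =
        g x * (wv g V * wv g w * (wv g (consl L f V w).2)⁻¹) * (g x)⁻¹ *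
          (g x * wv g (consl L f V w).2 * (wv g (f x (consl L f V w).2).2)⁻¹) := by
      rw [wv]; group
    rw [h3]
    exact h2

theorem cons_sound (hL : Lat ι t c) {L : List Le} (hT : Tb ι t g c L) :
    ∀ k : ℕ, Gd ι t g c (cons L k)
  | 0 => fun x w => by
    show Sd ι t c El.one (g x * wv g w * (wv g (x :: w))⁻¹)
    rw [wv, mul_inv_cancel]
    exact EV.one.sd
  | k + 1 => fun x w => by
    rw [cons]
    cases h : find w (nth L x).rs with
    | none =>
      show Sd ι t c El.one (g x * wv g w * (wv g (x :: w))⁻¹)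
      rw [wv, mul_inv_cancel]
      exact EV.one.sd
    | some q =>
      obtain ⟨r, rest⟩ := q
      obtain ⟨h1, h2⟩ := find_sound w _ r rest h
      obtain ⟨z, h3, h4⟩ := hT.rl x r h1
      have h5 := consl_sound hL hT (cons_sound hL hT k) r.v rest
      show Sd ι t c (El.mul r.e (consl L (cons L k) r.v rest).1)
        (g x * wv g w * (wv g (consl L (cons L k) r.v rest).2)⁻¹)
      have h6 : g x * wv g w * (wv g (consl L (cons L k) r.v rest).2)⁻¹ =
          z * (wv g r.v * wv g rest * (wv g (consl L (cons L k) r.v rest).2)⁻¹) := by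
        rw [h2, wv_app, ← mul_assoc (g x), h4]
        group
      rw [h6]
      exact Sd.mul hL h3.sd h5

theorem cw_sound (hL : Lat ι t c) {L : List Le} (hT : Tb ι t g c L) {e : El} {x : E}
    (h : Sd ι t c e x) : ∀ w : List ℕ, Sd ι t c (cw L w e) (wv g w * x * (wv g w)⁻¹)
  | [] => by
    show Sd ι t c e (wv g [] * x * (wv g [])⁻¹)
    rw [wv, one_mul, inv_one, mul_one]
    exact h
  | y :: w => by
    show Sd ι t c (El.cj (nth L y).lt (cw L w e)) (wv g (y :: w) * x * (wv g (y :: w))⁻¹)
    have h1 := (cw_sound hL hT h w).cj hL (hT.lv y)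
    have h2 : wv g (y :: w) * x * (wv g (y :: w))⁻¹ =
        g y * (wv g w * x * (wv g w)⁻¹) * (g y)⁻¹ := by
      rw [wv]; group
    rw [h2]
    exact h1

theorem Sd.ct (hL : Lat ι t c) {e f : El} {x y : E} (h : EV ι t c e x) (h' : Sd ι t c f y) :
    Sd ι t c (El.ct e f) (x * y * x⁻¹) := by
  intro hb
  have hb : f.rb + 2 * (e.b * f.b) < B := hb
  exact EV.ct hL h (h' (by omega))

/-- two values of the same element give a trivial row -/
theorem diff_sound (hL : Lat ι t c) {e f : El} {x y : E} (h : Sd ι t c e x) (h' : Sd ι t c f y)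
    (hxy : x = y) (hs : El.same e f = true) (hb : (El.diff e f).b < B) :
    RV c (El.diff e f).p (El.diff e f).n (El.diff e f).b 1 := by
  have hb' : e.rb + f.rb < B := hb
  obtain ⟨P, N, z, h0, h1, h2, h3, h4, h5, h6⟩ := h (by omega)
  obtain ⟨P', N', z', h0', h1', h2', h3', h4', h5', h6'⟩ := h' (by omega)
  rw [El.same, Bool.and_eq_true] at hs
  have s1 : e.p + f.n = f.p + e.n := Nat.eq_of_beq_eq_true hs.1
  have s2 : e.b + f.b < B := by
    have := hs.2
    simpa [Nat.blt_eq] using this
  rw [h1, h2, h1', h2', pk_add, pk_add] at s1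
  have s3 := pk_inj 36 _ _ (fun i _ => by
    have := h0 i
    have := h0' i
    show P i + N' i < B
    omega) (fun i _ => by
    have := h0 i
    have := h0' i
    show P' i + N i < B
    omega) s1
  have s4 : tp t (fun i => (P i : ℤ) - (N i : ℤ)) 36 = tp t (fun i => (P' i : ℤ) - (N' i : ℤ)) 36 := by
    apply tp_ext
    intro i hi
    have h7 : P i + N' i = P' i + N i := s3 i hi
    have h8 : (P i : ℤ) + N' i = P' i + N i := by exact_mod_cast h7
    show (P i : ℤ) - (N i : ℤ) = (P' i : ℤ) - (N' i : ℤ)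
    linarith
  have s5 : z = z' := by
    rw [h6, h6', s4] at hxy
    exact hL.inj (mul_left_cancel hxy)
  have s6 := h5.mul h5'.inv
  rw [s5, mul_inv_cancel] at s6
  exact s6

end ev

section eqn

variable {E C : Type} [Group E] [CommGroup C] {ι : C →* E} {t g : ℕ → E} {c : ℕ → C}

/-- everything which is needed about the tables of the data -/
structure Tab (D : Dat) (ι : C →* E) (t g : ℕ → E) (c : ℕ → C) : Prop where
  tb : Tb ι t g c (mkL D.R D.M 0)
  el : ∀ l, l < D.R.length →
    EV ι t c (mkE (nthR D.R l) l) (tp t (nthR D.R l).vc 36 * ι (c (1764 + l)))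
  un : ∀ i, i < 36 → EV ι t c (unit i) (t i)
  wt : ∀ y i, y < 13 → i < 36 →
    WV (nthW (nth (mkL D.R D.M 0) y) i) (nth (mkL D.R D.M 0) y).lt.bw (D.mv y i)

theorem evl_sound {D : Dat} (hC : Cen D ι t g c) (hT : Tab D ι t g c) (fuel : ℕ) (e : Eqn)
    (hok : e.ok D = true) (h : (evl (mkL D.R D.M 0) D.R fuel e).2 = true)
    (hb : (evl (mkL D.R D.M 0) D.R fuel e).1.b < B) :
    RV c (evl (mkL D.R D.M 0) D.R fuel e).1.p (evl (mkL D.R D.M 0) D.R fuel e).1.n
      (evl (mkL D.R D.M 0) D.R fuel e).1.b 1 := by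
  have hL := hC.lat
  cases e with
  | A y i j =>
    have hy : y < 13 := by
      have : Nat.blt y 13 = true := hok
      simpa [Nat.blt_eq] using this
    have h' : (Nat.blt i 36 && Nat.blt j i) = true := h
    rw [Bool.and_eq_true] at h'
    have hi : i < 36 := by simpa [Nat.blt_eq] using h'.1
    have hj : j < i := by simpa [Nat.blt_eq] using h'.2
    have hk : 36 * i + j < NN := by unfold NN; omega
    have hWi := hT.wt y i hy hi
    have hWj := hT.wt y j hy (by omega)
    set a := nthW (nth (mkL D.R D.M 0) y) i with ha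
    set b := nthW (nth (mkL D.R D.M 0) y) j with hb'
    set bw := (nth (mkL D.R D.M 0) y).lt.bw with hbw
    have hsh : Nat.shiftLeft 1 (Nat.mul 40 (Nat.add (Nat.mul 36 i) j)) = B ^ (36 * i + j) := by
      show 1 <<< (40 * (36 * i + j)) = _
      rw [Nat.shiftLeft_eq, one_mul, B_eq, ← pow_mul]
    show RV c (a.p6 * b.p + a.n6 * b.n + (b.p6 * a.n + b.n6 * a.p))
      (a.p6 * b.n + a.n6 * b.p + (b.p6 * a.p + b.n6 * a.n) +
        Nat.shiftLeft 1 (Nat.mul 40 (Nat.add (Nat.mul 36 i) j)))
      (Nat.succ (2 * (bw * bw))) 1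
    rw [hsh]
    obtain ⟨P, N, q0, q1, q2, q3, q4, q5, q6, q7⟩ := hWi
    obtain ⟨P', N', r0, r1, r2, r3, r4, r5, r6, r7⟩ := hWj
    have e1 := RV.quad c q0 r0
    have e2 := (RV.quad c r0 q0).inv
    have e3 := (RV.single (c := c) (36 * i + j) hk).inv
    have e4 := (e1.mul e2).mul e3
    rw [← q1, ← q2, ← q3, ← q4, ← r1, ← r2, ← r3, ← r4] at e4
    set u : ℕ → ℤ := fun i => (P i : ℤ) - (N i : ℤ) with hu
    set v : ℕ → ℤ := fun i => (P' i : ℤ) - (N' i : ℤ) with hv
    have e5 : Q c u v * (Q c v u)⁻¹ * (c (36 * i + j))⁻¹ = 1 := by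
      apply hL.inj
      have a1 : g y * t i * (g y)⁻¹ = tp t u 36 * ι (c (1296 + (36 * y + i))) := by
        rw [hC.act y i hy hi]
        congr 1
        exact tp_ext 36 (fun k _ => q7 k)
      have a2 : g y * t j * (g y)⁻¹ = tp t v 36 * ι (c (1296 + (36 * y + j))) := by
        rw [hC.act y j hy (by omega)]
        congr 1
        exact tp_ext 36 (fun k _ => r7 k)
      have a3 : (g y * t i * (g y)⁻¹) * (g y * t j * (g y)⁻¹) =
          (g y * t j * (g y)⁻¹) * (g y * t i * (g y)⁻¹) * ι (c (36 * i + j)) := by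
        calc (g y * t i * (g y)⁻¹) * (g y * t j * (g y)⁻¹) = g y * (t i * t j) * (g y)⁻¹ := by group
          _ = g y * (t j * t i) * (ι (c (36 * i + j)) * (g y)⁻¹) := by
            rw [hL.com i j hi hj]; group
          _ = _ := by rw [hL.cen]; group
      rw [a1, a2] at a3
      have b1 : tp t u 36 * ι (c (1296 + (36 * y + i))) * (tp t v 36 *
          ι (c (1296 + (36 * y + j)))) = tp t (fun i => u i + v i) 36 *
          ι (Q c u v * c (1296 + (36 * y + i)) * c (1296 + (36 * y + j))) := by
        calc _ = tp t u 36 * (ι (c (1296 + (36 * y + i))) * tp t v 36) *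
              ι (c (1296 + (36 * y + j))) := by group
          _ = tp t u 36 * tp t v 36 * ι (c (1296 + (36 * y + i))) *
              ι (c (1296 + (36 * y + j))) := by rw [hL.cen]; group
          _ = _ := by rw [tp_mul hL, map_mul, map_mul]; group
      have b2 : tp t v 36 * ι (c (1296 + (36 * y + j))) * (tp t u 36 *
          ι (c (1296 + (36 * y + i)))) = tp t (fun i => u i + v i) 36 *
          ι (Q c v u * c (1296 + (36 * y + j)) * c (1296 + (36 * y + i))) := by
        have b3 : tp t (fun i => v i + u i) 36 = tp t (fun i => u i + v i) 36 := by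
          apply tp_ext
          intro k _
          exact add_comm _ _
        calc _ = tp t v 36 * (ι (c (1296 + (36 * y + j))) * tp t u 36) *
              ι (c (1296 + (36 * y + i))) := by group
          _ = tp t v 36 * tp t u 36 * ι (c (1296 + (36 * y + j))) *
              ι (c (1296 + (36 * y + i))) := by rw [hL.cen]; group
          _ = _ := by rw [tp_mul hL, map_mul, map_mul, b3]; group
      rw [b1, b2, mul_assoc (tp t (fun i => u i + v i) 36), ← map_mul] at a3
      have a4 := hL.inj (mul_left_cancel a3)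
      congr 1
      have a5 : Q c u v = Q c v u * c (36 * i + j) := by
        have a6 : Q c u v * (c (1296 + (36 * y + i)) * c (1296 + (36 * y + j))) =
            Q c v u * c (36 * i + j) * (c (1296 + (36 * y + i)) * c (1296 + (36 * y + j))) := by
          calc _ = Q c u v * c (1296 + (36 * y + i)) * c (1296 + (36 * y + j)) := by
                rw [mul_assoc]
            _ = Q c v u * c (1296 + (36 * y + j)) * c (1296 + (36 * y + i)) *
                c (36 * i + j) := a4
            _ = _ := by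
              rw [mul_assoc (Q c v u), mul_assoc (Q c v u), mul_comm (c (1296 + (36 * y + j))),
                mul_comm _ (c (36 * i + j)), ← mul_assoc]
        exact mul_right_cancel a6
      rw [a5, mul_comm (Q c v u), mul_inv_cancel_right, mul_inv_cancel]
    rw [e5] at e4
    refine RV.mono ?_ (show bw * bw + bw * bw + 1 ≤ Nat.succ (2 * (bw * bw)) by omega)
    rw [Nat.add_zero] at e4
    exact e4
  | C l i =>
    have hok' : (Nat.blt l D.R.length && Nat.blt i 36) = true := hok
    rw [Bool.and_eq_true] at hok'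
    have hl : l < D.R.length := by simpa [Nat.blt_eq] using hok'.1
    have hi : i < 36 := by simpa [Nat.blt_eq] using hok'.2
    have h1 := cw_sound hL hT.tb (hT.un i hi).sd (nthR D.R l).U
    have h2 := cw_sound hL hT.tb (hT.un i hi).sd (nthR D.R l).V
    have h3 := Sd.ct hL (hT.el l hl) h2
    refine diff_sound hL h1 h3 ?_ h hb
    rw [hC.rul l hl]
    group
  | D l k m =>
    have hok' : (Nat.blt l D.R.length && Nat.blt m D.R.length) = true := hok
    rw [Bool.and_eq_true] at hok'
    have hl : l < D.R.length := by simpa [Nat.blt_eq] using hok'.1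
    have hm : m < D.R.length := by simpa [Nat.blt_eq] using hok'.2
    set r := nthR D.R l with hr
    set s := nthR D.R m with hs
    set L := mkL D.R D.M 0 with hLL
    set a := consl L (cons L fuel) (r.V ++ s.U.drop (r.U.length - k)) [] with ha
    set b := consl L (cons L fuel) (r.U.take k ++ s.V) [] with hbb
    have h' : (El.same (El.mul (mkE r l) a.1) (El.mul (cw L (r.U.take k) (mkE s m)) b.1) &&
        (leq a.2 b.2 && leq (r.U ++ s.U.drop (r.U.length - k)) (r.U.take k ++ s.U))) = true := h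
    rw [Bool.and_eq_true, Bool.and_eq_true] at h'
    obtain ⟨k1, k2, k3⟩ := h'
    have k2 := leq_sound _ _ k2
    have k3 := leq_sound _ _ k3
    have h1 := consl_sound hL hT.tb (cons_sound hL hT.tb fuel)
      (r.V ++ s.U.drop (r.U.length - k)) []
    have h2 := consl_sound hL hT.tb (cons_sound hL hT.tb fuel) (r.U.take k ++ s.V) []
    rw [← ha] at h1
    rw [← hbb] at h2
    have h3 := Sd.mul hL (hT.el l hl).sd h1
    have h4 := Sd.mul hL (cw_sound hL hT.tb (hT.el m hm).sd (r.U.take k)) h2
    refine diff_sound hL h3 h4 ?_ k1 hb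
    have e1 := hC.rul l hl
    have e2 := hC.rul m hm
    rw [← hr] at e1
    rw [← hs] at e2
    have e3 := congrArg (wv g) k3
    rw [wv_app, wv_app] at e3
    rw [k2, wv_app, wv_app, show wv g ([] : List ℕ) = 1 from rfl, ← hr, ← hs]
    calc tp t r.vc 36 * ι (c (1764 + l)) * (wv g r.V * wv g (s.U.drop (r.U.length - k)) * 1 *
          (wv g b.2)⁻¹) = (tp t r.vc 36 * ι (c (1764 + l)) * wv g r.V) *
          wv g (s.U.drop (r.U.length - k)) * (wv g b.2)⁻¹ := by group
      _ = wv g (r.U.take k) * (tp t s.vc 36 * ι (c (1764 + m)) * wv g s.V) * (wv g b.2)⁻¹ := by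
        rw [← e1, e3, e2]
      _ = _ := by group

end eqn

end VRC.Pk

end
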