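import Mathlib
import Pool.Agent.Work.MP_332575_al.Pk.Slp
import Pool.Agent.Work.MP_332575_al.Bd.B05
import Pool.Agent.Work.MP_332575_al.Bd.B01
import Pool.Agent.Work.MP_332575_al.Pk.P1d

/-! Bundle of small proof modules (one section per former module). -/

section

set_option autoImplicit false

/-! The final rows of the elimination and the certificate. -/

namespace VRC.Pk

open Finset

attribute [local irreducible] B NN

/-! ### coded rows -/

/-- the coefficient at `m` of a list of codes `1024 q + m` -/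
def cq (L : List ℕ) (m : ℕ) : ℕ := (L.map (fun a => if a % 1024 = m then a / 1024 else 0)).sum

/-- packed row of a list of codes -/
noncomputable def pq (L : List ℕ) : ℕ :=
  List.rec 0 (fun a _ ih => Nat.add (Nat.shiftLeft (Nat.div a 1024) (Nat.mul 40 (Nat.mod a 1024)))
    ih) L

/-- sum of the coefficients -/
noncomputable def tq (L : List ℕ) : ℕ := List.rec 0 (fun a _ ih => Nat.add (Nat.div a 1024) ih) L

theorem cq_nil (m : ℕ) : cq [] m = 0 := rfl

theorem cq_cons (a : ℕ) (L : List ℕ) (m : ℕ) :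
    cq (a :: L) m = (if a % 1024 = m then a / 1024 else 0) + cq L m := by
  simp [cq]

theorem cq_le (L : List ℕ) (m : ℕ) : cq L m ≤ tq L := by
  induction L with
  | nil => exact le_refl _
  | cons a L ih =>
    rw [cq_cons]
    show _ ≤ a / 1024 + tq L
    split
    · omega
    · omega

theorem shl40 (a m : ℕ) : Nat.shiftLeft a (Nat.mul 40 m) = a * B ^ m := by
  show a <<< (40 * m) = _
  rw [Nat.shiftLeft_eq, pow_mul, B_eq]

theorem pq_eq (n : ℕ) (L : List ℕ) (h : ∀ a ∈ L, a % 1024 < n) : pq L = pk 1 n (cq L) := by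
  induction L with
  | nil => simp [pk, cq_nil, pq]
  | cons a L ih =>
    show Nat.shiftLeft (a / 1024) (Nat.mul 40 (a % 1024)) + pq L = _
    rw [ih (fun b hb => h b (List.mem_cons_of_mem _ hb)), shl40,
      pk_single (a % 1024) n (h a List.mem_cons_self), pk_mul, pk_add]
    rw [pk, pk]
    apply sum_congr rfl
    intro i _
    congr 1
    rw [cq_cons]
    congr 1
    by_cases h1 : a % 1024 = i
    · rw [if_pos h1.symm, if_pos h1, mul_one]
    · rw [if_neg (fun h2 => h1 h2.symm), if_neg h1, mul_zero]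

/-- the matrix given by a list of rows -/
def Wf (WL : List (List ℕ × List ℕ)) (s m : ℕ) : ℤ :=
  (cq (WL.getD s ([], [])).1 m : ℤ) - (cq (WL.getD s ([], [])).2 m : ℤ)

/-! ### coded combinations -/

/-- `∑ (a / 64) * X (a % 64)` -/
noncomputable def wsum (X : ℕ → ℕ) (l : List ℕ) : ℕ :=
  List.rec 0 (fun a _ ih => Nat.add (Nat.mul (Nat.div a 64) (X (Nat.mod a 64))) ih) l

theorem wsum_nil (X : ℕ → ℕ) : wsum X [] = 0 := rfl

theorem wsum_cons (X : ℕ → ℕ) (a : ℕ) (l : List ℕ) :
    wsum X (a :: l) = a / 64 * X (a % 64) + wsum X l := rfl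

theorem wcf_cons (a : ℕ) (L : List ℕ) (m : ℕ) :
    cf (a :: L) m = (if a % 64 = m then a / 64 else 0) + cf L m := by
  simp [cf]

theorem wcf_nil (m : ℕ) : cf [] m = 0 := rfl

theorem wcf_append (L M : List ℕ) (m : ℕ) : cf (L ++ M) m = cf L m + cf M m := by
  simp [cf]

theorem wsum_eq (X : ℕ → ℕ) (l : List ℕ) (k : ℕ) (h : ∀ a ∈ l, a % 64 < k) :
    wsum X l = ∑ s ∈ range k, cf l s * X s := by
  induction l with
  | nil => simp [wsum_nil, wcf_nil]
  | cons a l ih =>
    rw [wsum_cons, ih (fun b hb => h b (List.mem_cons_of_mem _ hb))]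
    simp only [wcf_cons, add_mul, sum_add_distrib]
    congr 1
    rw [sum_eq_single (a % 64)]
    · rw [if_pos rfl]
    · intro b _ hb
      rw [if_neg (fun h2 => hb h2.symm), zero_mul]
    · intro h2
      exact absurd (mem_range.mpr (h a List.mem_cons_self)) h2

theorem wsum_mono {X Y : ℕ → ℕ} (h : ∀ s, X s ≤ Y s) (l : List ℕ) : wsum X l ≤ wsum Y l := by
  induction l with
  | nil => exact le_refl _
  | cons a l ih =>
    rw [wsum_cons, wsum_cons]
    exact Nat.add_le_add (Nat.mul_le_mul_left _ (h _)) ih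

theorem wsum_pk (n : ℕ) (X : ℕ → ℕ → ℕ) (l : List ℕ) :
    wsum (fun s => pk 1 n (X s)) l = pk 1 n (fun m => wsum (fun s => X s m) l) := by
  induction l with
  | nil => simp [wsum_nil, pk]
  | cons a l ih =>
    rw [wsum_cons, ih, pk_mul, pk_add]
    rfl

/-! ### the rows of the gauge matrix -/

/-- codes of the positive part -/
def epP (D : Dat) (k : ℕ) : List ℕ :=
  cond (Nat.blt k 468) (Nat.add 64 (Nat.mod k 36) :: (D.mc (Nat.div k 36) (Nat.mod k 36)).2)
    ((nthR D.R (Nat.sub k 468)).N ++ (nthR D.R (Nat.sub k 468)).U.map (fun y => Nat.add 100 y))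

/-- codes of the negative part -/
def epN (D : Dat) (k : ℕ) : List ℕ :=
  cond (Nat.blt k 468) (D.mc (Nat.div k 36) (Nat.mod k 36)).1
    ((nthR D.R (Nat.sub k 468)).P ++ (nthR D.R (Nat.sub k 468)).V.map (fun y => Nat.add 100 y))

/-- the codes are in range -/
def Dat.rg (D : Dat) : Bool :=
  and (D.M.all (fun a => a.1.all (fun p => and (p.1.all (fun b => Nat.blt (Nat.mod b 64) 36))
    (p.2.all (fun b => Nat.blt (Nat.mod b 64) 36)))))
    (D.R.all (fun r => and (and (r.P.all (fun b => Nat.blt (Nat.mod b 64) 36))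
      (r.N.all (fun b => Nat.blt (Nat.mod b 64) 36)))
      (and (r.U.all (fun y => Nat.blt y 13)) (r.V.all (fun y => Nat.blt y 13)))))

theorem all_blt {l : List ℕ} {f : ℕ → ℕ} {k : ℕ} (h : l.all (fun b => Nat.blt (f b) k) = true) :
    ∀ b ∈ l, f b < k := by
  intro b hb
  have := List.all_eq_true.mp h b hb
  rwa [Nat.blt_eq] at this

theorem rg_M {D : Dat} (h : D.rg = true) (y i : ℕ) :
    (∀ b ∈ (D.mc y i).1, b % 64 < 36) ∧ ∀ b ∈ (D.mc y i).2, b % 64 < 36 := by
  have h1 := (Bool.and_eq_true _ _ ▸ h : _ ∧ _).1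
  rw [List.all_eq_true] at h1
  have h2 : ∀ p ∈ (D.M.getD y ([], 0)).1, (∀ b ∈ p.1, b % 64 < 36) ∧ ∀ b ∈ p.2, b % 64 < 36 := by
    intro p hp
    by_cases hy : y < D.M.length
    · rw [List.getD_eq_getElem _ _ hy] at hp
      have h3 := h1 _ (List.getElem_mem hy)
      rw [List.all_eq_true] at h3
      have h4 := h3 p hp
      rw [Bool.and_eq_true] at h4
      exact ⟨all_blt h4.1, all_blt h4.2⟩
    · rw [List.getD_eq_default _ _ (by omega)] at hp
      exact absurd hp (by simp)
  show (∀ b ∈ ((D.M.getD y ([], 0)).1.getD i ([], [])).1, b % 64 < 36) ∧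
    ∀ b ∈ ((D.M.getD y ([], 0)).1.getD i ([], [])).2, b % 64 < 36
  by_cases hi : i < (D.M.getD y ([], 0)).1.length
  · rw [List.getD_eq_getElem _ _ hi]
    exact h2 _ (List.getElem_mem hi)
  · rw [List.getD_eq_default _ _ (by omega)]
    simp

theorem rg_R {D : Dat} (h : D.rg = true) (l : ℕ) :
    ((∀ b ∈ (nthR D.R l).P, b % 64 < 36) ∧ ∀ b ∈ (nthR D.R l).N, b % 64 < 36) ∧
    ((∀ y ∈ (nthR D.R l).U, y < 13) ∧ ∀ y ∈ (nthR D.R l).V, y < 13) := by
  have h1 := (Bool.and_eq_true _ _ ▸ h : _ ∧ _).2
  rw [List.all_eq_true] at h1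
  by_cases hl : l < D.R.length
  · rw [nthR, List.getD_eq_getElem _ _ hl]
    have h3 := h1 _ (List.getElem_mem hl)
    rw [Bool.and_eq_true, Bool.and_eq_true, Bool.and_eq_true] at h3
    exact ⟨⟨all_blt h3.1.1, all_blt h3.1.2⟩, ⟨all_blt (f := fun y => y) h3.2.1,
      all_blt (f := fun y => y) h3.2.2⟩⟩
  · rw [nthR, List.getD_eq_default _ _ (by omega)]
    simp

theorem wcf_high (L : List ℕ) (h : ∀ b ∈ L, b % 64 < 36) (s : ℕ) (hs : 36 ≤ s) : cf L s = 0 := by
  induction L with
  | nil => rfl
  | cons a L ih =>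
    have := h a List.mem_cons_self
    rw [wcf_cons, ih (fun b hb => h b (List.mem_cons_of_mem _ hb)), if_neg (by omega)]

theorem wcf_letters (L : List ℕ) (h : ∀ y ∈ L, y < 13) (s : ℕ) :
    cf (L.map (fun y => Nat.add 100 y)) s = if s < 36 then 0 else L.count (s - 36) := by
  induction L with
  | nil => simp [wcf_nil]
  | cons a L ih =>
    have ha := h a List.mem_cons_self
    rw [List.map_cons, wcf_cons, ih (fun b hb => h b (List.mem_cons_of_mem _ hb)),
      List.count_cons]
    have h1 : Nat.add 100 a % 64 = 36 + a := by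
      show (100 + a) % 64 = _
      omega
    have h2 : Nat.add 100 a / 64 = 1 := by
      show (100 + a) / 64 = _
      omega
    rw [h1, h2]
    by_cases hs : s < 36
    · rw [if_pos hs, if_pos hs, if_neg (by omega)]
    · rw [if_neg hs, if_neg hs]
      by_cases h3 : 36 + a = s
      · rw [if_pos h3, if_pos (by rw [beq_iff_eq]; omega)]
        omega
      · rw [if_neg h3, if_neg (by rw [beq_iff_eq]; omega)]
        omega

theorem ep_lt {D : Dat} (h : D.rg = true) (k : ℕ) :
    (∀ a ∈ epP D k, a % 64 < 49) ∧ ∀ a ∈ epN D k, a % 64 < 49 := by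
  have hM := rg_M h (k / 36) (k % 36)
  have hR := rg_R h (k - 468)
  rw [epP, epN]
  have hU : ∀ (L : List ℕ), (∀ y ∈ L, y < 13) → ∀ a ∈ L.map (fun y => Nat.add 100 y),
      a % 64 < 49 := by
    intro L hL a ha
    obtain ⟨y, hy, rfl⟩ := List.mem_map.mp ha
    have := hL y hy
    show (100 + y) % 64 < 49
    omega
  cases hk : Nat.blt k 468
  · rw [cond_false, cond_false]
    constructor
    · intro a ha
      rcases List.mem_append.mp ha with h1 | h1
      · exact lt_trans (hR.1.2 a h1) (by norm_num)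
      · exact hU _ hR.2.1 a h1
    · intro a ha
      rcases List.mem_append.mp ha with h1 | h1
      · exact lt_trans (hR.1.1 a h1) (by norm_num)
      · exact hU _ hR.2.2 a h1
  · rw [cond_true, cond_true]
    constructor
    · intro a ha
      rcases List.mem_cons.mp ha with h1 | h1
      · rw [h1]
        show (64 + k % 36) % 64 < 49
        omega
      · exact lt_trans (hM.2 a h1) (by norm_num)
    · intro a ha
      exact lt_trans (hM.1 a ha) (by norm_num)

theorem eps_eq {D : Dat} (h : D.rg = true) (k s : ℕ) :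
    eps D k s = (cf (epP D k) s : ℤ) - (cf (epN D k) s : ℤ) := by
  have hM := rg_M h (k / 36) (k % 36)
  have hR := rg_R h (k - 468)
  rw [eps, epP, epN]
  by_cases hk : k < 468
  · have hk' : Nat.blt k 468 = true := by rw [Nat.blt_eq]; exact hk
    rw [if_pos hk, hk', cond_true, cond_true, wcf_cons]
    have h1 : Nat.add 64 (Nat.mod k 36) % 64 = k % 36 := by
      show (64 + k % 36) % 64 = _
      omega
    have h2 : Nat.add 64 (Nat.mod k 36) / 64 = 1 := by
      show (64 + k % 36) / 64 = _
      omega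
    rw [h1, h2]
    show _ = (((if k % 36 = s then 1 else 0) + cf (D.mc (k / 36) (k % 36)).2 s : ℕ) : ℤ) -
      ((cf (D.mc (k / 36) (k % 36)).1 s : ℕ) : ℤ)
    by_cases hs : s < 36
    · rw [if_pos hs]
      show _ - ((cf (D.mc (k / 36) (k % 36)).1 s : ℤ) - (cf (D.mc (k / 36) (k % 36)).2 s : ℤ)) = _
      by_cases h3 : s = k % 36
      · rw [if_pos h3, if_pos h3.symm]
        push_cast
        ring
      · rw [if_neg h3, if_neg (fun h4 => h3 h4.symm)]
        push_cast
        ring
    · have h3 : s ≠ k % 36 := by omega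
      rw [if_neg hs, if_neg h3, if_neg (fun h4 => h3 h4.symm),
        wcf_high _ hM.1 s (by omega), wcf_high _ hM.2 s (by omega)]
      simp
  · have hk' : Nat.blt k 468 = false := by
      rw [Bool.eq_false_iff, ne_eq, Nat.blt_eq]
      exact hk
    rw [if_neg hk, hk', cond_false, cond_false, wcf_append, wcf_append]
    show _ = ((cf (nthR D.R (k - 468)).N s + cf ((nthR D.R (k - 468)).U.map
      (fun y => Nat.add 100 y)) s : ℕ) : ℤ) - ((cf (nthR D.R (k - 468)).P s +
      cf ((nthR D.R (k - 468)).V.map (fun y => Nat.add 100 y)) s : ℕ) : ℤ)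
    rw [wcf_letters _ hR.2.1, wcf_letters _ hR.2.2]
    by_cases hs : s < 36
    · rw [if_pos hs, if_pos hs, if_pos hs]
      show - ((cf (nthR D.R (k - 468)).P s : ℤ) - (cf (nthR D.R (k - 468)).N s : ℤ)) = _
      push_cast
      ring
    · rw [if_neg hs, if_neg hs, if_neg hs, wcf_high _ hR.1.1 s (by omega),
        wcf_high _ hR.1.2 s (by omega)]
      push_cast
      ring

/-! ### the check of a final row -/

/-- the columns of the codes are in range -/
def wrg (n : ℕ) (WL : List (List ℕ × List ℕ)) : Bool :=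
  WL.all (fun w => and (w.1.all (fun a => Nat.blt (Nat.mod a 1024) n))
    (w.2.all (fun a => Nat.blt (Nat.mod a 1024) n)))

theorem wrg_mem {n : ℕ} {WL : List (List ℕ × List ℕ)} (h : wrg n WL = true) (s : ℕ) :
    (∀ a ∈ (WL.getD s ([], [])).1, a % 1024 < n) ∧ ∀ a ∈ (WL.getD s ([], [])).2, a % 1024 < n := by
  by_cases hs : s < WL.length
  · rw [List.getD_eq_getElem _ _ hs]
    have h1 := List.all_eq_true.mp h _ (List.getElem_mem hs)
    rw [Bool.and_eq_true] at h1
    exact ⟨all_blt h1.1, all_blt h1.2⟩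
  · rw [List.getD_eq_default _ _ (by omega)]
    simp

noncomputable def wp (WL : List (List ℕ × List ℕ)) (s : ℕ) : ℕ := pq (WL.getD s ([], [])).1

noncomputable def wn (WL : List (List ℕ × List ℕ)) (s : ℕ) : ℕ := pq (WL.getD s ([], [])).2

noncomputable def wt (WL : List (List ℕ × List ℕ)) (s : ℕ) : ℕ :=
  Nat.add (tq (WL.getD s ([], [])).1) (tq (WL.getD s ([], [])).2)

/-- `row = e_k + ∑ eps k s * W s` -/
noncomputable def rowOK (D : Dat) (WL : List (List ℕ × List ℕ)) (z k row : ℕ) : Bool :=
  (fun a b => and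
    (Nat.ble (Nat.add (Nat.add (wsum (wt WL) a) (wsum (wt WL) b)) 2097154) 1099511627776)
    (Nat.beq (Nat.add row (Nat.add (wsum (wn WL) a) (wsum (wp WL) b)))
      (Nat.add (Nat.add z (Nat.shiftLeft 1 (Nat.mul 40 k)))
        (Nat.add (wsum (wp WL) a) (wsum (wn WL) b))))) (epP D k) (epN D k)

theorem rowOK_sound {C : Type} [CommGroup C] {c : ℕ → C} {D : Dat} {WL : List (List ℕ × List ℕ)}
    {n : ℕ} (hD : D.rg = true) (hW : wrg n WL = true) {k row : ℕ} (hk : k < n)
    (hr : ZR c n HH row) (h : rowOK D WL (zr n) k row = true) :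
    c k * ∏ s ∈ range 49, (∏ m ∈ range n, c m ^ (Wf WL s m)) ^ eps D k s = 1 := by
  obtain ⟨d, hd1, hd2, hd3⟩ := hr
  have h0 : and (Nat.ble (Nat.add (Nat.add (wsum (wt WL) (epP D k)) (wsum (wt WL) (epN D k)))
      2097154) 1099511627776)
    (Nat.beq (Nat.add row (Nat.add (wsum (wn WL) (epP D k)) (wsum (wp WL) (epN D k))))
      (Nat.add (Nat.add (zr n) (Nat.shiftLeft 1 (Nat.mul 40 k)))
        (Nat.add (wsum (wp WL) (epP D k)) (wsum (wn WL) (epN D k))))) = true := h
  rw [Bool.and_eq_true] at h0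
  have h1 := Nat.le_of_ble_eq_true h0.1
  have h2 := Nat.eq_of_beq_eq_true h0.2
  set a := epP D k with ha
  set b := epN D k with hb
  have ewp : wp WL = fun s => pk 1 n (cq (WL.getD s ([], [])).1) :=
    funext fun s => pq_eq n _ (wrg_mem hW s).1
  have ewn : wn WL = fun s => pk 1 n (cq (WL.getD s ([], [])).2) :=
    funext fun s => pq_eq n _ (wrg_mem hW s).2
  have h2 : row + (wsum (wn WL) a + wsum (wp WL) b) =
    zr n + Nat.shiftLeft 1 (Nat.mul 40 k) + (wsum (wp WL) a + wsum (wn WL) b) := h2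
  rw [ewp, ewn, wsum_pk, wsum_pk, wsum_pk, wsum_pk, shl40, zr_eq, one_mul, pk_single k n hk, hd2,
    pk_add, pk_add, pk_add, pk_add, pk_add] at h2
  have h1 : wsum (wt WL) a + wsum (wt WL) b + 2097154 ≤ 1099511627776 := h1
  have hB : B = 1099511627776 := by rw [B_eq]; norm_num
  have bP : ∀ l m, wsum (fun s => cq (WL.getD s ([], [])).1 m) l ≤ wsum (wt WL) l := fun l m =>
    wsum_mono (fun s => (cq_le _ _).trans (Nat.le_add_right _ _)) l
  have bN : ∀ l m, wsum (fun s => cq (WL.getD s ([], [])).2 m) l ≤ wsum (wt WL) l := fun l m =>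
    wsum_mono (fun s => (cq_le _ _).trans (Nat.le_add_left _ _)) l
  have hH : 2 * HH = 2097152 := rfl
  have h3 := pk_inj n _ _ (fun i _ => ?_) (fun i _ => ?_) h2
  · have key : ∀ m < n, ((d m : ℤ) - (HH : ℤ)) = (if m = k then 1 else 0) +
        ∑ s ∈ range 49, eps D k s * Wf WL s m := by
      intro m hm'
      have h4 := h3 m hm'
      have h5 : d m + (wsum (fun s => cq (WL.getD s ([], [])).2 m) a +
        wsum (fun s => cq (WL.getD s ([], [])).1 m) b) = HH + (if m = k then 1 else 0) +
        (wsum (fun s => cq (WL.getD s ([], [])).1 m) a +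
        wsum (fun s => cq (WL.getD s ([], [])).2 m) b) := h4
      have hlt := ep_lt hD k
      rw [wsum_eq _ a 49 hlt.1, wsum_eq _ b 49 hlt.2, wsum_eq _ a 49 hlt.1,
        wsum_eq _ b 49 hlt.2] at h5
      have h6 : (d m : ℤ) + ((∑ s ∈ range 49, (cf a s : ℤ) * (cq (WL.getD s ([], [])).2 m : ℤ)) +
        ∑ s ∈ range 49, (cf b s : ℤ) * (cq (WL.getD s ([], [])).1 m : ℤ)) =
        (HH : ℤ) + (if m = k then 1 else 0) +
        ((∑ s ∈ range 49, (cf a s : ℤ) * (cq (WL.getD s ([], [])).1 m : ℤ)) +
        ∑ s ∈ range 49, (cf b s : ℤ) * (cq (WL.getD s ([], [])).2 m : ℤ)) := by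
        exact_mod_cast h5
      have h7 : ∑ s ∈ range 49, eps D k s * Wf WL s m =
          (∑ s ∈ range 49, (cf a s : ℤ) * (cq (WL.getD s ([], [])).1 m : ℤ)) +
          (∑ s ∈ range 49, (cf b s : ℤ) * (cq (WL.getD s ([], [])).2 m : ℤ)) -
          (∑ s ∈ range 49, (cf a s : ℤ) * (cq (WL.getD s ([], [])).2 m : ℤ)) -
          ∑ s ∈ range 49, (cf b s : ℤ) * (cq (WL.getD s ([], [])).1 m : ℤ) := by
        rw [← sum_add_distrib, ← sum_sub_distrib, ← sum_sub_distrib]
        apply sum_congr rfl
        intro s _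
        rw [eps_eq hD, Wf, ← ha, ← hb]
        ring
      rw [h7]
      linarith
    have h8 : c k * ∏ s ∈ range 49, (∏ m ∈ range n, c m ^ (Wf WL s m)) ^ eps D k s =
        ∏ m ∈ range n, c m ^ ((d m : ℤ) - (HH : ℤ)) := by
      have h9 : ∏ m ∈ range n, c m ^ ((d m : ℤ) - (HH : ℤ)) =
          (∏ m ∈ range n, c m ^ ((if m = k then 1 else 0 : ℤ))) *
          ∏ m ∈ range n, c m ^ (∑ s ∈ range 49, eps D k s * Wf WL s m) := by
        rw [← prod_mul_distrib]
        apply prod_congr rfl
        intro m hm'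
        rw [key m (mem_range.mp hm'), zpow_add]
      rw [h9]
      refine congrArg₂ (fun x y => x * y) ?_ ?_
      · rw [prod_eq_single k]
        · rw [if_pos rfl, zpow_one]
        · intro m _ hm'
          rw [if_neg hm', zpow_zero]
        · intro h10
          exact absurd (mem_range.mpr hk) h10
      · have h11 : ∀ m, c m ^ (∑ s ∈ range 49, eps D k s * Wf WL s m) =
            ∏ s ∈ range 49, c m ^ (eps D k s * Wf WL s m) := by
          intro m
          induction 49 with
          | zero => simp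
          | succ t ih => rw [sum_range_succ, prod_range_succ, zpow_add, ih]
        simp only [h11]
        rw [prod_comm]
        apply prod_congr rfl
        intro s _
        rw [← prod_zpow]
        apply prod_congr rfl
        intro m _
        rw [← zpow_mul, mul_comm]
    rw [h8, hd3]
  · have := hd1 i
    have := bN a i
    have := bP b i
    show d i + (wsum (fun s => cq (WL.getD s ([], [])).2 i) a +
      wsum (fun s => cq (WL.getD s ([], [])).1 i) b) < B
    omega
  · have := bP a i
    have := bN b i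
    show HH + (if i = k then 1 else 0) + (wsum (fun s => cq (WL.getD s ([], [])).1 i) a +
      wsum (fun s => cq (WL.getD s ([], [])).2 i) b) < B
    split <;> omega

/-! ### the final checks -/

/-- the rows of the commutator tails: `L` is the list of the indices of the rows -/
noncomputable def finB (z : ℕ) (t : Tr) (f : ℕ) : ℕ → List ℕ → Bool :=
  Nat.rec (motive := fun _ => ℕ → List ℕ → Bool) (fun _ _ => true)
    (fun _ ih k L => cond (Nat.blt (Nat.mod k 36) (Nat.div k 36))
      (List.rec (motive := fun _ => Bool) false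
        (fun a L' _ => cond (Nat.beq (t.row z a) (Nat.add z (Nat.shiftLeft 1 (Nat.mul 40 k))))
          (ih (Nat.succ k) L') false) L) (ih (Nat.succ k) L)) f

theorem ZR_unit {C : Type} [CommGroup C] {c : ℕ → C} {n k : ℕ} (hk : k < n)
    (h : ZR c n HH (zr n + B ^ k)) : c k = 1 := by
  obtain ⟨d, h1, h2, h3⟩ := h
  rw [zr_eq, pk_single k n hk, pk_add] at h2
  have hH : 2 * HH = 2097152 := rfl
  have hB : B = 1099511627776 := by rw [B_eq]; norm_num
  have h4 := pk_inj n _ _ (fun i _ => ?_) (fun i _ => ?_) h2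
  · rw [← h3, prod_eq_single k]
    · have h5 : HH + (if k = k then 1 else 0) = d k := h4 k hk
      rw [if_pos rfl] at h5
      rw [← h5]
      push_cast
      rw [add_sub_cancel_left, zpow_one]
    · intro m hm' hmk
      have h5 : HH + (if m = k then 1 else 0) = d m := h4 m (mem_range.mp hm')
      rw [if_neg hmk] at h5
      rw [← h5]
      simp
    · intro h10
      exact absurd (mem_range.mpr hk) h10
  · show HH + (if i = k then 1 else 0) < B
    split <;> omega
  · have := h1 i
    omega

theorem finB_sound {C : Type} [CommGroup C] {c : ℕ → C} {n : ℕ} (t : Tr)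
    (ht : t.All (ZS c n)) (f k : ℕ) (L : List ℕ) (hkn : k + f ≤ n)
    (h : finB (zr n) t f k L = true) (m : ℕ) (hm1 : k ≤ m) (hm2 : m < k + f)
    (hm3 : m % 36 < m / 36) : c m = 1 := by
  induction f generalizing k L with
  | zero => omega
  | succ f ih =>
    have h : cond (Nat.blt (k % 36) (k / 36))
      (List.rec (motive := fun _ => Bool) false
        (fun a L' _ => cond (Nat.beq (t.row (zr n) a) (Nat.add (zr n)
          (Nat.shiftLeft 1 (Nat.mul 40 k)))) (finB (zr n) t f (Nat.succ k) L') false) L)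
      (finB (zr n) t f (Nat.succ k) L) = true := h
    cases hc : Nat.blt (k % 36) (k / 36)
    · rw [hc, cond_false] at h
      have hmk : m ≠ k := by
        rintro rfl
        have := (Nat.blt_eq (x := m % 36) (y := m / 36)).mpr hm3
        rw [this] at hc
        exact absurd hc (by simp)
      exact ih (k + 1) L (by omega) h (by omega) (by omega)
    · rw [hc, cond_true] at h
      cases L with
      | nil => exact absurd h (by simp)
      | cons a L' =>
        have h : cond (Nat.beq (t.row (zr n) a) (Nat.add (zr n)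
          (Nat.shiftLeft 1 (Nat.mul 40 k)))) (finB (zr n) t f (Nat.succ k) L') false = true := h
        cases hb : Nat.beq (t.row (zr n) a) (Nat.add (zr n) (Nat.shiftLeft 1 (Nat.mul 40 k)))
        · rw [hb, cond_false] at h
          exact absurd h (by simp)
        · rw [hb, cond_true] at h
          by_cases hmk : m = k
          · subst hmk
            have h1 := Nat.eq_of_beq_eq_true hb
            have h2 := Tr.row_zr t ht a
            rw [h1] at h2
            rw [shl40, one_mul] at h2
            exact ZR_unit (by omega) h2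
          · exact ih (k + 1) L' (by omega) h (by omega) (by omega)

/-- the final rows: `L` is the list of the indices of the rows `k, k + 1, ...` -/
noncomputable def finT (D : Dat) (WL : List (List ℕ × List ℕ)) (z : ℕ) (t : Tr) (L : List ℕ) :
    ℕ → Bool :=
  List.rec (motive := fun _ => ℕ → Bool) (fun _ => true)
    (fun a _ ih k => cond (rowOK D WL z k (t.row z a)) (ih (Nat.succ k)) false) L

theorem finT_sound {C : Type} [CommGroup C] {c : ℕ → C} {n : ℕ} {D : Dat}
    {WL : List (List ℕ × List ℕ)} (t : Tr) (ht : t.All (ZS c n)) (L : List ℕ) (k : ℕ)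
    (h : finT D WL (zr n) t L k = true) (m : ℕ) (hm1 : k ≤ m) (hm2 : m < k + L.length) :
    ∃ row, ZR c n HH row ∧ rowOK D WL (zr n) m row = true := by
  induction L generalizing k with
  | nil => simp at hm2; omega
  | cons a L ih =>
    have h : cond (rowOK D WL (zr n) k (t.row (zr n) a)) (finT D WL (zr n) t L (Nat.succ k)) false =
      true := h
    cases hb : rowOK D WL (zr n) k (t.row (zr n) a)
    · rw [hb, cond_false] at h
      exact absurd h (by simp)
    · rw [hb, cond_true] at h
      by_cases hmk : m = k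
      · subst hmk
        exact ⟨_, Tr.row_zr t ht a, hb⟩
      · rw [List.length_cons] at hm2
        exact ih (k + 1) h (by omega) (by omega)

/-- the certificate from the two phases -/
theorem cert_of (D : Dat) (WL : List (List ℕ × List ℕ)) (hD : D.rg = true)
    (hW : wrg 574 WL = true)
    (h1 : ∀ (E C : Type) [Group E] [CommGroup C] (ι : C →* E) (t g : ℕ → E) (c : ℕ → C),
      Cen D ι t g c → ∀ k < 1296, k % 36 < k / 36 → c k = 1)
    (h2 : ∀ (E C : Type) [Group E] [CommGroup C] (ι : C →* E) (t g : ℕ → E) (c : ℕ → C),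
      Cen D ι t g c → (∀ k < 1296, c k = 1) → ∀ k < 574, ∃ row,
        ZR (fun m => c (1296 + m)) 574 HH row ∧ rowOK D WL (zr 574) k row = true) :
    Cert D (Wf WL) := by
  intro E C _ _ ι t g c hc
  have h3 : ∀ k < 1296, c k = 1 := by
    intro k hk
    by_cases h4 : k % 36 < k / 36
    · exact h1 E C ι t g c hc k hk h4
    · have h5 := hc.lat.tri (k / 36) (k % 36) (by omega) (by omega) (by omega)
      rwa [Nat.div_add_mod] at h5
  refine ⟨h3, fun k hk => ?_⟩
  obtain ⟨row, hr, ho⟩ := h2 E C ι t g c hc h3 k hk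
  exact rowOK_sound (c := fun m => c (1296 + m)) hD hW hk hr ho

end VRC.Pk

end

section

set_option autoImplicit false

/-! Soundness of the tables: the structure `Tab` from `Cen` and a decidable check of the data. -/

namespace VRC.Pk

open Finset

attribute [local irreducible] B NN

/-- sum of the coefficients at `i` -/
def cfk (i : ℕ) : List ℕ → ℕ
  | [] => 0
  | a :: l => cond (Nat.beq (Nat.mod a 64) i) (Nat.add (Nat.div a 64) (cfk i l)) (cfk i l)

/-- all indices are smaller than 36 -/
def idk : List ℕ → Bool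
  | [] => true
  | a :: l => and (Nat.blt (Nat.mod a 64) 36) (idk l)

/-- the digits at the places smaller than `k` are bounded by `b` -/
def bdk (P N : List ℕ) (b : ℕ) : ℕ → Bool
  | 0 => true
  | k + 1 => and (Nat.ble (Nat.add (cfk k P) (cfk k N)) b) (bdk P N b k)

/-- check of one vector -/
def okv (P N : List ℕ) (b : ℕ) : Bool := and (idk P) (and (idk N) (bdk P N b 36))

def okT (b : ℕ) : List (List ℕ × List ℕ) → Bool
  | [] => true
  | a :: l => and (okv a.1 a.2 b) (okT b l)

def okM : List (List (List ℕ × List ℕ) × ℕ) → Bool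
  | [] => true
  | a :: l => and (and (Nat.beq a.1.length 36) (okT a.2 a.1)) (okM l)

def okR : List Ru → Bool
  | [] => true
  | r :: l => and (okv r.P r.N r.b) (okR l)

/-- check of the data -/
def Dat.ok (D : Dat) : Bool :=
  and (and (Nat.beq D.M.length 13) (Nat.ble D.R.length 106)) (and (okM D.M) (okR D.R))

theorem cfk_eq (i : ℕ) (l : List ℕ) : cfk i l = cf l i := by
  induction l with
  | nil => rfl
  | cons a l ih =>
    rw [cfk, ih]
    show _ = ((a :: l).map (fun a => if a % 64 = i then a / 64 else 0)).sum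
    rw [List.map_cons, List.sum_cons]
    by_cases h : a % 64 = i
    · rw [show Nat.beq (Nat.mod a 64) i = true from Nat.beq_eq.mpr h]
      rw [if_pos h]
      rfl
    · have h1 : Nat.beq (Nat.mod a 64) i = false := by
        cases h2 : Nat.beq (Nat.mod a 64) i with
        | false => rfl
        | true => exact absurd (Nat.eq_of_beq_eq_true h2) h
      rw [h1, if_neg h, zero_add]
      rfl

theorem idk_mem {l : List ℕ} (h : idk l = true) : ∀ a ∈ l, a % 64 < 36 := by
  induction l with
  | nil => intro a ha; exact absurd ha List.not_mem_nil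
  | cons b l ih =>
    rw [idk, Bool.and_eq_true] at h
    intro a ha
    rcases List.mem_cons.mp ha with h1 | h1
    · rw [h1]
      have h2 := h.1
      rw [Nat.blt_eq] at h2
      exact h2
    · exact ih h.2 a h1

theorem bdk_le {P N : List ℕ} {b : ℕ} : ∀ {k : ℕ}, bdk P N b k = true →
    ∀ i < k, cf P i + cf N i ≤ b
  | 0, _, i, hi => absurd hi (Nat.not_lt_zero i)
  | k + 1, h, i, hi => by
    rw [bdk, Bool.and_eq_true, cfk_eq, cfk_eq] at h
    rcases Nat.lt_succ_iff_lt_or_eq.mp hi with h1 | h1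
    · exact bdk_le h.2 i h1
    · rw [h1]
      exact Nat.le_of_ble_eq_true h.1

theorem cf_eq_zero {l : List ℕ} (h : ∀ a ∈ l, a % 64 < 36) {i : ℕ} (hi : 36 ≤ i) :
    cf l i = 0 := by
  induction l with
  | nil => rfl
  | cons a l ih =>
    show ((a :: l).map (fun a => if a % 64 = i then a / 64 else 0)).sum = 0
    rw [List.map_cons, List.sum_cons]
    have h1 := h a List.mem_cons_self
    rw [if_neg (by omega), zero_add]
    exact ih (fun b hb => h b (List.mem_cons_of_mem _ hb))

theorem tab_cf_cons (a : ℕ) (l : List ℕ) :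
    cf (a :: l) = fun i => (if a % 64 = i then a / 64 else 0) + cf l i := by
  funext i
  show ((a :: l).map (fun a => if a % 64 = i then a / 64 else 0)).sum = _
  rw [List.map_cons, List.sum_cons]
  rfl

theorem mkv_eq (s : ℕ) {l : List ℕ} (h : ∀ a ∈ l, a % 64 < 36) :
    mkv (40 * s) l = pk s 36 (cf l) := by
  induction l with
  | nil =>
    show 0 = pk s 36 (fun _ => 0)
    simp [pk]
  | cons a l ih =>
    have h1 := h a List.mem_cons_self
    have h2 := ih (fun b hb => h b (List.mem_cons_of_mem _ hb))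
    rw [mkv, h2]
    rw [tab_cf_cons, ← pk_add]
    have h3 : Nat.shiftLeft (Nat.div a 64) (Nat.mul (40 * s) (Nat.mod a 64)) =
        a / 64 * 2 ^ (40 * s * (a % 64)) := Nat.shiftLeft_eq _ _
    rw [h3]
    refine congrArg₂ (fun x y : ℕ => x + y) ?_ rfl
    rw [pk, sum_eq_single (a % 64)]
    · rw [if_pos rfl, B_eq, ← pow_mul, mul_assoc]
    · intro b _ hb
      rw [if_neg (fun h => hb h.symm), zero_mul]
    · intro hk
      exact absurd (mem_range.mpr h1) hk

theorem okv_sound {P N : List ℕ} {b : ℕ} (h : okv P N b = true) :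
    (∀ i, cf P i + cf N i ≤ b) ∧ mkv 40 P = pk 1 36 (cf P) ∧ mkv 40 N = pk 1 36 (cf N) ∧
      mkv 1440 P = pk 36 36 (cf P) ∧ mkv 1440 N = pk 36 36 (cf N) := by
  rw [okv, Bool.and_eq_true, Bool.and_eq_true] at h
  obtain ⟨h1, h2, h3⟩ := h
  have h1 := idk_mem h1
  have h2 := idk_mem h2
  refine ⟨fun i => ?_, mkv_eq 1 h1, mkv_eq 1 h2, mkv_eq 36 h1, mkv_eq 36 h2⟩
  by_cases hi : i < 36
  · exact bdk_le h3 i hi
  · rw [cf_eq_zero h1 (by omega), cf_eq_zero h2 (by omega)]
    exact Nat.zero_le _

theorem mkW_WV {P N : List ℕ} {b : ℕ} (h : okv P N b = true) : WV (mkW P N) b (vec P N) := by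
  obtain ⟨h1, h2, h3, h4, h5⟩ := okv_sound h
  exact ⟨cf P, cf N, h1, h2, h3, h4, h5, rfl, rfl, fun _ => rfl⟩

theorem okT_get {b : ℕ} {l : List (List ℕ × List ℕ)} (h : okT b l = true) :
    ∀ a ∈ l, okv a.1 a.2 b = true := by
  induction l with
  | nil => intro a ha; exact absurd ha List.not_mem_nil
  | cons a l ih =>
    rw [okT, Bool.and_eq_true] at h
    intro x hx
    rcases List.mem_cons.mp hx with h1 | h1
    · rw [h1]; exact h.1
    · exact ih h.2 x h1

theorem okM_get {l : List (List (List ℕ × List ℕ) × ℕ)} (h : okM l = true) :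
    ∀ a ∈ l, a.1.length = 36 ∧ okT a.2 a.1 = true := by
  induction l with
  | nil => intro a ha; exact absurd ha List.not_mem_nil
  | cons a l ih =>
    rw [okM, Bool.and_eq_true, Bool.and_eq_true] at h
    intro x hx
    rcases List.mem_cons.mp hx with h1 | h1
    · rw [h1]; exact ⟨Nat.eq_of_beq_eq_true h.1.1, h.1.2⟩
    · exact ih h.2 x h1

theorem okR_get {l : List Ru} (h : okR l = true) : ∀ a ∈ l, okv a.P a.N a.b = true := by
  induction l with
  | nil => intro a ha; exact absurd ha List.not_mem_nil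
  | cons a l ih =>
    rw [okR, Bool.and_eq_true] at h
    intro x hx
    rcases List.mem_cons.mp hx with h1 | h1
    · rw [h1]; exact h.1
    · exact ih h.2 x h1

theorem mkT_eq (l : List (List ℕ × List ℕ)) : mkT l = l.map (fun a => mkW a.1 a.2) := by
  induction l with
  | nil => rfl
  | cons a l ih => rw [mkT, ih, List.map_cons]

theorem mkL_get (R : List Ru) : ∀ (M : List (List (List ℕ × List ℕ) × ℕ)) (y k : ℕ),
    (mkL R M y)[k]? = M[k]?.map (fun a => (⟨⟨mkT a.1, a.2, 40 * (1296 + 36 * (y + k)), 0⟩,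
      selR (y + k) R 0⟩ : Le))
  | [], y, k => by simp [mkL]
  | a :: M, y, 0 => by simp [mkL]
  | a :: M, y, k + 1 => by
    rw [mkL, List.getElem?_cons_succ, List.getElem?_cons_succ, mkL_get R M (Nat.succ y) k,
      show Nat.succ y + k = y + (k + 1) by omega]

theorem selR_mem (x : ℕ) : ∀ (R : List Ru) (l : ℕ) (r : Rl), r ∈ selR x R l →
    ∃ k, k < R.length ∧ (nthR R k).U = x :: r.u ∧ (nthR R k).V = r.v ∧
      r.e = mkE (nthR R k) (l + k)
  | [], l, r, h => by simp [selR] at h
  | s :: R, l, r, h => by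
    have next : r ∈ selR x R (Nat.succ l) → ∃ k, k < (s :: R).length ∧
        (nthR (s :: R) k).U = x :: r.u ∧ (nthR (s :: R) k).V = r.v ∧
        r.e = mkE (nthR (s :: R) k) (l + k) := by
      intro h
      obtain ⟨k, h1, h2, h3, h4⟩ := selR_mem x R (Nat.succ l) r h
      refine ⟨k + 1, by simp only [List.length_cons]; omega, h2, h3, ?_⟩
      rw [h4, show Nat.succ l + k = l + (k + 1) by omega]
      rfl
    rw [selR] at h
    cases hU : s.U with
    | nil =>
      rw [hU] at h
      exact next h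
    | cons y u =>
      rw [hU] at h
      cases hb : Nat.beq x y with
      | false =>
        simp only [hb, cond_false] at h
        exact next h
      | true =>
        simp only [hb, cond_true] at h
        rcases List.mem_cons.mp h with h1 | h1
        · refine ⟨0, by simp, ?_, ?_, ?_⟩
          · rw [h1, Nat.eq_of_beq_eq_true hb]
            exact hU
          · rw [h1]; rfl
          · rw [h1]; rfl
        · exact next h1

section tab

variable {E C : Type} [Group E] [CommGroup C] {ι : C →* E} {t g : ℕ → E} {c : ℕ → C}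

theorem mkE_EV {r : Ru} {l : ℕ} (h : okv r.P r.N r.b = true) (hl : l < 106) :
    EV ι t c (mkE r l) (tp t r.vc 36 * ι (c (1764 + l))) := by
  obtain ⟨h1, h2, h3, h4, h5⟩ := okv_sound h
  refine ⟨cf r.P, cf r.N, c (1764 + l), h1, h2, h3, h4, h5, ?_, rfl⟩
  have hk : 1764 + l < NN := by unfold NN; omega
  have hsh : Nat.shiftLeft 1 (Nat.mul 40 (Nat.add 1764 l)) = B ^ (1764 + l) := by
    show 1 <<< (40 * (1764 + l)) = _
    rw [Nat.shiftLeft_eq, one_mul, B_eq, ← pow_mul]
  show RV c (Nat.shiftLeft 1 (Nat.mul 40 (Nat.add 1764 l))) 0 1 _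
  rw [hsh]
  exact RV.single (1764 + l) hk

theorem tab_single (i : ℕ) : ∀ k, tp t (fun j => if j = i then 1 else 0) k =
    if i < k then t i else 1
  | 0 => by simp [tp]
  | k + 1 => by
    rw [tp, tab_single i k]
    by_cases h1 : i < k
    · rw [if_pos h1, if_pos (by omega : i < k + 1), if_neg (by omega : ¬ k = i), zpow_zero,
        mul_one]
    · rw [if_neg h1, one_mul]
      by_cases h2 : k = i
      · rw [if_pos h2, if_pos (by omega : i < k + 1), zpow_one, h2]
      · rw [if_neg h2, if_neg (by omega : ¬ i < k + 1), zpow_zero]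

theorem unit_EV {i : ℕ} (hi : i < 36) : EV ι t c (unit i) (t i) := by
  have key : ∀ s : ℕ, Nat.shiftLeft 1 (Nat.mul (40 * s) i) =
      pk s 36 (fun j => if j = i then 1 else 0) := by
    intro s
    show 1 <<< (40 * s * i) = _
    rw [Nat.shiftLeft_eq, one_mul, pk, sum_eq_single i]
    · rw [if_pos rfl, one_mul, B_eq, ← pow_mul, mul_assoc]
    · intro b _ hb
      rw [if_neg hb, zero_mul]
    · intro hk
      exact absurd (mem_range.mpr hi) hk
  refine ⟨fun j => if j = i then 1 else 0, fun _ => 0, 1, fun j => ?_, key 1, ?_, key 36, ?_,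
    RV.one, ?_⟩
  · show (if j = i then 1 else 0) + 0 ≤ 1
    split <;> simp
  · show 0 = _
    simp [pk]
  · show 0 = _
    simp [pk]
  · rw [map_one, mul_one]
    have h1 : tp t (fun j => (((if j = i then 1 else 0 : ℕ) : ℤ) - ((0 : ℕ) : ℤ))) 36 =
        tp t (fun j => if j = i then 1 else 0) 36 := by
      apply tp_ext
      intro j _
      by_cases h : j = i
      · simp [h]
      · simp [h]
    rw [h1, tab_single i 36, if_pos hi]

theorem Tab_of_ok {D : Dat} (hok : D.ok = true) (hC : Cen D ι t g c) : Tab D ι t g c := by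
  rw [Dat.ok, Bool.and_eq_true, Bool.and_eq_true, Bool.and_eq_true] at hok
  obtain ⟨⟨h13, h106⟩, hM, hR⟩ := hok
  have h13 : D.M.length = 13 := Nat.eq_of_beq_eq_true h13
  have h106 : D.R.length ≤ 106 := Nat.le_of_ble_eq_true h106
  have hM := okM_get hM
  have hR := okR_get hR
  have hnthR : ∀ l, l < D.R.length → nthR D.R l ∈ D.R := by
    intro l hl
    rw [nthR, List.getD_eq_getElem _ _ hl]
    exact List.getElem_mem hl
  have hel : ∀ l, l < D.R.length →
      EV ι t c (mkE (nthR D.R l) l) (tp t (nthR D.R l).vc 36 * ι (c (1764 + l))) :=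
    fun l hl => mkE_EV (hR _ (hnthR l hl)) (by omega)
  -- the tables of the letters
  have hnth : ∀ y (hy : y < 13), nth (mkL D.R D.M 0) y =
      ⟨⟨mkT (D.M[y]'(by omega)).1, (D.M[y]'(by omega)).2, 40 * (1296 + 36 * y), 0⟩,
        selR y D.R 0⟩ := by
    intro y hy
    rw [nth, List.getD_eq_getElem?_getD, mkL_get, List.getElem?_eq_getElem (by omega),
      Option.map_some, Option.getD_some, zero_add]
  have hmc : ∀ y i (hy : y < 13) (hi : i < ((D.M[y]'(by omega)).1).length),
      D.mc y i = ((D.M[y]'(by omega)).1)[i] := by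
    intro y i hy hi
    rw [Dat.mc, List.getD_eq_getElem _ _ (by omega : y < D.M.length), List.getD_eq_getElem _ _ hi]
  have hwv : ∀ y i (hy : y < 13) (hi : i < (mkT (D.M[y]'(by omega)).1).length),
      WV ((mkT (D.M[y]'(by omega)).1)[i]) (D.M[y]'(by omega)).2 (D.mv y i) := by
    intro y i hy hi
    have hi' : i < ((D.M[y]'(by omega)).1).length := by
      rw [mkT_eq, List.length_map] at hi
      exact hi
    have h1 : (mkT (D.M[y]'(by omega)).1)[i] =
        mkW (((D.M[y]'(by omega)).1)[i]).1 (((D.M[y]'(by omega)).1)[i]).2 := by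
      simp only [mkT_eq, List.getElem_map]
    rw [h1, Dat.mv, hmc y i hy hi']
    exact mkW_WV (okT_get (hM _ (List.getElem_mem _)).2 _ (List.getElem_mem _))
  have hlen : ∀ y (hy : y < 13), (mkT (D.M[y]'(by omega)).1).length = 36 := by
    intro y hy
    rw [mkT_eq, List.length_map]
    exact (hM _ (List.getElem_mem _)).1
  refine ⟨⟨fun y => ?_, fun y r hr => ?_⟩, hel, fun i hi => unit_EV hi, fun y i hy hi => ?_⟩
  · by_cases hy : y < 13
    · rw [hnth y hy]
      intro _
      refine ⟨D.mv y, 1296 + 36 * y, hlen y hy, fun i hi => hwv y i hy hi, rfl, ?_, ?_⟩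
      · unfold NN
        omega
      · intro i hi
        rw [hC.act y i hy hi, add_assoc]
    · have h1 : nth (mkL D.R D.M 0) y = ⟨⟨[], 0, 0, B⟩, []⟩ := by
        rw [nth, List.getD_eq_getElem?_getD, mkL_get, List.getElem?_eq_none (by omega)]
        rfl
      rw [h1]
      intro h
      exact absurd h (lt_irrefl _)
  · by_cases hy : y < 13
    · rw [hnth y hy] at hr
      obtain ⟨k, h1, h2, h3, h4⟩ := selR_mem y D.R 0 r hr
      rw [zero_add] at h4
      refine ⟨tp t (nthR D.R k).vc 36 * ι (c (1764 + k)), ?_, ?_⟩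
      · rw [h4]
        exact hel k h1
      · have h5 := hC.rul k h1
        rw [h2, h3] at h5
        exact h5
    · have h1 : nth (mkL D.R D.M 0) y = ⟨⟨[], 0, 0, B⟩, []⟩ := by
        rw [nth, List.getD_eq_getElem?_getD, mkL_get, List.getElem?_eq_none (by omega)]
        rfl
      rw [h1] at hr
      exact absurd hr List.not_mem_nil
  · rw [hnth y hy]
    have h1 : i < (mkT (D.M[y]'(by omega)).1).length := by rw [hlen y hy]; exact hi
    show WV ((mkT (D.M[y]'(by omega)).1).getD i ⟨0, 0, 0, 0, 0, 0⟩) _ _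
    rw [List.getD_eq_getElem _ _ h1]
    exact hwv y i hy h1

end tab

theorem D36_ok : D36.ok = true := by decide +kernel

theorem Tab36 {E C : Type} [Group E] [CommGroup C] {ι : C →* E} {t g : ℕ → E} {c : ℕ → C}
    (hC : Cen D36 ι t g c) : Tab D36 ι t g c := Tab_of_ok D36_ok hC

end VRC.Pk

end

section

set_option autoImplicit false

/-! Phase 1 of the elimination: the commutators of the lattice are trivial. -/

namespace VRC.Pk

open Finset

attribute [local irreducible] B NN

theorem ons_ones (n : ℕ) : ons n = ones n := rfl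

theorem bias_zr (n : ℕ) : bias n = zr n := Nat.mul_comm _ _

theorem hmask_hm (n : ℕ) : hmask n = hm n := by
  rw [Rows.hmask_eq, hm_eq]
  have h : B - 2097152 = 1099509530624 := by rw [B_eq]; norm_num
  rw [h]

/-- the source of phase 1: the row of an equation, restricted to the digits of the mask `M` -/
noncomputable def src1 (L : List Le) (D : Dat) (fuel z M : ℕ) (e : Eqn) (k : ℕ → Bool) : Bool :=
  and (e.ok D) ((fun r : Rw × Bool => and r.2 (and (Nat.blt r.1.b 549755813888)
    ((fun X Y => and (Nat.ble Y X) (k (Nat.sub X Y)))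
      (Nat.add (Nat.land r.1.p M) z) (Nat.land r.1.n M)))) (evl L D.R fuel e))

theorem src1_good {E C : Type} [Group E] [CommGroup C] {ι : C →* E} {t g : ℕ → E} {c : ℕ → C}
    {D : Dat} (hC : Cen D ι t g c) (hT : Tab D ι t g c) (fuel : ℕ) :
    Good c 1870 (src1 (mkL D.R D.M 0) D fuel (zr 1870) msk) := by
  intro e k h
  have h1 : and (e.ok D) (and (evl (mkL D.R D.M 0) D.R fuel e).2
    (and (Nat.blt (evl (mkL D.R D.M 0) D.R fuel e).1.b 549755813888)
      (and (Nat.ble (Nat.land (evl (mkL D.R D.M 0) D.R fuel e).1.n msk)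
        (Nat.add (Nat.land (evl (mkL D.R D.M 0) D.R fuel e).1.p msk) (zr 1870)))
        (k (Nat.sub (Nat.add (Nat.land (evl (mkL D.R D.M 0) D.R fuel e).1.p msk) (zr 1870))
          (Nat.land (evl (mkL D.R D.M 0) D.R fuel e).1.n msk)))))) = true := h
  rw [Bool.and_eq_true, Bool.and_eq_true, Bool.and_eq_true, Bool.and_eq_true] at h1
  obtain ⟨h2, h3, h4, h5, h6⟩ := h1
  refine ⟨_, fun h7 => ?_, h6⟩
  have hb : (evl (mkL D.R D.M 0) D.R fuel e).1.b < B := by
    rw [Nat.blt_eq] at h4
    rw [B_eq]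
    exact lt_trans h4 (by norm_num)
  have h8 := evl_sound hC hT fuel e h2 h3 hb
  rw [← bias_zr] at h5 h7 ⊢
  rw [← hmask_hm] at h7
  exact row1' h8 h4 hC.lat.tri h5 (by rw [h7]; rfl)

theorem run1 : run (zr 1870) (hm 1870) (src1 (mkL D36.R D36.M 0) D36 100 (zr 1870) msk)
    (fun t => finB (zr 1870) t 1296 0 out1) prog1 Tr.nil 0 = true := by
  decide +kernel

/-- phase 1 -/
theorem phase1 (E C : Type) [Group E] [CommGroup C] (ι : C →* E) (t g : ℕ → E) (c : ℕ → C)
    (hC : Cen D36 ι t g c) : ∀ k < 1296, k % 36 < k / 36 → c k = 1 := by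
  intro k hk hk2
  obtain ⟨t', h1, h2⟩ := run_sound (src1_good hC (Tab36 hC) 100) _ _ Tr.nil 0 trivial run1
  exact finB_sound t' h1 1296 0 out1 (by norm_num) h2 k (Nat.zero_le _) (by omega) hk2

end VRC.Pk

end

section

set_option autoImplicit false

/-! The change of generators which removes the tails (generated from h3_slp2.json): for every
generator `s < 49` the codes `1024 q + m` of the positive and of the negative part. -/

namespace VRC.Pk

/-- the change of generators -/
def W36L : List (List ℕ × List ℕ) :=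
[([1316, 1511, 1528], [1096, 1284, 1420, 1474, 1510, 1517]), ([1316, 1456, 1511, 1528], [1096,
  1284, 1420, 1474, 1510, 1517]), ([1517], [1316, 1458, 1528]), ([1096, 1510, 1528], [1125, 1459,
  1517]), ([1517], [1316, 1528]), ([1424, 1517], [1316, 1528]), ([1096, 1510, 1528], [1125,
  1517]), ([1096, 1245, 1424, 1511], [1128, 1167, 2444, 1428, 1459, 1474]), ([1424, 1463, 1511],
  [1128, 1420, 1428, 1459, 1474]), ([2120, 1125, 1463, 1464, 1510, 2552], [1167, 1284, 2444, 2452,
  1432, 1456, 3506, 1459, 1474, 3565]), ([], [1420]), ([1420], [1096]), ([1096, 1128], [1284,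
  1316, 1420, 1432, 2482, 1517]), ([1096, 1128], [1284, 1316, 1420, 2482, 1517]), ([1128, 1167,
  3364, 3468, 2452, 1432, 2480, 2482, 2483, 2552], [4168, 1125, 1245, 2308, 2448, 2487, 2534,
  1517]), ([1420, 1517], [1096, 1474]), ([1284, 1474, 2541], [2340, 2552]), ([1167], [1245]),
  ([1316, 2552], [1284, 1474, 2541]), ([2120, 1128, 1284, 2444, 2498, 2534], [1125, 1167, 2448,
  2487, 2535]), ([1316, 2552], [1284, 2541]), ([4200, 13455, 3293, 1284, 1424, 1428, 9624, 4517,
  3501, 15792, 6579, 2487, 2488, 7621, 1479, 5580, 6605, 7631, 3537, 6613, 4582, 1517, 7672, 3612,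
  1569, 5667, 1572, 1592, 1597], [7240, 9317, 4388, 2444, 3489, 3497, 3499, 1458, 1474, 4560,
  2518, 3559, 5655, 1575, 2602, 1590]), ([8296, 26767, 6365, 2308, 2448, 2452, 18840, 8613, 6573,
  31152, 12723, 4535, 4536, 14789, 2503, 10700, 12749, 14799, 6609, 12757, 8678, 2541, 14840,
  6684, 2593, 10787, 2596, 2616, 2621], [14408, 18533, 8484, 4492, 5537, 6569, 6571, 2482, 2498,
  8656, 4566, 6631, 10775, 2599, 4650, 2614]), ([31816, 14437, 13604, 3468, 7568, 7572, 11681,
  9641, 9643, 14770, 12752, 8662, 15847, 19991, 3623, 6698, 3638], [12392, 30863, 11485, 7428,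
  27032, 12709, 9645, 45488, 21939, 7607, 15800, 3522, 24005, 6599, 15820, 18893, 21967, 9681,
  21973, 9702, 14829, 11768, 9756, 1569, 17955, 3620, 3640, 3645]), ([31816, 14437, 13604, 3468,
  7568, 7572, 12705, 9641, 9643, 14770, 12752, 8662, 15847, 19991, 3623, 6698, 3638], [12392,
  30863, 11485, 7428, 27032, 12709, 9645, 45488, 21939, 7607, 15800, 3522, 25029, 6599, 15820,
  18893, 21967, 9681, 21973, 9702, 14829, 11768, 9756, 1569, 17955, 3620, 3640, 3645]), ([24648,
  5221, 9508, 1420, 8592, 8596, 8609, 6569, 6571, 13746, 8656, 6614, 12775, 14871, 2599, 4650,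
  2614], [8296, 17551, 8413, 6404, 17816, 9637, 6573, 30128, 15795, 5559, 13752, 4546, 16837,
  4551, 10700, 12749, 14799, 6609, 15829, 5606, 13805, 4600, 6684, 12835, 2596, 2616, 2621]),
  ([24648, 5221, 9508, 1420, 8592, 8596, 8609, 6569, 6571, 13746, 8656, 6614, 12775, 14871, 2599,
  4650, 2614], [8296, 17551, 8413, 6404, 17816, 8613, 6573, 30128, 15795, 5559, 13752, 4546,
  16837, 4551, 10700, 12749, 14799, 6609, 15829, 5606, 13805, 4600, 6684, 12835, 2596, 2616,
  2621]), ([9320, 21647, 7389, 18840, 8613, 6573, 33200, 16819, 4535, 11704, 16837, 4551, 10700,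
  12749, 14799, 6609, 14805, 2534, 4589, 14840, 6684, 2593, 12835, 2596, 2616, 2621], [23624,
  12389, 1284, 4388, 4492, 5520, 3476, 8609, 6569, 6571, 7602, 3522, 8656, 5590, 7655, 12823,
  2599, 4650, 2614]), ([4168, 2308, 1449, 1474, 1484, 1487, 3558], [1125, 1167, 2340, 2452, 1432,
  1456, 2482, 2483, 1485, 1511, 1528]), ([4168, 2308, 1474, 1484, 1487, 3558], [1167, 2340, 1420,
  2452, 1432, 1456, 2482, 2483, 1485, 1511, 1528]), ([5192, 1128, 1284, 1474, 1484, 1487, 3558],
  [1167, 3364, 2444, 2452, 1432, 1456, 4530, 2483, 1511, 1517, 1528]), ([5192, 1245, 2308, 1449,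
  1474, 1484, 3558], [1125, 2191, 2340, 1420, 2452, 1432, 1456, 2482, 2483, 1485, 1511, 1528]),
  ([5192, 1245, 2308, 1449, 1451, 1474, 1484, 3558], [1125, 2191, 2340, 1420, 2452, 1432, 1456,
  2482, 2483, 1485, 1511, 1528]), ([5192, 1245, 2308, 1449, 1451, 1474, 1484, 1488, 3558], [1125,
  2191, 2340, 1420, 2452, 1432, 1456, 2482, 2483, 1485, 1511, 1528]), ([2149, 1167, 2448, 4535,
  2488, 1485, 3559, 1528], [1096, 2152, 1245, 1284, 4492, 2452, 1449, 1451, 1456, 2482, 2483,
  3522, 1484, 1488, 1489, 1510, 2541]), ([5192, 1245, 2308, 1449, 1451, 1453, 1474, 1484, 1488,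
  3558], [2149, 2191, 2340, 2452, 1432, 1456, 2482, 2483, 1485, 1511, 1528]), ([5224, 11407, 3293,
  2308, 9624, 4517, 3501, 16816, 9651, 1463, 4536, 2498, 8645, 2503, 5580, 6605, 7631, 3537, 7637,
  1510, 5613, 4600, 3612, 6691, 1572, 1592, 1597], [13384, 5221, 3364, 4496, 4513, 3497, 3499,
  3506, 4560, 3542, 5607, 6679, 1575, 2602, 1590]), ([4200, 9359, 4317, 3332, 1420, 9624, 4517,
  3501, 15792, 8627, 2487, 6584, 2498, 8645, 2503, 5580, 6605, 7631, 3537, 7637, 2534, 7661, 2552,
  3612, 6691, 1572, 1592, 1597], [13384, 3173, 4388, 4496, 3476, 4513, 3497, 3499, 5554, 4560,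
  3542, 6631, 7703, 1575, 2602, 1590]), ([10312, 7269, 1284, 1316, 2444, 3472, 1428, 4513, 3497,
  3499, 3506, 1474, 4560, 2518, 4583, 6679, 1575, 2602, 1590], [5224, 10383, 4317, 9624, 4517,
  3501, 16816, 8627, 1463, 5560, 8645, 2503, 5580, 6605, 7631, 3537, 7637, 2534, 9720, 3612, 1569,
  6691, 1572, 1592, 1597]), ([3293, 3332, 4388, 2448, 2456, 7602, 3511, 4583, 2541, 1528, 1572,
  1575], [6248, 2191, 8588, 1428, 2483, 1464, 3522, 2534, 1561, 1573]), ([5192, 1125, 4317, 5380,
  1316, 3472, 1432, 3506, 4535, 2534, 3559, 2541, 1572, 1575], [6248, 4239, 9612, 4500, 2480,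
  4531, 2498, 1528, 1573]), ([3144, 2149, 4317, 4356, 3364, 4496, 1432, 4530, 5559, 1464, 1510,
  4583, 1517, 1528, 1572, 1575], [7272, 4239, 9612, 5524, 2480, 4531, 4546]), ([1167, 1245, 2308,
  4388, 1424, 2452, 2456, 1456, 8626, 1463, 2535, 3565, 1528, 1572], [4168, 1125, 4200, 1420,
  2488, 2498, 3558, 1561, 1573]), ([2269, 6436, 3472, 2456, 5554, 3511, 4583, 5624, 1564, 1572],
  [5224, 7564, 2483, 2488, 5570, 3558, 3565, 1561, 1573]), ([10312, 4197, 2152, 3511, 6584, 1474,
  1485, 8678, 1528, 1561, 1573, 1578], [4239, 1245, 1284, 6436, 2444, 1424, 8596, 3480, 1449,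
  1451, 6576, 12722, 3507, 1484, 3559, 6637, 1564, 1572]), ([1096, 1128, 1245, 4356, 8588, 1428,
  1432, 3506, 2483, 5570, 1489, 3558, 5613, 1579], [2149, 3215, 4496, 1453, 4535, 5607, 3576]),
  ([25672, 14437, 3364, 15756, 2448, 11668, 12705, 10665, 9643, 6594, 11728, 8662, 10727, 18967,
  1573, 1575, 5674, 3638], [24719, 16605, 12548, 27032, 11685, 8621, 41392, 16819, 13751, 15800,
  24005, 10695, 16844, 17869, 22991, 9681, 21973, 14822, 6637, 28152, 8732, 3617, 20003, 4644,
  2616, 3645]), ([15461, 6436, 10636, 7572, 10657, 4521, 5547, 16834, 9680, 3542, 6631, 3565,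
  7703, 1561, 2597, 1575, 3626, 1590, 1596], [4168, 1128, 18575, 11485, 7428, 15760, 10648, 3493,
  6573, 21936, 3506, 4531, 13751, 4536, 13765, 8647, 9676, 8653, 13775, 3537, 10709, 16870, 20984,
  5660, 4641, 11811, 3620, 1592, 2621]), ([50248, 29797, 18724, 7568, 17825, 15785, 14763, 18866,
  2498, 19920, 11734, 19943, 28183, 5671, 9770, 1579, 4662], [26728, 55439, 9437, 1284, 37272,
  17829, 13741, 71088, 34227, 8631, 18872, 37317, 9671, 24012, 28109, 33231, 13777, 32213, 14822,
  4589, 36344, 1561, 13852, 3617, 27171, 3620, 1573, 4664, 5693])]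

/-- the columns `m` where the final rows are zero -/
def J36 : List ℕ :=
[72, 101, 104, 143, 221, 260, 292, 396, 400, 404, 408, 417, 421, 425, 427, 429, 432, 434, 435,
  439, 440, 450, 453, 455, 460, 461, 463, 464, 465, 469, 470, 486, 487, 493, 504, 535, 537, 540,
  545, 547, 548, 549, 551, 554, 555, 566, 568, 572, 573]

theorem D36_rg : D36.rg = true := by decide +kernel

theorem W36L_rg : wrg 574 W36L = true := by decide +kernel

end VRC.Pk

end
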